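import Mathlib

set_option autoImplicit false

namespace Pool.Agent.FAN

open MeasureTheory Topology Filter

variable {k : ℕ}

/-- splitting of the sum at the indices `σ j` -/
lemma abs_split {W : Type} [NormedAddCommGroup W] [NormedSpace ℝ W] [FiniteDimensional ℝ W] {n : ℕ}
    (F : ℕ → W) {b : ℕ → ℝ} (hb : Summable b) (hF : ∀ s, ‖F s‖ ≤ b s) (σ : Fin n → ℕ)
    (hσ : Function.Injective σ) (u : Fin n → Set.Icc (0 : ℝ) 1) (t0 : ℕ → Set.Icc (0 : ℝ) 1) :
    ∑' s, ((Function.extend σ u t0 s : Set.Icc (0 : ℝ) 1) : ℝ) • F s =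
      ∑ j, (u j : ℝ) • F (σ j) + ∑' s, (open Classical in if s ∈ Set.range σ then (0 : ℝ) else t0 s) • F s := by
  classical
  have : CompleteSpace W := FiniteDimensional.complete ℝ W
  have h1 : ∀ s, ((Function.extend σ u t0 s : Set.Icc (0 : ℝ) 1) : ℝ) • F s =
      (∑ j, if s = σ j then (u j : ℝ) • F (σ j) else 0) +
        (if s ∈ Set.range σ then (0 : ℝ) else t0 s) • F s := by
    intro s
    by_cases hs : s ∈ Set.range σ
    · obtain ⟨j, rfl⟩ := hs
      rw [if_pos ⟨j, rfl⟩, zero_smul, add_zero, hσ.extend_apply]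
      rw [Finset.sum_eq_single j]
      · simp
      · intro i _ hi
        rw [if_neg]
        intro h
        exact hi (hσ h.symm)
      · intro h; exact absurd (Finset.mem_univ _) h
    · rw [if_neg hs, Function.extend_apply' _ _ _ (by simpa using hs)]
      rw [Finset.sum_eq_zero, zero_add]
      intro i _
      rw [if_neg]
      intro h
      exact hs ⟨i, h.symm⟩
  have hs1 : ∀ j, Summable (fun s => if s = σ j then (u j : ℝ) • F (σ j) else 0) := by
    intro j
    apply summable_of_hasFiniteSupport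
    apply Set.Finite.subset (Set.finite_singleton (σ j))
    intro s hs
    by_contra h
    apply hs
    simp only [Set.mem_singleton_iff] at h
    simp [h]
  have hs2 : Summable (fun s => (if s ∈ Set.range σ then (0 : ℝ) else t0 s) • F s) := by
    refine Summable.of_norm_bounded hb fun s => ?_
    rw [norm_smul]
    have h2 : ‖(if s ∈ Set.range σ then (0 : ℝ) else t0 s)‖ ≤ 1 := by
      split_ifs
      · simp
      · rw [Real.norm_of_nonneg (t0 s).2.1]; exact (t0 s).2.2
    calc _ ≤ 1 * b s := mul_le_mul h2 (hF s) (norm_nonneg _) zero_le_one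
      _ = _ := one_mul _
  simp_rw [h1]
  rw [Summable.tsum_add (summable_sum fun j _ => hs1 j) hs2, Summable.tsum_finsetSum fun j _ => hs1 j]
  congr 1
  refine Finset.sum_congr rfl fun j _ => ?_
  exact tsum_ite_eq (σ j) (fun _ => (u j : ℝ) • F (σ j))

theorem abs_dense {P W : Type} [NormedAddCommGroup P] [NormedSpace ℝ P] [FiniteDimensional ℝ P]
    [NormedAddCommGroup W] [NormedSpace ℝ W] [FiniteDimensional ℝ W] (f : ℕ → P → W) (B : Set P)
    (b : ℕ → ℝ) (hb : Summable b) (hbd : ∀ s, ∀ y ∈ B, ‖f s y‖ ≤ b s)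
    (hlip : ∀ s, ∀ y ∈ B, ∀ y' ∈ B, ‖f s y - f s y'‖ ≤ b s * ‖y - y'‖)
    {n : ℕ} (hn : Module.finrank ℝ P < n)
    (σ : Fin n → ℕ) (hσ : Function.Injective σ) {c : ℝ} (hc : 0 < c)
    (hlow : ∀ y ∈ B, ∀ a : Fin n → ℝ, c * ‖a‖ ≤ ‖∑ j, a j • f (σ j) y‖) :
    Dense {t : ℕ → Set.Icc (0 : ℝ) 1 | ∀ y ∈ B, ∑' s, ((t s : ℝ)) • f s y ≠ 0} := by
  classical
  have : CompleteSpace W := FiniteDimensional.complete ℝ W
  rcases B.eq_empty_or_nonempty with hBe | ⟨y₀, hy₀⟩
  · subst hBe
    have : {t : ℕ → Set.Icc (0 : ℝ) 1 | ∀ y ∈ (∅ : Set P), ∑' s, ((t s : ℝ)) • f s y ≠ 0} = Set.univ := by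
      ext t; simp
    rw [this]
    exact dense_univ
  have hb0 : ∀ s, 0 ≤ b s := fun s => (norm_nonneg _).trans (hbd s y₀ hy₀)
  rw [dense_iff_inter_open]
  rintro V hV ⟨t0, ht0⟩
  by_contra hcon
  rw [Set.not_nonempty_iff_eq_empty] at hcon
  have hbad : ∀ t ∈ V, ∃ y ∈ B, ∑' s, ((t s : ℝ)) • f s y = 0 := by
    intro t ht
    by_contra h
    push Not at h
    have : t ∈ V ∩ {t : ℕ → Set.Icc (0 : ℝ) 1 | ∀ y ∈ B, ∑' s, ((t s : ℝ)) • f s y ≠ 0} := ⟨ht, h⟩
    rw [hcon] at this
    exact this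
  -- the perturbation in the coordinates `σ j`
  have hτ : Continuous (fun u : Fin n → Set.Icc (0 : ℝ) 1 => Function.extend σ u t0) := by
    refine continuous_pi fun s => ?_
    by_cases hs : ∃ j, σ j = s
    · obtain ⟨j, rfl⟩ := hs
      simp_rw [hσ.extend_apply]
      exact continuous_apply j
    · simp_rw [Function.extend_apply' _ _ _ hs]
      exact continuous_const
  have hu0 : Function.extend σ (t0 ∘ σ) t0 = t0 := by
    funext s
    by_cases hs : ∃ j, σ j = s
    · obtain ⟨j, rfl⟩ := hs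
      rw [hσ.extend_apply]; rfl
    · rw [Function.extend_apply' _ _ _ hs]
  obtain ⟨ε, hε, hball⟩ := Metric.isOpen_iff.1 (hV.preimage hτ) (t0 ∘ σ) (by
    change Function.extend σ (t0 ∘ σ) t0 ∈ V
    rw [hu0]; exact ht0)
  set θ : ℝ := min (ε / 2) (1 / 2) with hθ
  have hθ0 : 0 < θ := by positivity
  have hθ1 : θ ≤ 1 / 2 := min_le_right _ _
  have hθε : θ ≤ ε / 2 := min_le_left _ _
  set w : Fin n → ℝ := fun j => (1 - θ) * (t0 (σ j) : ℝ) + θ / 2 with hw
  have hw1 : ∀ j, θ / 2 ≤ w j ∧ w j ≤ 1 - θ / 2 := by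
    intro j
    have h1 := (t0 (σ j)).2.1
    have h2 := (t0 (σ j)).2.2
    rw [hw]
    constructor
    · simp only
      nlinarith
    · simp only
      nlinarith
  have hU : ∀ u ∈ Metric.ball w (θ / 4), (∀ j, u j ∈ Set.Icc (0 : ℝ) 1) ∧
      ∀ hu : ∀ j, u j ∈ Set.Icc (0 : ℝ) 1,
        Function.extend σ (fun j => (⟨u j, hu j⟩ : Set.Icc (0 : ℝ) 1)) t0 ∈ V := by
    intro u hu
    rw [Metric.mem_ball] at hu
    have h1 : ∀ j, |u j - w j| < θ / 4 := fun j => by
      rw [← Real.dist_eq]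
      exact lt_of_le_of_lt (dist_le_pi_dist u w j) hu
    refine ⟨fun j => ?_, fun hu' => ?_⟩
    · have h2 := abs_lt.1 (h1 j)
      have h3 := hw1 j
      constructor <;> linarith [h2.1, h2.2, h3.1, h3.2]
    · apply hball
      rw [Metric.mem_ball, dist_pi_lt_iff hε]
      intro j
      rw [Subtype.dist_eq, Real.dist_eq]
      have h2 := abs_lt.1 (h1 j)
      have h4 := (t0 (σ j)).2.1
      have h5 := (t0 (σ j)).2.2
      have h6 : w j = (1 - θ) * (t0 (σ j) : ℝ) + θ / 2 := rfl
      simp only [Function.comp_apply]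
      rw [abs_lt]
      constructor <;> nlinarith [h2.1, h2.2]
  -- the affine part
  set g : P → W := fun y => ∑' s, (if s ∈ Set.range σ then (0 : ℝ) else t0 s) • f s y with hg
  have hcoef : ∀ s, ‖(if s ∈ Set.range σ then (0 : ℝ) else t0 s)‖ ≤ 1 := by
    intro s
    split_ifs
    · simp
    · rw [Real.norm_of_nonneg (t0 s).2.1]; exact (t0 s).2.2
  have hgs : ∀ y ∈ B, Summable (fun s => (if s ∈ Set.range σ then (0 : ℝ) else t0 s) • f s y) := by
    intro y hy
    refine Summable.of_norm_bounded hb fun s => ?_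
    rw [norm_smul]
    calc _ ≤ 1 * b s := mul_le_mul (hcoef s) (hbd s y hy) (norm_nonneg _) zero_le_one
      _ = _ := one_mul _
  have hglip : ∀ y ∈ B, ∀ y' ∈ B, ‖g y - g y'‖ ≤ (∑' s, b s) * ‖y - y'‖ := by
    intro y hy y' hy'
    rw [hg]
    simp only
    rw [← Summable.tsum_sub (hgs y hy) (hgs y' hy')]
    have h1 : ∀ s, ‖(if s ∈ Set.range σ then (0 : ℝ) else t0 s) • f s y -
        (if s ∈ Set.range σ then (0 : ℝ) else t0 s) • f s y'‖ ≤ b s * ‖y - y'‖ := by
      intro s
      rw [← smul_sub, norm_smul]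
      calc _ ≤ 1 * (b s * ‖y - y'‖) :=
            mul_le_mul (hcoef s) (hlip s y hy y' hy') (norm_nonneg _) zero_le_one
        _ = _ := one_mul _
    rw [← tsum_mul_right]
    exact tsum_of_norm_bounded (hb.mul_right _).hasSum h1
  -- the solution as a Lipschitz function of `y`
  set E : Set P := {y | y ∈ B ∧ ∃ u ∈ Metric.ball w (θ / 4), ∑ j, u j • f (σ j) y + g y = 0} with hE
  let F : P → (Fin n → ℝ) := fun y =>
    if h : ∃ u ∈ Metric.ball w (θ / 4), ∑ j, u j • f (σ j) y + g y = 0 then h.choose else 0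
  have hFspec : ∀ y ∈ E, F y ∈ Metric.ball w (θ / 4) ∧ ∑ j, F y j • f (σ j) y + g y = 0 := by
    intro y hy
    have h := hy.2
    have hFy : F y = h.choose := dif_pos h
    rw [hFy]
    exact h.choose_spec
  have huniq : ∀ y ∈ B, ∀ u u' : Fin n → ℝ, ∑ j, u j • f (σ j) y + g y = 0 →
      ∑ j, u' j • f (σ j) y + g y = 0 → u = u' := by
    intro y hy u u' h h'
    have h1 := hlow y hy (u - u')
    have h2 : ∑ j, (u - u') j • f (σ j) y = 0 := by
      simp only [Pi.sub_apply, sub_smul, Finset.sum_sub_distrib]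
      rw [eq_neg_of_add_eq_zero_left h, eq_neg_of_add_eq_zero_left h', sub_self]
    rw [h2, norm_zero] at h1
    have h3 : ‖u - u'‖ ≤ 0 := by
      by_contra h4
      push Not at h4
      have := mul_pos hc h4
      linarith
    exact sub_eq_zero.1 (norm_le_zero_iff.1 h3)
  set L : ℝ := ((∑' s, b s) + ∑ j, b (σ j)) / c with hL
  have hL0 : 0 ≤ L := div_nonneg (add_nonneg (tsum_nonneg hb0) (Finset.sum_nonneg fun _ _ => hb0 _)) hc.le
  have hFlip : LipschitzOnWith L.toNNReal F E := by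
    apply LipschitzOnWith.of_dist_le_mul
    intro y hy y' hy'
    rw [Real.coe_toNNReal L hL0, dist_eq_norm, dist_eq_norm]
    obtain ⟨h1, h2⟩ := hFspec y hy
    obtain ⟨h3, h4⟩ := hFspec y' hy'
    have h5 := hlow y hy.1 (F y - F y')
    have h6 : ∑ j, (F y - F y') j • f (σ j) y =
        (g y' - g y) + ∑ j, F y' j • (f (σ j) y' - f (σ j) y) := by
      simp only [Pi.sub_apply, sub_smul, smul_sub, Finset.sum_sub_distrib]
      rw [eq_neg_of_add_eq_zero_left h2, eq_neg_of_add_eq_zero_left h4]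
      abel
    have h7 : ‖∑ j, (F y - F y') j • f (σ j) y‖ ≤
        ((∑' s, b s) + ∑ j, b (σ j)) * ‖y - y'‖ := by
      rw [h6]
      refine (norm_add_le _ _).trans ?_
      rw [add_mul]
      apply add_le_add
      · rw [norm_sub_rev]; exact hglip y hy.1 y' hy'.1
      · refine (norm_sum_le _ _).trans ?_
        rw [Finset.sum_mul]
        refine Finset.sum_le_sum fun j _ => ?_
        rw [norm_smul]
        have h8 := ((hU _ h3).1 j)
        have h9 : ‖F y' j‖ ≤ 1 := by
          rw [Real.norm_of_nonneg h8.1]; exact h8.2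
        have h10 := hlip (σ j) y' hy'.1 y hy.1
        rw [norm_sub_rev y' y] at h10
        calc _ ≤ 1 * (b (σ j) * ‖y - y'‖) := mul_le_mul h9 h10 (norm_nonneg _) zero_le_one
          _ = _ := one_mul _
    rw [hL, div_mul_eq_mul_div, le_div_iff₀ hc, mul_comm]
    exact h5.trans h7
  have hsub : Metric.ball w (θ / 4) ⊆ F '' E := by
    intro u hu
    obtain ⟨h1, h2⟩ := hU u hu
    obtain ⟨y, hy, hy0⟩ := hbad _ (h2 h1)
    rw [abs_split (fun s => f s y) hb (fun s => hbd s y hy) σ hσ] at hy0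
    have hyE : y ∈ E := ⟨hy, u, hu, hy0⟩
    exact ⟨y, hyE, huniq y hy _ _ (hFspec y hyE).2 hy0⟩
  have hdim : dimH (F '' E) < Module.finrank ℝ (Fin n → ℝ) := by
    refine lt_of_le_of_lt (hFlip.dimH_image_le.trans (dimH_mono (Set.subset_univ _))) ?_
    rw [Real.dimH_univ_eq_finrank, Module.finrank_fin_fun]
    exact_mod_cast hn
  have hdense := dense_compl_of_dimH_lt_finrank hdim
  obtain ⟨u, hu, hu'⟩ := hdense.inter_open_nonempty _ (Metric.isOpen_ball (x := w) (ε := θ / 4))
    ⟨w, Metric.mem_ball_self (by positivity)⟩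
  exact hu' (hsub hu)

theorem abs_transv {P W : Type} [NormedAddCommGroup P] [NormedSpace ℝ P] [FiniteDimensional ℝ P]
    [NormedAddCommGroup W] [NormedSpace ℝ W] [FiniteDimensional ℝ W] (f : ℕ → P → W) (Ω : Set P)
    (hloc : ∀ y ∈ Ω, ∃ r > 0, ∃ b : ℕ → ℝ, Summable b ∧ ∀ s,
      (∀ y' ∈ Metric.closedBall y r, ‖f s y'‖ ≤ b s) ∧
      (∀ y' ∈ Metric.closedBall y r, ∀ y'' ∈ Metric.closedBall y r, ‖f s y' - f s y''‖ ≤ b s * ‖y' - y''‖))
    (hrank : ∀ y ∈ Ω, Module.finrank ℝ P < Module.finrank ℝ (Submodule.span ℝ (Set.range fun s => f s y))) :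
    {t : ℕ → Set.Icc (0 : ℝ) 1 | ∀ y ∈ Ω, ∑' s, ((t s : ℝ)) • f s y ≠ 0} ∈
      residual (ℕ → Set.Icc (0 : ℝ) 1) := by
  classical
  have : CompleteSpace W := FiniteDimensional.complete ℝ W
  have hPP : ProperSpace P := FiniteDimensional.proper ℝ P
  have hsc : SecondCountableTopology P := by infer_instance
  -- the local statement
  have hkey : ∀ y₀ ∈ Ω, ∃ ρ > 0,
      {t : ℕ → Set.Icc (0 : ℝ) 1 | ∀ y ∈ Metric.closedBall y₀ ρ, ∑' s, ((t s : ℝ)) • f s y ≠ 0} ∈
        residual (ℕ → Set.Icc (0 : ℝ) 1) := by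
    intro y₀ hy₀
    obtain ⟨r, hr, b, hb, hbd⟩ := hloc y₀ hy₀
    have hb0 : ∀ s, 0 ≤ b s := fun s =>
      (norm_nonneg _).trans ((hbd s).1 y₀ (Metric.mem_closedBall_self hr.le))
    -- independent vectors
    obtain ⟨κ, a, ha, hspan, hli⟩ := exists_linearIndependent' ℝ (fun s => f s y₀)
    have hfin : Finite κ := hli.finite
    have : Fintype κ := Fintype.ofFinite κ
    have hcard : Module.finrank ℝ P < Fintype.card κ := by
      have h1 := hrank y₀ hy₀
      rw [← hspan] at h1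
      have h2 := finrank_span_eq_card hli
      rw [h2] at h1
      exact h1
    obtain ⟨e⟩ : Nonempty (Fin (Module.finrank ℝ P + 1) ↪ κ) := by
      rw [Function.Embedding.nonempty_iff_card_le, Fintype.card_fin]
      exact hcard
    set σ : Fin (Module.finrank ℝ P + 1) → ℕ := fun j => a (e j) with hσdef
    have hσ : Function.Injective σ := fun i j h => e.injective (ha h)
    have hli2 : LinearIndependent ℝ (fun j => f (σ j) y₀) := hli.comp e e.injective
    -- lower bound at the centre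
    set T : (Fin (Module.finrank ℝ P + 1) → ℝ) →ₗ[ℝ] W :=
      Fintype.linearCombination ℝ (fun j => f (σ j) y₀) with hT
    have hTker : LinearMap.ker T = ⊥ := by
      rw [Fintype.linearIndependent_iff] at hli2
      rw [LinearMap.ker_eq_bot']
      intro m hm
      funext i
      exact hli2 m (by simpa [hT, Fintype.linearCombination_apply] using hm) i
    obtain ⟨K, hK0, hK⟩ := T.exists_antilipschitzWith hTker
    have hKlow : ∀ m : Fin (Module.finrank ℝ P + 1) → ℝ, ‖m‖ ≤ K * ‖∑ j, m j • f (σ j) y₀‖ := by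
      intro m
      have h1 := hK.le_mul_dist m 0
      rw [map_zero, dist_zero_right, dist_zero_right] at h1
      simpa [hT, Fintype.linearCombination_apply] using h1
    have hKpos : (0 : ℝ) < K := by exact_mod_cast hK0
    set Sb : ℝ := ∑ j, b (σ j) with hSb
    have hSb0 : 0 ≤ Sb := Finset.sum_nonneg fun _ _ => hb0 _
    set ρ : ℝ := min r (1 / (2 * K * (Sb + 1))) with hρ
    have hρ0 : 0 < ρ := by positivity
    have hρr : Metric.closedBall y₀ ρ ⊆ Metric.closedBall y₀ r :=
      Metric.closedBall_subset_closedBall (min_le_left _ _)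
    have hρ2 : ρ ≤ 1 / (2 * K * (Sb + 1)) := min_le_right _ _
    have hlow : ∀ y ∈ Metric.closedBall y₀ ρ, ∀ m : Fin (Module.finrank ℝ P + 1) → ℝ,
        1 / (2 * K) * ‖m‖ ≤ ‖∑ j, m j • f (σ j) y‖ := by
      intro y hy m
      have h1 := hKlow m
      have h2 : ‖∑ j, m j • f (σ j) y₀ - ∑ j, m j • f (σ j) y‖ ≤ 1 / (2 * K) * ‖m‖ := by
        rw [← Finset.sum_sub_distrib]
        refine (norm_sum_le _ _).trans ?_
        have h3 : ∀ j, ‖m j • f (σ j) y₀ - m j • f (σ j) y‖ ≤ ‖m‖ * (b (σ j) * ρ) := by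
          intro j
          rw [← smul_sub, norm_smul]
          apply mul_le_mul (norm_le_pi_norm m j) _ (norm_nonneg _) (norm_nonneg _)
          refine ((hbd (σ j)).2 y₀ (Metric.mem_closedBall_self hr.le) y (hρr hy)).trans ?_
          apply mul_le_mul_of_nonneg_left _ (hb0 _)
          rw [← dist_eq_norm, dist_comm]
          exact Metric.mem_closedBall.1 hy
        refine (Finset.sum_le_sum fun j _ => h3 j).trans ?_
        rw [← Finset.mul_sum, ← Finset.sum_mul, mul_comm]
        apply mul_le_mul_of_nonneg_right _ (norm_nonneg _)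
        calc Sb * ρ ≤ (Sb + 1) * (1 / (2 * K * (Sb + 1))) :=
              mul_le_mul (by linarith) hρ2 hρ0.le (by linarith)
          _ = 1 / (2 * K) := by field_simp
      have h4 : ‖∑ j, m j • f (σ j) y₀‖ ≤ ‖∑ j, m j • f (σ j) y‖ + 1 / (2 * K) * ‖m‖ := by
        have := norm_sub_norm_le (∑ j, m j • f (σ j) y₀) (∑ j, m j • f (σ j) y)
        linarith
      have h5 : ‖m‖ / K ≤ ‖∑ j, m j • f (σ j) y₀‖ := by
        rw [div_le_iff₀ hKpos, mul_comm]; exact h1
      have h6 : ‖m‖ / K = 1 / (2 * K) * ‖m‖ + 1 / (2 * K) * ‖m‖ := by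
        field_simp; ring
      linarith
    refine ⟨ρ, hρ0, residual_of_dense_open ?_ ?_⟩
    · -- open
      rw [← isClosed_compl_iff]
      have hcomp : CompactSpace (Metric.closedBall y₀ ρ) :=
        isCompact_iff_compactSpace.1 (isCompact_closedBall _ _)
      set Φ : (ℕ → Set.Icc (0 : ℝ) 1) × Metric.closedBall y₀ ρ → W :=
        fun p => ∑' s, ((p.1 s : ℝ)) • f s p.2 with hΦ
      have hcont : Continuous Φ := by
        apply continuous_tsum (u := b) _ hb _
        · intro s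
          apply Continuous.smul
          · fun_prop
          · have hl : LipschitzOnWith (b s).toNNReal (f s) (Metric.closedBall y₀ ρ) := by
              apply LipschitzOnWith.of_dist_le_mul
              intro y hy y' hy'
              rw [Real.coe_toNNReal _ (hb0 s), dist_eq_norm, dist_eq_norm]
              exact (hbd s).2 y (hρr hy) y' (hρr hy')
            exact (hl.continuousOn.domRestrict).comp continuous_snd
        · rintro s ⟨t, y⟩
          rw [norm_smul]
          have h2 : ‖(t s : ℝ)‖ ≤ 1 := by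
            rw [Real.norm_of_nonneg (t s).2.1]; exact (t s).2.2
          calc _ ≤ 1 * b s :=
                mul_le_mul h2 ((hbd s).1 y (hρr y.2)) (norm_nonneg _) zero_le_one
            _ = _ := one_mul _
      have hcl : IsClosed (Φ ⁻¹' {0}) := isClosed_singleton.preimage hcont
      have h1 := isClosedMap_fst_of_compactSpace (X := ℕ → Set.Icc (0 : ℝ) 1)
        (Y := Metric.closedBall y₀ ρ) _ hcl
      convert h1 using 1
      ext t
      simp only [Set.mem_compl_iff, Set.mem_ofPred_eq, not_forall, not_not, Set.mem_image,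
        Set.mem_preimage, Set.mem_singleton_iff, Prod.exists, exists_and_right, exists_eq_right,
        Subtype.exists, exists_prop]
      exact ⟨fun ⟨y, hy, h⟩ => ⟨y, hy, h⟩, fun ⟨y, hy, h⟩ => ⟨y, hy, h⟩⟩
    · exact abs_dense f _ b hb (fun s y hy => (hbd s).1 y (hρr hy))
        (fun s y hy y' hy' => (hbd s).2 y (hρr hy) y' (hρr hy')) (Nat.lt_succ_self _) σ hσ
        (by positivity) hlow
  choose! ρ hρ hres using hkey
  obtain ⟨I, hI, hIc, hcov⟩ := TopologicalSpace.countable_cover_nhdsWithin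
    (f := fun y => Metric.closedBall y (ρ y)) (s := Ω)
    (fun y hy => mem_nhdsWithin_of_mem_nhds (Metric.closedBall_mem_nhds y (hρ y hy)))
  have h1 : ∀ y ∈ I, {t : ℕ → Set.Icc (0 : ℝ) 1 | ∀ y' ∈ Metric.closedBall y (ρ y),
      ∑' s, ((t s : ℝ)) • f s y' ≠ 0} ∈ residual (ℕ → Set.Icc (0 : ℝ) 1) := fun y hy => hres y (hI hy)
  have h2 := (countable_bInter_mem hIc).2 h1
  filter_upwards [h2] with t ht y hy
  obtain ⟨y₁, hy₁, hy2⟩ := Set.mem_iUnion₂.1 (hcov hy)
  exact Set.mem_iInter₂.1 ht y₁ hy₁ y hy2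

end Pool.Agent.FAN
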