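import Pool.Agent.FAN.KDefs

set_option autoImplicit false

namespace Pool.Agent.FAN

open MeasureTheory Topology Filter

variable {k : ℕ}

/-- an affine function of `t` bounded below is constant -/
theorem ax1_const {u a b : ℝ} (h : ∀ t : ℝ, u ≤ a + t * b) : b = 0 := by
  by_contra hb
  have h1 := h (-(a - u + 1) / b)
  rw [div_mul_cancel₀ _ hb] at h1
  linarith

/-- a functional on the labels is a dot product -/
theorem ax1_dot (f : (Lb k → ℝ) →L[ℝ] ℝ) (w : Lb k → ℝ) :
    f w = ∑ s, w s * f (Pi.single s 1) := by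
  have h : w = ∑ s, w s • (Pi.single s (1 : ℝ) : Lb k → ℝ) := by
    ext t
    rw [Finset.sum_apply, Finset.sum_eq_single t]
    · simp
    · intro b _ hb
      simp [Pi.single_eq_of_ne (Ne.symm hb)]
    · intro hh
      exact absurd (Finset.mem_univ _) hh
  conv_lhs => rw [h]
  rw [map_sum]
  refine Finset.sum_congr rfl fun s _ => ?_
  rw [map_smul, smul_eq_mul]

theorem axis_feasible {x : Fan k} {i j : Lb k} (hij : i ≠ j)
    (hno : ∀ ρ ∈ Zs x, (∑ s ∈ Finset.univ.filter (fun s => s ≠ i ∧ s ≠ j), |ρ s| ≤ |ρ i| + |ρ j|) → ρ = 0) :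
    ∃ y : Fin k → ℝ, (∀ s, s ≠ i → et (x s).2 y < et (x i).2 y) ∧
      (∀ s, s ≠ j → et (x j).2 y < et (x s).2 y) := by
  classical
  by_contra hcon
  set Q : Set (Lb k → ℝ) := {w | (∀ s, s ≠ i → w s < w i) ∧ (∀ s, s ≠ j → w j < w s)} with hQ
  set A : Set (Lb k → ℝ) := {w | ∃ (y : Fin k → ℝ) (t : ℝ), ∀ s, w s = et (x s).2 y + t} with hA
  have hQo : IsOpen Q := by
    have h1 : Q = (⋂ s, ⋂ (_ : s ≠ i), {w : Lb k → ℝ | w s < w i}) ∩
        (⋂ s, ⋂ (_ : s ≠ j), {w : Lb k → ℝ | w j < w s}) := by
      ext w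
      simp [hQ]
    rw [h1]
    exact (isOpen_iInter_of_finite fun s => isOpen_iInter_of_finite fun _ =>
      isOpen_lt (continuous_apply s) (continuous_apply i)).inter
      (isOpen_iInter_of_finite fun s => isOpen_iInter_of_finite fun _ =>
        isOpen_lt (continuous_apply j) (continuous_apply s))
  have hmix : ∀ {a b p q p' q' : ℝ}, 0 ≤ a → 0 ≤ b → a + b = 1 → p < q → p' < q' →
      a * p + b * p' < a * q + b * q' := by
    intro a b p q p' q' ha hb hab h1 h2
    rcases eq_or_lt_of_le ha with h0 | h0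
    · have hb1 : b = 1 := by linarith
      rw [← h0, hb1]
      linarith
    · have h3 := mul_lt_mul_of_pos_left h1 h0
      have h4 := mul_le_mul_of_nonneg_left h2.le hb
      linarith
  have hQc : Convex ℝ Q := by
    intro w hw w' hw' a b ha hb hab
    refine ⟨fun s hs => ?_, fun s hs => ?_⟩
    · exact hmix ha hb hab (hw.1 s hs) (hw'.1 s hs)
    · exact hmix ha hb hab (hw.2 s hs) (hw'.2 s hs)
  have hAc : Convex ℝ A := by
    rintro w ⟨y, t, hw⟩ w' ⟨y', t', hw'⟩ a b ha hb hab
    refine ⟨a • y + b • y', a * t + b * t', fun s => ?_⟩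
    have h1 : et (x s).2 (a • y + b • y') = a * et (x s).2 y + b * et (x s).2 y' := by
      simp only [et, Pi.add_apply, Pi.smul_apply, smul_eq_mul, mul_add, Finset.sum_add_distrib,
        Finset.mul_sum]
      have h2 : ∀ l, (x s).2.1 l * (a * y l) = a * ((x s).2.1 l * y l) := fun l => by ring
      have h3 : ∀ l, (x s).2.1 l * (b * y' l) = b * ((x s).2.1 l * y' l) := fun l => by ring
      simp only [h2, h3]
      have h4 : (x s).2.2 = a * (x s).2.2 + b * (x s).2.2 := by rw [← add_mul, hab, one_mul]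
      linarith
    rw [h1]
    change a * w s + b * w' s = _
    rw [hw s, hw' s]
    ring
  have hdisj : Disjoint Q A := by
    rw [Set.disjoint_left]
    rintro w ⟨h1, h2⟩ ⟨y, t, hw⟩
    apply hcon
    refine ⟨y, fun s hs => ?_, fun s hs => ?_⟩
    · have := h1 s hs
      rw [hw s, hw i] at this
      linarith
    · have := h2 s hs
      rw [hw s, hw j] at this
      linarith
  obtain ⟨f, u, hf1, hf2⟩ := geometric_hahn_banach_open hQc hQo hAc hdisj
  set ρ : Lb k → ℝ := fun s => f (Pi.single s 1) with hρ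
  have hdot : ∀ w, f w = ∑ s, w s * ρ s := fun w => ax1_dot f w
  -- `ρ` is a relation
  have hbase : ∀ y t, u ≤ f (fun s => et (x s).2 y + t) := fun y t => hf2 _ ⟨y, t, fun s => rfl⟩
  have hsum : ∑ s, ρ s = 0 := by
    apply ax1_const (u := u) (a := f (fun s => et (x s).2 0))
    intro t
    have h1 := hbase 0 t
    have h2 : f (fun s => et (x s).2 0 + t) = f (fun s => et (x s).2 0) + t * ∑ s, ρ s := by
      rw [hdot, hdot, Finset.mul_sum, ← Finset.sum_add_distrib]
      refine Finset.sum_congr rfl fun s _ => ?_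
      ring
    rw [h2] at h1
    exact h1
  have hlam : ∑ s, ρ s • (x s).2.1 = 0 := by
    ext l
    rw [Finset.sum_apply]
    simp only [Pi.smul_apply, smul_eq_mul, Pi.zero_apply]
    apply ax1_const (u := u) (a := f (fun s => et (x s).2 0 + 0))
    intro t
    have h1 := hbase (Pi.single l t) 0
    have h2 : f (fun s => et (x s).2 (Pi.single l t) + 0) =
        f (fun s => et (x s).2 0 + 0) + t * ∑ s, ρ s * (x s).2.1 l := by
      rw [hdot, hdot, Finset.mul_sum, ← Finset.sum_add_distrib]
      refine Finset.sum_congr rfl fun s _ => ?_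
      have h3 : et (x s).2 (Pi.single l t) = (x s).2.1 l * t + (x s).2.2 := by
        unfold et
        rw [Finset.sum_eq_single l]
        · simp
        · intro b _ hb
          rw [Pi.single_eq_of_ne hb, mul_zero]
        · intro hh
          exact absurd (Finset.mem_univ _) hh
      have h4 : et (x s).2 (0 : Fin k → ℝ) = (x s).2.2 := by simp [et]
      rw [h3, h4]
      ring
    rw [h2] at h1
    exact h1
  have hρZ : ρ ∈ Zs x := ⟨hsum, hlam⟩
  -- `f ≤ 0` on the closed cone
  have hQneg : ∀ w ∈ Q, f w ≤ 0 := by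
    intro w hw
    by_contra hpos
    push Not at hpos
    obtain ⟨t, ht0, ht⟩ : ∃ t : ℝ, 0 < t ∧ u ≤ t * f w := by
      refine ⟨(|u| + 1) / f w, by positivity, ?_⟩
      rw [div_mul_cancel₀ _ hpos.ne']
      have := le_abs_self u
      linarith
    have htw : t • w ∈ Q := by
      refine ⟨fun s hs => ?_, fun s hs => ?_⟩
      · exact mul_lt_mul_of_pos_left (hw.1 s hs) ht0
      · exact mul_lt_mul_of_pos_left (hw.2 s hs) ht0
    have h1 := hf1 _ htw
    rw [map_smul, smul_eq_mul] at h1
    linarith
  set w₀ : Lb k → ℝ := fun s => if s = i then 1 else if s = j then -1 else 0 with hw₀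
  have hw₀Q : w₀ ∈ Q := by
    have hwi : w₀ i = 1 := by simp [hw₀]
    have hwj : w₀ j = -1 := by simp [hw₀, Ne.symm hij]
    refine ⟨fun s hs => ?_, fun s hs => ?_⟩
    · rw [hwi]
      simp only [hw₀, if_neg hs]
      split_ifs <;> norm_num
    · rw [hwj]
      simp only [hw₀, if_neg hs]
      split_ifs <;> norm_num
  have hcl : ∀ w : Lb k → ℝ, (∀ s, w s ≤ w i) → (∀ s, w j ≤ w s) → f w ≤ 0 := by
    intro w h1 h2
    by_contra hpos
    push Not at hpos
    obtain ⟨ε, hε, hε2⟩ : ∃ ε : ℝ, 0 < ε ∧ 0 < f w + ε * f w₀ := by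
      refine ⟨f w / (2 * (|f w₀| + 1)), by positivity, ?_⟩
      have h3 : -|f w₀| ≤ f w₀ := neg_abs_le _
      have h4 : 0 ≤ |f w₀| := abs_nonneg _
      have h5 : f w / (2 * (|f w₀| + 1)) * |f w₀| ≤ f w / 2 := by
        rw [div_mul_eq_mul_div, div_le_div_iff₀ (by positivity) (by norm_num)]
        nlinarith
      have h6 : f w / (2 * (|f w₀| + 1)) * (-|f w₀|) ≤ f w / (2 * (|f w₀| + 1)) * f w₀ :=
        mul_le_mul_of_nonneg_left h3 (by positivity)
      linarith
    have hmem : w + ε • w₀ ∈ Q := by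
      refine ⟨fun s hs => ?_, fun s hs => ?_⟩
      · have h3 := h1 s
        have h4 := mul_lt_mul_of_pos_left (hw₀Q.1 s hs) hε
        change w s + ε * w₀ s < w i + ε * w₀ i
        linarith
      · have h3 := h2 s
        have h4 := mul_lt_mul_of_pos_left (hw₀Q.2 s hs) hε
        change w j + ε * w₀ j < w s + ε * w₀ s
        linarith
    have h7 := hQneg _ hmem
    rw [map_add, map_smul, smul_eq_mul] at h7
    linarith
  -- test vectors
  have hT1 : ρ i + ∑ s ∈ Finset.univ.filter (fun s => s ≠ i ∧ s ≠ j), max (ρ s) 0 ≤ 0 := by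
    have h1 := hcl (fun s => if s = i then 1 else if s = j then 0 else if 0 < ρ s then 1 else 0)
      (fun s => by
        simp only [if_true]
        split_ifs <;> norm_num)
      (fun s => by
        simp only [if_neg (Ne.symm hij), if_true]
        split_ifs <;> norm_num)
    rw [hdot] at h1
    have h2 : ∑ s, (if s = i then 1 else if s = j then 0 else if 0 < ρ s then (1 : ℝ) else 0) * ρ s =
        ρ i + ∑ s ∈ Finset.univ.filter (fun s => s ≠ i ∧ s ≠ j), max (ρ s) 0 := by
      rw [Finset.sum_filter, ← Finset.add_sum_erase _ _ (Finset.mem_univ i)]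
      conv_rhs => rw [← Finset.add_sum_erase _ _ (Finset.mem_univ i)]
      simp only [if_true, one_mul, ne_eq, not_true_eq_false, false_and, if_false, zero_add]
      congr 1
      refine Finset.sum_congr rfl fun s hs => ?_
      have hsi : s ≠ i := (Finset.mem_erase.1 hs).1
      rw [if_neg hsi]
      by_cases hsj : s = j
      · simp [hsj]
      · simp only [hsi, hsj, not_false_eq_true, and_self, if_true, if_false]
        by_cases hp : 0 < ρ s
        · rw [if_pos hp, one_mul, max_eq_left hp.le]
        · rw [if_neg hp, zero_mul, max_eq_right (not_lt.1 hp)]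
    rw [h2] at h1
    exact h1
  have hT2 : -ρ j + ∑ s ∈ Finset.univ.filter (fun s => s ≠ i ∧ s ≠ j), max (-ρ s) 0 ≤ 0 := by
    have h1 := hcl (fun s => if s = j then -1 else if s = i then 0 else if ρ s < 0 then -1 else 0)
      (fun s => by
        simp only [if_neg hij, if_true]
        split_ifs <;> norm_num)
      (fun s => by
        simp only [if_true]
        split_ifs <;> norm_num)
    rw [hdot] at h1
    have h2 : ∑ s, (if s = j then -1 else if s = i then 0 else if ρ s < 0 then (-1 : ℝ) else 0) * ρ s =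
        -ρ j + ∑ s ∈ Finset.univ.filter (fun s => s ≠ i ∧ s ≠ j), max (-ρ s) 0 := by
      rw [Finset.sum_filter, ← Finset.add_sum_erase _ _ (Finset.mem_univ j)]
      conv_rhs => rw [← Finset.add_sum_erase _ _ (Finset.mem_univ j)]
      simp only [if_true, neg_one_mul, ne_eq, not_true_eq_false, and_false, if_false, zero_add]
      congr 1
      refine Finset.sum_congr rfl fun s hs => ?_
      have hsj : s ≠ j := (Finset.mem_erase.1 hs).1
      rw [if_neg hsj]
      by_cases hsi : s = i
      · simp [hsi]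
      · simp only [hsi, hsj, not_false_eq_true, and_self, if_true, if_false]
        by_cases hp : ρ s < 0
        · rw [if_pos hp, neg_one_mul, max_eq_left (by linarith)]
        · rw [if_neg hp, zero_mul, max_eq_right (by linarith)]
    rw [h2] at h1
    exact h1
  have hfin : ∑ s ∈ Finset.univ.filter (fun s => s ≠ i ∧ s ≠ j), |ρ s| ≤ |ρ i| + |ρ j| := by
    have h1 : ∀ s, |ρ s| = max (ρ s) 0 + max (-ρ s) 0 := by
      intro s
      rcases le_total 0 (ρ s) with h | h
      · rw [abs_of_nonneg h, max_eq_left h, max_eq_right (by linarith), add_zero]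
      · rw [abs_of_nonpos h, max_eq_right h, max_eq_left (by linarith), zero_add]
    simp only [h1 _]
    rw [Finset.sum_add_distrib, ← h1 i, ← h1 j]
    have h2 := neg_abs_le (ρ i)
    have h3 := le_abs_self (ρ j)
    linarith
  have hρ0 := hno ρ hρZ hfin
  have hf0 : ∀ w, f w = 0 := by
    intro w
    rw [hdot, hρ0]
    simp
  have h1 := hf1 _ hw₀Q
  have h2 := hbase 0 0
  rw [hf0] at h1 h2
  linarith

end Pool.Agent.FAN
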