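import Pool.Agent.FAN.PT

set_option autoImplicit false

namespace Pool.Agent.FAN

open MeasureTheory Topology Filter

variable {k : ℕ}

namespace AX2aux

theorem Hf_strict {x : Fan k} {i j : Lb k} {q : Sp k}
    (h1 : ∀ s, s ≠ i → cval (x s) q < cval (x i) q) (h2 : ∀ s, s ≠ j → cval (x j) q < cval (x s) q)
    (h : Lb k → Lb k → ℝ) : Hf x h q = h i j := by
  unfold Hf
  rw [Finset.sum_eq_single i, Finset.sum_eq_single j]
  · rw [Set.indicator_of_mem, mul_one]
    intro s
    refine ⟨?_, ?_⟩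
    · by_cases hs : s = i
      · rw [hs]
      · exact (h1 s hs).le
    · by_cases hs : s = j
      · rw [hs]
      · exact (h2 s hs).le
  · intro j' _ hj'
    rw [Set.indicator_of_notMem, mul_zero]
    intro hq
    exact absurd (hq j).2 (not_le.2 (h2 j' hj'))
  · intro hn; exact absurd (Finset.mem_univ _) hn
  · intro i' _ hi'
    refine Finset.sum_eq_zero fun j' _ => ?_
    rw [Set.indicator_of_notMem, mul_zero]
    intro hq
    exact absurd (hq i).1 (not_le.2 (h1 i' hi'))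
  · intro hn; exact absurd (Finset.mem_univ _) hn

/-- the curve of points -/
noncomputable def pt (y : Fin k → ℝ) (v : Sp k) (ε : ℝ) : Sp k := (ε • v.1, y + ε • v.2)

theorem cval_pt (c : Cf k) (y : Fin k → ℝ) (v : Sp k) (ε : ℝ) (θ : ℂ) :
    cval c (rot θ (pt y v ε)) = ε * (θ * zt c.1 v.1).re + et c.2 (y + ε • v.2) := by
  simp only [cval, rot, pt, zt_smul_right, zt_rsmul_right]
  congr 1
  rw [← mul_assoc, mul_comm θ (ε : ℂ), mul_assoc, Complex.re_ofReal_mul]

theorem et_line (e : (Fin k → ℝ) × ℝ) (y v : Fin k → ℝ) (ε : ℝ) :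
    et e (y + ε • v) = et e y + ε * ∑ l, e.1 l * v l := by
  simp only [et, Pi.add_apply, Pi.smul_apply, smul_eq_mul, mul_add, Finset.sum_add_distrib,
    Finset.mul_sum]
  have : ∀ l, e.1 l * (ε * v l) = ε * (e.1 l * v l) := fun l => by ring
  simp only [this]
  ring

theorem good_pt {x : Fan k} {v : Sp k} (hv : ∀ s s', s ≠ s' → clin (x s - x s') v ≠ 0)
    (y : Fin k → ℝ) : ∀ᶠ ε in 𝓝[≠] (0 : ℝ), Good x (pt y v ε) := by
  unfold Good
  rw [eventually_all]
  intro s
  rw [eventually_all]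
  intro s'
  by_cases hs : s = s'
  · exact Eventually.of_forall fun ε h => absurd hs h
  · have h1 := hv s s' hs
    by_cases h2 : zt ((x s).1 - (x s').1) v.1 = 0
    · -- the affine function has nonzero slope
      have h3 : ∑ l, ((x s).2 - (x s').2).1 l * v.2 l ≠ 0 := by
        intro h3
        apply h1
        have h4 : clin (x s - x s') v = (zt ((x s).1 - (x s').1) v.1).re +
            ∑ l, ((x s).2 - (x s').2).1 l * v.2 l := rfl
        rw [h4, h2, h3]
        simp
      have hfin : {ε : ℝ | et ((x s).2 - (x s').2) (y + ε • v.2) = 0}.Finite := by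
        refine (Set.finite_singleton (-(et ((x s).2 - (x s').2) y) /
          ∑ l, ((x s).2 - (x s').2).1 l * v.2 l)).subset fun ε hε => ?_
        have hε' : et ((x s).2 - (x s').2) (y + ε • v.2) = 0 := hε
        rw [et_line] at hε'
        rw [Set.mem_singleton_iff, eq_div_iff h3]
        linarith
      have h5 : ({ε : ℝ | et ((x s).2 - (x s').2) (y + ε • v.2) = 0} \ {0})ᶜ ∈ 𝓝 (0 : ℝ) := by
        refine (hfin.subset Set.sdiff_subset).isClosed.isOpen_compl.mem_nhds ?_
        simp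
      filter_upwards [nhdsWithin_le_nhds h5, self_mem_nhdsWithin] with ε h6 h7 _
      right
      intro h8
      exact h6 ⟨h8, h7⟩
    · filter_upwards [self_mem_nhdsWithin] with ε hε _
      left
      show zt ((x s).1 - (x s').1) (ε • v.1) ≠ 0
      rw [zt_rsmul_right]
      refine mul_ne_zero ?_ h2
      exact_mod_cast hε

theorem strict_pt {c d : Cf k} {y : Fin k → ℝ} (v : Sp k) (h : et c.2 y < et d.2 y) :
    ∀ᶠ ε in 𝓝 (0 : ℝ), ∀ θ : ℂ, ‖θ‖ = 1 →
      cval c (rot θ (pt y v ε)) < cval d (rot θ (pt y v ε)) := by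
  have h1 : ∀ᶠ ε in 𝓝 (0 : ℝ), et c.2 y + ε * ∑ l, c.2.1 l * v.2 l +
      |ε| * (‖zt c.1 v.1‖ + ‖zt d.1 v.1‖) < et d.2 y + ε * ∑ l, d.2.1 l * v.2 l := by
    refine ContinuousAt.eventually_lt (by fun_prop) (by fun_prop) ?_
    simpa using h
  filter_upwards [h1] with ε hε θ hθ
  rw [cval_pt, cval_pt, et_line, et_line]
  have h2 : ∀ z : ℂ, |ε * (θ * z).re| ≤ |ε| * ‖z‖ := by
    intro z
    rw [abs_mul]
    refine mul_le_mul_of_nonneg_left ?_ (abs_nonneg _)
    refine (Complex.abs_re_le_norm _).trans ?_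
    rw [norm_mul, hθ, one_mul]
  have h3 := (abs_le.1 (h2 (zt c.1 v.1))).2
  have h4 := (abs_le.1 (h2 (zt d.1 v.1))).1
  linarith

end AX2aux

open AX2aux

theorem zero_of_feasible {x : Fan k} (hx : Nondeg x) {i j : Lb k} {y : Fin k → ℝ}
    (h1 : ∀ s, s ≠ i → et (x s).2 y < et (x i).2 y) (h2 : ∀ s, s ≠ j → et (x j).2 y < et (x s).2 y)
    {h : Lb k → Lb k → ℝ} (hh : h ∈ K x) : h i j = 0 := by
  obtain ⟨v, hv⟩ := exists_dir hx (fun s => ((s : ℕ) : ℝ))
  have hv' : ∀ s s', s ≠ s' → clin (x s - x s') v ≠ 0 := by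
    intro s s' hs
    rw [clin_sub, hv]
    intro h0
    apply hs
    have : ((s : ℕ) : ℝ) = ((s' : ℕ) : ℝ) := by linarith
    exact Fin.ext (by exact_mod_cast this)
  have e1 : ∀ᶠ ε in 𝓝[≠] (0 : ℝ), ∀ s, s ≠ i → ∀ θ : ℂ, ‖θ‖ = 1 →
      cval (x s) (rot θ (pt y v ε)) < cval (x i) (rot θ (pt y v ε)) := by
    rw [eventually_all]
    intro s
    by_cases hs : s = i
    · exact Eventually.of_forall fun ε h => absurd hs h
    · filter_upwards [nhdsWithin_le_nhds (strict_pt v (h1 s hs))] with ε hε _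
      exact hε
  have e2 : ∀ᶠ ε in 𝓝[≠] (0 : ℝ), ∀ s, s ≠ j → ∀ θ : ℂ, ‖θ‖ = 1 →
      cval (x j) (rot θ (pt y v ε)) < cval (x s) (rot θ (pt y v ε)) := by
    rw [eventually_all]
    intro s
    by_cases hs : s = j
    · exact Eventually.of_forall fun ε h => absurd hs h
    · filter_upwards [nhdsWithin_le_nhds (strict_pt v (h2 s hs))] with ε hε _
      exact hε
  obtain ⟨ε, hg, h3, h4⟩ := ((good_pt hv' y).and (e1.and e2)).exists
  have h5 := (mem_K.1 hh).2 _ hg
  unfold avg at h5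
  have h6 : ∀ φ : ℝ, Hf x h (rot (ang φ) (pt y v ε)) = h i j := by
    intro φ
    exact Hf_strict (fun s hs => h3 s hs _ (norm_ang φ)) (fun s hs => h4 s hs _ (norm_ang φ)) h
  simp only [h6, intervalIntegral.integral_const, sub_zero, smul_eq_mul] at h5
  exact (mul_eq_zero.1 h5).resolve_left Real.two_pi_pos.ne'

end Pool.Agent.FAN
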