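import Pool.Agent.FAN.ZA

set_option autoImplicit false

namespace Pool.Agent.FAN

open MeasureTheory Topology Filter

variable {k : ℕ}

namespace AX3aux

/-- the sum of squares of the coordinates of an orthonormal basis of a subspace -/
theorem exists_weights {n : ℕ} (W : Submodule ℝ (Fin n → ℝ)) : ∃ S : Fin n → ℝ,
    (∀ i, 0 ≤ S i) ∧ ∑ i, S i = Module.finrank ℝ W ∧
      ∀ ρ ∈ W, ∀ i, ρ i ^ 2 ≤ (∑ s, ρ s ^ 2) * S i := by
  let e : (Fin n → ℝ) ≃ₗ[ℝ] EuclideanSpace ℝ (Fin n) := (WithLp.linearEquiv 2 ℝ (Fin n → ℝ)).symm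
  let W' : Submodule ℝ (EuclideanSpace ℝ (Fin n)) := W.map e.toLinearMap
  let b := stdOrthonormalBasis ℝ W'
  refine ⟨fun i => ∑ m, ((b m : EuclideanSpace ℝ (Fin n)) i) ^ 2,
    fun i => Finset.sum_nonneg fun m _ => sq_nonneg _, ?_, ?_⟩
  · rw [Finset.sum_comm]
    have h1 : ∀ m, ∑ i, ((b m : EuclideanSpace ℝ (Fin n)) i) ^ 2 = 1 := by
      intro m
      rw [← EuclideanSpace.real_norm_sq_eq]
      have : ‖(b m : EuclideanSpace ℝ (Fin n))‖ = 1 := b.orthonormal.1 m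
      rw [this]
      norm_num
    simp only [h1]
    rw [Finset.sum_const, Finset.card_univ, Fintype.card_fin, nsmul_eq_mul, mul_one]
    congr 1
    exact (LinearEquiv.finrank_eq (e.submoduleMap W)).symm
  · intro ρ hρ i
    have hmem : e ρ ∈ W' := Submodule.mem_map_of_mem hρ
    let v : W' := ⟨e ρ, hmem⟩
    have h1 : ρ i = ∑ m, b.repr v m * ((b m : EuclideanSpace ℝ (Fin n)) i) := by
      have h2 := congrArg (fun w : W' => (w : EuclideanSpace ℝ (Fin n)) i) (b.sum_repr v)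
      have h3 : ((v : EuclideanSpace ℝ (Fin n)) i) = ρ i := rfl
      simp only at h2
      rw [h3] at h2
      rw [← h2]
      simp [Finset.sum_apply]
    have h4 : ∑ m, (b.repr v m) ^ 2 = ∑ s, ρ s ^ 2 := by
      rw [← EuclideanSpace.real_norm_sq_eq, LinearIsometryEquiv.norm_map]
      have : ‖v‖ = ‖(v : EuclideanSpace ℝ (Fin n))‖ := rfl
      rw [this, EuclideanSpace.real_norm_sq_eq]
      rfl
    rw [h1, ← h4]
    exact Finset.sum_mul_sq_le_sq_mul_sq _ _ _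

end AX3aux

theorem exists_U2 {x : Fan k} (hx : Nondeg x) : ∃ U : Finset (Lb k), U.card ≤ 24 ∧
    ∀ i, i ∉ U → ∀ j, j ∉ U → i ≠ j → ∀ ρ ∈ Zs x,
      (∑ s ∈ Finset.univ.filter (fun s => s ≠ i ∧ s ≠ j), |ρ s| ≤ |ρ i| + |ρ j|) → ρ = 0 := by
  classical
  obtain ⟨S, hS0, hS1, hS2⟩ := AX3aux.exists_weights (Zs x)
  rw [finrank_Zs hx] at hS1
  refine ⟨Finset.univ.filter fun i => 1 / 6 ≤ S i, ?_, ?_⟩
  · have h1 : ((Finset.univ.filter fun i => 1 / 6 ≤ S i).card : ℝ) * (1 / 6) ≤ 4 := by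
      rw [← nsmul_eq_mul, ← Finset.sum_const]
      refine (Finset.sum_le_sum fun i hi => (Finset.mem_filter.1 hi).2).trans ?_
      refine (Finset.sum_le_sum_of_subset_of_nonneg (Finset.filter_subset _ _)
        fun i _ _ => hS0 i).trans ?_
      rw [hS1]
      norm_num
    have h2 : ((Finset.univ.filter fun i => 1 / 6 ≤ S i).card : ℝ) ≤ 24 := by linarith
    exact_mod_cast h2
  · intro i hi j hj hij ρ hρ hsum
    by_contra hne
    simp only [Finset.mem_filter, Finset.mem_univ, true_and, not_le] at hi hj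
    have hpos : 0 < ∑ s, ρ s ^ 2 := by
      obtain ⟨s, hs⟩ := Function.ne_iff.1 hne
      refine Finset.sum_pos' (fun s _ => sq_nonneg _) ⟨s, Finset.mem_univ _, ?_⟩
      have hs' : ρ s ≠ 0 := hs
      positivity
    have h1 := hS2 ρ hρ i
    have h2 := hS2 ρ hρ j
    have h3 : ρ i ^ 2 < (∑ s, ρ s ^ 2) * (1 / 6) :=
      h1.trans_lt (mul_lt_mul_of_pos_left hi hpos)
    have h4 : ρ j ^ 2 < (∑ s, ρ s ^ 2) * (1 / 6) :=
      h2.trans_lt (mul_lt_mul_of_pos_left hj hpos)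
    -- the sum of squares
    have h5 : ∑ s, ρ s ^ 2 = ρ i ^ 2 + ρ j ^ 2 +
        ∑ s ∈ Finset.univ.filter (fun s => s ≠ i ∧ s ≠ j), ρ s ^ 2 := by
      have h6 : Finset.univ.filter (fun s => s ≠ i ∧ s ≠ j) = (Finset.univ.erase i).erase j := by
        ext s
        simp [and_comm]
      rw [h6, ← Finset.add_sum_erase Finset.univ _ (Finset.mem_univ i),
        ← Finset.add_sum_erase (Finset.univ.erase i) _
          (Finset.mem_erase.2 ⟨hij.symm, Finset.mem_univ j⟩)]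
      ring
    have h7 : ∑ s ∈ Finset.univ.filter (fun s => s ≠ i ∧ s ≠ j), ρ s ^ 2 ≤
        (∑ s ∈ Finset.univ.filter (fun s => s ≠ i ∧ s ≠ j), |ρ s|) ^ 2 := by
      have h8 : ∀ s, ρ s ^ 2 = |ρ s| ^ 2 := fun s => (sq_abs _).symm
      simp only [h8]
      exact Finset.sum_sq_le_sq_sum_of_nonneg fun s _ => abs_nonneg _
    have h9 : (∑ s ∈ Finset.univ.filter (fun s => s ≠ i ∧ s ≠ j), |ρ s|) ^ 2 ≤
        (|ρ i| + |ρ j|) ^ 2 :=
      pow_le_pow_left₀ (Finset.sum_nonneg fun s _ => abs_nonneg _) hsum 2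
    have h10 : (|ρ i| + |ρ j|) ^ 2 ≤ 2 * (ρ i ^ 2 + ρ j ^ 2) := by
      rw [← sq_abs (ρ i), ← sq_abs (ρ j)]
      nlinarith [sq_nonneg (|ρ i| - |ρ j|)]
    linarith

end Pool.Agent.FAN
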