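import Pool.Agent.FAN.Defs

/-! Basic facts and the definition of the space `K x`. -/

set_option autoImplicit false

namespace Pool.Agent.FAN

open MeasureTheory

variable {k : ℕ}

theorem zt_add_left (a b z : ℂ × ℂ) : zt (a + b) z = zt a z + zt b z := by
  simp only [zt, Prod.fst_add, Prod.snd_add]; ring

theorem zt_sub_left (a b z : ℂ × ℂ) : zt (a - b) z = zt a z - zt b z := by
  simp only [zt, Prod.fst_sub, Prod.snd_sub]; ring

theorem zt_add_right (a z w : ℂ × ℂ) : zt a (z + w) = zt a z + zt a w := by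
  simp only [zt, Prod.fst_add, Prod.snd_add]; ring

theorem zt_smul_left (θ : ℂ) (a z : ℂ × ℂ) : zt (θ • a) z = θ * zt a z := by
  simp only [zt, Prod.smul_fst, Prod.smul_snd, smul_eq_mul]; ring

theorem zt_smul_right (θ : ℂ) (a z : ℂ × ℂ) : zt a (θ • z) = θ * zt a z := by
  simp only [zt, Prod.smul_fst, Prod.smul_snd, smul_eq_mul]; ring

theorem zt_rsmul_left (r : ℝ) (a z : ℂ × ℂ) : zt (r • a) z = r * zt a z := by
  simp only [zt, Prod.smul_fst, Prod.smul_snd, Complex.real_smul]; ring

theorem zt_rsmul_right (r : ℝ) (a z : ℂ × ℂ) : zt a (r • z) = r * zt a z := by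
  simp only [zt, Prod.smul_fst, Prod.smul_snd, Complex.real_smul]; ring

@[simp] theorem zt_zero_left (z : ℂ × ℂ) : zt 0 z = 0 := by simp [zt]

@[simp] theorem zt_zero_right (a : ℂ × ℂ) : zt a 0 = 0 := by simp [zt]

theorem zt_neg_left (a z : ℂ × ℂ) : zt (-a) z = - zt a z := by
  simp only [zt, Prod.fst_neg, Prod.snd_neg]; ring

theorem et_add_left (e f : (Fin k → ℝ) × ℝ) (y : Fin k → ℝ) : et (e + f) y = et e y + et f y := by
  simp only [et, Prod.fst_add, Prod.snd_add, Pi.add_apply, add_mul, Finset.sum_add_distrib]; ring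

theorem et_sub_left (e f : (Fin k → ℝ) × ℝ) (y : Fin k → ℝ) : et (e - f) y = et e y - et f y := by
  simp only [et, Prod.fst_sub, Prod.snd_sub, Pi.sub_apply, sub_mul, Finset.sum_sub_distrib]; ring

theorem et_smul_left (r : ℝ) (e : (Fin k → ℝ) × ℝ) (y : Fin k → ℝ) : et (r • e) y = r * et e y := by
  simp only [et, Prod.smul_fst, Prod.smul_snd, Pi.smul_apply, smul_eq_mul, mul_add, Finset.mul_sum, mul_assoc]

@[simp] theorem et_zero_left (y : Fin k → ℝ) : et (0 : (Fin k → ℝ) × ℝ) y = 0 := by simp [et]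

theorem cval_add (c d : Cf k) (p : Sp k) : cval (c + d) p = cval c p + cval d p := by
  simp only [cval, Prod.fst_add, Prod.snd_add, zt_add_left, et_add_left, Complex.add_re]; ring

theorem cval_sub (c d : Cf k) (p : Sp k) : cval (c - d) p = cval c p - cval d p := by
  simp only [cval, Prod.fst_sub, Prod.snd_sub, zt_sub_left, et_sub_left, Complex.sub_re]; ring

theorem cval_smul (r : ℝ) (c : Cf k) (p : Sp k) : cval (r • c) p = r * cval c p := by
  simp only [cval, Prod.smul_fst, Prod.smul_snd, zt_rsmul_left, et_smul_left, Complex.re_ofReal_mul]; ring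

@[simp] theorem cval_zero (p : Sp k) : cval (0 : Cf k) p = 0 := by simp [cval]

theorem cval_neg (c : Cf k) (p : Sp k) : cval (-c) p = - cval c p := by
  have := cval_sub 0 c p
  simpa using this

theorem clin_add (c d : Cf k) (v : Sp k) : clin (c + d) v = clin c v + clin d v := by
  simp only [clin, Prod.fst_add, Prod.snd_add, zt_add_left, Complex.add_re, Pi.add_apply, add_mul,
    Finset.sum_add_distrib]; ring

theorem clin_sub (c d : Cf k) (v : Sp k) : clin (c - d) v = clin c v - clin d v := by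
  simp only [clin, Prod.fst_sub, Prod.snd_sub, zt_sub_left, Complex.sub_re, Pi.sub_apply, sub_mul,
    Finset.sum_sub_distrib]; ring

theorem clin_smul (r : ℝ) (c : Cf k) (v : Sp k) : clin (r • c) v = r * clin c v := by
  simp only [clin, Prod.smul_fst, Prod.smul_snd, zt_rsmul_left, Complex.re_ofReal_mul, Pi.smul_apply,
    smul_eq_mul, mul_add, Finset.mul_sum, mul_assoc]

@[simp] theorem clin_zero (v : Sp k) : clin (0 : Cf k) v = 0 := by simp [clin]

theorem clin_neg (c : Cf k) (v : Sp k) : clin (-c) v = - clin c v := by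
  have := clin_sub 0 c v
  simpa using this

theorem clin_add_right (c : Cf k) (v w : Sp k) : clin c (v + w) = clin c v + clin c w := by
  simp only [clin, Prod.fst_add, Prod.snd_add, zt_add_right, Complex.add_re, Pi.add_apply, mul_add,
    Finset.sum_add_distrib]; ring

theorem clin_smul_right (c : Cf k) (r : ℝ) (v : Sp k) : clin c (r • v) = r * clin c v := by
  simp only [clin, Prod.smul_fst, Prod.smul_snd, zt_rsmul_right, Complex.re_ofReal_mul, Pi.smul_apply,
    smul_eq_mul, mul_add, Finset.mul_sum]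
  congr 1
  exact Finset.sum_congr rfl fun l _ => by ring

/-- `cval c` is affine with linear part `clin c`. -/
theorem cval_add_point (c : Cf k) (p v : Sp k) : cval c (p + v) = cval c p + clin c v := by
  simp only [cval, clin, et, Prod.fst_add, Prod.snd_add, zt_add_right, Complex.add_re, Pi.add_apply, mul_add,
    Finset.sum_add_distrib]; ring

theorem cval_rot (θ : ℂ) (c : Cf k) (p : Sp k) : cval c (rot θ p) = cval (rotc θ c) p := by
  simp only [cval, rot, rotc, zt_smul_left, zt_smul_right]

theorem rotc_sub (θ : ℂ) (c d : Cf k) : rotc θ (c - d) = rotc θ c - rotc θ d := by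
  simp only [rotc, Prod.fst_sub, Prod.snd_sub, smul_sub, Prod.mk_sub_mk]

theorem rotc_add (θ : ℂ) (c d : Cf k) : rotc θ (c + d) = rotc θ c + rotc θ d := by
  simp only [rotc, Prod.fst_add, Prod.snd_add, smul_add, Prod.mk_add_mk]

theorem rotc_smul (θ : ℂ) (r : ℝ) (c : Cf k) : rotc θ (r • c) = r • rotc θ c := by
  simp only [rotc, Prod.smul_fst, Prod.smul_snd, Prod.smul_mk, smul_comm θ r]

@[simp] theorem rotc_one (c : Cf k) : rotc 1 c = c := by simp [rotc]

theorem rotc_rotc (θ θ' : ℂ) (c : Cf k) : rotc θ (rotc θ' c) = rotc (θ * θ') c := by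
  simp only [rotc, smul_smul]

@[simp] theorem rot_one (p : Sp k) : rot 1 p = p := by simp [rot]

theorem rot_rot (θ θ' : ℂ) (p : Sp k) : rot θ (rot θ' p) = rot (θ * θ') p := by
  simp only [rot, smul_smul]

theorem norm_rot {θ : ℂ} (hθ : ‖θ‖ = 1) (p : Sp k) : ‖rot θ p‖ = ‖p‖ := by
  simp [rot, Prod.norm_def, norm_smul, hθ]

@[simp] theorem norm_ang (φ : ℝ) : ‖ang φ‖ = 1 := by
  simp [ang, Complex.norm_exp_ofReal_mul_I]

theorem ang_add (φ ψ : ℝ) : ang (φ + ψ) = ang φ * ang ψ := by
  simp only [ang, Complex.ofReal_add, add_mul, Complex.exp_add]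

@[simp] theorem ang_zero : ang 0 = 1 := by simp [ang]

@[simp] theorem ang_two_pi : ang (2 * Real.pi) = 1 := by
  simp [ang, Complex.exp_two_pi_mul_I]

theorem continuous_ang : Continuous ang := by
  unfold ang; fun_prop

theorem continuous_rot : Continuous fun q : ℂ × Sp k => rot q.1 q.2 := by
  unfold rot; fun_prop

theorem continuous_cval : Continuous fun q : Cf k × Sp k => cval q.1 q.2 := by
  unfold cval zt et; fun_prop

theorem continuous_cval_right (c : Cf k) : Continuous fun p : Sp k => cval c p := by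
  unfold cval zt et; fun_prop

theorem isClosed_cell (x : Fan k) (i j : Lb k) : IsClosed (cell x i j) := by
  have : cell x i j = ⋂ s, ({p | cval (x s) p ≤ cval (x i) p} ∩ {p | cval (x j) p ≤ cval (x s) p}) := by
    ext p; simp [cell]
  rw [this]
  exact isClosed_iInter fun s => (isClosed_le (continuous_cval_right _) (continuous_cval_right _)).inter
    (isClosed_le (continuous_cval_right _) (continuous_cval_right _))

theorem measurableSet_cell (x : Fan k) (i j : Lb k) : MeasurableSet (cell x i j) :=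
  (isClosed_cell x i j).measurableSet

theorem measurable_Hf (x : Fan k) (h : Lb k → Lb k → ℝ) : Measurable (Hf x h) := by
  unfold Hf
  exact Finset.measurable_sum _ fun i _ => Finset.measurable_sum _ fun j _ =>
    (measurable_const.indicator (measurableSet_cell x i j)).const_mul _

theorem norm_Hf_le (x : Fan k) (h : Lb k → Lb k → ℝ) (q : Sp k) : ‖Hf x h q‖ ≤ ∑ i, ∑ j, |h i j| := by
  unfold Hf
  refine (norm_sum_le _ _).trans (Finset.sum_le_sum fun i _ => (norm_sum_le _ _).trans
    (Finset.sum_le_sum fun j _ => ?_))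
  rw [norm_mul, Real.norm_eq_abs]
  by_cases hq : q ∈ cell x i j <;> simp [hq]

theorem intervalIntegrable_Hf (x : Fan k) (h : Lb k → Lb k → ℝ) (p : Sp k) (a b : ℝ) :
    IntervalIntegrable (fun φ => Hf x h (rot (ang φ) p)) volume a b := by
  have hm : Measurable fun φ : ℝ => Hf x h (rot (ang φ) p) :=
    (measurable_Hf x h).comp (continuous_rot.comp (continuous_ang.prodMk continuous_const)).measurable
  refine ⟨?_, ?_⟩ <;>
  · refine Measure.integrableOn_of_bounded (M := ∑ i, ∑ j, |h i j|) (by simp) hm.aestronglyMeasurable ?_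
    exact Filter.Eventually.of_forall fun φ => norm_Hf_le x h _

theorem avg_add (x : Fan k) (h h' : Lb k → Lb k → ℝ) (p : Sp k) :
    avg x (h + h') p = avg x h p + avg x h' p := by
  unfold avg
  simp only [Hf_add]
  exact intervalIntegral.integral_add (intervalIntegrable_Hf x h p _ _) (intervalIntegrable_Hf x h' p _ _)

theorem avg_smul (x : Fan k) (r : ℝ) (h : Lb k → Lb k → ℝ) (p : Sp k) :
    avg x (r • h) p = r * avg x h p := by
  unfold avg
  simp only [Hf_smul]
  exact intervalIntegral.integral_const_mul _ _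

/-- the space of all `h` (zero on the diagonal) such that the circle averages of `h (top, bottom)` vanish -/
noncomputable def K (x : Fan k) : Submodule ℝ (Lb k → Lb k → ℝ) where
  carrier := {h | (∀ i, h i i = 0) ∧ ∀ p, Good x p → avg x h p = 0}
  zero_mem' := ⟨fun _ => rfl, fun p _ => by simp [avg, Hf]⟩
  add_mem' := by
    rintro h h' ⟨h1, h2⟩ ⟨h1', h2'⟩
    exact ⟨fun i => by simp [h1, h1'], fun p hp => by rw [avg_add, h2 p hp, h2' p hp, add_zero]⟩
  smul_mem' := by
    rintro r h ⟨h1, h2⟩
    exact ⟨fun i => by simp [h1], fun p hp => by rw [avg_smul, h2 p hp, mul_zero]⟩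

theorem mem_K {x : Fan k} {h : Lb k → Lb k → ℝ} :
    h ∈ K x ↔ (∀ i, h i i = 0) ∧ ∀ p, Good x p → avg x h p = 0 := Iff.rfl

/-! ### circle averages of balls -/

/-- centres and radii of a countable family of balls -/
noncomputable def Bl (k : ℕ) (s : ℕ) : Set (Sp k) :=
  Metric.closedBall (TopologicalSpace.denseSeq (Sp k) s.unpair.1) (1 / ((s.unpair.2 : ℝ) + 1))

/-- the circle average of Lebesgue measure on the `s`-th ball -/
noncomputable def nu (k : ℕ) (s : ℕ) : Measure (Sp k) :=
  ((volume.restrict (Bl k s)).prod (volume.restrict (Set.Icc (0 : ℝ) (2 * Real.pi)))).map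
    (fun q => rot (ang q.2) q.1)

/-- real masses of the cells, differences to the cell `(0, 1)` -/
noncomputable def gv (k : ℕ) (s : ℕ) (x : Fan k) : Lb k → Lb k → ℝ := fun i j =>
  if i = j then 0 else ((nu k s) (cell x i j)).toReal - ((nu k s) (cell x 0 1)).toReal

/-- equivalence of fans: rotation, positive scaling, adding a common affine function -/
def Eqv (x x' : Fan k) : Prop :=
  ∃ θ : ℂ, ‖θ‖ = 1 ∧ ∃ r : ℝ, 0 < r ∧ ∃ w : Cf k, ∀ s, x' s = r • rotc θ (x s) + w

/-- the four-dimensional space of relations between the `λ_s` -/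
noncomputable def Zs (x : Fan k) : Submodule ℝ (Lb k → ℝ) where
  carrier := {ρ | ∑ s, ρ s = 0 ∧ ∑ s, ρ s • (x s).2.1 = 0}
  zero_mem' := by simp
  add_mem' := by
    rintro ρ ρ' ⟨h1, h2⟩ ⟨h1', h2'⟩
    refine ⟨?_, ?_⟩
    · simp [Finset.sum_add_distrib, h1, h1']
    · simp [add_smul, Finset.sum_add_distrib, h2, h2']
  smul_mem' := by
    rintro r ρ ⟨h1, h2⟩
    refine ⟨?_, ?_⟩
    · simp [← Finset.mul_sum, h1]
    · have : ∑ s, (r • ρ) s • (x s).2.1 = r • ∑ s, ρ s • (x s).2.1 := by
        simp [Finset.smul_sum, smul_smul]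
      rw [this, h2, smul_zero]

theorem mem_Zs {x : Fan k} {ρ : Lb k → ℝ} :
    ρ ∈ Zs x ↔ ∑ s, ρ s = 0 ∧ ∑ s, ρ s • (x s).2.1 = 0 := Iff.rfl

/-- `det (a, b)`, nonzero iff `a`, `b` are complex linearly independent -/
def cdet (a b : ℂ × ℂ) : ℂ := a.1 * b.2 - a.2 * b.1

end Pool.Agent.FAN
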