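import Pool.Agent.FAN.WTS

set_option autoImplicit false

namespace Pool.Agent.FAN

open MeasureTheory Topology Filter

variable {k : ℕ}

theorem exists_dirs {x : Fan k} (hx : Nondeg x) {u i l : Lb k} (hui : u ≠ i) (hul : u ≠ l) (hil : i ≠ l) :
    ∃ w ν : Sp k, Dirs x u i l w ν := by
  classical
  obtain ⟨w, hw⟩ := exists_dir hx (fun s => if s = l then -1 else 0)
  obtain ⟨ν, hν⟩ := exists_dir hx (fun s => if s = u then 1 else 0)
  refine ⟨w, ν, ?_, ?_, ?_, ?_⟩
  · rw [clin_sub, hw]; simp [hul, hil]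
  · rw [clin_sub, hw]; simp [hil]
  · rw [clin_sub, hν]; simp [hui.symm]
  · rw [clin_sub, hν]; simp [hul.symm, hui.symm]

open Classical in
/-- weight of a cell whose active constraints are exactly `c` and `d` -/
theorem wt_of_two {x : Fan k} {i j : Lb k} {θ : ℂ} {p w ν : Sp k} (hcell : rot θ p ∈ cell x i j)
    {c d : Lb k × Lb k} (hc : c ∈ Cons i j) (hd : d ∈ Cons i j) (hcd : c ≠ d)
    (hc0 : cval (x c.1 - x c.2) (rot θ p) = 0) (hd0 : cval (x d.1 - x d.2) (rot θ p) = 0)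
    (hother : ∀ e ∈ Cons i j, cval (x e.1 - x e.2) (rot θ p) = 0 → e = c ∨ e = d)
    (hdw : clin (rotc θ (x d.1 - x d.2)) w ≠ 0) :
    wt x i j θ p w ν = if clin (rotc θ (x c.1 - x c.2)) w = 0 then
      Real.sign (clin (rotc θ (x c.1 - x c.2)) ν) * Real.sign (clin (rotc θ (x d.1 - x d.2)) w) else 0 := by
  unfold wt
  rw [if_pos hcell]
  have h1 : ∀ e ∈ Cons i j, e ≠ c → ∑ f ∈ Cons i j,
      (if e ≠ f ∧ cval (x e.1 - x e.2) (rot θ p) = 0 ∧ cval (x f.1 - x f.2) (rot θ p) = 0 ∧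
          clin (rotc θ (x e.1 - x e.2)) w = 0 then
        Real.sign (clin (rotc θ (x e.1 - x e.2)) ν) * Real.sign (clin (rotc θ (x f.1 - x f.2)) w)
      else 0) = 0 := by
    intro e he hec
    refine Finset.sum_eq_zero fun f hf => ?_
    rw [if_neg]
    rintro ⟨_, h2, _, h4⟩
    rcases hother e he h2 with rfl | rfl
    · exact hec rfl
    · exact hdw h4
  rw [Finset.sum_eq_single_of_mem c hc h1]
  have h2 : ∀ f ∈ Cons i j, f ≠ d →
      (if c ≠ f ∧ cval (x c.1 - x c.2) (rot θ p) = 0 ∧ cval (x f.1 - x f.2) (rot θ p) = 0 ∧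
          clin (rotc θ (x c.1 - x c.2)) w = 0 then
        Real.sign (clin (rotc θ (x c.1 - x c.2)) ν) * Real.sign (clin (rotc θ (x f.1 - x f.2)) w)
      else 0) = 0 := by
    intro f hf hfd
    rw [if_neg]
    rintro ⟨h1', _, h3, _⟩
    rcases hother f hf h3 with rfl | rfl
    · exact h1' rfl
    · exact hfd rfl
  rw [Finset.sum_eq_single_of_mem d hd h2]
  by_cases h : clin (rotc θ (x c.1 - x c.2)) w = 0
  · rw [if_pos ⟨hcd, hc0, hd0, h⟩, if_pos h]
  · rw [if_neg (fun h' => h h'.2.2.2), if_neg h]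

/-- the kink at a triple top tie `s₁, s₂, s₃` with bottom `b` -/
theorem kD_triple {x : Fan k} (hx : Nondeg x) {u i l : Lb k} (hui : u ≠ i) (hul : u ≠ l) (hil : i ≠ l)
    {w ν : Sp k} (hd : Dirs x u i l w ν) {p : Sp k} {θ : ℂ} (hθ : ‖θ‖ = 1) {s₁ s₂ s₃ b : Lb k}
    (h12 : s₁ ≠ s₂) (h13 : s₁ ≠ s₃) (h23 : s₂ ≠ s₃) (hb1 : b ≠ s₁) (hb2 : b ≠ s₂) (hb3 : b ≠ s₃)
    (ht1 : cval (x s₁) (rot θ p) = cval (x s₂) (rot θ p)) (ht2 : cval (x s₃) (rot θ p) = cval (x s₂) (rot θ p))
    (ht3 : ∀ s, s ≠ s₁ → s ≠ s₂ → s ≠ s₃ → cval (x s) (rot θ p) < cval (x s₂) (rot θ p))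
    (hbt : ∀ s, s ≠ b → cval (x b) (rot θ p) < cval (x s) (rot θ p))
    (hr : rotc θ (x s₁ - x s₂) = x u - x i) {β₁ β₂ : ℝ} (hβ : β₂ ≠ 0)
    (hr' : rotc θ (x s₃ - x s₂) = β₁ • (x u - x i) + β₂ • (x l - x i)) (h : Lb k → Lb k → ℝ) :
    kD x h θ p w ν = Real.sign β₂ * (h s₁ b - h s₂ b) := by
  classical
  obtain ⟨hw1, hw2, hν1, hν2⟩ := hd
  -- generalities on the point
  have hcellb : ∀ s, (s = s₁ ∨ s = s₂ ∨ s = s₃) → rot θ p ∈ cell x s b := by
    intro s hs t
    have hts : cval (x t) (rot θ p) ≤ cval (x s₂) (rot θ p) := by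
      by_cases e1 : t = s₁
      · rw [e1, ht1]
      · by_cases e2 : t = s₂
        · rw [e2]
        · by_cases e3 : t = s₃
          · rw [e3, ht2]
          · exact (ht3 t e1 e2 e3).le
    have hss : cval (x s) (rot θ p) = cval (x s₂) (rot θ p) := by
      rcases hs with rfl | rfl | rfl
      · exact ht1
      · rfl
      · exact ht2
    refine ⟨by rw [hss]; exact hts, ?_⟩
    by_cases e : t = b
    · rw [e]
    · exact (hbt t e).le
  have hcell : ∀ i' j', rot θ p ∈ cell x i' j' → (i' = s₁ ∨ i' = s₂ ∨ i' = s₃) ∧ j' = b := by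
    intro i' j' hc
    refine ⟨?_, ?_⟩
    · by_contra hcon
      push Not at hcon
      exact absurd (hc s₂).1 (not_le.mpr (ht3 i' hcon.1 hcon.2.1 hcon.2.2))
    · by_contra hcon
      exact absurd (hc b).2 (not_le.mpr (hbt j' hcon))
  -- active constraints of the cell `(s, b)`
  have hact : ∀ s, (s = s₁ ∨ s = s₂ ∨ s = s₃) → ∀ e ∈ Cons s b, cval (x e.1 - x e.2) (rot θ p) = 0 →
      e.1 = s ∧ (e.2 = s₁ ∨ e.2 = s₂ ∨ e.2 = s₃) := by
    intro s hs e he h0
    rw [cval_sub] at h0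
    have he' := mem_Cons.mp he
    have h2b : e.2 ≠ b := by
      intro h2
      have := hbt e.1 (fun h1 => he'.1 (h1.trans h2.symm))
      rw [h2] at h0; linarith
    have h1s : e.1 = s := he'.2.resolve_right h2b
    refine ⟨h1s, ?_⟩
    by_contra hcon
    push Not at hcon
    have hlt := ht3 e.2 hcon.1 hcon.2.1 hcon.2.2
    have hss : cval (x s) (rot θ p) = cval (x s₂) (rot θ p) := by
      rcases hs with rfl | rfl | rfl
      · exact ht1
      · rfl
      · exact ht2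
    rw [h1s, hss] at h0; linarith
  -- linear parts
  have hc12w : clin (rotc θ (x s₁ - x s₂)) w = 0 := by rw [hr, hw1]
  have hc12ν : clin (rotc θ (x s₁ - x s₂)) ν = 1 := by rw [hr, hν1]
  have hc32w : clin (rotc θ (x s₃ - x s₂)) w = -β₂ := by
    rw [hr', clin_add, clin_smul, clin_smul, hw1, hw2]; ring
  have hsub : ∀ s t r : Lb k, rotc θ (x s - x t) = rotc θ (x s - x r) - rotc θ (x t - x r) := by
    intro s t r
    rw [← rotc_sub]; congr 1; abel
  have hneg : ∀ s t : Lb k, rotc θ (x s - x t) = - rotc θ (x t - x s) := by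
    intro s t
    have := hsub s t s
    rw [sub_self] at this
    have h0 : rotc θ (0 : Cf k) = 0 := by simp [rotc]
    rw [h0, zero_sub] at this
    exact this
  -- weights
  have hw_1 : wt x s₁ b θ p w ν = Real.sign β₂ := by
    have hdw : clin (rotc θ (x s₁ - x s₃)) w = β₂ := by
      rw [hsub s₁ s₃ s₂, clin_sub, hc12w, hc32w]; ring
    rw [wt_of_two (hcellb s₁ (Or.inl rfl)) (c := (s₁, s₂)) (d := (s₁, s₃)) (mem_Cons.mpr ⟨h12, Or.inl rfl⟩)
      (mem_Cons.mpr ⟨h13, Or.inl rfl⟩) (by simp [h23]) (by rw [cval_sub]; simp only; linarith)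
      (by rw [cval_sub]; simp only; linarith) ?_ (by simp only; rw [hdw]; exact hβ)]
    · simp only
      rw [if_pos hc12w, hc12ν, hdw]; simp
    · intro e he h0
      obtain ⟨h1, h2⟩ := hact s₁ (Or.inl rfl) e he h0
      have he' := mem_Cons.mp he
      rcases h2 with h2 | h2 | h2
      · exact absurd (h1.trans h2.symm) he'.1
      · exact Or.inl (Prod.ext h1 h2)
      · exact Or.inr (Prod.ext h1 h2)
  have hw_2 : wt x s₂ b θ p w ν = - Real.sign β₂ := by
    have hcw : clin (rotc θ (x s₂ - x s₁)) w = 0 := by rw [hneg, clin_neg, hc12w]; simp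
    have hcν : clin (rotc θ (x s₂ - x s₁)) ν = -1 := by rw [hneg, clin_neg, hc12ν]
    have hdw : clin (rotc θ (x s₂ - x s₃)) w = β₂ := by rw [hneg, clin_neg, hc32w]; ring
    rw [wt_of_two (hcellb s₂ (Or.inr (Or.inl rfl))) (c := (s₂, s₁)) (d := (s₂, s₃))
      (mem_Cons.mpr ⟨h12.symm, Or.inl rfl⟩)
      (mem_Cons.mpr ⟨h23, Or.inl rfl⟩) (by simp [h13]) (by rw [cval_sub]; simp only; linarith)
      (by rw [cval_sub]; simp only; linarith) ?_ (by simp only; rw [hdw]; exact hβ)]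
    · simp only
      rw [if_pos hcw, hcν, hdw]
      have : Real.sign (-1 : ℝ) = -1 := Real.sign_of_neg (by norm_num)
      rw [this]; ring
    · intro e he h0
      obtain ⟨h1, h2⟩ := hact s₂ (Or.inr (Or.inl rfl)) e he h0
      have he' := mem_Cons.mp he
      rcases h2 with h2 | h2 | h2
      · exact Or.inl (Prod.ext h1 h2)
      · exact absurd (h1.trans h2.symm) he'.1
      · exact Or.inr (Prod.ext h1 h2)
  have hw_3 : wt x s₃ b θ p w ν = 0 := by
    have hcw : clin (rotc θ (x s₃ - x s₁)) w ≠ 0 := by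
      rw [hsub s₃ s₁ s₂, clin_sub, hc12w, hc32w]; simpa using hβ
    have hdw : clin (rotc θ (x s₃ - x s₂)) w ≠ 0 := by
      rw [hc32w]; simpa using hβ
    rw [wt_of_two (hcellb s₃ (Or.inr (Or.inr rfl))) (c := (s₃, s₁)) (d := (s₃, s₂))
      (mem_Cons.mpr ⟨h13.symm, Or.inl rfl⟩)
      (mem_Cons.mpr ⟨h23.symm, Or.inl rfl⟩) (by simp [h12]) (by rw [cval_sub]; simp only; linarith)
      (by rw [cval_sub]; simp only; linarith) ?_ hdw]
    · rw [if_neg hcw]
    · intro e he h0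
      obtain ⟨h1, h2⟩ := hact s₃ (Or.inr (Or.inr rfl)) e he h0
      have he' := mem_Cons.mp he
      rcases h2 with h2 | h2 | h2
      · exact Or.inl (Prod.ext h1 h2)
      · exact Or.inr (Prod.ext h1 h2)
      · exact absurd (h1.trans h2.symm) he'.1
  have hzero : ∀ i' j', ¬ ((i' = s₁ ∨ i' = s₂ ∨ i' = s₃) ∧ j' = b) → wt x i' j' θ p w ν = 0 := by
    intro i' j' hn
    unfold wt
    rw [if_neg fun hc => hn (hcell i' j' hc)]
  -- the sum
  unfold kD
  have hrow : ∀ i', (∑ j', if i' = j' then 0 else h i' j' * wt x i' j' θ p w ν) =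
      h i' b * wt x i' b θ p w ν := by
    intro i'
    rw [Finset.sum_eq_single b]
    · split_ifs with e
      · rw [hzero i' b, mul_zero]
        rintro ⟨h1, -⟩
        rcases h1 with h1 | h1 | h1
        · exact hb1 (e.symm.trans h1)
        · exact hb2 (e.symm.trans h1)
        · exact hb3 (e.symm.trans h1)
      · rfl
    · intro j' _ hj'
      split_ifs
      · rfl
      · rw [hzero i' j' (fun hc => hj' hc.2), mul_zero]
    · intro hcon; exact absurd (Finset.mem_univ b) hcon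
  simp only [hrow]
  have hsum3 : ∑ i', h i' b * wt x i' b θ p w ν = ∑ i' ∈ ({s₁, s₂, s₃} : Finset (Lb k)), h i' b * wt x i' b θ p w ν := by
    symm
    refine Finset.sum_subset (Finset.subset_univ _) fun i' _ hi' => ?_
    simp only [Finset.mem_insert, Finset.mem_singleton] at hi'
    rw [hzero i' b (fun hc => hi' hc.1), mul_zero]
  rw [hsum3, Finset.sum_insert (by simp [h12, h13]), Finset.sum_insert (by simp [h23]), Finset.sum_singleton,
    hw_1, hw_2, hw_3]
  ring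

end Pool.Agent.FAN
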