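import Pool.Agent.FAN.PT

/-! Open sets of points with a triple top tie, and the symmetry `x ↦ -x`. -/

set_option autoImplicit false

namespace Pool.Agent.FAN

open MeasureTheory Topology Filter

variable {k : ℕ}

/-- the open set where `i` beats all labels except `u`, `l`, and `j` is the strict bottom -/
def Otop (x : Fan k) (u i l j : Lb k) : Set (Sp k) :=
  {p | (∀ s, s ≠ u → s ≠ i → s ≠ l → cval (x s) p < cval (x i) p) ∧ ∀ s, s ≠ j → cval (x j) p < cval (x s) p}

theorem isOpen_Otop (x : Fan k) (u i l j : Lb k) : IsOpen (Otop x u i l j) := by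
  have h : Otop x u i l j = (⋂ s, ⋂ (_ : s ≠ u ∧ s ≠ i ∧ s ≠ l), {p | cval (x s) p < cval (x i) p}) ∩
      ⋂ s, ⋂ (_ : s ≠ j), {p | cval (x j) p < cval (x s) p} := by
    ext p
    simp only [Otop, Set.mem_inter_iff, Set.mem_iInter, and_imp]
    rfl
  rw [h]
  exact (isOpen_iInter_of_finite fun s => isOpen_iInter_of_finite fun _ =>
    isOpen_lt (continuous_cval_right _) (continuous_cval_right _)).inter
    (isOpen_iInter_of_finite fun s => isOpen_iInter_of_finite fun _ =>
      isOpen_lt (continuous_cval_right _) (continuous_cval_right _))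

theorem exists_mem_Otop {x : Fan k} (hx : Nondeg x) {u i l j : Lb k}
    (hju : j ≠ u) (hji : j ≠ i) (hjl : j ≠ l) :
    ∃ p ∈ Otop x u i l j, cval (x u - x i) p = 0 ∧ cval (x l - x i) p = 0 := by
  classical
  obtain ⟨p, hp⟩ := exists_point hx (fun s => if s = u ∨ s = i ∨ s = l then 2 else if s = j then 0 else 1)
  refine ⟨p, ⟨?_, ?_⟩, ?_, ?_⟩
  · intro s h1 h2 h3
    have := hp s i
    simp only [h1, h2, h3, false_or, if_false, true_or, or_true, if_true] at this
    split_ifs at this <;> linarith
  · intro s hs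
    have := hp j s
    simp only [hju, hji, hjl, false_or, if_false, if_true, hs] at this
    split_ifs at this <;> linarith
  · rw [cval_sub, hp]; simp
  · rw [cval_sub, hp]; simp

/-! ### the symmetry `x ↦ -x` -/

theorem Nondeg.neg {x : Fan k} (hx : Nondeg x) : Nondeg (fun s => -x s) := by
  intro ρ h1 h2 h3
  refine hx ρ h1 ?_ ?_
  · have : ∑ s, ρ s • (-x s).1 = -∑ s, ρ s • (x s).1 := by
      rw [← Finset.sum_neg_distrib]
      exact Finset.sum_congr rfl fun s _ => by rw [Prod.fst_neg, smul_neg]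
    rw [this] at h2
    exact neg_eq_zero.mp h2
  · have : ∑ s, ρ s • (-x s).2.1 = -∑ s, ρ s • (x s).2.1 := by
      rw [← Finset.sum_neg_distrib]
      exact Finset.sum_congr rfl fun s _ => by rw [Prod.snd_neg, Prod.fst_neg, smul_neg]
    rw [this] at h3
    exact neg_eq_zero.mp h3

theorem cell_neg (x : Fan k) (i j : Lb k) : cell (fun s => -x s) i j = cell x j i := by
  ext p
  simp only [cell, Set.mem_ofPred_eq, cval_neg, neg_le_neg_iff]
  exact forall_congr' fun s => and_comm

theorem Hf_neg (x : Fan k) (h : Lb k → Lb k → ℝ) (q : Sp k) :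
    Hf (fun s => -x s) (fun i j => h j i) q = Hf x h q := by
  unfold Hf
  simp only [cell_neg]
  exact Finset.sum_comm

theorem Good.neg {x : Fan k} {p : Sp k} (h : Good (fun s => -x s) p) : Good x p := by
  intro s s' hs
  have h' := h s s' hs
  have e1 : zt ((-x s).1 - (-x s').1) p.1 = -zt ((x s).1 - (x s').1) p.1 := by
    rw [← zt_neg_left]; congr 1; simp only [Prod.fst_neg]; abel
  have e2 : et ((-x s).2 - (-x s').2) p.2 = -et ((x s).2 - (x s').2) p.2 := by
    have : (-x s).2 - (-x s').2 = (-1 : ℝ) • ((x s).2 - (x s').2) := by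
      simp only [Prod.snd_neg, neg_smul, one_smul]; abel
    rw [this, et_smul_left]; ring
  simp only [e1, e2, neg_ne_zero] at h'
  exact h'

theorem K_neg {x : Fan k} {h : Lb k → Lb k → ℝ} (hh : h ∈ K x) : (fun i j => h j i) ∈ K (fun s => -x s) := by
  refine ⟨fun i => hh.1 i, fun p hp => ?_⟩
  have := hh.2 p hp.neg
  unfold avg at this ⊢
  simp only [Hf_neg]
  exact this

end Pool.Agent.FAN
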