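import Pool.Agent.FAN.PT

/-! Support of the kink weights (used in `C1`, `COL`, `SYR`). -/

set_option autoImplicit false

namespace Pool.Agent.FAN

variable {k : ℕ}

theorem mem_Cons {i j : Lb k} {c : Lb k × Lb k} : c ∈ Cons i j ↔ c.1 ≠ c.2 ∧ (c.1 = i ∨ c.2 = j) := by
  simp [Cons]

theorem rotc_ne_zero {x : Fan k} (hx : Nondeg x) {θ : ℂ} (hθ : ‖θ‖ = 1) {s s' : Lb k} (hs : s ≠ s') :
    rotc θ (x s - x s') ≠ 0 := by
  intro h
  have hθ0 : θ ≠ 0 := by
    intro h0; rw [h0] at hθ; simp at hθ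
  have h1 : θ • ((x s).1 - (x s').1) = 0 := congrArg Prod.fst h
  have h2 : (x s).2 - (x s').2 = 0 := congrArg Prod.snd h
  have h1' : (x s).1 - (x s').1 = 0 := (smul_eq_zero.mp h1).resolve_left hθ0
  exact hs (hx.inj (sub_eq_zero.mp h1') (congrArg Prod.fst (sub_eq_zero.mp h2)))

/-- if the kink weight is nonzero then there are two active constraints, both in the pencil, the first one being
a multiple of the wall `v_u = v_i` -/
theorem wt_support {x : Fan k} (hx : Nondeg x) {u i l : Lb k} {w ν p : Sp k} (hd : Dirs x u i l w ν)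
    (hG : Gen x u i l p) {θ : ℂ} (hθ : ‖θ‖ = 1) {i' j' : Lb k} (hij : i' ≠ j') (hw : wt x i' j' θ p w ν ≠ 0) :
    rot θ p ∈ cell x i' j' ∧ ∃ c ∈ Cons i' j', ∃ d ∈ Cons i' j', c ≠ d ∧
      cval (x c.1 - x c.2) (rot θ p) = 0 ∧ cval (x d.1 - x d.2) (rot θ p) = 0 ∧
      rotc θ (x d.1 - x d.2) ∈ Submodule.span ℝ {x u - x i, x l - x i} ∧
      ∃ α : ℝ, α ≠ 0 ∧ rotc θ (x c.1 - x c.2) = α • (x u - x i) := by
  classical
  unfold wt at hw
  split_ifs at hw with hcell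
  · refine ⟨hcell, ?_⟩
    obtain ⟨c, hc, hc'⟩ := Finset.exists_ne_zero_of_sum_ne_zero hw
    obtain ⟨d, hdd, hd'⟩ := Finset.exists_ne_zero_of_sum_ne_zero hc'
    split_ifs at hd' with hcond
    · obtain ⟨h1, h2, h3, h4⟩ := hcond
      have hcC := mem_Cons.mp hc
      have hdC := mem_Cons.mp hdd
      have hp1 : ¬ (c.1 = d.1 ∧ c.2 = d.2) := fun h => h1 (Prod.ext h.1 h.2)
      have hp2 : ¬ (c.1 = d.2 ∧ c.2 = d.1) := by
        rintro ⟨ha, hb⟩
        rcases hcC.2 with h | h <;> rcases hdC.2 with h' | h'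
        · exact hcC.1 (by rw [h, hb, h'])
        · exact hij (by rw [← h, ha, h'])
        · exact hij (by rw [← h', ← hb, h])
        · exact hcC.1 (by rw [ha, h', h])
      obtain ⟨hm1, hm2⟩ := hG.pencil c.1 c.2 d.1 d.2 hcC.1 hdC.1 hp1 hp2 θ hθ h2 h3
      refine ⟨c, hc, d, hdd, h1, h2, h3, hm2, ?_⟩
      obtain ⟨a, b, hab⟩ := Submodule.mem_span_pair.mp hm1
      rw [← hab, clin_add, clin_smul, clin_smul, hd.1, hd.2.1] at h4
      have hb : b = 0 := by linarith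
      refine ⟨a, ?_, ?_⟩
      · intro ha
        apply rotc_ne_zero hx hθ hcC.1
        rw [← hab, ha, hb]; simp
      · rw [← hab, hb]; simp
    · exact absurd rfl hd'
  · exact absurd rfl hw

end Pool.Agent.FAN
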