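import Pool.Agent.FAN.KR
import Pool.Agent.FAN.KDT
import Pool.Agent.FAN.WTS
import Pool.Agent.FAN.TOP

set_option autoImplicit false

namespace Pool.Agent.FAN

open MeasureTheory Topology Filter

variable {k : ℕ}

theorem C1_top {x : Fan k} (hx : Nondeg x) {h : Lb k → Lb k → ℝ} (hh : h ∈ K x) {u i j : Lb k}
    (hui : u ≠ i) (huj : u ≠ j) (hij : i ≠ j) (ha : (x u).1 ≠ (x i).1)
    (hpart : ∀ (θ : ℂ) (s s' : Lb k) (α : ℝ), ‖θ‖ = 1 → θ ≠ 1 → s ≠ s' → α ≠ 0 →
      rotc θ (x s - x s') = α • (x u - x i) → (∀ b, h s b = 0) ∧ (∀ t, h t s' = 0)) :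
    h u j = h i j := by
  classical
  obtain ⟨l, hlu, hli, hlj, hI⟩ := exists_typeI hx ha j huj.symm hij.symm
  obtain ⟨w, ν, hd⟩ := exists_dirs hx hui hlu.symm hli.symm
  obtain ⟨p₀, hp₀, h1, h2⟩ := exists_mem_Otop hx (l := l) huj.symm hij.symm hlj.symm
  obtain ⟨p, hp, hp1, hp2, hG, Θ, hΘ, hΘ', hsum⟩ :=
    kink_relation hx hui hlu.symm hli.symm hI hd (isOpen_Otop x u i l j) hp₀ h1 h2
  have hs := hsum h hh
  -- the contribution of `θ = 1`
  have hone : kD x h 1 p w ν = h u j - h i j := by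
    have e1 : cval (x u) p = cval (x i) p := by
      rw [cval_sub] at hp1; linarith
    have e2 : cval (x l) p = cval (x i) p := by
      rw [cval_sub] at hp2; linarith
    have := kD_triple hx hui hlu.symm hli.symm hd (p := p) (θ := 1) (by simp) (s₁ := u) (s₂ := i) (s₃ := l) (b := j)
      hui hlu.symm hli.symm huj.symm hij.symm hlj.symm (by simpa using e1) (by simpa using e2)
      (by
        intro s hs1 hs2 hs3
        simpa using hp.1 s hs1 hs2 hs3)
      (by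
        intro s hs1
        simpa using hp.2 s hs1)
      (by simp) (β₁ := 0) (β₂ := 1) one_ne_zero (by simp) h
    rw [this]; simp
  have hother : ∀ θ : ℂ, ‖θ‖ = 1 → θ ≠ 1 → kD x h θ p w ν = 0 := by
    intro θ hθ hθ1
    unfold kD
    refine Finset.sum_eq_zero fun i' _ => Finset.sum_eq_zero fun j' _ => ?_
    split_ifs with hij'
    · rfl
    · by_cases hw : wt x i' j' θ p w ν = 0
      · rw [hw, mul_zero]
      · obtain ⟨_, c, hc, d, _, _, _, _, _, α, hα, hr⟩ := wt_support hx hd hG hθ hij' hw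
        have hc' := mem_Cons.mp hc
        obtain ⟨hrow, hcol⟩ := hpart θ c.1 c.2 α hθ hθ1 hc'.1 hα hr
        rcases hc'.2 with hc1 | hc2
        · rw [← hc1, hrow, zero_mul]
        · rw [← hc2, hcol, zero_mul]
  have hsum1 : ∑ θ ∈ Θ, kD x h θ p w ν = kD x h 1 p w ν := by
    by_cases h1Θ : (1 : ℂ) ∈ Θ
    · exact Finset.sum_eq_single_of_mem 1 h1Θ fun θ hθ hne => hother θ (hΘ θ hθ) hne
    · rw [Finset.sum_eq_zero fun θ hθ => hother θ (hΘ θ hθ) (fun h => h1Θ (h ▸ hθ))]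
      unfold kD
      refine (Finset.sum_eq_zero fun i' _ => Finset.sum_eq_zero fun j' _ => ?_).symm
      split_ifs with hij'
      · rfl
      · rw [hΘ' 1 (by simp) h1Θ i' j' hij', mul_zero]
  rw [hsum1, hone] at hs
  linarith

theorem C1_bot {x : Fan k} (hx : Nondeg x) {h : Lb k → Lb k → ℝ} (hh : h ∈ K x) {u i j : Lb k}
    (hui : u ≠ i) (huj : u ≠ j) (hij : i ≠ j) (ha : (x u).1 ≠ (x i).1)
    (hpart : ∀ (θ : ℂ) (s s' : Lb k) (α : ℝ), ‖θ‖ = 1 → θ ≠ 1 → s ≠ s' → α ≠ 0 →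
      rotc θ (x s - x s') = α • (x u - x i) → (∀ b, h s b = 0) ∧ (∀ t, h t s' = 0)) :
    h j u = h j i := by
  refine C1_top (x := fun s => -x s) hx.neg (K_neg hh) hui huj hij ?_ ?_
  · intro h'
    apply ha
    simpa using h'
  · intro θ s s' α hθ hθ1 hs hα hr
    have hr' : rotc θ (x s' - x s) = (-α) • (x u - x i) := by
      have e1 : rotc θ (-x s - -x s') = rotc θ (x s' - x s) := by congr 1; abel
      have e2 : α • (-x u - -x i) = (-α) • (x u - x i) := by
        rw [neg_smul, ← smul_neg]; congr 1; abel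
      rw [← e1, ← e2]; exact hr
    obtain ⟨h1, h2⟩ := hpart θ s' s (-α) hθ hθ1 hs.symm (neg_ne_zero.mpr hα) hr'
    exact ⟨fun b => h2 b, fun t => h1 t⟩

end Pool.Agent.FAN
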