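import Pool.Agent.FAN.KDefs

set_option autoImplicit false

namespace Pool.Agent.FAN

open MeasureTheory Topology Filter

variable {k : ℕ}

/-- differences of linear parts and constants, as a linear map -/
def ptMap (x : Fan k) : (Sp k × ℝ) →ₗ[ℝ] (Lb k → ℝ) where
  toFun v := fun s => clin (x s) v.1 + v.2
  map_add' v w := by
    funext s
    simp only [Prod.fst_add, Prod.snd_add, clin_add_right, Pi.add_apply]; ring
  map_smul' r v := by
    funext s
    simp only [Prod.smul_fst, Prod.smul_snd, clin_smul_right, Pi.smul_apply, smul_eq_mul,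
      RingHom.id_apply]; ring

theorem clin_sum {ι : Type*} (S : Finset ι) (ρ : ι → ℝ) (f : ι → Cf k) (v : Sp k) :
    clin (∑ s ∈ S, ρ s • f s) v = ∑ s ∈ S, ρ s * clin (f s) v := by
  classical
  induction S using Finset.induction_on with
  | empty => simp
  | insert a S ha ih => rw [Finset.sum_insert ha, Finset.sum_insert ha, clin_add, clin_smul, ih]

theorem clin_eq_zero {c : Cf k} (h : ∀ v : Sp k, clin c v = 0) : c.1 = 0 ∧ c.2.1 = 0 := by
  have h1 := h ((starRingEnd ℂ c.1.1, starRingEnd ℂ c.1.2), 0)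
  have h2 : ∀ l, c.2.1 l = 0 := by
    intro l
    have := h (0, Pi.single l 1)
    simpa [clin, Pi.single_apply] using this
  refine ⟨?_, funext h2⟩
  simp only [clin, zt, Complex.mul_conj, Pi.zero_apply, mul_zero, Finset.sum_const_zero,
    add_zero, Complex.add_re, Complex.ofReal_re] at h1
  have n1 := Complex.normSq_nonneg c.1.1
  have n2 := Complex.normSq_nonneg c.1.2
  ext1
  · exact Complex.normSq_eq_zero.mp (by linarith)
  · exact Complex.normSq_eq_zero.mp (by linarith)

theorem ptMap_surj {x : Fan k} (hx : Nondeg x) : Function.Surjective (ptMap x) := by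
  rw [← LinearMap.range_eq_top]
  by_contra hne
  obtain ⟨f, hf0, hf⟩ := Submodule.exists_le_ker_of_lt_top _ (lt_top_iff_ne_top.mpr hne)
  set ρ : Lb k → ℝ := fun s => f (Pi.single s 1) with hρ
  have hfw : ∀ w : Lb k → ℝ, f w = ∑ s, ρ s * w s := by
    intro w
    rw [LinearMap.pi_apply_eq_sum_univ f w]
    apply Finset.sum_congr rfl
    intro s _
    rw [smul_eq_mul, mul_comm]
    congr 2
    funext t
    simp [Pi.single_apply, eq_comm]
  have hz : ∀ v : Sp k × ℝ, ∑ s, ρ s * (clin (x s) v.1 + v.2) = 0 := by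
    intro v
    have := hf (LinearMap.mem_range_self (ptMap x) v)
    rw [LinearMap.mem_ker, hfw] at this
    exact this
  have h1 : ∑ s, ρ s = 0 := by
    have := hz (0, 1)
    simpa [clin] using this
  have h2 : ∀ v : Sp k, clin (∑ s, ρ s • x s) v = 0 := by
    intro v
    rw [clin_sum]
    have := hz (v, 0)
    simpa using this
  obtain ⟨h3, h4⟩ := clin_eq_zero h2
  rw [Prod.fst_sum] at h3
  rw [Prod.snd_sum, Prod.fst_sum] at h4
  have h5 := hx ρ h1 (by simpa using h3) (by simpa using h4)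
  apply hf0
  apply LinearMap.ext
  intro w
  rw [hfw w]
  simp [h5]

theorem exists_dir {x : Fan k} (hx : Nondeg x) (w : Lb k → ℝ) :
    ∃ v : Sp k, ∀ s s', clin (x s) v - clin (x s') v = w s - w s' := by
  obtain ⟨v, hv⟩ := ptMap_surj hx w
  refine ⟨v.1, fun s s' => ?_⟩
  have h1 : clin (x s) v.1 + v.2 = w s := congrFun hv s
  have h2 : clin (x s') v.1 + v.2 = w s' := congrFun hv s'
  linarith

theorem cval_eq_clin (c : Cf k) (p : Sp k) : cval c p = clin c p + c.2.2 := by
  simp only [cval, clin, et]; ring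

theorem exists_point {x : Fan k} (hx : Nondeg x) (w : Lb k → ℝ) :
    ∃ p : Sp k, ∀ s s', cval (x s) p - cval (x s') p = w s - w s' := by
  obtain ⟨v, hv⟩ := exists_dir hx (fun s => w s - (x s).2.2)
  refine ⟨v, fun s s' => ?_⟩
  have := hv s s'
  rw [cval_eq_clin, cval_eq_clin]
  linarith

theorem smul_of_cdet {b c : ℂ × ℂ} (hb : b ≠ 0) (h : cdet b c = 0) : ∃ μ : ℂ, c = μ • b := by
  unfold cdet at h
  by_cases h1 : b.1 = 0
  · have h2 : b.2 ≠ 0 := by
      intro h2
      exact hb (Prod.ext h1 h2)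
    rw [h1, zero_mul, zero_sub, neg_eq_zero, mul_eq_zero] at h
    have h3 : c.1 = 0 := h.resolve_left h2
    refine ⟨c.2 / b.2, Prod.ext ?_ ?_⟩
    · simp [h1, h3]
    · simp [h2]
  · refine ⟨c.1 / b.1, Prod.ext ?_ ?_⟩
    · simp [h1]
    · simp only [Prod.smul_snd, smul_eq_mul]
      field_simp
      linear_combination h

theorem exists_typeI {x : Fan k} (hx : Nondeg x) {u i : Lb k} (ha : (x u).1 ≠ (x i).1) (j : Lb k)
    (hju : j ≠ u) (hji : j ≠ i) :
    ∃ l, l ≠ u ∧ l ≠ i ∧ l ≠ j ∧ cdet ((x u).1 - (x i).1) ((x l).1 - (x i).1) ≠ 0 := by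
  by_contra hcon
  push Not at hcon
  have hb : (x u).1 - (x i).1 ≠ 0 := sub_ne_zero.mpr ha
  have hμ : ∀ l, ∃ μ : ℂ, l ≠ j → (x l).1 - (x i).1 = μ • ((x u).1 - (x i).1) := by
    intro l
    by_cases h1 : l = u
    · exact ⟨1, fun _ => by rw [h1, one_smul]⟩
    by_cases h2 : l = i
    · exact ⟨0, fun _ => by rw [h2, sub_self, zero_smul]⟩
    by_cases h3 : l = j
    · exact ⟨0, fun h => absurd h3 h⟩
    obtain ⟨μ, hμ⟩ := smul_of_cdet hb (hcon l h1 h2 h3)
    exact ⟨μ, fun _ => hμ⟩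
  choose μ hμ using hμ
  let Θ : (Lb k → ℝ) →ₗ[ℝ] (ℝ × ℝ × ℂ × (Fin k → ℝ)) :=
    { toFun := fun ρ => (ρ j, ∑ s, ρ s, ∑ s, ρ s • μ s, ∑ s, ρ s • (x s).2.1)
      map_add' := by
        intro ρ ρ'
        simp only [Pi.add_apply, Finset.sum_add_distrib, add_smul, Prod.mk_add_mk]
      map_smul' := by
        intro r ρ
        simp only [Pi.smul_apply, smul_eq_mul, mul_smul, ← Finset.mul_sum, ← Finset.smul_sum,
          Prod.smul_mk, RingHom.id_apply] }
  have hker : LinearMap.ker Θ ≠ ⊥ := by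
    apply LinearMap.ker_ne_bot_of_finrank_lt
    simp only [Module.finrank_prod, Module.finrank_self, Complex.finrank_real_complex,
      Module.finrank_fintype_fun_eq_card, Fintype.card_fin]
    omega
  obtain ⟨ρ, hρ, hρ0⟩ := (Submodule.ne_bot_iff _).mp hker
  rw [LinearMap.mem_ker] at hρ
  have e : (ρ j, ∑ s, ρ s, ∑ s, ρ s • μ s, ∑ s, ρ s • (x s).2.1) = (0 : ℝ × ℝ × ℂ × (Fin k → ℝ)) := hρ
  simp only [Prod.mk_eq_zero] at e
  obtain ⟨e1, e2, e3, e4⟩ := e
  apply hρ0
  apply hx ρ e2 _ e4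
  have h5 : ∀ s, ρ s • (x s).1 = ρ s • (x i).1 + (ρ s • μ s) • ((x u).1 - (x i).1) := by
    intro s
    by_cases hs : s = j
    · rw [hs, e1]; simp
    · have := hμ s hs
      rw [smul_assoc, ← this, ← smul_add]
      congr 1
      abel
  rw [Finset.sum_congr rfl (fun s _ => h5 s), Finset.sum_add_distrib, ← Finset.sum_smul, e2,
    ← Finset.sum_smul, e3]
  simp

/-- two labels with the same `a` and the same `(λ, c)` are equal -/
theorem Nondeg.inj {x : Fan k} (hx : Nondeg x) {s s' : Lb k} (h1 : (x s).1 = (x s').1)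
    (h2 : (x s).2.1 = (x s').2.1) : s = s' := by
  by_contra hne
  have h := hx (Pi.single s 1 - Pi.single s' 1) (by simp [Finset.sum_sub_distrib])
    (by simp [sub_smul, Finset.sum_sub_distrib, Pi.single_apply, ite_smul, h1])
    (by simp [sub_smul, Finset.sum_sub_distrib, Pi.single_apply, ite_smul, h2])
  have := congrFun h s
  simp [hne] at this

end Pool.Agent.FAN
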