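import Pool.Agent.FAN.U1
import Pool.Agent.FAN.AX1
import Pool.Agent.FAN.AX2
import Pool.Agent.FAN.AX3

set_option autoImplicit false

namespace Pool.Agent.FAN

open MeasureTheory Topology Filter

variable {k : ℕ}

namespace PTNaux

/-- the relation of the four labels -/
def rh (s s' u i : Lb k) (α : ℝ) : Lb k → ℝ := ed s s' - α • ed u i

theorem sum_ed_smul {M : Type} [AddCommGroup M] [Module ℝ M] (f : Lb k → M) (s s' : Lb k) :
    ∑ t, ed s s' t • f t = f s - f s' := by
  simp only [ed, Pi.sub_apply, sub_smul, Finset.sum_sub_distrib]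
  rw [Finset.sum_eq_single s, Finset.sum_eq_single s']
  · simp
  · intro b _ hb; rw [Pi.single_eq_of_ne hb, zero_smul]
  · intro h; exact absurd (Finset.mem_univ _) h
  · intro b _ hb; rw [Pi.single_eq_of_ne hb, zero_smul]
  · intro h; exact absurd (Finset.mem_univ _) h

theorem sum_rh_smul {M : Type} [AddCommGroup M] [Module ℝ M] (f : Lb k → M) (s s' u i : Lb k)
    (α : ℝ) : ∑ t, rh s s' u i α t • f t = f s - f s' - α • (f u - f i) := by
  simp only [rh, Pi.sub_apply, Pi.smul_apply, smul_eq_mul, sub_smul, mul_smul,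
    Finset.sum_sub_distrib, ← Finset.smul_sum, sum_ed_smul]

theorem rh_mem {x : Fan k} {s s' u i : Lb k} {α : ℝ}
    (h : (x s).2.1 - (x s').2.1 = α • ((x u).2.1 - (x i).2.1)) : rh s s' u i α ∈ Zs x := by
  refine ⟨?_, ?_⟩
  · have h1 := sum_rh_smul (fun _ : Lb k => (1 : ℝ)) s s' u i α
    simpa using h1
  · rw [sum_rh_smul (fun t => (x t).2.1), h, sub_self]

theorem rh_supp (s s' u i : Lb k) (α : ℝ) :
    (Finset.univ.filter fun t => rh s s' u i α t ≠ 0).card ≤ 4 := by
  classical
  refine (Finset.card_le_card ?_).trans (Finset.card_le_four (a := s) (b := s') (c := u) (d := i))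
  intro t ht
  rw [Finset.mem_filter] at ht
  by_contra hcon
  simp only [Finset.mem_insert, Finset.mem_singleton, not_or] at hcon
  apply ht.2
  simp [rh, ed, Pi.single_eq_of_ne hcon.1, Pi.single_eq_of_ne hcon.2.1,
    Pi.single_eq_of_ne hcon.2.2.1, Pi.single_eq_of_ne hcon.2.2.2]

end PTNaux

open PTNaux

theorem partner {x : Fan k} (hx : Nondeg x) {i u : Lb k}
    (hshort : ∀ ρ ∈ Zs x, (Finset.univ.filter fun s => ρ s ≠ 0).card ≤ 4 → ρ i = 0)
    (hui : u ≠ i) (ha : (x u).1 ≠ (x i).1)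
    {θ : ℂ} {s s' : Lb k} {α : ℝ} (hθ : ‖θ‖ = 1) (hθ1 : θ ≠ 1) (hs : s ≠ s') (hα : α ≠ 0)
    (hr : rotc θ (x s - x s') = α • (x u - x i)) :
    (s' = i ∧ α = 1 ∧ s ≠ u ∧ rel x i u s) ∨ (s = i ∧ α = -1 ∧ s' ≠ u ∧ rel x i u s') := by
  have hr1 : θ • ((x s).1 - (x s').1) = α • ((x u).1 - (x i).1) := by
    have := congrArg Prod.fst hr
    simpa [rotc] using this
  have hr2 : (x s).2 - (x s').2 = α • ((x u).2 - (x i).2) := by
    have := congrArg Prod.snd hr
    simpa [rotc] using this
  have hr3 : (x s).2.1 - (x s').2.1 = α • ((x u).2.1 - (x i).2.1) := by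
    have := congrArg Prod.fst hr2
    simpa using this
  have h0 := hshort _ (rh_mem (u := u) hr3) (rh_supp s s' u i α)
  have hsub : (x u).1 - (x i).1 ≠ 0 := sub_ne_zero.2 ha
  simp only [rh, ed, Pi.sub_apply, Pi.smul_apply, smul_eq_mul, Pi.single_eq_same,
    Pi.single_eq_of_ne hui.symm, zero_sub, mul_neg, mul_one, sub_neg_eq_add] at h0
  by_cases h1 : s' = i
  · left
    subst h1
    rw [Pi.single_eq_of_ne hs.symm, Pi.single_eq_same] at h0
    have hα1 : α = 1 := by linarith
    subst hα1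
    rw [one_smul] at hr1 hr2
    refine ⟨rfl, rfl, ?_, ?_, θ, hθ, hr1⟩
    · rintro rfl
      apply hθ1
      have h2 : (θ - 1) • ((x s).1 - (x s').1) = 0 := by rw [sub_smul, one_smul, hr1, sub_self]
      exact sub_eq_zero.1 ((smul_eq_zero.1 h2).resolve_right hsub)
    · have := sub_left_injective hr2
      exact this.symm
  · right
    by_cases h2 : s = i
    · subst h2
      rw [Pi.single_eq_same, Pi.single_eq_of_ne hs] at h0
      have hα1 : α = -1 := by linarith
      subst hα1
      have hr1' : θ • ((x s').1 - (x s).1) = (x u).1 - (x s).1 := by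
        rw [← neg_sub (x s).1 (x s').1, smul_neg, hr1, neg_smul, one_smul, neg_neg]
      refine ⟨rfl, rfl, ?_, ?_, θ, hθ, hr1'⟩
      · rintro rfl
        apply hθ1
        have h2 : (θ - 1) • ((x s').1 - (x s).1) = 0 := by rw [sub_smul, one_smul, hr1', sub_self]
        exact sub_eq_zero.1 ((smul_eq_zero.1 h2).resolve_right hsub)
      · rw [neg_smul, one_smul, neg_sub] at hr2
        have := sub_right_injective hr2
        exact this.symm
    · exfalso
      rw [Pi.single_eq_of_ne (Ne.symm h2), Pi.single_eq_of_ne (Ne.symm h1)] at h0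
      apply hα
      linarith

theorem exists_tame {x : Fan k} (hx : Nondeg x) : ∃ U, Tame x U := by
  classical
  obtain ⟨U1, hc1, hU1⟩ := exists_U1 hx
  obtain ⟨U2, hc2, hU2⟩ := exists_U2 hx
  refine ⟨U1 ∪ U2, ?_, ?_, ?_⟩
  · exact (Finset.card_union_le _ _).trans (by omega)
  · intro ρ hρ hcard s hs
    exact Finset.mem_union_left _ (hU1 ρ hρ hcard s hs)
  · intro h hh i hi j hj
    rw [Finset.mem_union, not_or] at hi hj
    by_cases hij : i = j
    · subst hij
      exact (mem_K.1 hh).1 i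
    · obtain ⟨y, hy1, hy2⟩ := axis_feasible hij (hU2 i hi.2 j hj.2 hij)
      exact zero_of_feasible hx hy1 hy2 hh

end Pool.Agent.FAN
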