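import Pool.Agent.FAN.KDefs

set_option autoImplicit false

namespace Pool.Agent.FAN

open MeasureTheory Topology Filter

variable {k : ℕ}

theorem rel_equiv (x : Fan k) (i : Lb k) : Equivalence (rel x i) := by
  refine ⟨fun s => ⟨rfl, 1, by simp, one_smul _ _⟩, ?_, ?_⟩
  · rintro s s' ⟨h, θ, hθ, h1⟩
    have hθ0 : θ ≠ 0 := by
      rintro rfl
      simp at hθ
    refine ⟨h.symm, θ⁻¹, by rw [norm_inv, hθ, inv_one], ?_⟩
    rw [← h1, smul_smul, inv_mul_cancel₀ hθ0, one_smul]
  · rintro s s' s'' ⟨h, θ, hθ, h1⟩ ⟨h', θ', hθ', h1'⟩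
    refine ⟨h.trans h', θ * θ', by rw [norm_mul, hθ, hθ', one_mul], ?_⟩
    rw [mul_smul, h1', h1]

theorem rel_ed_apply (s s' t : Lb k) :
    ed s s' t = (if t = s then 1 else 0) - (if t = s' then 1 else 0) := by
  unfold ed
  rw [Pi.sub_apply, Pi.single_apply, Pi.single_apply]

open Classical in
/-- the sum over a class -/
noncomputable def relPhi (x : Fan k) (i s : Lb k) : (Lb k → ℝ) →ₗ[ℝ] ℝ where
  toFun w := ∑ t ∈ cls x i s, w t
  map_add' w w' := by simp only [Pi.add_apply, Finset.sum_add_distrib]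
  map_smul' r w := by
    simp only [Pi.smul_apply, smul_eq_mul, RingHom.id_apply, Finset.mul_sum]

open Classical in
theorem relPhi_ed (x : Fan k) (i s t t' : Lb k) : relPhi x i s (ed t t') =
    (if rel x i s t then 1 else 0) - (if rel x i s t' then 1 else 0) := by
  change ∑ r ∈ cls x i s, ed t t' r = _
  simp only [rel_ed_apply, Finset.sum_sub_distrib, Finset.sum_ite_eq', cls, Finset.mem_filter,
    Finset.mem_univ, true_and]

theorem mem_Rel_iff {x : Fan k} {i s s' : Lb k} : ed s s' ∈ Rel x i ↔ rel x i s s' := by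
  classical
  constructor
  · intro h
    have hker : Rel x i ≤ LinearMap.ker (relPhi x i s) := by
      unfold Rel
      rw [Submodule.span_le]
      rintro v ⟨t, t', htt, rfl⟩
      change relPhi x i s (ed t t') = 0
      rw [relPhi_ed]
      by_cases h1 : rel x i s t
      · have h2 : rel x i s t' := (rel_equiv x i).trans h1 htt
        rw [if_pos h1, if_pos h2, sub_self]
      · have h2 : ¬ rel x i s t' := fun h2 => h1 ((rel_equiv x i).trans h2 ((rel_equiv x i).symm htt))
        rw [if_neg h1, if_neg h2, sub_self]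
    have h1 : relPhi x i s (ed s s') = 0 := hker h
    rw [relPhi_ed, if_pos ((rel_equiv x i).refl s)] at h1
    by_contra h2
    rw [if_neg h2] at h1
    norm_num at h1
  · intro h
    exact Submodule.subset_span ⟨s, s', h, rfl⟩

theorem Rel_le (x : Fan k) (i : Lb k) : Rel x i ≤ EqR x := by
  unfold Rel EqR
  apply Submodule.span_mono
  rintro v ⟨s, s', h, rfl⟩
  exact ⟨s, s', h.1, rfl⟩

theorem EqR_le (x : Fan k) : EqR x ≤ Zs x := by
  unfold EqR
  rw [Submodule.span_le]
  rintro v ⟨s, s', h, rfl⟩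
  change ∑ t, ed s s' t = 0 ∧ ∑ t, ed s s' t • (x t).2.1 = 0
  constructor
  · simp [rel_ed_apply, Finset.sum_sub_distrib]
  · simp [rel_ed_apply, sub_smul, Finset.sum_sub_distrib, ite_smul, h]

/-- representatives -/
theorem exists_rep (x : Fan k) (i : Lb k) : ∃ r : Lb k → Lb k, (∀ s, rel x i s (r s)) ∧
    (∀ s s', rel x i s s' → r s = r s') ∧
    (Finset.univ.filter fun s => r s ≠ s).card ≤ Module.finrank ℝ (Rel x i) := by
  classical
  let S : Setoid (Lb k) := ⟨rel x i, rel_equiv x i⟩
  let r : Lb k → Lb k := fun s => (Quotient.mk S s).out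
  have h1 : ∀ s, rel x i s (r s) := fun s => by
    have : S (Quotient.mk S s).out s := Quotient.mk_out s
    exact (rel_equiv x i).symm this
  have h2 : ∀ s s', rel x i s s' → r s = r s' := fun s s' h => by
    have : Quotient.mk S s = Quotient.mk S s' := Quotient.sound h
    change (Quotient.mk S s).out = (Quotient.mk S s').out
    rw [this]
  refine ⟨r, h1, h2, ?_⟩
  have hmem : ∀ s : {s // r s ≠ s}, ed s.1 (r s.1) ∈ Rel x i := fun s => mem_Rel_iff.2 (h1 s.1)
  have hli : LinearIndependent ℝ (fun s : {s // r s ≠ s} => (⟨ed s.1 (r s.1), hmem s⟩ : Rel x i)) := by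
    rw [Fintype.linearIndependent_iff]
    intro g hg t
    have h3 := congrArg (fun v : Rel x i => (v : Lb k → ℝ) t.1) hg
    simp only [Submodule.coe_sum, Submodule.coe_smul, Submodule.coe_zero, Finset.sum_apply,
      Pi.smul_apply, smul_eq_mul, Pi.zero_apply] at h3
    rw [Finset.sum_eq_single t] at h3
    · rw [rel_ed_apply, if_pos rfl, if_neg (Ne.symm t.2), sub_zero, mul_one] at h3
      exact h3
    · intro b _ hb
      rw [rel_ed_apply, if_neg (fun h => hb (Subtype.ext h.symm)), if_neg, sub_zero, mul_zero]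
      intro h
      apply t.2
      have h4 : r t.1 = r (r b.1) := congrArg r h
      rw [← h2 b.1 (r b.1) (h1 b.1)] at h4
      rw [h4, h]
    · intro hh
      exact absurd (Finset.mem_univ _) hh
  have h5 := hli.fintype_card_le_finrank
  rw [Fintype.card_subtype] at h5
  exact h5

end Pool.Agent.FAN
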