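import Pool.Agent.FAN.KDefs

set_option autoImplicit false

namespace Pool.Agent.FAN

open MeasureTheory Topology Filter

variable {k : ℕ}

/-- all three sums of a relation vector -/
noncomputable def zaPhi (x : Fan k) : (Lb k → ℝ) →ₗ[ℝ] ℝ × (ℂ × ℂ) × (Fin k → ℝ) where
  toFun ρ := (∑ s, ρ s, ∑ s, ρ s • (x s).1, ∑ s, ρ s • (x s).2.1)
  map_add' ρ ρ' := by
    simp only [Pi.add_apply, add_smul, Finset.sum_add_distrib, Prod.mk_add_mk]
  map_smul' r ρ := by
    simp only [Pi.smul_apply, smul_eq_mul, RingHom.id_apply, Prod.smul_mk, Finset.smul_sum,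
      Finset.mul_sum, mul_smul]

theorem zaPhi_apply (x : Fan k) (ρ : Lb k → ℝ) :
    zaPhi x ρ = (∑ s, ρ s, ∑ s, ρ s • (x s).1, ∑ s, ρ s • (x s).2.1) := rfl

theorem zaPhi_surj {x : Fan k} (hx : Nondeg x) : Function.Surjective (zaPhi x) := by
  have hinj : Function.Injective (zaPhi x) := by
    rw [injective_iff_map_eq_zero]
    intro ρ h
    rw [zaPhi_apply] at h
    simp only [Prod.mk_eq_zero] at h
    exact hx ρ h.1 h.2.1 h.2.2
  have hfr : Module.finrank ℝ (Lb k → ℝ) = Module.finrank ℝ (ℝ × (ℂ × ℂ) × (Fin k → ℝ)) := by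
    simp only [Module.finrank_prod, Module.finrank_fintype_fun_eq_card, Fintype.card_fin,
      Complex.finrank_real_complex, Module.finrank_self]
    omega
  exact (LinearMap.injective_iff_surjective_of_finrank_eq_finrank hfr).1 hinj

theorem Zs_inj {x : Fan k} (hx : Nondeg x) {ρ : Lb k → ℝ} (hρ : ρ ∈ Zs x)
    (h : ∑ s, ρ s • (x s).1 = 0) : ρ = 0 := hx ρ hρ.1 h hρ.2

theorem Zs_surj {x : Fan k} (hx : Nondeg x) (b : ℂ × ℂ) : ∃ ρ ∈ Zs x, ∑ s, ρ s • (x s).1 = b := by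
  obtain ⟨ρ, h⟩ := zaPhi_surj hx (0, b, 0)
  rw [zaPhi_apply] at h
  simp only [Prod.mk.injEq] at h
  exact ⟨ρ, ⟨h.1, h.2.2⟩, h.2.1⟩

/-- the map `ρ ↦ ∑ ρ_s a_s` on `Zs` -/
noncomputable def zaA (x : Fan k) : Zs x →ₗ[ℝ] ℂ × ℂ where
  toFun ρ := ∑ s, ρ.1 s • (x s).1
  map_add' ρ ρ' := by
    simp only [Submodule.coe_add, Pi.add_apply, add_smul, Finset.sum_add_distrib]
  map_smul' r ρ := by
    simp only [Submodule.coe_smul, Pi.smul_apply, smul_eq_mul, RingHom.id_apply, Finset.smul_sum,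
      mul_smul]

theorem finrank_Zs {x : Fan k} (hx : Nondeg x) : Module.finrank ℝ (Zs x) = 4 := by
  have hbij : Function.Bijective (zaA x) := by
    constructor
    · rw [injective_iff_map_eq_zero]
      intro ρ h
      exact Subtype.ext (Zs_inj hx ρ.2 h)
    · intro b
      obtain ⟨ρ, hρ, h⟩ := Zs_surj hx b
      exact ⟨⟨ρ, hρ⟩, h⟩
  rw [(LinearEquiv.ofBijective (zaA x) hbij).finrank_eq]
  simp only [Module.finrank_prod, Complex.finrank_real_complex]

end Pool.Agent.FAN
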