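import Pool.Agent.FAN.COL
import Pool.Agent.FAN.REL
import Pool.Agent.FAN.PTN
import Pool.Agent.FAN.PT
import Pool.Agent.FAN.ZA

/-! The exact case: if the relation space of the labels is spanned by the related pairs, the fan is symmetric. -/

set_option autoImplicit false

namespace Pool.Agent.FAN

open MeasureTheory Topology Filter

variable {k : ℕ}

namespace EX

/-- the hypotheses of the exact case -/
structure Ex (x : Fan k) (U : Finset (Lb k)) (i₀ : Lb k) : Prop where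
  nd : Nondeg x
  tm : Tame x U
  hk : 100 ≤ k
  h0 : ∀ i, i ∉ U → (x i).1 = 0
  hi : i₀ ∉ U
  h4 : Module.finrank ℝ (Rel x i₀) = 4

variable {x : Fan k} {U : Finset (Lb k)} {i₀ : Lb k}

theorem rel_iff (h0 : (x i₀).1 = 0) {s t : Lb k} :
    rel x i₀ s t ↔ (x s).2 = (x t).2 ∧ ∃ θ : ℂ, ‖θ‖ = 1 ∧ θ • (x t).1 = (x s).1 := by
  simp [rel, h0]

theorem Ex.rel_iff (E : Ex x U i₀) {s t : Lb k} :
    rel x i₀ s t ↔ (x s).2 = (x t).2 ∧ ∃ θ : ℂ, ‖θ‖ = 1 ∧ θ • (x t).1 = (x s).1 :=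
  EX.rel_iff (E.h0 _ E.hi)

theorem Ex.relEq (E : Ex x U i₀) : Rel x i₀ = Zs x :=
  Submodule.eq_of_le_of_finrank_eq ((Rel_le x i₀).trans (EqR_le x)) (by rw [E.h4, finrank_Zs E.nd])

theorem Ex.phi_zero (E : Ex x U i₀) {ρ : Lb k → ℝ} (hρ : ρ ∈ Zs x) (s : Lb k) : relPhi x i₀ s ρ = 0 := by
  classical
  have hker : Rel x i₀ ≤ LinearMap.ker (relPhi x i₀ s) := by
    unfold Rel
    rw [Submodule.span_le]
    rintro v ⟨t, t', htt, rfl⟩
    change relPhi x i₀ s (ed t t') = 0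
    rw [relPhi_ed]
    by_cases h1 : rel x i₀ s t
    · have h2 : rel x i₀ s t' := (rel_equiv x i₀).trans h1 htt
      rw [if_pos h1, if_pos h2, sub_self]
    · have h2 : ¬ rel x i₀ s t' := fun h2 => h1 ((rel_equiv x i₀).trans h2 ((rel_equiv x i₀).symm htt))
      rw [if_neg h1, if_neg h2, sub_self]
  rw [← E.relEq] at hρ
  exact hker hρ

open Classical in
theorem phi_single (x : Fan k) (i s t : Lb k) (r : ℝ) :
    relPhi x i s (Pi.single t r) = if rel x i s t then r else 0 := by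
  change ∑ t' ∈ cls x i s, (Pi.single t r : Lb k → ℝ) t' = _
  simp only [Pi.single_apply, Finset.sum_ite_eq', cls, Finset.mem_filter,
    Finset.mem_univ, true_and]

theorem Ex.apply_zero (E : Ex x U i₀) {ρ : Lb k → ℝ} (hρ : ρ ∈ Zs x) {s : Lb k}
    (hs : ∀ t, rel x i₀ s t → t = s) : ρ s = 0 := by
  classical
  have h := E.phi_zero hρ s
  have hc : cls x i₀ s = {s} := by
    ext t
    simp only [cls, Finset.mem_filter, Finset.mem_univ, true_and, Finset.mem_singleton]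
    exact ⟨hs t, fun h => h ▸ (rel_equiv x i₀).refl _⟩
  change ∑ t ∈ cls x i₀ s, ρ t = 0 at h
  rwa [hc, Finset.sum_singleton] at h

theorem Ex.triv (E : Ex x U i₀) {s t : Lb k} (hs : (x s).1 = 0) (h : rel x i₀ s t) : t = s := by
  obtain ⟨h1, θ, hθ, h2⟩ := E.rel_iff.1 h
  have hθ0 : θ ≠ 0 := by
    rintro rfl
    simp at hθ
  rw [hs] at h2
  have h3 : (x t).1 = 0 := (smul_eq_zero.1 h2).resolve_left hθ0
  exact E.nd.inj (by rw [h3, hs]) (by rw [h1])

theorem Ex.zero_of_not_mem (E : Ex x U i₀) {ρ : Lb k → ℝ} (hρ : ρ ∈ Zs x) {s : Lb k}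
    (hs : s ∉ U) : ρ s = 0 :=
  E.apply_zero hρ fun _ h => E.triv (E.h0 s hs) h

/-- nontrivial class -/
def Nt (x : Fan k) (i₀ s : Lb k) : Prop := ∃ t, t ≠ s ∧ rel x i₀ s t

theorem Ex.ne_zero (E : Ex x U i₀) {s : Lb k} (h : Nt x i₀ s) : (x s).1 ≠ 0 := by
  obtain ⟨t, ht, h1⟩ := h
  exact fun h2 => ht (E.triv h2 h1)

theorem Ex.apply_zero' (E : Ex x U i₀) {ρ : Lb k → ℝ} (hρ : ρ ∈ Zs x) {s : Lb k}
    (hs : ¬ Nt x i₀ s) : ρ s = 0 :=
  E.apply_zero hρ fun t h => by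
    by_contra h1
    exact hs ⟨t, h1, h⟩

/-- the bottom direction -/
theorem Ex.hbot (E : Ex x U i₀) {i j : Lb k} (hi : i ∉ U) (hij : i ≠ j) :
    ∃ e : Sp k, e.1 = 0 ∧ (∀ s, s ≠ i → clin (x s - x j) e = 0) ∧ clin (x i - x j) e = -1 := by
  obtain ⟨v, hv⟩ := exists_dir E.nd (fun s => if s = i then (-1 : ℝ) else 0)
  refine ⟨v, ?_, ?_, ?_⟩
  · have key : ∀ b : ℂ × ℂ, (zt b v.1).re = 0 := by
      intro b
      obtain ⟨ρ, hρ, hb⟩ := Zs_surj E.nd b
      have h1 : ∑ s, ρ s * clin (x s) v = 0 := by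
        have h2 : ∀ s, ρ s * clin (x s) v = ρ s * (if s = i then (-1 : ℝ) else 0) + ρ s * (clin (x j) v) := by
          intro s
          have h3 := hv s j
          rw [if_neg hij.symm, sub_zero] at h3
          rw [← mul_add, ← h3]
          ring
        rw [Finset.sum_congr rfl fun s _ => h2 s, Finset.sum_add_distrib, ← Finset.sum_mul, hρ.1]
        simp [E.zero_of_not_mem hρ hi]
      have h2 : ∑ s, ρ s * clin (x s) v = (zt (∑ s, ρ s • (x s).1) v.1).re := by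
        have h3 := clin_sum Finset.univ ρ x v
        have h4 : clin (∑ s, ρ s • x s) v = (zt (∑ s, ρ s • (x s).1) v.1).re := by
          unfold clin
          have h5 : (∑ s, ρ s • x s).1 = ∑ s, ρ s • (x s).1 := by
            rw [Prod.fst_sum]; rfl
          have h6 : (∑ s, ρ s • x s).2.1 = ∑ s, ρ s • (x s).2.1 := by
            rw [Prod.snd_sum, Prod.fst_sum]; rfl
          rw [h5, h6, hρ.2]
          simp
        rw [← h4, h3]
      rw [← hb, ← h2, h1]
    have h1 := key ((starRingEnd ℂ) v.1.1, 0)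
    have h2 := key (0, (starRingEnd ℂ) v.1.2)
    simp only [zt, zero_mul, add_zero, zero_add] at h1 h2
    rw [mul_comm, Complex.mul_conj, Complex.ofReal_re, Complex.normSq_eq_zero] at h1 h2
    exact Prod.ext h1 h2
  · intro s hs
    rw [clin_sub, hv s j, if_neg hs, if_neg hij.symm, sub_zero]
  · rw [clin_sub, hv i j, if_pos rfl, if_neg hij.symm, sub_zero]

theorem cdet_smul_left (θ : ℂ) (a b : ℂ × ℂ) : cdet (θ • a) b = θ * cdet a b := by
  simp only [cdet, Prod.smul_fst, Prod.smul_snd, smul_eq_mul]; ring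

theorem cdet_smul_right (θ : ℂ) (a b : ℂ × ℂ) : cdet a (θ • b) = θ * cdet a b := by
  simp only [cdet, Prod.smul_fst, Prod.smul_snd, smul_eq_mul]; ring

theorem cdet_self (a : ℂ × ℂ) : cdet a a = 0 := by
  simp only [cdet]; ring

theorem cdet_antisymm (a b : ℂ × ℂ) : cdet a b = - cdet b a := by
  simp only [cdet]; ring

theorem cdet_zero_left (b : ℂ × ℂ) : cdet 0 b = 0 := by
  simp [cdet]

theorem cdet_zero_right (b : ℂ × ℂ) : cdet b 0 = 0 := by
  simp [cdet]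

/-- the column relation in the exact case -/
theorem Ex.col (E : Ex x U i₀) {u l i j : Lb k} (hul : cdet (x u).1 (x l).1 ≠ 0)
    (hi : i ∉ U) (hj : j ∉ U) (hij : i ≠ j) :
    ∃ ε : Lb k → ℝ, ε u = 1 ∧
      (∀ s, s ≠ u → ε s ≠ 0 → ε s = 1 ∧ ∃ θ : ℂ, ‖θ‖ = 1 ∧ θ ≠ 1 ∧ (x s).2 = (x u).2 ∧ θ • (x s).1 = (x u).1 ∧
        ∃ l', l' ≠ l ∧ (x l').2 = (x l).2 ∧ θ • (x l').1 = (x l).1) ∧
      ∀ h ∈ K x, ∑ s, ε s * h s i = 0 := by
  classical
  have hai := E.h0 i hi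
  have haj := E.h0 j hj
  have hu0 : (x u).1 ≠ 0 := fun h => hul (by rw [h, cdet_zero_left])
  have hl0 : (x l).1 ≠ 0 := fun h => hul (by rw [h, cdet_zero_right])
  have huj : u ≠ j := fun h => hu0 (h ▸ haj)
  have hui : u ≠ i := fun h => hu0 (h ▸ hai)
  have hlj : l ≠ j := fun h => hl0 (h ▸ haj)
  have hli : l ≠ i := fun h => hl0 (h ▸ hai)
  have hulne : u ≠ l := fun h => hul (by rw [h, cdet_self])
  have hnrel : ¬ rel x i₀ l u := by
    intro h
    obtain ⟨_, θ, _, h2⟩ := E.rel_iff.1 h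
    apply hul
    rw [← h2, cdet_smul_right, cdet_self, mul_zero]
  have hnrelj : ¬ rel x i₀ l j := by
    intro h
    exact hlj (E.triv haj ((rel_equiv x i₀).symm h))
  have hI : cdet ((x u).1 - (x j).1) ((x l).1 - (x j).1) ≠ 0 := by
    rw [haj, sub_zero, sub_zero]
    exact hul
  have hshort : ∀ ρ ∈ Zs x, (Finset.univ.filter fun s => ρ s ≠ 0).card ≤ 4 → ρ j = 0 :=
    fun ρ hρ _ => E.zero_of_not_mem hρ hj
  have hneq : (x u).1 ≠ (x j).1 := by rw [haj]; exact hu0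
  obtain ⟨ε, hε1, hε2, hε3⟩ := column_relation E.nd huj hulne hlj.symm hui hij.symm hli hI
    (E.hbot hi hij) (fun θ s s' α hθ hθ1 hs hα hr => by
      rcases partner E.nd hshort huj hneq hθ hθ1 hs hα hr with h | h
      · exact Or.inl ⟨h.1, h.2.1⟩
      · exact Or.inr ⟨h.1, h.2.1⟩)
  refine ⟨ε, hε1, ?_, ?_⟩
  · intro s hsu hs
    obtain ⟨θ, hθ, hθ1, hr, l', β₁, β₂, hl's, hl'j, hβ, hr', hsgn⟩ := hε2 s hsu hs
    have hθ0 : θ ≠ 0 := by
      rintro rfl
      simp at hθ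
    have e1 : θ • (x s).1 = (x u).1 := by
      have := congrArg Prod.fst hr
      simpa [rotc, haj] using this
    have e2 : (x s).2 = (x u).2 := by
      have := congrArg Prod.snd hr
      simpa [rotc] using this
    have e3 : θ • (x l').1 = β₁ • (x u).1 + β₂ • (x l).1 := by
      have := congrArg Prod.fst hr'
      simpa [rotc, haj] using this
    have e4 : (x l').2 - (x j).2 = β₁ • ((x u).2 - (x j).2) + β₂ • ((x l).2 - (x j).2) := by
      have := congrArg Prod.snd hr'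
      simpa [rotc] using this
    -- the relation
    let ρ : Lb k → ℝ := Pi.single l' 1 - Pi.single u β₁ - Pi.single l β₂ - Pi.single j (1 - β₁ - β₂)
    have hρ : ρ ∈ Zs x := by
      rw [mem_Zs]
      constructor
      · simp [ρ, Finset.sum_sub_distrib]
      · have e5 : (x l').2.1 - (x j).2.1 = β₁ • ((x u).2.1 - (x j).2.1) + β₂ • ((x l).2.1 - (x j).2.1) := by
          have := congrArg Prod.fst e4
          simpa using this
        have e6 : ∑ s, ρ s • (x s).2.1 = (x l').2.1 - β₁ • (x u).2.1 - β₂ • (x l).2.1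
            - (1 - β₁ - β₂) • (x j).2.1 := by
          simp only [ρ, Pi.sub_apply, sub_smul, Finset.sum_sub_distrib]
          simp [Pi.single_apply, ite_smul]
          simp only [sub_smul, one_smul]
        rw [e6]
        have e7 : (x l').2.1 = (x j).2.1 + (β₁ • ((x u).2.1 - (x j).2.1) + β₂ • ((x l).2.1 - (x j).2.1)) := by
          rw [← e5]; abel
        rw [e7]
        module
    have e8 : 1 - β₁ - β₂ = 0 := by
      have := E.zero_of_not_mem hρ hj
      simp only [ρ, Pi.sub_apply, Pi.single_apply, if_neg hl'j.symm, if_neg huj.symm, if_neg hlj.symm,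
        if_true] at this
      linarith
    have e9 := E.phi_zero hρ l
    simp only [ρ, map_sub, phi_single, if_neg hnrel, if_neg hnrelj,
      if_pos ((rel_equiv x i₀).refl l)] at e9
    have e10 : rel x i₀ l l' := by
      by_contra h
      rw [if_neg h] at e9
      apply hβ
      linarith
    rw [if_pos e10] at e9
    have e11 : β₂ = 1 := by linarith
    have e12 : β₁ = 0 := by linarith
    rw [e11, e12, zero_smul, one_smul, zero_add] at e3
    refine ⟨by rw [hsgn, e11, Real.sign_one], θ, hθ, hθ1, e2, e1, l', ?_, ?_, e3⟩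
    · rintro rfl
      apply hθ1
      have h1 : (θ - 1) • (x l').1 = 0 := by rw [sub_smul, e3, one_smul, sub_self]
      rcases smul_eq_zero.1 h1 with h2 | h2
      · exact sub_eq_zero.1 h2
      · exact absurd h2 hl0
    · exact (E.rel_iff.1 e10).1.symm
  · intro h hh
    have h1 := hε3 h hh
    rw [E.tm.zero h hh j hj i hi] at h1
    simpa using h1

/-- two functionals -/
theorem two_functionals {C : Type} [Fintype C] [DecidableEq C] (W : Submodule ℝ (C → ℝ)) (f g : C → ℝ) {u s : C}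
    (hfu : f u = 1) (hfs : f s = 0) (hgs : g s = 1) (hf : ∀ w ∈ W, ∑ c, f c * w c = 0)
    (hg : ∀ w ∈ W, ∑ c, g c * w c = 0) : Module.finrank ℝ W + 2 ≤ Fintype.card C := by
  let F : (C → ℝ) →ₗ[ℝ] ℝ × ℝ :=
    { toFun := fun w => (∑ c, f c * w c, ∑ c, g c * w c)
      map_add' := fun w w' => by simp [mul_add, Finset.sum_add_distrib]
      map_smul' := fun r w => by
        simp only [Pi.smul_apply, smul_eq_mul, RingHom.id_apply, Prod.smul_mk, Finset.mul_sum, Prod.mk.injEq]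
        exact ⟨Finset.sum_congr rfl fun c _ => by ring, Finset.sum_congr rfl fun c _ => by ring⟩ }
  have hsurj : Function.Surjective F := by
    rintro ⟨a, b⟩
    refine ⟨Pi.single u a + Pi.single s (b - g u * a), ?_⟩
    change (∑ c, f c * (Pi.single u a + Pi.single s (b - g u * a) : C → ℝ) c,
      ∑ c, g c * (Pi.single u a + Pi.single s (b - g u * a) : C → ℝ) c) = _
    simp only [Pi.add_apply, mul_add, Finset.sum_add_distrib, Pi.single_apply, mul_ite, mul_zero,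
      Finset.sum_ite_eq', Finset.mem_univ, if_true, hfu, hfs, hgs]
    ext <;> simp
  have hle : W ≤ LinearMap.ker F := by
    intro w hw
    rw [LinearMap.mem_ker]
    change (∑ c, f c * w c, ∑ c, g c * w c) = 0
    rw [hf w hw, hg w hw]
    rfl
  have h1 := LinearMap.finrank_range_add_finrank_ker F
  rw [LinearMap.range_eq_top.2 hsurj, finrank_top] at h1
  have h2 := Submodule.finrank_mono hle
  simp only [Module.finrank_prod, Module.finrank_self, Module.finrank_fintype_fun_eq_card] at h1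
  omega

theorem sum_cls {u : Lb k} {ε : Lb k → ℝ} {i : Lb k} (hε : ∀ s, ε s ≠ 0 → rel x i₀ u s)
    (h3 : ∀ h ∈ K x, ∑ s, ε s * h s i = 0) :
    ∀ w ∈ (K x).map (colMap (cls x i₀ u) i), ∑ c : cls x i₀ u, ε c * w c = 0 := by
  classical
  rintro w ⟨h, hh, rfl⟩
  change ∑ c : cls x i₀ u, ε c * h c i = 0
  rw [Finset.sum_coe_sort (cls x i₀ u) (fun c => ε c * h c i), ← h3 h hh]
  apply Finset.sum_subset (Finset.subset_univ _)
  intro s _ hs
  have : ε s = 0 := by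
    by_contra h1
    exact hs (by simp [cls, hε s h1])
  rw [this, zero_mul]

theorem Ex.exists_ne (E : Ex x U i₀) (i : Lb k) : ∃ j, j ∉ U ∧ i ≠ j := by
  classical
  by_contra h
  push Not at h
  have h1 : (Finset.univ : Finset (Lb k)) ⊆ insert i U := by
    intro j _
    by_cases hj : j ∈ U
    · exact Finset.mem_insert_of_mem hj
    · rw [h j hj]; exact Finset.mem_insert_self _ _
  have h2 := Finset.card_le_card h1
  have h3 := Finset.card_insert_le i U
  have h4 := E.tm.card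
  have h5 := E.hk
  rw [Finset.card_univ, Fintype.card_fin] at h2
  omega

/-- fullness of the column for all classes -/
def Full (x : Fan k) (U : Finset (Lb k)) (i₀ : Lb k) : Prop :=
  ∀ s, ∃ i, i ∉ U ∧ (cls x i₀ s).card ≤ Module.finrank ℝ ((K x).map (colMap (cls x i₀ s) i)) + 1

/-- the main step -/
theorem Ex.step (E : Ex x U i₀) (F : Full x U i₀) {u s l : Lb k} (hus : u ≠ s) (hr : rel x i₀ u s)
    (hul : cdet (x u).1 (x l).1 ≠ 0) :
    ∃ θ : ℂ, ‖θ‖ = 1 ∧ θ ≠ 1 ∧ θ • (x s).1 = (x u).1 ∧ ∃ l', l' ≠ l ∧ rel x i₀ l l' ∧ θ • (x l').1 = (x l).1 := by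
  classical
  obtain ⟨i, hi, hcard⟩ := F u
  obtain ⟨j, hj, hij⟩ := E.exists_ne i
  obtain ⟨ε, h1, h2, h3⟩ := E.col hul hi hj hij
  have hsl : cdet (x s).1 (x l).1 ≠ 0 := by
    obtain ⟨_, θ, _, h⟩ := E.rel_iff.1 hr
    intro h'
    apply hul
    rw [← h, cdet_smul_left, h', mul_zero]
  obtain ⟨ε', h1', h2', h3'⟩ := E.col hsl hi hj hij
  have hε : ∀ t, ε t ≠ 0 → rel x i₀ u t := by
    intro t ht
    by_cases htu : t = u
    · rw [htu]; exact (rel_equiv x i₀).refl u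
    · obtain ⟨_, θ, hθ, _, ha, hb, _⟩ := h2 t htu ht
      exact E.rel_iff.2 ⟨ha.symm, θ, hθ, hb⟩
  have hε' : ∀ t, ε' t ≠ 0 → rel x i₀ u t := by
    intro t ht
    by_cases htu : t = s
    · rw [htu]; exact hr
    · obtain ⟨_, θ, hθ, _, ha, hb, _⟩ := h2' t htu ht
      exact (rel_equiv x i₀).trans hr (E.rel_iff.2 ⟨ha.symm, θ, hθ, hb⟩)
  have hmu : u ∈ cls x i₀ u := by simp [cls, (rel_equiv x i₀).refl u]
  have hms : s ∈ cls x i₀ u := by simp [cls, hr]
  have hne : ε s ≠ 0 := by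
    intro h0
    have := two_functionals ((K x).map (colMap (cls x i₀ u) i)) (fun c => ε c) (fun c => ε' c)
      (u := ⟨u, hmu⟩) (s := ⟨s, hms⟩) h1 h0 h1' (sum_cls hε h3) (sum_cls hε' h3')
    rw [Fintype.card_coe] at this
    omega
  obtain ⟨_, θ, hθ, hθ1, ha, hb, l', hl', hc, hd⟩ := h2 s hus.symm hne
  exact ⟨θ, hθ, hθ1, hb, l', hl', E.rel_iff.2 ⟨hc.symm, θ, hθ, hd⟩, hd⟩

/-- a transversal nontrivial class -/
theorem Ex.exists_nt (E : Ex x U i₀) {u : Lb k} (hu : (x u).1 ≠ 0) :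
    ∃ l, Nt x i₀ l ∧ cdet (x u).1 (x l).1 ≠ 0 := by
  classical
  by_contra h
  push Not at h
  have key : ∀ b : ℂ × ℂ, cdet (x u).1 b = 0 := by
    intro b
    obtain ⟨ρ, hρ, hb⟩ := Zs_surj E.nd b
    rw [← hb]
    have h1 : ∀ S : Finset (Lb k), cdet (x u).1 (∑ s ∈ S, ρ s • (x s).1) = 0 := by
      intro S
      induction S using Finset.induction_on with
      | empty => simp [cdet_zero_right]
      | insert t S ht ih =>
        rw [Finset.sum_insert ht]
        have h2 : cdet (x u).1 (ρ t • (x t).1 + ∑ s ∈ S, ρ s • (x s).1) =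
            (ρ t : ℂ) * cdet (x u).1 (x t).1 + cdet (x u).1 (∑ s ∈ S, ρ s • (x s).1) := by
          simp only [cdet, Prod.fst_add, Prod.snd_add, Prod.smul_fst, Prod.smul_snd, Complex.real_smul]
          ring
        rw [h2, ih, add_zero]
        by_cases hnt : Nt x i₀ t
        · rw [h t hnt, mul_zero]
        · rw [E.apply_zero' hρ hnt]; simp
    exact h1 _
  apply hu
  have h1 := key (1, 0)
  have h2 := key (0, 1)
  simp only [cdet, mul_zero, mul_one, zero_sub, sub_zero, neg_eq_zero] at h1 h2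
  exact Prod.ext h2 h1

theorem Ex.nt_of_ne (E : Ex x U i₀) (F : Full x U i₀) {l : Lb k} (hl : (x l).1 ≠ 0) : Nt x i₀ l := by
  obtain ⟨u, ⟨s, hs, hr⟩, hc⟩ := E.exists_nt hl
  have hc' : cdet (x u).1 (x l).1 ≠ 0 := by
    rw [cdet_antisymm]
    exact neg_ne_zero.2 hc
  obtain ⟨θ, _, _, _, l', h1, h2, _⟩ := E.step F hs.symm hr hc'
  exact ⟨l', h1, h2⟩

/-- representatives and the set of other labels -/
theorem Ex.reps (E : Ex x U i₀) : ∃ r : Lb k → Lb k, (∀ s, rel x i₀ s (r s)) ∧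
    (∀ s s', rel x i₀ s s' → r s = r s') ∧ (Finset.univ.filter fun s => r s ≠ s).card = 4 := by
  classical
  obtain ⟨r, h1, h2, h3⟩ := exists_rep x i₀
  refine ⟨r, h1, h2, le_antisymm (h3.trans_eq E.h4) ?_⟩
  have hle : Rel x i₀ ≤ Submodule.span ℝ
      (((Finset.univ.filter fun s => r s ≠ s).image fun s => ed s (r s) : Finset (Lb k → ℝ)) :
        Set (Lb k → ℝ)) := by
    unfold Rel
    rw [Submodule.span_le]
    rintro v ⟨s, s', hss, rfl⟩
    have hmem : ∀ t, ed t (r t) ∈ Submodule.span ℝ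
      (((Finset.univ.filter fun s => r s ≠ s).image fun s => ed s (r s) : Finset (Lb k → ℝ)) :
        Set (Lb k → ℝ)) := by
      intro t
      by_cases ht : r t = t
      · rw [ht]
        have : ed t t = 0 := by simp [ed]
        rw [this]
        exact Submodule.zero_mem _
      · apply Submodule.subset_span
        rw [Finset.mem_coe, Finset.mem_image]
        exact ⟨t, by simp [ht], rfl⟩
    have : ed s s' = ed s (r s) - ed s' (r s') := by
      rw [h2 s s' hss]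
      simp [ed]
    rw [SetLike.mem_coe, this]
    exact Submodule.sub_mem _ (hmem s) (hmem s')
  have h4 := Submodule.finrank_mono hle
  have h5 := finrank_span_finset_le_card
    (((Finset.univ.filter fun s => r s ≠ s).image fun s => ed s (r s) : Finset (Lb k → ℝ))) (R := ℝ)
  have h6 := Finset.card_image_le (s := Finset.univ.filter fun s => r s ≠ s) (f := fun s => ed s (r s))
  rw [E.h4] at h4
  exact h4.trans (h5.trans h6)

theorem cdet_of_rel (E : Ex x U i₀) {u s : Lb k} {b : ℂ × ℂ} (hr : rel x i₀ u s)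
    (hc : cdet (x u).1 b ≠ 0) : cdet (x s).1 b ≠ 0 := by
  obtain ⟨_, θ, _, h⟩ := E.rel_iff.1 hr
  intro h'
  apply hc
  rw [← h, cdet_smul_left, h', mul_zero]

theorem eq_of_smul {θ θ' : ℂ} {a : ℂ × ℂ} (ha : a ≠ 0) (h : θ • a = θ' • a) : θ = θ' := by
  have h1 : (θ - θ') • a = 0 := by rw [sub_smul, h, sub_self]
  exact sub_eq_zero.1 ((smul_eq_zero.1 h1).resolve_right ha)

/-- classes with at most two elements -/
theorem Ex.case2 (E : Ex x U i₀) (F : Full x U i₀)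
    (h3 : ¬ ∃ u₀ u₁ u₂ : Lb k, u₀ ≠ u₁ ∧ u₀ ≠ u₂ ∧ u₁ ≠ u₂ ∧ rel x i₀ u₀ u₁ ∧ rel x i₀ u₀ u₂) :
    ∃ C : Fin 4 × Fin 2 → Lb k, SymF x 2 4 (-1) C := by
  classical
  obtain ⟨r, h1, h2, h4⟩ := E.reps
  have hno : ∀ u s t, rel x i₀ u s → rel x i₀ u t → s ≠ u → t ≠ u → s = t := by
    intro u s t hs ht hsu htu
    by_contra h
    exact h3 ⟨u, s, t, hsu.symm, htu.symm, h, hs, ht⟩
  have hneg : ∀ u s, u ≠ s → rel x i₀ u s → (x s).1 = -(x u).1 := by
    intro u s hus hr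
    have hu0 := E.ne_zero ⟨s, hus.symm, hr⟩
    have hr' := (rel_equiv x i₀).symm hr
    have hs0 := E.ne_zero ⟨u, hus, hr'⟩
    obtain ⟨l, hl, hc⟩ := E.exists_nt hu0
    have hc' := cdet_of_rel E hr hc
    obtain ⟨θ, hθ, hθ1, ha, l', hl', hrl, hb⟩ := E.step F hus hr hc
    obtain ⟨θ', hθ', hθ1', ha', l'', hl'', hrl', hb'⟩ := E.step F hus.symm hr' hc'
    have hll : l'' = l' := hno l l'' l' hrl' hrl hl'' hl'
    have hl0' := E.ne_zero ⟨l, hl'.symm, (rel_equiv x i₀).symm hrl⟩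
    rw [hll] at hb'
    have e2 : θ' = θ := eq_of_smul hl0' (hb'.trans hb.symm)
    rw [e2] at ha'
    have e1 : θ * θ = 1 := eq_of_smul hs0 (by rw [mul_smul, ha, ha', one_smul])
    have e3 : θ = -1 := by
      rcases mul_self_eq_one_iff.1 e1 with h | h
      · exact absurd h hθ1
      · exact h
    rw [← ha, e3, neg_smul, one_smul, neg_neg]
  let e : Fin 4 ≃ (Finset.univ.filter fun s => r s ≠ s : Finset (Lb k)) :=
    (Finset.equivFinOfCardEq h4).symm
  have heN : ∀ b, r (e b : Lb k) ≠ (e b : Lb k) := fun b => (Finset.mem_filter.1 (e b).2).2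
  have hrr : ∀ s, r (r s) = r s := fun s => (h2 s (r s) (h1 s)).symm
  let C : Fin 4 × Fin 2 → Lb k := fun p => if p.2 = 0 then r (e p.1 : Lb k) else (e p.1 : Lb k)
  have hC0 : ∀ b, C (b, 0) = r (e b : Lb k) := fun b => by simp [C]
  have hC1 : ∀ b, C (b, 1) = (e b : Lb k) := fun b => by simp [C]
  have hcover : ∀ t, Nt x i₀ t → t ∈ Set.range C := by
    rintro t ⟨t', ht', hr⟩
    by_cases h : r t = t
    · have h5 : r t' = t := by rw [← h2 t t' hr, h]
      have h6 : r t' ≠ t' := by rw [h5]; exact ht'.symm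
      refine ⟨(e.symm ⟨t', by simp [h6]⟩, 0), ?_⟩
      rw [hC0]
      simp [h5]
    · refine ⟨(e.symm ⟨t, by simp [h]⟩, 1), ?_⟩
      rw [hC1]
      simp
  have hrel : ∀ b, (x (C (b, 1))).1 = -(x (C (b, 0))).1 ∧ (x (C (b, 1))).2 = (x (C (b, 0))).2 := by
    intro b
    rw [hC0, hC1]
    have h5 := h1 (e b : Lb k)
    exact ⟨hneg _ _ (heN b) ((rel_equiv x i₀).symm h5), (E.rel_iff.1 h5).1⟩
  refine ⟨C, ?_, ?_, ?_, ?_, ?_⟩
  · have hinj1 : ∀ b b', r (e b : Lb k) = r (e b' : Lb k) → b = b' := by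
      intro b b' h
      have h5 : rel x i₀ (r (e b : Lb k)) (e b : Lb k) := (rel_equiv x i₀).symm (h1 _)
      have h6 : rel x i₀ (r (e b : Lb k)) (e b' : Lb k) := by
        rw [h]; exact (rel_equiv x i₀).symm (h1 _)
      have h7 := hno _ _ _ h5 h6 (heN b).symm (by rw [h]; exact (heN b').symm)
      exact e.injective (Subtype.ext h7)
    have hinj2 : ∀ b b', r (e b : Lb k) ≠ (e b' : Lb k) := by
      intro b b' h
      apply heN b'
      rw [← h, hrr]
    rintro ⟨b, m⟩ ⟨b', m'⟩ h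
    fin_cases m <;> fin_cases m'
    · have h' : C (b, 0) = C (b', 0) := h
      rw [hC0, hC0] at h'
      rw [hinj1 b b' h']
    · have h' : C (b, 0) = C (b', 1) := h
      rw [hC0, hC1] at h'
      exact absurd h' (hinj2 _ _)
    · have h' : C (b, 1) = C (b', 0) := h
      rw [hC1, hC0] at h'
      exact absurd h'.symm (hinj2 _ _)
    · have h' : C (b, 1) = C (b', 1) := h
      rw [hC1, hC1] at h'
      rw [e.injective (Subtype.ext h')]
  · intro b m
    fin_cases m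
    · simp
    · simpa using (hrel b).1
  · intro b m
    fin_cases m
    · rfl
    · simpa using (hrel b).2
  · intro s hs
    by_contra h
    exact hs (hcover s (E.nt_of_ne F h))
  · intro ρ hρ s hs
    exact E.apply_zero' hρ fun h => hs (hcover s h)

/-- a class with at least three elements -/
theorem Ex.case3 (E : Ex x U i₀) (F : Full x U i₀) {u₀ u₁ u₂ : Lb k} (h01 : u₀ ≠ u₁) (h02 : u₀ ≠ u₂)
    (h12 : u₁ ≠ u₂) (hr1 : rel x i₀ u₀ u₁) (hr2 : rel x i₀ u₀ u₂) :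
    ∃ κ : ℂ, κ ^ 2 + κ + 1 = 0 ∧ ∃ C : Fin 2 × Fin 3 → Lb k, SymF x 3 2 κ C := by
  classical
  obtain ⟨r, g1, g2, g4⟩ := E.reps
  have hu0 := E.ne_zero ⟨u₁, h01.symm, hr1⟩
  obtain ⟨l₀, hl₀, hc⟩ := E.exists_nt hu0
  have hl0 := E.ne_zero hl₀
  obtain ⟨θ₁, hθ₁, hθ₁1, ha₁, l₁, hl₁, hrl₁, hb₁⟩ := E.step F h01 hr1 hc
  obtain ⟨θ₂, hθ₂, hθ₂1, ha₂, l₂, hl₂, hrl₂, hb₂⟩ := E.step F h02 hr2 hc
  have hθ10 : θ₁ ≠ 0 := by
    rintro rfl
    simp at hθ₁
  have hl10 := E.ne_zero ⟨l₀, hl₁.symm, (rel_equiv x i₀).symm hrl₁⟩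
  have hl20 := E.ne_zero ⟨l₀, hl₂.symm, (rel_equiv x i₀).symm hrl₂⟩
  have hu10 := E.ne_zero ⟨u₀, h01, (rel_equiv x i₀).symm hr1⟩
  have hu20 := E.ne_zero ⟨u₀, h02, (rel_equiv x i₀).symm hr2⟩
  have hθ12 : θ₁ ≠ θ₂ := by
    rintro rfl
    apply h12
    have h5 : (x u₁).1 = (x u₂).1 := smul_right_injective _ hθ10 (ha₁.trans ha₂.symm)
    exact E.nd.inj h5 (by rw [← (E.rel_iff.1 hr1).1, (E.rel_iff.1 hr2).1])
  have hl12 : l₁ ≠ l₂ := by
    rintro rfl
    exact hθ12 (eq_of_smul hl10 (hb₁.trans hb₂.symm))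
  let A : Finset (Lb k) := {u₀, u₁, u₂}
  let B : Finset (Lb k) := {l₀, l₁, l₂}
  have hAr : ∀ s ∈ A, r s = r u₀ := by
    intro s hs
    simp only [A, Finset.mem_insert, Finset.mem_singleton] at hs
    rcases hs with rfl | rfl | rfl
    · rfl
    · exact (g2 _ _ hr1).symm
    · exact (g2 _ _ hr2).symm
  have hBr : ∀ s ∈ B, r s = r l₀ := by
    intro s hs
    simp only [B, Finset.mem_insert, Finset.mem_singleton] at hs
    rcases hs with rfl | rfl | rfl
    · rfl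
    · exact (g2 _ _ hrl₁).symm
    · exact (g2 _ _ hrl₂).symm
  have hne : r u₀ ≠ r l₀ := by
    intro h
    have h5 : rel x i₀ u₀ l₀ :=
      (rel_equiv x i₀).trans (g1 u₀) (by rw [h]; exact (rel_equiv x i₀).symm (g1 l₀))
    exact cdet_of_rel E h5 hc (cdet_self _)
  have hcA : A.card = 3 := Finset.card_eq_three.2 ⟨u₀, u₁, u₂, h01, h02, h12, rfl⟩
  have hcB : B.card = 3 := Finset.card_eq_three.2 ⟨l₀, l₁, l₂, hl₁.symm, hl₂.symm, hl12, rfl⟩
  have hdAB : ∀ s, s ∈ A → s ∈ B → False := fun s h h' => hne ((hAr s h).symm.trans (hBr s h'))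
  have hd : Disjoint (A.erase (r u₀)) (B.erase (r l₀)) := by
    rw [Finset.disjoint_left]
    exact fun s h h' => hdAB s (Finset.mem_of_mem_erase h) (Finset.mem_of_mem_erase h')
  have hsub : A.erase (r u₀) ∪ B.erase (r l₀) ⊆ Finset.univ.filter fun s => r s ≠ s := by
    intro s hs
    rw [Finset.mem_filter]
    refine ⟨Finset.mem_univ _, ?_⟩
    rcases Finset.mem_union.1 hs with h | h
    · rw [hAr s (Finset.mem_of_mem_erase h)]
      exact (Finset.ne_of_mem_erase h).symm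
    · rw [hBr s (Finset.mem_of_mem_erase h)]
      exact (Finset.ne_of_mem_erase h).symm
  have hcard := Finset.card_le_card hsub
  rw [g4, Finset.card_union_of_disjoint hd] at hcard
  have hcA' := Finset.pred_card_le_card_erase (s := A) (a := r u₀)
  have hcB' := Finset.pred_card_le_card_erase (s := B) (a := r l₀)
  have hruA : r u₀ ∈ A := by
    by_contra h
    rw [Finset.erase_eq_of_notMem h] at hcard
    omega
  have hrlB : r l₀ ∈ B := by
    by_contra h
    rw [Finset.erase_eq_of_notMem h] at hcard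
    omega
  have hN : A.erase (r u₀) ∪ B.erase (r l₀) = Finset.univ.filter fun s => r s ≠ s := by
    apply Finset.eq_of_subset_of_card_le hsub
    rw [g4, Finset.card_union_of_disjoint hd]
    omega
  have hNA : ∀ t, r t ≠ t → t ∈ A ∨ t ∈ B := by
    intro t ht
    have h5 : t ∈ A.erase (r u₀) ∪ B.erase (r l₀) := by rw [hN]; simp [ht]
    rcases Finset.mem_union.1 h5 with h | h
    · exact Or.inl (Finset.mem_of_mem_erase h)
    · exact Or.inr (Finset.mem_of_mem_erase h)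
  have hcover : ∀ t, Nt x i₀ t → t ∈ A ∨ t ∈ B := by
    rintro t ⟨t', ht', hr⟩
    by_cases h : r t = t
    · have h5 : r t' = t := by rw [← g2 t t' hr, h]
      have h6 : r t' ≠ t' := by rw [h5]; exact ht'.symm
      rcases hNA t' h6 with h7 | h7
      · left
        rw [← h5, hAr t' h7]
        exact hruA
      · right
        rw [← h5, hBr t' h7]
        exact hrlB
    · exact hNA t h
  have hcls : ∀ t, rel x i₀ l₀ t → t ≠ l₀ → t = l₁ ∨ t = l₂ := by
    intro t ht htl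
    rcases hcover t ⟨l₀, htl.symm, (rel_equiv x i₀).symm ht⟩ with h | h
    · exact absurd ((hAr t h).symm.trans (g2 _ _ ht).symm) hne
    · simp only [B, Finset.mem_insert, Finset.mem_singleton] at h
      exact h.resolve_left htl
  have key : ∀ (v₁ v₂ m₁ m₂ : Lb k) (t₁ t₂ : ℂ), v₁ ≠ v₂ → rel x i₀ u₀ v₁ → rel x i₀ u₀ v₂ →
      t₁ • (x v₁).1 = (x u₀).1 → t₂ • (x v₂).1 = (x u₀).1 → t₁ ≠ 1 → t₂ ≠ 0 → (x v₂).1 ≠ 0 →
      (x m₁).1 ≠ 0 → (x m₂).1 ≠ 0 →
      (∀ t, rel x i₀ l₀ t → t ≠ l₀ → t = m₁ ∨ t = m₂) → t₁ • (x m₁).1 = (x l₀).1 →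
      t₂ • (x m₂).1 = (x l₀).1 → t₂ = t₁ * t₁ := by
    intro v₁ v₂ m₁ m₂ t₁ t₂ hv hr1 hr2 e1 e2 ht1 ht20 hv20 hm1 hm2 hm e3 e4
    obtain ⟨θ, _, _, ha, l', hl', hrl', hb⟩ := E.step F hv
      ((rel_equiv x i₀).trans ((rel_equiv x i₀).symm hr1) hr2) (cdet_of_rel E hr1 hc)
    have e5 : t₂ = t₁ * θ := eq_of_smul hv20 (by rw [e2, mul_smul, ha, e1])
    rcases hm l' hrl' hl' with h | h
    · rw [h] at hb
      have e6 : θ = t₁ := eq_of_smul hm1 (hb.trans e3.symm)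
      rw [e5, e6]
    · rw [h] at hb
      have e6 : θ = t₂ := eq_of_smul hm2 (hb.trans e4.symm)
      exfalso
      apply ht1
      rw [e6] at e5
      exact mul_right_cancel₀ ht20 (by rw [one_mul]; exact e5.symm)
  have hθ20 : θ₂ ≠ 0 := by
    rintro rfl
    simp at hθ₂
  have k1 : θ₂ = θ₁ * θ₁ := key u₁ u₂ l₁ l₂ θ₁ θ₂ h12 hr1 hr2 ha₁ ha₂ hθ₁1 hθ20 hu20 hl10 hl20 hcls hb₁ hb₂
  have k2 : θ₁ = θ₂ * θ₂ := key u₂ u₁ l₂ l₁ θ₂ θ₁ h12.symm hr2 hr1 ha₂ ha₁ hθ₂1 hθ10 hu10 hl20 hl10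
    (fun t ht ht' => (hcls t ht ht').symm) hb₂ hb₁
  have k3 : θ₁ * θ₂ = 1 := by
    have h5 : θ₁ * (θ₁ * θ₂) = θ₁ * 1 := by
      rw [← mul_assoc, ← k1, mul_one]; exact k2.symm
    exact mul_left_cancel₀ hθ10 h5
  have k4 : θ₂ ^ 2 + θ₂ + 1 = 0 := by
    have h5 : (θ₁ - 1) * (θ₂ ^ 2 + θ₂ + 1) = 0 := by
      have h6 : θ₂ ^ 2 = θ₁ := by rw [sq]; exact k2.symm
      rw [h6]
      have : (θ₁ - 1) * (θ₁ + θ₂ + 1) = θ₁ * θ₁ + θ₁ * θ₂ - θ₂ - 1 := by ring
      rw [this, ← k1, k3]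
      ring
    exact (mul_eq_zero.1 h5).resolve_left (sub_ne_zero.2 hθ₁1)
  let C : Fin 2 × Fin 3 → Lb k := fun p => ![![u₀, u₁, u₂], ![l₀, l₁, l₂]] p.1 p.2
  have hCA : ∀ s, s ∈ A ∨ s ∈ B → s ∈ Set.range C := by
    intro s hs
    rcases hs with h | h
    · simp only [A, Finset.mem_insert, Finset.mem_singleton] at h
      rcases h with rfl | rfl | rfl
      · exact ⟨(0, 0), rfl⟩
      · exact ⟨(0, 1), rfl⟩
      · exact ⟨(0, 2), rfl⟩
    · simp only [B, Finset.mem_insert, Finset.mem_singleton] at h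
      rcases h with rfl | rfl | rfl
      · exact ⟨(1, 0), rfl⟩
      · exact ⟨(1, 1), rfl⟩
      · exact ⟨(1, 2), rfl⟩
  have hul : ∀ s ∈ A, ∀ t ∈ B, s ≠ t := fun s hs t ht h => hdAB s hs (h ▸ ht)
  have hA0 : u₀ ∈ A := by simp [A]
  have hA1 : u₁ ∈ A := by simp [A]
  have hA2 : u₂ ∈ A := by simp [A]
  have hB0 : l₀ ∈ B := by simp [B]
  have hB1 : l₁ ∈ B := by simp [B]
  have hB2 : l₂ ∈ B := by simp [B]
  have q1 : (x u₁).1 = θ₂ • (x u₀).1 := by rw [← ha₁, smul_smul, mul_comm, k3, one_smul]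
  have q2 : (x u₂).1 = θ₂ ^ 2 • (x u₀).1 := by rw [sq, ← k2, ← ha₂, smul_smul, k3, one_smul]
  have q3 : (x l₁).1 = θ₂ • (x l₀).1 := by rw [← hb₁, smul_smul, mul_comm, k3, one_smul]
  have q4 : (x l₂).1 = θ₂ ^ 2 • (x l₀).1 := by rw [sq, ← k2, ← hb₂, smul_smul, k3, one_smul]
  refine ⟨θ₂, k4, C, ?_, ?_, ?_, ?_, ?_⟩
  · rintro ⟨b, m⟩ ⟨b', m'⟩ h
    fin_cases b <;> fin_cases m <;> fin_cases b' <;> fin_cases m' <;>
    first
      | rfl
      | (exfalso; exact h01 h)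
      | (exfalso; exact h01 h.symm)
      | (exfalso; exact h02 h)
      | (exfalso; exact h02 h.symm)
      | (exfalso; exact h12 h)
      | (exfalso; exact h12 h.symm)
      | (exfalso; exact hl₁ h)
      | (exfalso; exact hl₁ h.symm)
      | (exfalso; exact hl₂ h)
      | (exfalso; exact hl₂ h.symm)
      | (exfalso; exact hl12 h)
      | (exfalso; exact hl12 h.symm)
      | (exfalso; exact hul _ hA0 _ hB0 h)
      | (exfalso; exact hul _ hA0 _ hB1 h)
      | (exfalso; exact hul _ hA0 _ hB2 h)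
      | (exfalso; exact hul _ hA1 _ hB0 h)
      | (exfalso; exact hul _ hA1 _ hB1 h)
      | (exfalso; exact hul _ hA1 _ hB2 h)
      | (exfalso; exact hul _ hA2 _ hB0 h)
      | (exfalso; exact hul _ hA2 _ hB1 h)
      | (exfalso; exact hul _ hA2 _ hB2 h)
      | (exfalso; exact hul _ hA0 _ hB0 h.symm)
      | (exfalso; exact hul _ hA0 _ hB1 h.symm)
      | (exfalso; exact hul _ hA0 _ hB2 h.symm)
      | (exfalso; exact hul _ hA1 _ hB0 h.symm)
      | (exfalso; exact hul _ hA1 _ hB1 h.symm)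
      | (exfalso; exact hul _ hA1 _ hB2 h.symm)
      | (exfalso; exact hul _ hA2 _ hB0 h.symm)
      | (exfalso; exact hul _ hA2 _ hB1 h.symm)
      | (exfalso; exact hul _ hA2 _ hB2 h.symm)
  · intro b m
    fin_cases b <;> fin_cases m
    · simp
    · simpa [C] using q1
    · simpa [C] using q2
    · simp
    · simpa [C] using q3
    · simpa [C] using q4
  · intro b m
    fin_cases b <;> fin_cases m
    · rfl
    · exact (E.rel_iff.1 hr1).1.symm
    · exact (E.rel_iff.1 hr2).1.symm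
    · rfl
    · exact (E.rel_iff.1 hrl₁).1.symm
    · exact (E.rel_iff.1 hrl₂).1.symm
  · intro s hs
    by_contra h
    exact hs (hCA s (hcover s (E.nt_of_ne F h)))
  · intro ρ hρ s hs
    exact E.apply_zero' hρ fun h => hs (hCA s (hcover s h))

end EX

theorem exact_sym {x : Fan k} (hx : Nondeg x) {U : Finset (Lb k)} (hU : Tame x U) (hk : 100 ≤ k)
    (h0 : ∀ i, i ∉ U → (x i).1 = 0) {i₀ : Lb k} (hi₀ : i₀ ∉ U) (h4 : Module.finrank ℝ (Rel x i₀) = 4)
    (hfull : ∀ s, ∃ i, i ∉ U ∧ (cls x i₀ s).card ≤ Module.finrank ℝ ((K x).map (colMap (cls x i₀ s) i)) + 1) :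
    (∃ C : Fin 4 × Fin 2 → Lb k, SymF x 2 4 (-1) C) ∨
    (∃ κ : ℂ, κ ^ 2 + κ + 1 = 0 ∧ ∃ C : Fin 2 × Fin 3 → Lb k, SymF x 3 2 κ C) := by
  have E : EX.Ex x U i₀ := ⟨hx, hU, hk, h0, hi₀, h4⟩
  by_cases h : ∃ u₀ u₁ u₂ : Lb k, u₀ ≠ u₁ ∧ u₀ ≠ u₂ ∧ u₁ ≠ u₂ ∧ rel x i₀ u₀ u₁ ∧ rel x i₀ u₀ u₂
  · obtain ⟨u₀, u₁, u₂, h1, h2, h3, h4, h5⟩ := h
    exact Or.inr (E.case3 hfull h1 h2 h3 h4 h5)
  · exact Or.inl (E.case2 hfull h)

end Pool.Agent.FAN
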