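import Pool.Agent.FAN.NUB

set_option autoImplicit false

namespace Pool.Agent.FAN

open MeasureTheory Topology Filter

variable {k : ℕ}

theorem knu_isOpen_good (x : Fan k) : IsOpen {p : Sp k | Good x p} := by
  have hset : {p : Sp k | Good x p} = ⋂ s : Lb k, ⋂ s' : Lb k,
      {p : Sp k | s ≠ s' → zt ((x s).1 - (x s').1) p.1 ≠ 0 ∨ et ((x s).2 - (x s').2) p.2 ≠ 0} := by
    ext p
    simp [Good]
  rw [hset]
  refine isOpen_iInter_of_finite fun s => isOpen_iInter_of_finite fun s' => ?_
  by_cases hs : s = s'
  · have : {p : Sp k | s ≠ s' → zt ((x s).1 - (x s').1) p.1 ≠ 0 ∨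
        et ((x s).2 - (x s').2) p.2 ≠ 0} = Set.univ := by
      ext p
      simp [hs]
    rw [this]
    exact isOpen_univ
  · have : {p : Sp k | s ≠ s' → zt ((x s).1 - (x s').1) p.1 ≠ 0 ∨
        et ((x s).2 - (x s').2) p.2 ≠ 0} =
        {p : Sp k | zt ((x s).1 - (x s').1) p.1 ≠ 0} ∪
        {p : Sp k | et ((x s).2 - (x s').2) p.2 ≠ 0} := by
      ext p
      simp [hs]
    rw [this]
    refine IsOpen.union ?_ ?_
    · refine isOpen_ne_fun ?_ continuous_const
      unfold zt
      fun_prop
    · refine isOpen_ne_fun ?_ continuous_const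
      unfold et
      fun_prop

theorem knu_hf_continuousAt (x : Fan k) (h : Lb k → Lb k → ℝ) (q : Sp k)
    (hq : ∀ s s', s ≠ s' → cval (x s - x s') q ≠ 0) : ContinuousAt (Hf x h) q := by
  unfold Hf
  refine tendsto_finset_sum _ fun i _ => tendsto_finset_sum _ fun j _ => ?_
  refine Tendsto.const_mul _ ?_
  by_cases hm : q ∈ cell x i j
  · have hmn : cell x i j ∈ 𝓝 q := by
      have h1 : ∀ s, ∀ᶠ q' in 𝓝 q, cval (x s) q' ≤ cval (x i) q' := by
        intro s
        by_cases hs : s = i
        · rw [hs]
          exact Eventually.of_forall fun _ => le_rfl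
        · have h2 : cval (x s) q < cval (x i) q := by
            refine lt_of_le_of_ne (hm s).1 fun he => hq s i hs ?_
            rw [cval_sub, he, sub_self]
          have h3 := (continuous_cval_right (x s)).continuousAt.eventually_lt
            (continuous_cval_right (x i)).continuousAt h2
          exact h3.mono fun _ hh => hh.le
      have h1' : ∀ s, ∀ᶠ q' in 𝓝 q, cval (x j) q' ≤ cval (x s) q' := by
        intro s
        by_cases hs : s = j
        · rw [hs]
          exact Eventually.of_forall fun _ => le_rfl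
        · have h2 : cval (x j) q < cval (x s) q := by
            refine lt_of_le_of_ne (hm s).2 fun he => hq s j hs ?_
            rw [cval_sub, he, sub_self]
          have h3 := (continuous_cval_right (x j)).continuousAt.eventually_lt
            (continuous_cval_right (x s)).continuousAt h2
          exact h3.mono fun _ hh => hh.le
      have h4 : ∀ᶠ q' in 𝓝 q, ∀ s, cval (x s) q' ≤ cval (x i) q' ∧ cval (x j) q' ≤ cval (x s) q' :=
        eventually_all.mpr fun s => (h1 s).and (h1' s)
      exact h4
    have hev : (cell x i j).indicator (fun _ => (1 : ℝ)) =ᶠ[𝓝 q] fun _ => (1 : ℝ) := by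
      filter_upwards [hmn] with q' hq'
      rw [Set.indicator_of_mem hq']
    rw [Set.indicator_of_mem hm]
    exact (tendsto_congr' hev).mpr tendsto_const_nhds
  · have hmn : (cell x i j)ᶜ ∈ 𝓝 q := (isClosed_cell x i j).isOpen_compl.mem_nhds hm
    have hev : (cell x i j).indicator (fun _ => (1 : ℝ)) =ᶠ[𝓝 q] fun _ => (0 : ℝ) := by
      filter_upwards [hmn] with q' hq'
      rw [Set.indicator_of_notMem hq']
    rw [Set.indicator_of_notMem hm]
    exact (tendsto_congr' hev).mpr tendsto_const_nhds

theorem knu_countable (ζ : ℂ) (e : ℝ) (hne : ζ ≠ 0 ∨ e ≠ 0) :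
    {φ : ℝ | (ang φ * ζ).re + e = 0}.Countable := by
  by_cases hζ : ζ = 0
  · have he : e ≠ 0 := hne.resolve_left (fun h => h hζ)
    have : {φ : ℝ | (ang φ * ζ).re + e = 0} = ∅ := by
      ext φ
      simp [hζ, he]
    rw [this]
    exact Set.countable_empty
  · have hform : ∀ φ : ℝ, (ang φ * ζ).re = ‖ζ‖ * Real.cos (φ + Complex.arg ζ) := by
      intro φ
      have h1 : ζ = (‖ζ‖ : ℂ) * Complex.exp (Complex.arg ζ * Complex.I) :=
        (Complex.norm_mul_exp_arg_mul_I ζ).symm
      have h2 : ang φ * ζ = (‖ζ‖ : ℂ) * Complex.exp (((φ + Complex.arg ζ : ℝ) : ℂ) * Complex.I) := by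
        conv_lhs => rw [h1]
        unfold ang
        rw [Complex.ofReal_add, add_mul, Complex.exp_add]
        ring
      rw [h2, Complex.re_ofReal_mul, Complex.exp_ofReal_mul_I_re]
    have hn : ‖ζ‖ ≠ 0 := norm_ne_zero_iff.mpr hζ
    by_cases hemp : {φ : ℝ | (ang φ * ζ).re + e = 0} = ∅
    · rw [hemp]
      exact Set.countable_empty
    · obtain ⟨φ₀, hφ₀⟩ := Set.nonempty_iff_ne_empty.mpr hemp
      have hsub : {φ : ℝ | (ang φ * ζ).re + e = 0} ⊆
          ⋃ m : ℤ, ({2 * m * Real.pi + (φ₀ + Complex.arg ζ) - Complex.arg ζ} ∪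
            {2 * m * Real.pi - (φ₀ + Complex.arg ζ) - Complex.arg ζ} : Set ℝ) := by
        intro φ hφ
        have e1 : (ang φ * ζ).re + e = 0 := hφ
        have e2 : (ang φ₀ * ζ).re + e = 0 := hφ₀
        rw [hform] at e1 e2
        have e3 : Real.cos (φ₀ + Complex.arg ζ) = Real.cos (φ + Complex.arg ζ) := by
          have : ‖ζ‖ * Real.cos (φ₀ + Complex.arg ζ) = ‖ζ‖ * Real.cos (φ + Complex.arg ζ) := by
            linarith
          exact mul_left_cancel₀ hn this
        rw [Real.cos_eq_cos_iff] at e3
        obtain ⟨m, hm⟩ := e3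
        rw [Set.mem_iUnion]
        refine ⟨m, ?_⟩
        rcases hm with hm | hm
        · left
          rw [Set.mem_singleton_iff, ← hm]
          ring
        · right
          rw [Set.mem_singleton_iff, ← hm]
          ring
      refine Set.Countable.mono hsub (Set.countable_iUnion fun m => ?_)
      exact (Set.countable_singleton _).union (Set.countable_singleton _)

theorem knu_avg_continuousAt (x : Fan k) (h : Lb k → Lb k → ℝ) (p : Sp k) (hp : Good x p) :
    ContinuousAt (avg x h) p := by
  unfold avg
  refine intervalIntegral.continuousAt_of_dominated_interval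
    (bound := fun _ => ∑ i, ∑ j, |h i j|) ?_ ?_ ?_ ?_
  · refine Eventually.of_forall fun q => ?_
    have hm : Measurable fun φ : ℝ => Hf x h (rot (ang φ) q) :=
      (measurable_Hf x h).comp (continuous_rot.comp (continuous_ang.prodMk continuous_const)).measurable
    exact hm.aestronglyMeasurable
  · exact Eventually.of_forall fun q => Eventually.of_forall fun φ _ => norm_Hf_le x h _
  · exact intervalIntegrable_const
  · have hnull : ∀ᵐ φ : ℝ, ∀ s s' : Lb k, s ≠ s' → cval (x s - x s') (rot (ang φ) p) ≠ 0 := by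
      rw [ae_all_iff]
      intro s
      rw [ae_all_iff]
      intro s'
      by_cases hs : s = s'
      · exact Eventually.of_forall fun φ h => absurd hs h
      · have hc := knu_countable (zt ((x s).1 - (x s').1) p.1) (et ((x s).2 - (x s').2) p.2)
          (hp s s' hs)
        have h0 : volume {φ : ℝ | (ang φ * zt ((x s).1 - (x s').1) p.1).re +
            et ((x s).2 - (x s').2) p.2 = 0} = 0 := hc.measure_zero volume
        have h1 : ∀ᵐ φ : ℝ, ¬ ((ang φ * zt ((x s).1 - (x s').1) p.1).re +
            et ((x s).2 - (x s').2) p.2 = 0) := by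
          rw [ae_iff]
          simpa using h0
        filter_upwards [h1] with φ hφ _ hc0
        refine hφ ?_
        rw [← hc0]
        simp only [cval, rot, zt_smul_right, Prod.fst_sub, Prod.snd_sub]
    filter_upwards [hnull] with φ hφ _
    have h1 : ContinuousAt (fun q : Sp k => rot (ang φ) q) p := by
      have : Continuous fun q : Sp k => rot (ang φ) q :=
        continuous_rot.comp (continuous_const.prodMk continuous_id)
      exact this.continuousAt
    exact ContinuousAt.comp (g := Hf x h) (f := fun q : Sp k => rot (ang φ) q)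
      (knu_hf_continuousAt x h _ hφ) h1

theorem mem_K_of_nu {x : Fan k} {h : Lb k → Lb k → ℝ} (hd : ∀ i, h i i = 0)
    (H : ∀ s, ∑ i, ∑ j, h i j * (nu k s (cell x i j)).toReal = 0) : h ∈ K x := by
  rw [mem_K]
  refine ⟨hd, fun p hp => ?_⟩
  by_contra hne
  set w : ℝ := avg x h p with hw
  have hcont := knu_avg_continuousAt x h p hp
  have hev1 : ∀ᶠ q in 𝓝 p, Good x q := (knu_isOpen_good x).mem_nhds hp
  have hev2 : ∀ᶠ q in 𝓝 p, w ^ 2 / 2 < w * avg x h q := by
    have h1 : ContinuousAt (fun q => w * avg x h q) p := continuousAt_const.mul hcont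
    have h2 : w ^ 2 / 2 < w * avg x h p := by
      have : 0 < w ^ 2 := by positivity
      rw [← hw]
      nlinarith
    exact h1.eventually (lt_mem_nhds h2)
  obtain ⟨ε, hε, hball⟩ := Metric.eventually_nhds_iff_ball.mp (hev1.and hev2)
  obtain ⟨m, hm⟩ := exists_nat_one_div_lt (show (0 : ℝ) < ε / 2 by positivity)
  have hm1 : (0 : ℝ) < 1 / ((m : ℝ) + 1) := by positivity
  obtain ⟨n, hn⟩ := (TopologicalSpace.denseRange_denseSeq (Sp k)).exists_dist_lt p
    (show (0 : ℝ) < ε / 2 by positivity)
  set s : ℕ := Nat.pair n m with hs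
  have hBl : Bl k s = Metric.closedBall (TopologicalSpace.denseSeq (Sp k) n) (1 / ((m : ℝ) + 1)) := by
    unfold Bl
    rw [hs, Nat.unpair_pair]
  have hsub : Bl k s ⊆ Metric.ball p ε := by
    rw [hBl]
    intro q hq
    rw [Metric.mem_closedBall] at hq
    rw [Metric.mem_ball]
    have h3 := dist_triangle q (TopologicalSpace.denseSeq (Sp k) n) p
    have h4 : dist (TopologicalSpace.denseSeq (Sp k) n) p < ε / 2 := by
      rw [dist_comm]
      exact hn
    linarith
  have hcompact : IsCompact (Bl k s) := by
    rw [hBl]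
    exact isCompact_closedBall _ _
  have hmeas : MeasurableSet (Bl k s) := hcompact.isClosed.measurableSet
  have hco : ContinuousOn (fun q => w * avg x h q) (Bl k s) := by
    intro q hq
    have h5 := knu_avg_continuousAt x h q (hball q (hsub hq)).1
    exact (continuousAt_const.mul h5).continuousWithinAt
  have hint : IntegrableOn (fun q => w * avg x h q) (Bl k s) volume :=
    hco.integrableOn_compact hcompact
  have hzero : ∫ q in Bl k s, avg x h q = 0 := by
    rw [← nu_int]
    exact H s
  have hzero2 : ∫ q in Bl k s, w * avg x h q = 0 := by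
    rw [integral_const_mul, hzero, mul_zero]
  have hfinite : volume (Bl k s) ≠ ⊤ := hcompact.measure_lt_top.ne
  have hpos : 0 < volume (Bl k s) := by
    rw [hBl]
    exact Metric.measure_closedBall_pos volume _ hm1
  have hle : ∫ _q in Bl k s, w ^ 2 / 2 ≤ ∫ q in Bl k s, w * avg x h q := by
    refine setIntegral_mono_on ?_ hint hmeas ?_
    · exact integrableOn_const hfinite
    · intro q hq
      exact (hball q (hsub hq)).2.le
  rw [hzero2, setIntegral_const, smul_eq_mul] at hle
  have hvp : 0 < volume.real (Bl k s) := ENNReal.toReal_pos hpos.ne' hfinite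
  have hw2 : 0 < w ^ 2 / 2 := by positivity
  have := mul_pos hvp hw2
  linarith

end Pool.Agent.FAN
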