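import Pool.Agent.FAN.PT
import Pool.Agent.FAN.KNU

set_option autoImplicit false

namespace Pool.Agent.FAN

open MeasureTheory Topology Filter

variable {k : ℕ}

theorem vr_Hf_eq {x : Fan k} (h : Lb k → Lb k → ℝ) {a b : Lb k} {q : Sp k}
    (ha : ∀ s, s ≠ a → cval (x s) q < cval (x a) q)
    (hb : ∀ s, s ≠ b → cval (x b) q < cval (x s) q) : Hf x h q = h a b := by
  unfold Hf
  rw [Finset.sum_eq_single a, Finset.sum_eq_single b]
  · rw [Set.indicator_of_mem, mul_one]
    intro s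
    refine ⟨?_, ?_⟩
    · by_cases hs : s = a
      · rw [hs]
      · exact (ha s hs).le
    · by_cases hs : s = b
      · rw [hs]
      · exact (hb s hs).le
  · intro b' _ hb'
    rw [Set.indicator_of_notMem, mul_zero]
    intro hm
    have h1 := (hm b).2
    have h2 := hb b' hb'
    linarith
  · intro hb'
    exact absurd (Finset.mem_univ b) hb'
  · intro a' _ ha'
    refine Finset.sum_eq_zero fun b' _ => ?_
    rw [Set.indicator_of_notMem, mul_zero]
    intro hm
    have h1 := (hm a).1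
    have h2 := ha a' ha'
    linarith
  · intro ha'
    exact absurd (Finset.mem_univ a) ha'

/-- the perturbed point -/
noncomputable def vrq (p w₁ w₂ : Sp k) (σ₁ σ₂ ε : ℝ) : Sp k := p + ε • (σ₁ • w₁ + σ₂ • w₂)

theorem vr_continuous (c : Cf k) (θ : ℂ) (p w₁ w₂ : Sp k) (σ₁ σ₂ : ℝ) :
    Continuous fun ε : ℝ => cval c (rot θ (vrq p w₁ w₂ σ₁ σ₂ ε)) := by
  have h1 : Continuous fun ε : ℝ => vrq p w₁ w₂ σ₁ σ₂ ε := by
    unfold vrq
    fun_prop
  exact (continuous_cval_right c).comp (continuous_rot.comp (continuous_const.prodMk h1))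

theorem vr_zero (p w₁ w₂ : Sp k) (σ₁ σ₂ : ℝ) : vrq p w₁ w₂ σ₁ σ₂ 0 = p := by
  unfold vrq
  rw [zero_smul, add_zero]

theorem vr_persist (c d : Cf k) (θ : ℂ) (p w₁ w₂ : Sp k) (σ₁ σ₂ : ℝ)
    (h : cval c (rot θ p) < cval d (rot θ p)) :
    ∀ᶠ ε in 𝓝[>] (0 : ℝ), cval c (rot θ (vrq p w₁ w₂ σ₁ σ₂ ε)) <
      cval d (rot θ (vrq p w₁ w₂ σ₁ σ₂ ε)) := by
  have h1 : cval c (rot θ (vrq p w₁ w₂ σ₁ σ₂ 0)) < cval d (rot θ (vrq p w₁ w₂ σ₁ σ₂ 0)) := by
    rw [vr_zero]
    exact h
  have h2 := (vr_continuous c θ p w₁ w₂ σ₁ σ₂).continuousAt.eventually_lt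
    (vr_continuous d θ p w₁ w₂ σ₁ σ₂).continuousAt h1
  exact h2.filter_mono nhdsWithin_le_nhds

theorem vr_inv {c d : Cf k} (h : c.1 = d.1) (θ : ℂ) (p : Sp k) :
    cval c (rot θ p) - cval d (rot θ p) = cval c p - cval d p := by
  simp only [cval, rot, h]
  ring

theorem vr_special {c d : Cf k} (h : c.1 = d.1) (θ : ℂ) (p w₁ w₂ : Sp k) (σ₁ σ₂ ε : ℝ) :
    cval c (rot θ (vrq p w₁ w₂ σ₁ σ₂ ε)) - cval d (rot θ (vrq p w₁ w₂ σ₁ σ₂ ε)) =
      (cval c p - cval d p) + ε * (σ₁ * (clin c w₁ - clin d w₁) + σ₂ * (clin c w₂ - clin d w₂)) := by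
  rw [vr_inv h]
  unfold vrq
  rw [cval_add_point, cval_add_point]
  simp only [clin_smul_right, clin_add_right]
  ring

theorem vertical_relation {x : Fan k} (hx : Nondeg x) {h : Lb k → Lb k → ℝ} (hh : h ∈ K x) {u i j j' : Lb k}
    (h1 : u ≠ i) (h2 : u ≠ j) (h3 : u ≠ j') (h4 : i ≠ j) (h5 : i ≠ j') (h6 : j ≠ j')
    (ha : (x u).1 = (x i).1) (hb : (x j).1 = (x j').1) (hc : (x u).1 = (x j).1) :
    h u j - h i j - h u j' + h i j' = 0 := by
  classical
  have hK := mem_K.mp hh
  -- the base point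
  let w : Lb k → ℝ := fun s => if s = u ∨ s = i then 2 else if s = j ∨ s = j' then 0 else
    (((s : ℕ) : ℝ) + 1) / ((k : ℝ) + 10)
  obtain ⟨p, hp⟩ := exists_point hx w
  obtain ⟨w₁, hw₁⟩ := exists_dir hx (fun s => if s = u then 1 else 0)
  obtain ⟨w₂, hw₂⟩ := exists_dir hx (fun s => if s = j then 1 else 0)
  have hwu : w u = 2 := by simp [w]
  have hwi : w i = 2 := by simp [w]
  have hwj : w j = 0 := by simp [w, h2.symm, h4.symm]
  have hwj' : w j' = 0 := by simp [w, h3.symm, h5.symm]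
  have hwo : ∀ s, s ≠ u → s ≠ i → s ≠ j → s ≠ j' → w s = (((s : ℕ) : ℝ) + 1) / ((k : ℝ) + 10) := by
    intro s a1 a2 a3 a4
    simp [w, a1, a2, a3, a4]
  have hk10 : (0 : ℝ) < (k : ℝ) + 10 := by positivity
  have hwo1 : ∀ s, s ≠ u → s ≠ i → s ≠ j → s ≠ j' → 0 < w s ∧ w s < 1 := by
    intro s a1 a2 a3 a4
    rw [hwo s a1 a2 a3 a4]
    refine ⟨by positivity, ?_⟩
    rw [div_lt_one hk10]
    have h7 : ((s : ℕ) : ℝ) < (k : ℝ) + 5 := by
      have := s.isLt
      exact_mod_cast this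
    linarith
  -- values at p
  have hpd : ∀ s s', cval (x s) p - cval (x s') p = w s - w s' := hp
  -- non special pairs are not tied at p
  have hne : ∀ s s', s ≠ s' → ¬ (s = u ∧ s' = i) → ¬ (s = i ∧ s' = u) → ¬ (s = j ∧ s' = j') →
      ¬ (s = j' ∧ s' = j) → w s ≠ w s' := by
    intro s s' hss n1 n2 n3 n4 heq
    have key : ∀ s, (w s = 2 ∧ (s = u ∨ s = i)) ∨ (w s = 0 ∧ (s = j ∨ s = j')) ∨
        (0 < w s ∧ w s < 1 ∧ w s = (((s : ℕ) : ℝ) + 1) / ((k : ℝ) + 10)) := by
      intro s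
      by_cases a1 : s = u
      · left
        rw [a1]
        exact ⟨hwu, Or.inl rfl⟩
      by_cases a2 : s = i
      · left
        rw [a2]
        exact ⟨hwi, Or.inr rfl⟩
      by_cases a3 : s = j
      · right; left
        rw [a3]
        exact ⟨hwj, Or.inl rfl⟩
      by_cases a4 : s = j'
      · right; left
        rw [a4]
        exact ⟨hwj', Or.inr rfl⟩
      right; right
      exact ⟨(hwo1 s a1 a2 a3 a4).1, (hwo1 s a1 a2 a3 a4).2, hwo s a1 a2 a3 a4⟩
    rcases key s with ⟨e1, c1⟩ | ⟨e1, c1⟩ | ⟨e1, c1, d1⟩ <;>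
      rcases key s' with ⟨e2, c2⟩ | ⟨e2, c2⟩ | ⟨e2, c2, d2⟩
    · rcases c1 with c1 | c1 <;> rcases c2 with c2 | c2
      · exact hss (c1.trans c2.symm)
      · exact n1 ⟨c1, c2⟩
      · exact n2 ⟨c1, c2⟩
      · exact hss (c1.trans c2.symm)
    · linarith
    · linarith
    · linarith
    · rcases c1 with c1 | c1 <;> rcases c2 with c2 | c2
      · exact hss (c1.trans c2.symm)
      · exact n3 ⟨c1, c2⟩
      · exact n4 ⟨c1, c2⟩
      · exact hss (c1.trans c2.symm)
    · linarith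
    · linarith
    · linarith
    · rw [d1, d2, div_left_inj' hk10.ne'] at heq
      have h8 : ((s : ℕ) : ℝ) = ((s' : ℕ) : ℝ) := by linarith
      exact hss (Fin.ext (by exact_mod_cast h8))
  -- sets of angles
  let TT : ℝ → Prop := fun φ => ∀ s, s ≠ u → s ≠ i →
    cval (x s) (rot (ang φ) p) < cval (x u) (rot (ang φ) p)
  let BB : ℝ → Prop := fun φ => ∀ s, s ≠ j → s ≠ j' →
    cval (x j) (rot (ang φ) p) < cval (x s) (rot (ang φ) p)
  let Φ : Set ℝ := {φ | TT φ ∧ BB φ}
  have hcontφ : ∀ s, Continuous fun φ : ℝ => cval (x s) (rot (ang φ) p) := fun s =>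
    (continuous_cval_right (x s)).comp (continuous_rot.comp (continuous_ang.prodMk continuous_const))
  have hΦopen : IsOpen Φ := by
    have : Φ = (⋂ s, {φ | s ≠ u → s ≠ i →
        cval (x s) (rot (ang φ) p) < cval (x u) (rot (ang φ) p)}) ∩
        ⋂ s, {φ | s ≠ j → s ≠ j' →
        cval (x j) (rot (ang φ) p) < cval (x s) (rot (ang φ) p)} := by
      ext φ
      simp only [Set.mem_inter_iff, Set.mem_iInter]
      exact Iff.rfl
    rw [this]
    refine IsOpen.inter (isOpen_iInter_of_finite fun s => ?_) (isOpen_iInter_of_finite fun s => ?_)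
    · by_cases hs : s ≠ u ∧ s ≠ i
      · have e : {φ : ℝ | s ≠ u → s ≠ i →
            cval (x s) (rot (ang φ) p) < cval (x u) (rot (ang φ) p)} =
            {φ : ℝ | cval (x s) (rot (ang φ) p) < cval (x u) (rot (ang φ) p)} := by
          ext φ
          exact ⟨fun hh => hh hs.1 hs.2, fun hh _ _ => hh⟩
        rw [e]
        exact isOpen_lt (hcontφ s) (hcontφ u)
      · have e : {φ : ℝ | s ≠ u → s ≠ i →
            cval (x s) (rot (ang φ) p) < cval (x u) (rot (ang φ) p)} = Set.univ := by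
          ext φ
          exact ⟨fun _ => trivial, fun _ b1 b2 => absurd ⟨b1, b2⟩ hs⟩
        rw [e]
        exact isOpen_univ
    · by_cases hs : s ≠ j ∧ s ≠ j'
      · have e : {φ : ℝ | s ≠ j → s ≠ j' →
            cval (x j) (rot (ang φ) p) < cval (x s) (rot (ang φ) p)} =
            {φ : ℝ | cval (x j) (rot (ang φ) p) < cval (x s) (rot (ang φ) p)} := by
          ext φ
          exact ⟨fun hh => hh hs.1 hs.2, fun hh _ _ => hh⟩
        rw [e]
        exact isOpen_lt (hcontφ j) (hcontφ s)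
      · have e : {φ : ℝ | s ≠ j → s ≠ j' →
            cval (x j) (rot (ang φ) p) < cval (x s) (rot (ang φ) p)} = Set.univ := by
          ext φ
          exact ⟨fun _ => trivial, fun _ b1 b2 => absurd ⟨b1, b2⟩ hs⟩
        rw [e]
        exact isOpen_univ
  have hΦ0 : (0 : ℝ) ∈ Φ := by
    refine ⟨fun s s1 s2 => ?_, fun s s1 s2 => ?_⟩
    · rw [ang_zero, rot_one]
      have e1 := hpd s u
      rw [hwu] at e1
      have e2 : w s < 2 := by
        by_cases a3 : s = j
        · rw [a3, hwj]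
          norm_num
        by_cases a4 : s = j'
        · rw [a4, hwj']
          norm_num
        linarith [(hwo1 s s1 s2 a3 a4).2]
      linarith
    · rw [ang_zero, rot_one]
      have e1 := hpd j s
      rw [hwj] at e1
      have e2 : 0 < w s := by
        by_cases a3 : s = u
        · rw [a3, hwu]
          norm_num
        by_cases a4 : s = i
        · rw [a4, hwi]
          norm_num
        exact (hwo1 s a3 a4 s1 s2).1
      linarith
  set C : ℝ := h u j' - h i j' - h u j + h i j with hC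
  -- rotation invariant differences
  have hui : ∀ θ : ℂ, cval (x u) (rot θ p) = cval (x i) (rot θ p) := by
    intro θ
    have e1 := vr_inv ha θ p
    rw [hpd, hwu, hwi] at e1
    linarith
  have hjj : ∀ θ : ℂ, cval (x j) (rot θ p) = cval (x j') (rot θ p) := by
    intro θ
    have e1 := vr_inv hb θ p
    rw [hpd, hwj, hwj'] at e1
    linarith
  have huj : ∀ θ : ℂ, cval (x j) (rot θ p) < cval (x u) (rot θ p) := by
    intro θ
    have e1 := vr_inv hc θ p
    rw [hpd, hwu, hwj] at e1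
    linarith
  -- order of the special pairs at the perturbed points
  have hspu : ∀ (θ : ℂ) (σ₁ σ₂ ε : ℝ), cval (x u) (rot θ (vrq p w₁ w₂ σ₁ σ₂ ε)) -
      cval (x i) (rot θ (vrq p w₁ w₂ σ₁ σ₂ ε)) = ε * σ₁ := by
    intro θ σ₁ σ₂ ε
    rw [vr_special ha, hpd, hwu, hwi, hw₁, hw₂, if_pos rfl, if_neg h1.symm, if_neg h2, if_neg h4]
    ring
  have hspj : ∀ (θ : ℂ) (σ₁ σ₂ ε : ℝ), cval (x j) (rot θ (vrq p w₁ w₂ σ₁ σ₂ ε)) -
      cval (x j') (rot θ (vrq p w₁ w₂ σ₁ σ₂ ε)) = ε * σ₂ := by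
    intro θ σ₁ σ₂ ε
    rw [vr_special hb, hpd, hwj, hwj', hw₁, hw₂, if_pos rfl, if_neg h6.symm, if_neg h2.symm,
      if_neg h3.symm]
    ring
  -- angles without further ties
  let NT : ℝ → Prop := fun φ => ∀ s s', w s ≠ w s' →
    cval (x s) (rot (ang φ) p) ≠ cval (x s') (rot (ang φ) p)
  have hNT : ∀ᵐ φ : ℝ, NT φ := by
    show ∀ᵐ φ : ℝ, ∀ s s', w s ≠ w s' →
      cval (x s) (rot (ang φ) p) ≠ cval (x s') (rot (ang φ) p)
    rw [ae_all_iff]
    intro s
    rw [ae_all_iff]
    intro s'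
    by_cases hs : w s = w s'
    · exact Eventually.of_forall fun φ hh => absurd hs hh
    · have hor : zt ((x s).1 - (x s').1) p.1 ≠ 0 ∨ et ((x s).2 - (x s').2) p.2 ≠ 0 := by
        by_contra hcon
        rw [not_or, not_not, not_not] at hcon
        have e1 : cval (x s - x s') p = 0 := by
          simp only [cval, Prod.fst_sub, Prod.snd_sub, hcon.1, hcon.2, Complex.zero_re, add_zero]
        rw [cval_sub, hpd] at e1
        exact hs (by linarith)
      have h0 : volume {φ : ℝ | (ang φ * zt ((x s).1 - (x s').1) p.1).re +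
          et ((x s).2 - (x s').2) p.2 = 0} = 0 := (knu_countable _ _ hor).measure_zero volume
      have h1 : ∀ᵐ φ : ℝ, ¬ ((ang φ * zt ((x s).1 - (x s').1) p.1).re +
          et ((x s).2 - (x s').2) p.2 = 0) := by
        rw [ae_iff]
        simpa using h0
      filter_upwards [h1] with φ hφ _ hc0
      refine hφ ?_
      have e2 : cval (x s - x s') (rot (ang φ) p) = 0 := by
        rw [cval_sub, hc0, sub_self]
      rw [← e2]
      simp only [cval, rot, zt_smul_right, Prod.fst_sub, Prod.snd_sub]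
  -- top labels
  have htop : ∀ φ, NT φ → ∃ tp tm : Lb k,
      (∀ σ₂ : ℝ, ∀ᶠ ε in 𝓝[>] (0 : ℝ), ∀ s, s ≠ tp →
        cval (x s) (rot (ang φ) (vrq p w₁ w₂ 1 σ₂ ε)) <
          cval (x tp) (rot (ang φ) (vrq p w₁ w₂ 1 σ₂ ε))) ∧
      (∀ σ₂ : ℝ, ∀ᶠ ε in 𝓝[>] (0 : ℝ), ∀ s, s ≠ tm →
        cval (x s) (rot (ang φ) (vrq p w₁ w₂ (-1) σ₂ ε)) <
          cval (x tm) (rot (ang φ) (vrq p w₁ w₂ (-1) σ₂ ε))) ∧
      ((TT φ ∧ tp = u ∧ tm = i) ∨ (¬ TT φ ∧ tp = tm)) := by
    intro φ hφ
    by_cases hTT : TT φ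
    · refine ⟨u, i, fun σ₂ => ?_, fun σ₂ => ?_, Or.inl ⟨hTT, rfl, rfl⟩⟩
      · rw [eventually_all]
        intro s
        by_cases s1 : s = u
        · exact Eventually.of_forall fun ε hh => absurd s1 hh
        by_cases s2 : s = i
        · filter_upwards [self_mem_nhdsWithin] with ε hε _
          have e1 := hspu (ang φ) 1 σ₂ ε
          rw [s2]
          have hε' : (0 : ℝ) < ε := hε
          linarith
        · filter_upwards [vr_persist (x s) (x u) (ang φ) p w₁ w₂ 1 σ₂ (hTT s s1 s2)] with ε hε _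
          exact hε
      · rw [eventually_all]
        intro s
        by_cases s2 : s = i
        · exact Eventually.of_forall fun ε hh => absurd s2 hh
        by_cases s1 : s = u
        · filter_upwards [self_mem_nhdsWithin] with ε hε _
          have e1 := hspu (ang φ) (-1) σ₂ ε
          rw [s1]
          have hε' : (0 : ℝ) < ε := hε
          linarith
        · have e3 : cval (x s) (rot (ang φ) p) < cval (x i) (rot (ang φ) p) := by
            rw [← hui]
            exact hTT s s1 s2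
          filter_upwards [vr_persist (x s) (x i) (ang φ) p w₁ w₂ (-1) σ₂ e3] with ε hε _
          exact hε
    · obtain ⟨t, -, ht⟩ := Finset.exists_max_image (Finset.univ : Finset (Lb k))
        (fun s => cval (x s) (rot (ang φ) p)) ⟨u, Finset.mem_univ u⟩
      have ht' : ∀ s, cval (x s) (rot (ang φ) p) ≤ cval (x t) (rot (ang φ) p) := fun s =>
        ht s (Finset.mem_univ s)
      have htu : w t ≠ 2 := by
        intro hw2
        apply hTT
        intro s s1 s2
        have e4 : w s ≠ w u := hne s u s1 (fun hh => h1 hh.2) (fun hh => s2 hh.1)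
          (fun hh => h3 hh.2) (fun hh => h2 hh.2)
        have e5 : cval (x t) (rot (ang φ) p) = cval (x u) (rot (ang φ) p) := by
          by_cases t1 : t = u
          · rw [t1]
          by_cases t2 : t = i
          · rw [t2, hui]
          exfalso
          exact hne t u t1 (fun hh => h1 hh.2) (fun hh => t2 hh.1) (fun hh => h3 hh.2)
            (fun hh => h2 hh.2) (by rw [hw2, hwu])
        have e6 := ht' s
        rw [e5] at e6
        exact lt_of_le_of_ne e6 (hφ s u e4)
      have htnu : t ≠ u := fun hh => htu (by rw [hh, hwu])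
      have htni : t ≠ i := fun hh => htu (by rw [hh, hwi])
      have htnj : t ≠ j := by
        intro hh
        have e7 := ht' u
        rw [hh] at e7
        exact absurd (huj (ang φ)) (not_lt.mpr e7)
      have htnj' : t ≠ j' := by
        intro hh
        have e7 := ht' u
        rw [hh, ← hjj] at e7
        exact absurd (huj (ang φ)) (not_lt.mpr e7)
      have hstrict : ∀ s, s ≠ t → cval (x s) (rot (ang φ) p) < cval (x t) (rot (ang φ) p) := by
        intro s hs
        refine lt_of_le_of_ne (ht' s) (hφ s t ?_)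
        exact hne s t hs (fun hh => htni hh.2) (fun hh => htnu hh.2) (fun hh => htnj' hh.2)
          (fun hh => htnj hh.2)
      refine ⟨t, t, fun σ₂ => ?_, fun σ₂ => ?_, Or.inr ⟨hTT, rfl⟩⟩
      · rw [eventually_all]
        intro s
        by_cases s1 : s = t
        · exact Eventually.of_forall fun ε hh => absurd s1 hh
        · filter_upwards [vr_persist (x s) (x t) (ang φ) p w₁ w₂ 1 σ₂ (hstrict s s1)] with ε hε _
          exact hε
      · rw [eventually_all]
        intro s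
        by_cases s1 : s = t
        · exact Eventually.of_forall fun ε hh => absurd s1 hh
        · filter_upwards [vr_persist (x s) (x t) (ang φ) p w₁ w₂ (-1) σ₂ (hstrict s s1)] with ε hε _
          exact hε
  -- bottom labels
  have hbot : ∀ φ, NT φ → ∃ bp bm : Lb k,
      (∀ σ₁ : ℝ, ∀ᶠ ε in 𝓝[>] (0 : ℝ), ∀ s, s ≠ bp →
        cval (x bp) (rot (ang φ) (vrq p w₁ w₂ σ₁ 1 ε)) <
          cval (x s) (rot (ang φ) (vrq p w₁ w₂ σ₁ 1 ε))) ∧
      (∀ σ₁ : ℝ, ∀ᶠ ε in 𝓝[>] (0 : ℝ), ∀ s, s ≠ bm →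
        cval (x bm) (rot (ang φ) (vrq p w₁ w₂ σ₁ (-1) ε)) <
          cval (x s) (rot (ang φ) (vrq p w₁ w₂ σ₁ (-1) ε))) ∧
      ((BB φ ∧ bp = j' ∧ bm = j) ∨ (¬ BB φ ∧ bp = bm)) := by
    intro φ hφ
    by_cases hBB : BB φ
    · refine ⟨j', j, fun σ₁ => ?_, fun σ₁ => ?_, Or.inl ⟨hBB, rfl, rfl⟩⟩
      · rw [eventually_all]
        intro s
        by_cases s2 : s = j'
        · exact Eventually.of_forall fun ε hh => absurd s2 hh
        by_cases s1 : s = j
        · filter_upwards [self_mem_nhdsWithin] with ε hε _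
          have e1 := hspj (ang φ) σ₁ 1 ε
          rw [s1]
          have hε' : (0 : ℝ) < ε := hε
          linarith
        · have e3 : cval (x j') (rot (ang φ) p) < cval (x s) (rot (ang φ) p) := by
            rw [← hjj]
            exact hBB s s1 s2
          filter_upwards [vr_persist (x j') (x s) (ang φ) p w₁ w₂ σ₁ 1 e3] with ε hε _
          exact hε
      · rw [eventually_all]
        intro s
        by_cases s1 : s = j
        · exact Eventually.of_forall fun ε hh => absurd s1 hh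
        by_cases s2 : s = j'
        · filter_upwards [self_mem_nhdsWithin] with ε hε _
          have e1 := hspj (ang φ) σ₁ (-1) ε
          rw [s2]
          have hε' : (0 : ℝ) < ε := hε
          linarith
        · filter_upwards [vr_persist (x j) (x s) (ang φ) p w₁ w₂ σ₁ (-1) (hBB s s1 s2)] with ε hε _
          exact hε
    · obtain ⟨t, -, ht⟩ := Finset.exists_min_image (Finset.univ : Finset (Lb k))
        (fun s => cval (x s) (rot (ang φ) p)) ⟨u, Finset.mem_univ u⟩
      have ht' : ∀ s, cval (x t) (rot (ang φ) p) ≤ cval (x s) (rot (ang φ) p) := fun s =>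
        ht s (Finset.mem_univ s)
      have htu : w t ≠ 0 := by
        intro hw2
        apply hBB
        intro s s1 s2
        have e4 : w s ≠ w j := hne s j s1 (fun hh => h4 hh.2.symm) (fun hh => h2 hh.2.symm)
          (fun hh => h6 hh.2) (fun hh => s2 hh.1)
        have e5 : cval (x t) (rot (ang φ) p) = cval (x j) (rot (ang φ) p) := by
          by_cases t1 : t = j
          · rw [t1]
          by_cases t2 : t = j'
          · rw [t2, hjj]
          exfalso
          exact hne t j t1 (fun hh => h4 hh.2.symm) (fun hh => h2 hh.2.symm)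
            (fun hh => h6 hh.2) (fun hh => t2 hh.1) (by rw [hw2, hwj])
        have e6 := ht' s
        rw [e5] at e6
        exact lt_of_le_of_ne e6 (hφ j s (Ne.symm e4))
      have htnj : t ≠ j := fun hh => htu (by rw [hh, hwj])
      have htnj' : t ≠ j' := fun hh => htu (by rw [hh, hwj'])
      have htnu : t ≠ u := by
        intro hh
        have e7 := ht' j
        rw [hh] at e7
        exact absurd (huj (ang φ)) (not_lt.mpr e7)
      have htni : t ≠ i := by
        intro hh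
        have e7 := ht' j
        rw [hh, ← hui] at e7
        exact absurd (huj (ang φ)) (not_lt.mpr e7)
      have hstrict : ∀ s, s ≠ t → cval (x t) (rot (ang φ) p) < cval (x s) (rot (ang φ) p) := by
        intro s hs
        refine lt_of_le_of_ne (ht' s) (hφ t s (Ne.symm ?_))
        exact hne s t hs (fun hh => htni hh.2) (fun hh => htnu hh.2) (fun hh => htnj' hh.2)
          (fun hh => htnj hh.2)
      refine ⟨t, t, fun σ₁ => ?_, fun σ₁ => ?_, Or.inr ⟨hBB, rfl⟩⟩
      · rw [eventually_all]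
        intro s
        by_cases s1 : s = t
        · exact Eventually.of_forall fun ε hh => absurd s1 hh
        · filter_upwards [vr_persist (x t) (x s) (ang φ) p w₁ w₂ σ₁ 1 (hstrict s s1)] with ε hε _
          exact hε
      · rw [eventually_all]
        intro s
        by_cases s1 : s = t
        · exact Eventually.of_forall fun ε hh => absurd s1 hh
        · filter_upwards [vr_persist (x t) (x s) (ang φ) p w₁ w₂ σ₁ (-1) (hstrict s s1)] with ε hε _
          exact hε
  -- the mixed difference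
  let G : ℝ → ℝ → ℝ := fun ε φ =>
    Hf x h (rot (ang φ) (vrq p w₁ w₂ 1 1 ε)) - Hf x h (rot (ang φ) (vrq p w₁ w₂ (-1) 1 ε)) -
    Hf x h (rot (ang φ) (vrq p w₁ w₂ 1 (-1) ε)) + Hf x h (rot (ang φ) (vrq p w₁ w₂ (-1) (-1) ε))
  have hlim : ∀ φ, NT φ → Tendsto (fun ε => G ε φ) (𝓝[>] (0 : ℝ)) (𝓝 (Φ.indicator (fun _ => C) φ)) := by
    intro φ hφ
    obtain ⟨tp, tm, ht1, ht2, ht3⟩ := htop φ hφ
    obtain ⟨bp, bm, hb1, hb2, hb3⟩ := hbot φ hφ
    have hev : ∀ᶠ ε in 𝓝[>] (0 : ℝ), G ε φ = h tp bp - h tm bp - h tp bm + h tm bm := by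
      filter_upwards [ht1 1, ht1 (-1), ht2 1, ht2 (-1), hb1 1, hb1 (-1), hb2 1, hb2 (-1)] with
        ε a1 a2 a3 a4 c1 c2 c3 c4
      show Hf x h (rot (ang φ) (vrq p w₁ w₂ 1 1 ε)) - Hf x h (rot (ang φ) (vrq p w₁ w₂ (-1) 1 ε)) -
        Hf x h (rot (ang φ) (vrq p w₁ w₂ 1 (-1) ε)) +
        Hf x h (rot (ang φ) (vrq p w₁ w₂ (-1) (-1) ε)) = _
      rw [vr_Hf_eq h a1 c1, vr_Hf_eq h a3 c2, vr_Hf_eq h a2 c3, vr_Hf_eq h a4 c4]
    have hval : Φ.indicator (fun _ => C) φ = h tp bp - h tm bp - h tp bm + h tm bm := by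
      rcases ht3 with ⟨q1, q2, q3⟩ | ⟨q1, q2⟩
      · rcases hb3 with ⟨r1, r2, r3⟩ | ⟨r1, r2⟩
        · rw [Set.indicator_of_mem (show φ ∈ Φ from ⟨q1, r1⟩), q2, q3, r2, r3]
        · rw [Set.indicator_of_notMem (fun hm => r1 hm.2), r2]
          ring
      · rw [Set.indicator_of_notMem (fun hm => q1 hm.1), q2]
        ring
    rw [hval]
    exact (tendsto_congr' hev).mpr tendsto_const_nhds
  -- measurability and bounds
  have hmeasG : ∀ ε, Measurable (G ε) := by
    intro ε
    have hm : ∀ q : Sp k, Measurable fun φ : ℝ => Hf x h (rot (ang φ) q) := fun q =>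
      (measurable_Hf x h).comp (continuous_rot.comp (continuous_ang.prodMk continuous_const)).measurable
    exact (((hm _).sub (hm _)).sub (hm _)).add (hm _)
  have hboundG : ∀ ε φ, ‖G ε φ‖ ≤ 4 * ∑ i, ∑ j, |h i j| := by
    intro ε φ
    have b1 := norm_Hf_le x h (rot (ang φ) (vrq p w₁ w₂ 1 1 ε))
    have b2 := norm_Hf_le x h (rot (ang φ) (vrq p w₁ w₂ (-1) 1 ε))
    have b3 := norm_Hf_le x h (rot (ang φ) (vrq p w₁ w₂ 1 (-1) ε))
    have b4 := norm_Hf_le x h (rot (ang φ) (vrq p w₁ w₂ (-1) (-1) ε))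
    rw [Real.norm_eq_abs] at b1 b2 b3 b4
    rw [Real.norm_eq_abs]
    have c1 := abs_le.mp b1
    have c2 := abs_le.mp b2
    have c3 := abs_le.mp b3
    have c4 := abs_le.mp b4
    refine abs_le.mpr ⟨?_, ?_⟩
    · show _ ≤ Hf x h (rot (ang φ) (vrq p w₁ w₂ 1 1 ε)) -
        Hf x h (rot (ang φ) (vrq p w₁ w₂ (-1) 1 ε)) -
        Hf x h (rot (ang φ) (vrq p w₁ w₂ 1 (-1) ε)) +
        Hf x h (rot (ang φ) (vrq p w₁ w₂ (-1) (-1) ε))
      linarith [c1.1, c2.2, c3.2, c4.1]
    · show Hf x h (rot (ang φ) (vrq p w₁ w₂ 1 1 ε)) -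
        Hf x h (rot (ang φ) (vrq p w₁ w₂ (-1) 1 ε)) -
        Hf x h (rot (ang φ) (vrq p w₁ w₂ 1 (-1) ε)) +
        Hf x h (rot (ang φ) (vrq p w₁ w₂ (-1) (-1) ε)) ≤ _
      linarith [c1.2, c2.1, c3.1, c4.2]
  have hconv : Tendsto (fun ε => ∫ φ in (0 : ℝ)..(2 * Real.pi), G ε φ) (𝓝[>] (0 : ℝ))
      (𝓝 (∫ φ in (0 : ℝ)..(2 * Real.pi), Φ.indicator (fun _ => C) φ)) := by
    refine intervalIntegral.tendsto_integral_filter_of_dominated_convergence
      (fun _ => 4 * ∑ i, ∑ j, |h i j|) ?_ ?_ ?_ ?_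
    · exact Eventually.of_forall fun ε => (hmeasG ε).aestronglyMeasurable
    · exact Eventually.of_forall fun ε => Eventually.of_forall fun φ _ => hboundG ε φ
    · exact intervalIntegrable_const
    · filter_upwards [hNT] with φ hφ _
      exact hlim φ hφ
  -- the integrals vanish for small parameters
  have hgood : ∀ σ₁ σ₂ : ℝ, σ₁ ≠ 0 → σ₂ ≠ 0 →
      ∀ᶠ ε in 𝓝[>] (0 : ℝ), avg x h (vrq p w₁ w₂ σ₁ σ₂ ε) = 0 := by
    intro σ₁ σ₂ hσ₁ hσ₂
    have hpair : ∀ s s', s ≠ s' → ∀ᶠ ε in 𝓝[>] (0 : ℝ),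
        cval (x s) (vrq p w₁ w₂ σ₁ σ₂ ε) ≠ cval (x s') (vrq p w₁ w₂ σ₁ σ₂ ε) := by
      intro s s' hss
      have hsu := fun ε => hspu 1 σ₁ σ₂ ε
      have hsj := fun ε => hspj 1 σ₁ σ₂ ε
      simp only [rot_one] at hsu hsj
      by_cases hw : w s = w s'
      · have hcase : (s = u ∧ s' = i) ∨ (s = i ∧ s' = u) ∨ (s = j ∧ s' = j') ∨
            (s = j' ∧ s' = j) := by
          by_contra hcon
          rw [not_or, not_or, not_or] at hcon
          exact hne s s' hss hcon.1 hcon.2.1 hcon.2.2.1 hcon.2.2.2 hw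
        filter_upwards [self_mem_nhdsWithin] with ε hε heq
        have hε' : (0 : ℝ) < ε := hε
        rcases hcase with ⟨q1, q2⟩ | ⟨q1, q2⟩ | ⟨q1, q2⟩ | ⟨q1, q2⟩
        · rw [q1, q2] at heq
          have := hsu ε
          rw [heq, sub_self] at this
          exact (mul_ne_zero hε'.ne' hσ₁) this.symm
        · rw [q1, q2] at heq
          have := hsu ε
          rw [heq, sub_self] at this
          exact (mul_ne_zero hε'.ne' hσ₁) this.symm
        · rw [q1, q2] at heq
          have := hsj ε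
          rw [heq, sub_self] at this
          exact (mul_ne_zero hε'.ne' hσ₂) this.symm
        · rw [q1, q2] at heq
          have := hsj ε
          rw [heq, sub_self] at this
          exact (mul_ne_zero hε'.ne' hσ₂) this.symm
      · have hv : cval (x s) p ≠ cval (x s') p := by
          intro heq
          have := hpd s s'
          rw [heq, sub_self] at this
          exact hw (by linarith)
        rcases lt_or_gt_of_ne hv with hlt | hlt
        · have := vr_persist (x s) (x s') 1 p w₁ w₂ σ₁ σ₂ (by rw [rot_one]; exact hlt)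
          filter_upwards [this] with ε hε
          rw [rot_one] at hε
          exact hε.ne
        · have := vr_persist (x s') (x s) 1 p w₁ w₂ σ₁ σ₂ (by rw [rot_one]; exact hlt)
          filter_upwards [this] with ε hε
          rw [rot_one] at hε
          exact hε.ne'
    have hall : ∀ᶠ ε in 𝓝[>] (0 : ℝ), ∀ s s', s ≠ s' →
        cval (x s) (vrq p w₁ w₂ σ₁ σ₂ ε) ≠ cval (x s') (vrq p w₁ w₂ σ₁ σ₂ ε) := by
      rw [eventually_all]
      intro s
      rw [eventually_all]
      intro s'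
      by_cases hss : s = s'
      · exact Eventually.of_forall fun ε hh => absurd hss hh
      · filter_upwards [hpair s s' hss] with ε hε _
        exact hε
    filter_upwards [hall] with ε hε
    refine hK.2 _ fun s s' hss => ?_
    by_contra hcon
    rw [not_or, not_not, not_not] at hcon
    refine hε s s' hss ?_
    have e1 : cval (x s - x s') (vrq p w₁ w₂ σ₁ σ₂ ε) = 0 := by
      simp only [cval, Prod.fst_sub, Prod.snd_sub, hcon.1, hcon.2, Complex.zero_re, add_zero]
    rw [cval_sub] at e1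
    linarith
  have hzero : ∀ᶠ ε in 𝓝[>] (0 : ℝ), ∫ φ in (0 : ℝ)..(2 * Real.pi), G ε φ = 0 := by
    have n1 : (1 : ℝ) ≠ 0 := one_ne_zero
    have n2 : (-1 : ℝ) ≠ 0 := by norm_num
    filter_upwards [hgood 1 1 n1 n1, hgood (-1) 1 n2 n1, hgood 1 (-1) n1 n2,
      hgood (-1) (-1) n2 n2] with ε g1 g2 g3 g4
    have i1 := intervalIntegrable_Hf x h (vrq p w₁ w₂ 1 1 ε) 0 (2 * Real.pi)
    have i2 := intervalIntegrable_Hf x h (vrq p w₁ w₂ (-1) 1 ε) 0 (2 * Real.pi)
    have i3 := intervalIntegrable_Hf x h (vrq p w₁ w₂ 1 (-1) ε) 0 (2 * Real.pi)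
    have i4 := intervalIntegrable_Hf x h (vrq p w₁ w₂ (-1) (-1) ε) 0 (2 * Real.pi)
    show ∫ φ in (0 : ℝ)..(2 * Real.pi),
      (Hf x h (rot (ang φ) (vrq p w₁ w₂ 1 1 ε)) - Hf x h (rot (ang φ) (vrq p w₁ w₂ (-1) 1 ε)) -
      Hf x h (rot (ang φ) (vrq p w₁ w₂ 1 (-1) ε)) +
      Hf x h (rot (ang φ) (vrq p w₁ w₂ (-1) (-1) ε))) = 0
    rw [intervalIntegral.integral_add ((i1.sub i2).sub i3) i4,
      intervalIntegral.integral_sub (i1.sub i2) i3, intervalIntegral.integral_sub i1 i2]
    unfold avg at g1 g2 g3 g4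
    rw [g1, g2, g3, g4]
    ring
  have hfin : ∫ φ in (0 : ℝ)..(2 * Real.pi), Φ.indicator (fun _ => C) φ = 0 := by
    have hz : Tendsto (fun ε => ∫ φ in (0 : ℝ)..(2 * Real.pi), G ε φ) (𝓝[>] (0 : ℝ)) (𝓝 0) :=
      (tendsto_congr' hzero).mpr tendsto_const_nhds
    exact tendsto_nhds_unique hconv hz
  rw [intervalIntegral.integral_of_le Real.two_pi_pos.le,
    setIntegral_indicator hΦopen.measurableSet, setIntegral_const, smul_eq_mul] at hfin
  have hpos : 0 < volume.real (Set.Ioc (0 : ℝ) (2 * Real.pi) ∩ Φ) := by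
    have hpos' : 0 < volume (Set.Ioc (0 : ℝ) (2 * Real.pi) ∩ Φ) := by
      obtain ⟨δ, hδ, hsub⟩ := Metric.isOpen_iff.mp hΦopen 0 hΦ0
      have hopen : Set.Ioo (0 : ℝ) (min δ (2 * Real.pi)) ⊆ Set.Ioc (0 : ℝ) (2 * Real.pi) ∩ Φ := by
        intro t ht
        refine ⟨⟨ht.1, (ht.2.trans_le (min_le_right _ _)).le⟩, hsub ?_⟩
        rw [Metric.mem_ball, Real.dist_eq, sub_zero, abs_of_pos ht.1]
        exact ht.2.trans_le (min_le_left _ _)
      refine lt_of_lt_of_le ?_ (measure_mono hopen)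
      rw [Real.volume_Ioo]
      have : 0 < min δ (2 * Real.pi) := lt_min hδ Real.two_pi_pos
      simpa using this
    have hfinite : volume (Set.Ioc (0 : ℝ) (2 * Real.pi) ∩ Φ) ≠ ⊤ := by
      refine ne_top_of_le_ne_top ?_ (measure_mono Set.inter_subset_left)
      rw [Real.volume_Ioc]
      exact ENNReal.ofReal_ne_top
    exact ENNReal.toReal_pos hpos'.ne' hfinite
  have hC0 : C = 0 := (mul_eq_zero.mp hfin).resolve_left hpos.ne'
  rw [hC] at hC0
  linarith

end Pool.Agent.FAN
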