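import Pool.Agent.FAN.ZA
import Pool.Agent.FAN.REL

set_option autoImplicit false

namespace Pool.Agent.FAN

open MeasureTheory Topology Filter

variable {k : ℕ}

/-- `(1 + θ)/(1 - θ)` is purely imaginary for `|θ| = 1` -/
theorem ndg_cayley {θ : ℂ} (hθ : ‖θ‖ = 1) : ((1 + θ) / (1 - θ)).re = 0 := by
  have h1 : θ.re * θ.re + θ.im * θ.im = 1 := by
    rw [← Complex.normSq_apply, Complex.normSq_eq_norm_sq, hθ]
    norm_num
  rw [Complex.div_re]
  simp only [Complex.add_re, Complex.one_re, Complex.sub_re, Complex.add_im, Complex.one_im,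
    Complex.sub_im]
  rw [← add_div]
  have h2 : (1 + θ.re) * (1 - θ.re) + (0 + θ.im) * (0 - θ.im) = 0 := by ring_nf; linarith
  rw [h2, zero_div]

/-- the centre of a rotation taking `p` to `q` lies on the real line `(p + q)/2 + ℝ i (q - p)` -/
theorem ndg_center {θ : ℂ} (hθ : ‖θ‖ = 1) {p q a : ℂ × ℂ} (h : θ • (p - a) = q - a) (hne : q ≠ p) :
    ∃ t : ℝ, a = (1 / 2 : ℝ) • (p + q) + ((t : ℂ) * Complex.I) • (q - p) := by
  have hθ1 : θ ≠ 1 := by
    rintro rfl
    rw [one_smul] at h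
    exact hne (sub_left_injective h.symm)
  have hd : (1 - θ) ≠ 0 := sub_ne_zero.2 (Ne.symm hθ1)
  have hc : ((1 + θ) / (1 - θ)) = ((((1 + θ) / (1 - θ)).im : ℝ) : ℂ) * Complex.I := by
    apply Complex.ext
    · simp [ndg_cayley hθ]
    · simp
  refine ⟨((1 + θ) / (1 - θ)).im / 2, ?_⟩
  have hc2 : (((((1 + θ) / (1 - θ)).im / 2 : ℝ) : ℂ) * Complex.I) = (1 + θ) / (1 - θ) / 2 := by
    conv_rhs => rw [hc]
    push_cast
    ring
  rw [hc2]
  have key : ∀ P Q A : ℂ, θ * (P - A) = Q - A →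
      A = (1 / 2 : ℝ) • (P + Q) + ((1 + θ) / (1 - θ) / 2) * (Q - P) := by
    intro P Q A hA
    have h1 : Q = θ * (P - A) + A := by rw [hA]; ring
    rw [h1, Complex.real_smul]
    push_cast
    field_simp
    ring
  apply Prod.ext
  · have h1 := congrArg Prod.fst h
    exact key _ _ _ h1
  · have h1 := congrArg Prod.snd h
    exact key _ _ _ h1

theorem nd_gap {x : Fan k} (hx : Nondeg x) {i₀ i₁ : Lb k} (hne : (x i₀).1 ≠ (x i₁).1)
    (h2 : 2 ≤ Module.finrank ℝ (Rel x i₀)) (hmin : Module.finrank ℝ (Rel x i₀) ≤ Module.finrank ℝ (Rel x i₁)) :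
    Module.finrank ℝ (Rel x i₀) + 1 ≤ Module.finrank ℝ (EqR x) := by
  by_contra hcon
  have h3 : Module.finrank ℝ (EqR x) ≤ Module.finrank ℝ (Rel x i₀) := by omega
  have e0 : Rel x i₀ = EqR x := Submodule.eq_of_le_of_finrank_le (Rel_le x i₀) h3
  have e1 : Rel x i₁ = EqR x := Submodule.eq_of_le_of_finrank_le (Rel_le x i₁) (h3.trans hmin)
  have hrel0 : ∀ s s', (x s).2 = (x s').2 → rel x i₀ s s' := fun s s' h =>
    mem_Rel_iff.1 (e0 ▸ Submodule.subset_span ⟨s, s', h, rfl⟩)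
  have hrel1 : ∀ s s', (x s).2 = (x s').2 → rel x i₁ s s' := fun s s' h =>
    mem_Rel_iff.1 (e1 ▸ Submodule.subset_span ⟨s, s', h, rfl⟩)
  have hEq2 : 2 ≤ Module.finrank ℝ (EqR x) := by rw [← e0]; exact h2
  -- the difference of the centres is `i t (a_s' - a_s)`
  have hdiff : ∀ s s', (x s).2 = (x s').2 → (x s).1 ≠ (x s').1 →
      ∃ t : ℝ, (x i₀).1 - (x i₁).1 = ((t : ℂ) * Complex.I) • ((x s).1 - (x s').1) := by
    intro s s' h hs
    obtain ⟨-, θ, hθ, h1⟩ := hrel0 s s' h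
    obtain ⟨-, θ', hθ', h1'⟩ := hrel1 s s' h
    obtain ⟨t, ht⟩ := ndg_center hθ h1 hs
    obtain ⟨t', ht'⟩ := ndg_center hθ' h1' hs
    refine ⟨t - t', ?_⟩
    rw [ht, ht', Complex.ofReal_sub, sub_mul, sub_smul]
    abel
  -- relation vectors have independent `a` parts
  have hZ : ∀ s s', (x s).2 = (x s').2 → ed s s' ∈ Zs x := fun s s' h =>
    EqR_le x (Submodule.subset_span ⟨s, s', h, rfl⟩)
  have hedA : ∀ s s' : Lb k, ∑ t, ed s s' t • (x t).1 = (x s).1 - (x s').1 := by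
    intro s s'
    simp [rel_ed_apply, sub_smul, Finset.sum_sub_distrib, ite_smul]
  have hA : ∀ s s', (x s).2 = (x s').2 → ed s s' ≠ 0 → (x s).1 ≠ (x s').1 := by
    intro s s' h hs h1
    apply hs
    apply Zs_inj hx (hZ s s' h)
    rw [hedA, h1, sub_self]
  -- a nonzero generator
  obtain ⟨s, s', hss, hss0⟩ : ∃ s s', (x s).2 = (x s').2 ∧ ed s s' ≠ 0 := by
    by_contra hno
    push Not at hno
    have h4 : EqR x = ⊥ := by
      unfold EqR
      rw [Submodule.span_eq_bot]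
      rintro v ⟨s, s', h, rfl⟩
      exact hno s s' h
    rw [h4, finrank_bot] at hEq2
    omega
  -- a second one, independent
  obtain ⟨t, t', htt, htt0⟩ : ∃ t t', (x t).2 = (x t').2 ∧ ed t t' ∉ Submodule.span ℝ {ed s s'} := by
    by_contra hno
    push Not at hno
    have h4 : EqR x ≤ Submodule.span ℝ {ed s s'} := by
      unfold EqR
      rw [Submodule.span_le]
      rintro v ⟨t, t', h, rfl⟩
      exact hno t t' h
    have h5 := Submodule.finrank_mono h4
    rw [finrank_span_singleton hss0] at h5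
    omega
  have htt00 : ed t t' ≠ 0 := by
    intro h4
    rw [h4] at htt0
    exact htt0 (Submodule.zero_mem _)
  obtain ⟨r, hr⟩ := hdiff s s' hss (hA s s' hss hss0)
  obtain ⟨r', hr'⟩ := hdiff t t' htt (hA t t' htt htt00)
  have hr0 : r ≠ 0 := by
    rintro rfl
    apply hne
    rw [← sub_eq_zero, hr]
    simp
  have hr0' : r' ≠ 0 := by
    rintro rfl
    apply hne
    rw [← sub_eq_zero, hr']
    simp
  -- linear relation
  have h6 : r • ((x s).1 - (x s').1) = r' • ((x t).1 - (x t').1) := by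
    have h7 : ((r : ℂ) * Complex.I) • ((x s).1 - (x s').1) = ((r' : ℂ) * Complex.I) • ((x t).1 - (x t').1) := by
      rw [← hr, ← hr']
    rw [mul_comm, mul_comm (r' : ℂ), mul_smul, mul_smul] at h7
    have h8 := smul_right_injective (ℂ × ℂ) Complex.I_ne_zero h7
    rw [Complex.coe_smul, Complex.coe_smul] at h8
    exact h8
  have h9 : r • ed s s' - r' • ed t t' = 0 := by
    apply Zs_inj hx
    · exact Submodule.sub_mem _ (Submodule.smul_mem _ _ (hZ s s' hss)) (Submodule.smul_mem _ _ (hZ t t' htt))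
    · have h10 : ∀ v, (r • ed s s' - r' • ed t t') v • (x v).1 =
          r • (ed s s' v • (x v).1) - r' • (ed t t' v • (x v).1) := by
        intro v
        rw [Pi.sub_apply, Pi.smul_apply, Pi.smul_apply, sub_smul, smul_eq_mul, smul_eq_mul, mul_smul,
          mul_smul]
      simp only [h10]
      rw [Finset.sum_sub_distrib, ← Finset.smul_sum, ← Finset.smul_sum, hedA, hedA, h6, sub_self]
  apply htt0
  rw [Submodule.mem_span_singleton]
  refine ⟨r'⁻¹ * r, ?_⟩
  rw [mul_smul, sub_eq_zero.1 h9, smul_smul, inv_mul_cancel₀ hr0', one_smul]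

end Pool.Agent.FAN
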