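import Pool.Agent.FAN.PTN
import Pool.Agent.FAN.C1
import Pool.Agent.FAN.NDG

set_option autoImplicit false

namespace Pool.Agent.FAN

open MeasureTheory Topology Filter

variable {k : ℕ}

/-- the support of a difference of two basis vectors is short -/
theorem x3_ed_short (s s' : Lb k) : (Finset.univ.filter fun t => ed s s' t ≠ 0).card ≤ 4 := by
  classical
  have h : (Finset.univ.filter fun t => ed s s' t ≠ 0) ⊆ {s, s'} := by
    intro t ht
    rw [Finset.mem_filter] at ht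
    by_contra hcon
    rw [Finset.mem_insert, Finset.mem_singleton, not_or] at hcon
    apply ht.2
    rw [rel_ed_apply, if_neg hcon.1, if_neg hcon.2, sub_zero]
  exact (Finset.card_le_card h).trans (Finset.card_le_two.trans (by norm_num))

theorem x3_mem_U {x : Fan k} {U : Finset (Lb k)} (hU : Tame x U) {s s' : Lb k} (hne : s ≠ s')
    (h : (x s).2 = (x s').2) : s' ∈ U := by
  have hZ : ed s s' ∈ Zs x := EqR_le x (Submodule.subset_span ⟨s, s', h, rfl⟩)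
  apply hU.short _ hZ (x3_ed_short s s') s'
  rw [rel_ed_apply, if_neg (Ne.symm hne), if_pos rfl]
  norm_num

theorem x3_short {x : Fan k} {U : Finset (Lb k)} (hU : Tame x U) {i : Lb k} (hi : i ∉ U) :
    ∀ ρ ∈ Zs x, (Finset.univ.filter fun s => ρ s ≠ 0).card ≤ 4 → ρ i = 0 := by
  intro ρ hρ hc
  by_contra h
  exact hi (hU.short ρ hρ hc i h)

/-- labels with the same `(λ, c)` have different `a` -/
theorem x3_a_ne {x : Fan k} (hx : Nondeg x) {s s' : Lb k} (hne : s ≠ s') (h : (x s).2 = (x s').2) :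
    (x s).1 ≠ (x s').1 := by
  intro ha
  have hZ : ed s s' ∈ Zs x := EqR_le x (Submodule.subset_span ⟨s, s', h, rfl⟩)
  have h0 : ed s s' = 0 := by
    apply Zs_inj hx hZ
    simp [rel_ed_apply, sub_smul, Finset.sum_sub_distrib, ite_smul, ha]
  have h1 := congrFun h0 s
  rw [rel_ed_apply, if_pos rfl, if_neg hne] at h1
  norm_num at h1

/-- the conclusion for one label, from a related label -/
theorem x3_of_rel {x : Fan k} (hx : Nondeg x) {U : Finset (Lb k)} (hU : Tame x U) {i u u' : Lb k}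
    (hne : u' ≠ u) (hrel : rel x i u u') :
    ∃ u' ∈ U, (x u').2 = (x u).2 ∧
      ∃ t : ℝ, (x i).1 = (1 / 2 : ℝ) • ((x u).1 + (x u').1) + ((t : ℂ) * Complex.I) • ((x u').1 - (x u).1) := by
  obtain ⟨h2, θ, hθ, h3⟩ := hrel
  refine ⟨u', x3_mem_U hU (Ne.symm hne) h2, h2.symm, ?_⟩
  obtain ⟨t, ht⟩ := ndg_center hθ h3 (x3_a_ne hx (Ne.symm hne) h2)
  refine ⟨-t, ?_⟩
  conv_lhs => rw [ht]
  rw [add_comm (x u').1 (x u).1, Complex.ofReal_neg, neg_mul, neg_smul, ← smul_neg, neg_sub]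

theorem exists_special {x : Fan k} (hx : Nondeg x) {U : Finset (Lb k)} (hU : Tame x U) (hk : 100 ≤ k)
    (hK : K x ≠ ⊥) :
    ∃ u ∈ U, ∃ j : Lb k, ∀ i, i ∉ U → i ≠ j → ∃ u' ∈ U, (x u').2 = (x u).2 ∧
      ∃ t : ℝ, (x i).1 = (1 / 2 : ℝ) • ((x u).1 + (x u').1) + ((t : ℂ) * Complex.I) • ((x u').1 - (x u).1) := by
  obtain ⟨h, hh, hne⟩ := Submodule.exists_mem_ne_zero_of_ne_bot hK
  obtain ⟨a, b, hab⟩ : ∃ a b, h a b ≠ 0 := by
    by_contra hcon
    push Not at hcon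
    exact hne (funext fun a => funext fun b => hcon a b)
  have hdiag : ∀ i, h i i = 0 := hh.1
  -- the conclusion from a failure of the relation
  have main : ∀ u ∈ U, ∀ j : Lb k, (∀ i, i ∉ U → i ≠ j → (x u).1 ≠ (x i).1 →
      ¬ (∀ (θ : ℂ) (s s' : Lb k) (α : ℝ), ‖θ‖ = 1 → θ ≠ 1 → s ≠ s' → α ≠ 0 →
      rotc θ (x s - x s') = α • (x u - x i) → (∀ b, h s b = 0) ∧ (∀ t, h t s' = 0))) →
      ∀ i, i ∉ U → i ≠ j → ∃ u' ∈ U, (x u').2 = (x u).2 ∧
      ∃ t : ℝ, (x i).1 = (1 / 2 : ℝ) • ((x u).1 + (x u').1) + ((t : ℂ) * Complex.I) • ((x u').1 - (x u).1) := by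
    intro u hu j H i hi hij
    by_cases ha : (x u).1 = (x i).1
    · refine ⟨u, hu, rfl, 0, ?_⟩
      rw [← ha, sub_self, smul_zero, add_zero, ← two_smul ℝ, smul_smul]
      norm_num
    · have hui : u ≠ i := fun h => hi (h ▸ hu)
      have H1 := H i hi hij ha
      push Not at H1
      obtain ⟨θ, s, s', α, h1, h2, h3, h4, h5, -⟩ := H1
      rcases partner hx (x3_short hU hi) hui ha h1 h2 h3 h4 h5 with ⟨-, -, h6, h7⟩ | ⟨-, -, h6, h7⟩
      · exact x3_of_rel hx hU h6 h7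
      · exact x3_of_rel hx hU h6 h7
  have top : ∀ u ∈ U, ∀ j, h u j ≠ 0 → (∀ i, i ∉ U → i ≠ j → h i j = 0) →
      ∃ u ∈ U, ∃ j : Lb k, ∀ i, i ∉ U → i ≠ j → ∃ u' ∈ U, (x u').2 = (x u).2 ∧
      ∃ t : ℝ, (x i).1 = (1 / 2 : ℝ) • ((x u).1 + (x u').1) + ((t : ℂ) * Complex.I) • ((x u').1 - (x u).1) := by
    intro u hu j huj H
    refine ⟨u, hu, j, main u hu j fun i hi hij ha hpart => ?_⟩
    have hui : u ≠ i := fun h => hi (h ▸ hu)
    have huj' : u ≠ j := by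
      rintro rfl
      exact huj (hdiag u)
    have h1 := C1_top hx hh hui huj' hij ha hpart
    rw [H i hi hij] at h1
    exact huj h1
  have bot : ∀ u ∈ U, ∀ j, h j u ≠ 0 → (∀ i, i ∉ U → i ≠ j → h j i = 0) →
      ∃ u ∈ U, ∃ j : Lb k, ∀ i, i ∉ U → i ≠ j → ∃ u' ∈ U, (x u').2 = (x u).2 ∧
      ∃ t : ℝ, (x i).1 = (1 / 2 : ℝ) • ((x u).1 + (x u').1) + ((t : ℂ) * Complex.I) • ((x u').1 - (x u).1) := by
    intro u hu j huj H
    refine ⟨u, hu, j, main u hu j fun i hi hij ha hpart => ?_⟩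
    have hui : u ≠ i := fun h => hi (h ▸ hu)
    have huj' : u ≠ j := by
      rintro rfl
      exact huj (hdiag u)
    have h1 := C1_bot hx hh hui huj' hij ha hpart
    rw [H i hi hij] at h1
    exact huj h1
  by_cases hA1 : ∃ u ∈ U, ∃ j, j ∉ U ∧ h u j ≠ 0
  · obtain ⟨u, hu, j, hj, huj⟩ := hA1
    exact top u hu j huj fun i hi _ => hU.zero h hh i hi j hj
  by_cases hA2 : ∃ u ∈ U, ∃ j, j ∉ U ∧ h j u ≠ 0
  · obtain ⟨u, hu, j, hj, huj⟩ := hA2
    exact bot u hu j huj fun i hi _ => hU.zero h hh j hj i hi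
  push Not at hA1 hA2
  by_cases haU : a ∈ U
  · by_cases hbU : b ∈ U
    · exact top a haU b hab fun i hi _ => hA2 b hbU i hi
    · exact absurd (hA1 a haU b hbU) hab
  · by_cases hbU : b ∈ U
    · exact absurd (hA2 b hbU a haU) hab
    · exact absurd (hU.zero h hh a haU b hbU) hab

end Pool.Agent.FAN
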