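import Pool.Agent.FAN.PTN
import Pool.Agent.FAN.C1
import Pool.Agent.FAN.VR
import Pool.Agent.FAN.REL
import Pool.Agent.FAN.X3

set_option autoImplicit false

namespace Pool.Agent.FAN

open MeasureTheory Topology Filter

variable {k : ℕ}

open Classical in
/-- the determining set of entries -/
noncomputable def kbD (U R : Finset (Lb k)) (i₀ i₁ : Lb k) : Finset (Lb k × Lb k) :=
  ((U ×ˢ {i₀, i₁}) ∪ ({i₀, i₁} ×ˢ U)) ∪ ((U ×ˢ U) ∪ ((R ×ˢ Finset.univ) ∪ (Finset.univ ×ˢ R)))

theorem kbD_card (U R : Finset (Lb k)) (i₀ i₁ : Lb k) (hU : U.card ≤ 40) :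
    (kbD U R i₀ i₁).card ≤ 2 * (k + 5) * R.card + 1760 := by
  classical
  have h2 : ({i₀, i₁} : Finset (Lb k)).card ≤ 2 := Finset.card_le_two
  have hu : (Finset.univ : Finset (Lb k)).card = k + 5 := by simp
  have e1 : (U ×ˢ ({i₀, i₁} : Finset (Lb k))).card ≤ 80 := by
    rw [Finset.card_product]
    calc U.card * ({i₀, i₁} : Finset (Lb k)).card ≤ 40 * 2 := Nat.mul_le_mul hU h2
      _ = 80 := by norm_num
  have e2 : (({i₀, i₁} : Finset (Lb k)) ×ˢ U).card ≤ 80 := by
    rw [Finset.card_product]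
    calc ({i₀, i₁} : Finset (Lb k)).card * U.card ≤ 2 * 40 := Nat.mul_le_mul h2 hU
      _ = 80 := by norm_num
  have e3 : (U ×ˢ U).card ≤ 1600 := by
    rw [Finset.card_product]
    calc U.card * U.card ≤ 40 * 40 := Nat.mul_le_mul hU hU
      _ = 1600 := by norm_num
  have e4 : (R ×ˢ (Finset.univ : Finset (Lb k))).card = (k + 5) * R.card := by
    rw [Finset.card_product, hu, mul_comm]
  have e5 : ((Finset.univ : Finset (Lb k)) ×ˢ R).card = (k + 5) * R.card := by
    rw [Finset.card_product, hu]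
  have f1 := Finset.card_union_le ((U ×ˢ {i₀, i₁}) ∪ (({i₀, i₁} : Finset (Lb k)) ×ˢ U))
    ((U ×ˢ U) ∪ ((R ×ˢ Finset.univ) ∪ (Finset.univ ×ˢ R)))
  have f2 := Finset.card_union_le (U ×ˢ {i₀, i₁}) (({i₀, i₁} : Finset (Lb k)) ×ˢ U)
  have f3 := Finset.card_union_le (U ×ˢ U) ((R ×ˢ Finset.univ) ∪ (Finset.univ ×ˢ R))
  have f4 := Finset.card_union_le (R ×ˢ (Finset.univ : Finset (Lb k))) (Finset.univ ×ˢ R)
  have f5 : 2 * (k + 5) * R.card = (k + 5) * R.card + (k + 5) * R.card := by ring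
  unfold kbD
  omega

/-- a functional-free dimension bound: entries on `D` determine the elements of `V` -/
theorem kb_finrank_le (V : Submodule ℝ (Lb k → Lb k → ℝ)) (D : Finset (Lb k × Lb k))
    (h : ∀ v ∈ V, (∀ p ∈ D, v p.1 p.2 = 0) → v = 0) : Module.finrank ℝ V ≤ D.card := by
  let f : V →ₗ[ℝ] (D → ℝ) :=
    { toFun := fun v p => v.1 p.1.1 p.1.2
      map_add' := fun _ _ => rfl
      map_smul' := fun _ _ => rfl }
  have hf : Function.Injective f := by
    rw [injective_iff_map_eq_zero]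
    intro v hv
    apply Subtype.ext
    exact h v.1 v.2 fun p hp => congrFun hv ⟨p, hp⟩
  have h1 := LinearMap.finrank_le_finrank_of_injective hf
  rw [Module.finrank_fintype_fun_eq_card, Fintype.card_coe] at h1
  exact h1

/-- rows and columns needed in `C1` vanish -/
theorem kb_hpart {x : Fan k} (hx : Nondeg x) {U : Finset (Lb k)} (hU : Tame x U) {h : Lb k → Lb k → ℝ}
    {u i : Lb k} (hi : i ∉ U) (hui : u ≠ i) (ha : (x u).1 ≠ (x i).1)
    (hz : ∀ b, h i b = 0) (hz' : ∀ t, h t i = 0)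
    (hu : ∀ u', u' ≠ u → rel x i u u' → (∀ b, h u' b = 0) ∧ ∀ t, h t u' = 0) :
    ∀ (θ : ℂ) (s s' : Lb k) (α : ℝ), ‖θ‖ = 1 → θ ≠ 1 → s ≠ s' → α ≠ 0 →
      rotc θ (x s - x s') = α • (x u - x i) → (∀ b, h s b = 0) ∧ (∀ t, h t s' = 0) := by
  intro θ s s' α h1 h2 h3 h4 h5
  rcases partner hx (x3_short hU hi) hui ha h1 h2 h3 h4 h5 with ⟨h6, -, h7, h8⟩ | ⟨h6, -, h7, h8⟩
  · refine ⟨(hu s h7 h8).1, ?_⟩
    rw [h6]
    exact hz'
  · refine ⟨?_, (hu s' h7 h8).2⟩
    rw [h6]
    exact hz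

/-- one label `u` of `U` -/
theorem kb_label {x : Fan k} (hx : Nondeg x) {U : Finset (Lb k)} (hU : Tame x U) {h : Lb k → Lb k → ℝ}
    (hh : h ∈ K x) {u i : Lb k} (huU : u ∈ U) (hi : i ∉ U) (ha : (x u).1 ≠ (x i).1)
    (hUU : ∀ s ∈ U, ∀ t ∈ U, h s t = 0) (hiU : ∀ s ∈ U, h s i = 0 ∧ h i s = 0)
    (hu : ∀ u', u' ≠ u → rel x i u u' → (∀ b, h u' b = 0) ∧ ∀ t, h t u' = 0) :
    (∀ b, h u b = 0) ∧ ∀ t, h t u = 0 := by
  have hui : u ≠ i := fun h => hi (h ▸ huU)
  have hz : ∀ b, h i b = 0 := fun b => by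
    by_cases hb : b ∈ U
    · exact (hiU b hb).2
    · exact hU.zero h hh i hi b hb
  have hz' : ∀ b, h b i = 0 := fun b => by
    by_cases hb : b ∈ U
    · exact (hiU b hb).1
    · exact hU.zero h hh b hb i hi
  have hp := kb_hpart hx hU hi hui ha hz hz' hu
  constructor
  · intro b
    by_cases hb : b ∈ U
    · exact hUU u huU b hb
    · by_cases hbi : b = i
      · rw [hbi]; exact hz' u
      · rw [C1_top (j := b) hx hh hui (fun e => hb (e ▸ huU)) (Ne.symm hbi) ha hp]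
        exact hz b
  · intro b
    by_cases hb : b ∈ U
    · exact hUU b hb u huU
    · by_cases hbi : b = i
      · rw [hbi]; exact hz u
      · rw [C1_bot (j := b) hx hh hui (fun e => hb (e ▸ huU)) (Ne.symm hbi) ha hp]
        exact hz' b

/-- the determining set argument -/
theorem kb_zero {x : Fan k} (hx : Nondeg x) {U : Finset (Lb k)} (hU : Tame x U) (hk : 100 ≤ k) {i₀ : Lb k}
    (hi₀ : i₀ ∉ U) : ∃ i₁, i₁ ∉ U ∧ ∀ r : Lb k → Lb k, (∀ s, rel x i₀ s (r s)) →
      (∀ s s', rel x i₀ s s' → r s = r s') → ∀ h ∈ K x, (∀ s ∈ U, h s i₀ = 0 ∧ h i₀ s = 0) →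
      (∀ s ∈ U, h s i₁ = 0 ∧ h i₁ s = 0) → (∀ s ∈ U, ∀ t ∈ U, h s t = 0) →
      (∀ s, r s ≠ s → (∀ b, h s b = 0) ∧ ∀ t, h t s = 0) → h = 0 := by
  classical
  -- the second centre
  obtain ⟨i₁, hi₁, hi₁'⟩ : ∃ i₁, i₁ ∉ U ∧ ((x i₁).1 ≠ (x i₀).1 ∨ ∀ i, i ∉ U → (x i).1 = (x i₀).1) := by
    by_cases hc : ∃ i, i ∉ U ∧ (x i).1 ≠ (x i₀).1
    · obtain ⟨i, h1, h2⟩ := hc
      exact ⟨i, h1, Or.inl h2⟩
    · push Not at hc
      exact ⟨i₀, hi₀, Or.inr hc⟩
  refine ⟨i₁, hi₁, ?_⟩
  intro r hr1 hr2 h hh hUi hUi1 hUU hRz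
  -- labels with `a_u ≠ a_{i₀}`
  have hstep1 : ∀ u ∈ U, (x u).1 ≠ (x i₀).1 → (∀ b, h u b = 0) ∧ ∀ t, h t u = 0 := by
    intro u hu ha
    by_cases hru : r u = u
    · apply kb_label hx hU hh hu hi₀ ha hUU hUi
      intro u' hu' hrel
      apply hRz
      rw [← hr2 u u' hrel, hru]
      exact Ne.symm hu'
    · exact hRz u hru
  have hstep2 : ∀ u ∈ U, (∀ b, h u b = 0) ∧ ∀ t, h t u = 0 := by
    intro u hu
    by_cases ha : (x u).1 = (x i₀).1
    · rcases hi₁' with h1 | h1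
      · apply kb_label hx hU hh hu hi₁ (by rw [ha]; exact Ne.symm h1) hUU hUi1
        intro u' hu' hrel
        have hu'U : u' ∈ U := x3_mem_U hU (Ne.symm hu') hrel.1
        apply hstep1 u' hu'U
        rw [← ha]
        exact (x3_a_ne hx (Ne.symm hu') hrel.1).symm
      · -- all `a_i` with `i ∉ U` are equal
        have hex : ∀ j : Lb k, ∃ i, i ∉ U ∧ i ≠ j ∧ i ≠ i₀ := by
          intro j
          by_contra hno
          push Not at hno
          have hsub : (Finset.univ : Finset (Lb k)) ⊆ U ∪ {j, i₀} := by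
            intro i _
            rw [Finset.mem_union, Finset.mem_insert, Finset.mem_singleton]
            by_cases h1 : i ∈ U
            · exact Or.inl h1
            · by_cases h2 : i = j
              · exact Or.inr (Or.inl h2)
              · exact Or.inr (Or.inr (hno i h1 h2))
          have h2 := Finset.card_le_card hsub
          have h3 := Finset.card_union_le U ({j, i₀} : Finset (Lb k))
          have h4 : ({j, i₀} : Finset (Lb k)).card ≤ 2 := Finset.card_le_two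
          have h5 := hU.card
          rw [Finset.card_univ, Fintype.card_fin] at h2
          omega
        have hne : ∀ s ∈ U, ∀ t, t ∉ U → s ≠ t := fun s hs t ht e => ht (e ▸ hs)
        constructor
        · intro b
          by_cases hb : b ∈ U
          · exact hUU u hu b hb
          · by_cases hbi : b = i₀
            · rw [hbi]; exact (hUi u hu).1
            · obtain ⟨i, hi, hib, hii⟩ := hex b
              have h2 := vertical_relation hx hh (u := u) (i := i) (j := b) (j' := i₀) (hne u hu i hi)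
                (hne u hu b hb) (hne u hu i₀ hi₀) hib hii hbi (by rw [ha, h1 i hi]) (h1 b hb)
                (by rw [ha, h1 b hb])
              rw [hU.zero h hh i hi b hb, hU.zero h hh i hi i₀ hi₀, (hUi u hu).1] at h2
              linarith
        · intro b
          by_cases hb : b ∈ U
          · exact hUU b hb u hu
          · by_cases hbi : b = i₀
            · rw [hbi]; exact (hUi u hu).2
            · obtain ⟨i, hi, hib, hii⟩ := hex b
              have h2 := vertical_relation hx hh (u := b) (i := i₀) (j := u) (j' := i) hbi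
                (hne u hu b hb).symm hib.symm (hne u hu i₀ hi₀).symm hii.symm (hne u hu i hi) (h1 b hb)
                (by rw [ha, h1 i hi]) (by rw [ha, h1 b hb])
              rw [hU.zero h hh b hb i hi, hU.zero h hh i₀ hi₀ i hi, (hUi u hu).2] at h2
              linarith
    · exact hstep1 u hu ha
  ext s t
  by_cases hs : s ∈ U
  · exact (hstep2 s hs).1 t
  · by_cases ht : t ∈ U
    · exact (hstep2 t ht).2 s
    · exact hU.zero h hh s hs t ht

theorem Kbound {x : Fan k} (hx : Nondeg x) {U : Finset (Lb k)} (hU : Tame x U) (hk : 100 ≤ k) {i₀ : Lb k}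
    (hi₀ : i₀ ∉ U) : Module.finrank ℝ (K x) ≤ 2 * (k + 5) * Module.finrank ℝ (Rel x i₀) + 1760 := by
  classical
  obtain ⟨r, hr1, hr2, hr3⟩ := exists_rep x i₀
  obtain ⟨i₁, -, H⟩ := kb_zero hx hU hk hi₀
  set R : Finset (Lb k) := Finset.univ.filter fun s => r s ≠ s with hR
  have hcard := kbD_card U R i₀ i₁ hU.card
  refine (kb_finrank_le (K x) (kbD U R i₀ i₁) ?_).trans (hcard.trans ?_)
  swap
  · have := Nat.mul_le_mul_left (2 * (k + 5)) hr3
    omega
  intro h hh h0
  apply H r hr1 hr2 h hh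
  · exact fun s hs => ⟨h0 (s, i₀) (by simp [kbD, hs]), h0 (i₀, s) (by simp [kbD, hs])⟩
  · exact fun s hs => ⟨h0 (s, i₁) (by simp [kbD, hs]), h0 (i₁, s) (by simp [kbD, hs])⟩
  · exact fun s hs t ht => h0 (s, t) (by simp [kbD, hs, ht])
  · exact fun s hs => ⟨fun b => h0 (s, b) (by simp [kbD, hR, hs]), fun b => h0 (b, s) (by simp [kbD, hR, hs])⟩

end Pool.Agent.FAN
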