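import Pool.Agent.FAN.PTN
import Pool.Agent.FAN.C1
import Pool.Agent.FAN.VR
import Pool.Agent.FAN.REL
import Pool.Agent.FAN.KB

set_option autoImplicit false

namespace Pool.Agent.FAN

open MeasureTheory Topology Filter

variable {k : ℕ}

open Classical in
/-- the reduced determining set: without the rows of one class `C` -/
noncomputable def fullD (U R C : Finset (Lb k)) (i₀ i₁ : Lb k) : Finset (Lb k × Lb k) :=
  ((U ×ˢ {i₀, i₁}) ∪ ({i₀, i₁} ×ˢ U)) ∪ ((U ×ˢ U) ∪ (((R \ C) ×ˢ Uᶜ) ∪ (Uᶜ ×ˢ R)))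

open Classical in
theorem fullD_card (U R C : Finset (Lb k)) (i₀ i₁ : Lb k) (hU : U.card ≤ 40) :
    (fullD U R C i₀ i₁).card ≤ (R \ C).card * (Uᶜ).card + R.card * (Uᶜ).card + 1760 := by
  have h2 : ({i₀, i₁} : Finset (Lb k)).card ≤ 2 := Finset.card_le_two
  have e1 : (U ×ˢ ({i₀, i₁} : Finset (Lb k))).card ≤ 80 := by
    rw [Finset.card_product]
    calc U.card * ({i₀, i₁} : Finset (Lb k)).card ≤ 40 * 2 := Nat.mul_le_mul hU h2
      _ = 80 := by norm_num
  have e2 : (({i₀, i₁} : Finset (Lb k)) ×ˢ U).card ≤ 80 := by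
    rw [Finset.card_product]
    calc ({i₀, i₁} : Finset (Lb k)).card * U.card ≤ 2 * 40 := Nat.mul_le_mul h2 hU
      _ = 80 := by norm_num
  have e3 : (U ×ˢ U).card ≤ 1600 := by
    rw [Finset.card_product]
    calc U.card * U.card ≤ 40 * 40 := Nat.mul_le_mul hU hU
      _ = 1600 := by norm_num
  have e4 : ((R \ C) ×ˢ (Uᶜ)).card = (R \ C).card * (Uᶜ).card := Finset.card_product _ _
  have e5 : ((Uᶜ) ×ˢ R).card = R.card * (Uᶜ).card := by
    rw [Finset.card_product, mul_comm]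
  have f1 := Finset.card_union_le ((U ×ˢ {i₀, i₁}) ∪ (({i₀, i₁} : Finset (Lb k)) ×ˢ U))
    ((U ×ˢ U) ∪ (((R \ C) ×ˢ Uᶜ) ∪ (Uᶜ ×ˢ R)))
  have f2 := Finset.card_union_le (U ×ˢ {i₀, i₁}) (({i₀, i₁} : Finset (Lb k)) ×ˢ U)
  have f3 := Finset.card_union_le (U ×ˢ U) (((R \ C) ×ˢ Uᶜ) ∪ (Uᶜ ×ˢ R))
  have f4 := Finset.card_union_le ((R \ C) ×ˢ (Uᶜ)) (Uᶜ ×ˢ R)
  unfold fullD
  omega

/-- dimension bound from entries on `D` and column projections -/
theorem full_finrank_le (V : Submodule ℝ (Lb k → Lb k → ℝ)) (D : Finset (Lb k × Lb k))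
    (C N : Finset (Lb k))
    (h : ∀ v ∈ V, (∀ p ∈ D, v p.1 p.2 = 0) → (∀ j ∈ N, ∀ u ∈ C, v u j = 0) → v = 0) :
    Module.finrank ℝ V ≤ D.card + ∑ j ∈ N, Module.finrank ℝ (V.map (colMap C j)) := by
  let f : V →ₗ[ℝ] (D → ℝ) × ((j : N) → V.map (colMap C j.1)) :=
    { toFun := fun v => (fun p => v.1 p.1.1 p.1.2,
        fun j => ⟨colMap C j.1 v.1, Submodule.mem_map_of_mem v.2⟩)
      map_add' := fun _ _ => rfl
      map_smul' := fun _ _ => rfl }
  have hf : Function.Injective f := by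
    rw [injective_iff_map_eq_zero]
    intro v hv
    apply Subtype.ext
    apply h v.1 v.2
    · intro p hp
      exact congrFun (congrArg Prod.fst hv) ⟨p, hp⟩
    · intro j hj u hu
      have h1 := congrFun (congrArg Prod.snd hv) ⟨j, hj⟩
      have h2 := congrArg Subtype.val h1
      exact congrFun h2 ⟨u, hu⟩
  have h1 := LinearMap.finrank_le_finrank_of_injective hf
  rw [Module.finrank_prod, Module.finrank_fintype_fun_eq_card, Fintype.card_coe,
    Module.finrank_pi_fintype, Finset.sum_coe_sort N (fun j => Module.finrank ℝ (V.map (colMap C j)))] at h1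
  exact h1

theorem full_of_big {x : Fan k} (hx : Nondeg x) {U : Finset (Lb k)} (hU : Tame x U) (hk : 100 ≤ k)
    (h0 : ∀ i, i ∉ U → (x i).1 = 0) {i₀ : Lb k} (hi₀ : i₀ ∉ U) (h4 : Module.finrank ℝ (Rel x i₀) = 4)
    (hbig : 7 * (k + 5) + 1760 < Module.finrank ℝ (K x)) (s : Lb k) :
    ∃ i, i ∉ U ∧ (cls x i₀ s).card ≤ Module.finrank ℝ ((K x).map (colMap (cls x i₀ s) i)) + 1 := by
  classical
  by_contra hcon
  push Not at hcon
  obtain ⟨r, hr1, hr2, hr3⟩ := exists_rep x i₀
  rw [h4] at hr3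
  obtain ⟨i₁, -, H⟩ := kb_zero hx hU hk hi₀
  set R : Finset (Lb k) := Finset.univ.filter fun s => r s ≠ s with hR
  set C := cls x i₀ s with hC
  have hmemC : ∀ t, t ∈ C ↔ rel x i₀ s t := fun t => by simp [hC, cls]
  -- `R ∩ C = C \ {r s}`
  have hRC : (R ∩ C).card = C.card - 1 := by
    have h1 : R ∩ C = C.erase (r s) := by
      ext t
      rw [Finset.mem_inter, Finset.mem_erase, hR, Finset.mem_filter, and_comm]
      constructor
      · rintro ⟨h1, -, h2⟩
        refine ⟨fun e => h2 ?_, h1⟩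
        rw [← hr2 s t ((hmemC t).1 h1), e]
      · rintro ⟨h1, h2⟩
        refine ⟨h2, Finset.mem_univ _, fun e => h1 ?_⟩
        rw [← e, ← hr2 s t ((hmemC t).1 h2)]
    rw [h1, Finset.card_erase_of_mem ((hmemC _).2 (hr1 s))]
  have hRd : (R \ C).card + (R ∩ C).card = R.card := Finset.card_sdiff_add_card_inter R C
  have hC2 : ∀ i, i ∉ U → Module.finrank ℝ ((K x).map (colMap C i)) + 2 ≤ C.card := fun i hi => by
    have := hcon i hi
    omega
  have hC2' := hC2 i₀ hi₀
  have hRU : R ⊆ U := by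
    intro u hu
    rw [hR, Finset.mem_filter] at hu
    exact x3_mem_U hU hu.2 (hr1 u).1.symm
  have hbound := full_finrank_le (K x) (fullD U R C i₀ i₁) C Uᶜ (by
    intro h hh hD hcol
    have hUU : ∀ s ∈ U, ∀ t ∈ U, h s t = 0 := fun s hs t ht => hD (s, t) (by simp [fullD, hs, ht])
    apply H r hr1 hr2 h hh
    · exact fun s hs => ⟨hD (s, i₀) (by simp [fullD, hs]), hD (i₀, s) (by simp [fullD, hs])⟩
    · exact fun s hs => ⟨hD (s, i₁) (by simp [fullD, hs]), hD (i₁, s) (by simp [fullD, hs])⟩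
    · exact hUU
    · intro u hu
      have huR : u ∈ R := by rw [hR, Finset.mem_filter]; exact ⟨Finset.mem_univ _, hu⟩
      have huU : u ∈ U := hRU huR
      constructor
      · intro b
        by_cases hb : b ∈ U
        · exact hUU u huU b hb
        · by_cases huC : u ∈ C
          · exact hcol b (by simp [hb]) u huC
          · apply hD (u, b)
            have h1 : (u, b) ∈ (R \ C) ×ˢ Uᶜ := by
              rw [Finset.mem_product, Finset.mem_sdiff, Finset.mem_compl]
              exact ⟨⟨huR, huC⟩, hb⟩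
            unfold fullD
            exact Finset.mem_union_right _ (Finset.mem_union_right _ (Finset.mem_union_left _ h1))
      · intro b
        by_cases hb : b ∈ U
        · exact hUU b hb u huU
        · apply hD (b, u)
          have h1 : (b, u) ∈ Uᶜ ×ˢ R := by
            rw [Finset.mem_product, Finset.mem_compl]
            exact ⟨hb, huR⟩
          unfold fullD
          exact Finset.mem_union_right _ (Finset.mem_union_right _ (Finset.mem_union_right _ h1)))
  have hsum : ∑ j ∈ Uᶜ, Module.finrank ℝ ((K x).map (colMap C j)) ≤ (C.card - 2) * (Uᶜ).card := by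
    have h1 : ∑ j ∈ Uᶜ, Module.finrank ℝ ((K x).map (colMap C j)) ≤ ∑ _j ∈ Uᶜ, (C.card - 2) := by
      apply Finset.sum_le_sum
      intro j hj
      have := hC2 j (Finset.mem_compl.1 hj)
      omega
    rw [Finset.sum_const, smul_eq_mul, mul_comm] at h1
    exact h1
  have hDc := fullD_card U R C i₀ i₁ hU.card
  have hN : (Uᶜ).card ≤ k + 5 := by
    have := Finset.card_le_univ (Uᶜ)
    rwa [Fintype.card_fin] at this
  -- arithmetic
  have h5 : (R \ C).card + R.card + (C.card - 2) ≤ 7 := by omega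
  have h6 : (R \ C).card * (Uᶜ).card + R.card * (Uᶜ).card + (C.card - 2) * (Uᶜ).card ≤ 7 * (k + 5) := by
    calc (R \ C).card * (Uᶜ).card + R.card * (Uᶜ).card + (C.card - 2) * (Uᶜ).card =
          ((R \ C).card + R.card + (C.card - 2)) * (Uᶜ).card := by ring
      _ ≤ 7 * (k + 5) := Nat.mul_le_mul h5 hN
  omega

end Pool.Agent.FAN
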