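import Pool.Agent.FAN.EQV
import Pool.Agent.FAN.ZA

set_option autoImplicit false

namespace Pool.Agent.FAN

open MeasureTheory Topology Filter

variable {k : ℕ}

namespace PAR0aux

/-- the two complex coordinates -/
noncomputable def cof (b : Bool) : (ℂ × ℂ) →ₗ[ℝ] ℂ :=
  if b then LinearMap.fst ℝ ℂ ℂ else LinearMap.snd ℝ ℂ ℂ

/-- the two unit vectors -/
def un (b : Bool) : ℂ × ℂ := if b then (1, 0) else (0, 1)

theorem cof_un (b : Bool) : cof b (un b) = 1 := by
  cases b <;> simp [cof, un]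

theorem cof_smul (b : Bool) (z : ℂ) (a : ℂ × ℂ) : cof b (z • a) = z * cof b a := by
  cases b <;> simp [cof]

theorem exists_cof {a : ℂ × ℂ} (ha : a ≠ 0) : ∃ b, cof b a ≠ 0 := by
  by_contra h
  push Not at h
  apply ha
  have h1 := h true
  have h2 := h false
  simp only [cof, if_true, LinearMap.fst_apply, Bool.false_eq_true, if_false,
    LinearMap.snd_apply] at h1 h2
  exact Prod.ext h1 h2

/-- the constraint map -/
noncomputable def con (s : Lb k) (b : Bool) : Fan k →ₗ[ℝ] (Cf k × ℂ) :=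
  (LinearMap.proj (0 : Lb k)).prod ((cof b).comp ((LinearMap.fst ℝ _ _).comp (LinearMap.proj s)))

theorem con_apply (s : Lb k) (b : Bool) (w : Fan k) : con s b w = (w 0, cof b (w s).1) := rfl

theorem con_surj {s : Lb k} (hs : s ≠ 0) (b : Bool) : Function.Surjective (con s b) := by
  rintro ⟨c, z⟩
  refine ⟨fun t => if t = 0 then c else (z • un b, 0), ?_⟩
  rw [con_apply]
  simp only [if_true, if_neg hs]
  rw [cof_smul, cof_un, mul_one]

theorem finrank_ker {s : Lb k} (hs : s ≠ 0) (b : Bool) :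
    Module.finrank ℝ (LinearMap.ker (con s b)) + 2 = (k + 5) * (k + 4) := by
  have h1 := LinearMap.finrank_range_add_finrank_ker (con s b)
  rw [LinearMap.range_eq_top.2 (con_surj hs b), finrank_top] at h1
  have hC : Module.finrank ℝ (Cf k) = k + 5 := by
    rw [Module.finrank_prod, Module.finrank_prod, Module.finrank_prod, Module.finrank_fin_fun,
      Complex.finrank_real_complex, Module.finrank_self]
    ring
  have hF : Module.finrank ℝ (Fan k) = (k + 5) * (k + 5) := by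
    rw [Module.finrank_pi_fintype]
    simp [hC]
  rw [Module.finrank_prod, hC, hF, Complex.finrank_real_complex] at h1
  have h2 : (k + 5) * (k + 5) = (k + 5) * (k + 4) + (k + 5) := by ring
  omega

/-- the family -/
noncomputable def fam (s : Lb k) (b : Bool) : Param k :=
  ⟨Module.finrank ℝ (LinearMap.ker (con s b)), fun y =>
    Pi.single s (un b, 0) + ((Module.finBasis ℝ (LinearMap.ker (con s b))).equivFun.symm y : Fan k), by
      refine contDiff_const.add ?_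
      have h1 : (fun y : Fin (Module.finrank ℝ (LinearMap.ker (con s b))) → ℝ =>
          ((Module.finBasis ℝ (LinearMap.ker (con s b))).equivFun.symm y : Fan k)) =
          ((LinearMap.ker (con s b)).subtype.comp
            (Module.finBasis ℝ (LinearMap.ker (con s b))).equivFun.symm.toLinearMap).toContinuousLinearMap := by
        rfl
      rw [h1]
      exact ContinuousLinearMap.contDiff _⟩

theorem mem_fam {s : Lb k} {b : Bool} {w : Fan k}
    (h : w - Pi.single s (un b, 0) ∈ LinearMap.ker (con s b)) :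
    ∃ y : Fin (fam s b).1 → ℝ, (fam s b).2.1 y = w := by
  refine ⟨(Module.finBasis ℝ (LinearMap.ker (con s b))).equivFun ⟨_, h⟩, ?_⟩
  show Pi.single s (un b, 0) + ((Module.finBasis ℝ (LinearMap.ker (con s b))).equivFun.symm
    ((Module.finBasis ℝ (LinearMap.ker (con s b))).equivFun ⟨_, h⟩) : Fan k) = w
  rw [LinearEquiv.symm_apply_apply]
  simp

end PAR0aux

open PAR0aux

theorem par0 (k : ℕ) : ∃ S : Set (Param k), S.Countable ∧ ∀ x : Fan k, Nondeg x → ∃ τ ∈ S,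
    ∃ y : Fin τ.1 → ℝ, Eqv x (τ.2.1 y) ∧ τ.1 + 2 ≤ (k + 5) * (k + 4) := by
  refine ⟨Set.range fun p : Lb k × Bool => fam p.1 p.2, Set.countable_range _, ?_⟩
  intro x hx
  -- a label with a different coefficient
  obtain ⟨s, hs⟩ : ∃ s, (x s).1 - (x 0).1 ≠ 0 := by
    by_contra h
    push Not at h
    have h1 : ∀ ρ ∈ Zs x, ρ = 0 := by
      intro ρ hρ
      refine Zs_inj hx hρ ?_
      have h2 : ∀ t, (x t).1 = (x 0).1 := fun t => sub_eq_zero.1 (h t)
      simp only [h2]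
      rw [← Finset.sum_smul, (mem_Zs.1 hρ).1, zero_smul]
    have h3 : Zs x = ⊥ := by
      rw [Submodule.eq_bot_iff]
      exact h1
    have h4 := finrank_Zs hx
    rw [h3, finrank_bot] at h4
    omega
  have hs0 : s ≠ 0 := by
    rintro rfl
    exact hs (sub_self _)
  obtain ⟨b, hb⟩ := exists_cof hs
  set c : ℂ := cof b ((x s).1 - (x 0).1) with hc
  have hci : c⁻¹ ≠ 0 := inv_ne_zero hb
  have hn : 0 < ‖c⁻¹‖ := norm_pos_iff.2 hci
  let θ : ℂ := (‖c⁻¹‖ : ℂ)⁻¹ * c⁻¹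
  have hθ : ‖θ‖ = 1 := by
    show ‖(‖c⁻¹‖ : ℂ)⁻¹ * c⁻¹‖ = 1
    rw [norm_mul, norm_inv, Complex.norm_real, Real.norm_of_nonneg hn.le]
    exact inv_mul_cancel₀ hn.ne'
  have hrθ : (‖c⁻¹‖ : ℂ) * θ = c⁻¹ := by
    show (‖c⁻¹‖ : ℂ) * ((‖c⁻¹‖ : ℂ)⁻¹ * c⁻¹) = c⁻¹
    rw [← mul_assoc, mul_inv_cancel₀, one_mul]
    exact_mod_cast hn.ne'
  clear_value θ
  let w : Fan k := fun t => ‖c⁻¹‖ • rotc θ (x t) + (-(‖c⁻¹‖ • rotc θ (x 0)))
  have hw : ∀ t, w t = ‖c⁻¹‖ • rotc θ (x t - x 0) := by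
    intro t
    show ‖c⁻¹‖ • rotc θ (x t) + (-(‖c⁻¹‖ • rotc θ (x 0))) = _
    rw [rotc_sub, smul_sub, sub_eq_add_neg]
  have hw1 : ∀ t, (w t).1 = c⁻¹ • ((x t).1 - (x 0).1) := by
    intro t
    rw [hw]
    show ‖c⁻¹‖ • (θ • ((x t).1 - (x 0).1)) = c⁻¹ • ((x t).1 - (x 0).1)
    have h9 : ‖c⁻¹‖ • (θ • ((x t).1 - (x 0).1)) = ((‖c⁻¹‖ : ℂ) * θ) • ((x t).1 - (x 0).1) := by
      rw [mul_smul, ← Complex.coe_smul]
    rw [h9, hrθ]
  have hE : Eqv x w := ⟨θ, hθ, ‖c⁻¹‖, hn, -(‖c⁻¹‖ • rotc θ (x 0)), fun t => rfl⟩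
  have hmem : w - Pi.single s (un b, 0) ∈ LinearMap.ker (con s b) := by
    rw [LinearMap.mem_ker, con_apply]
    simp only [Pi.sub_apply, Pi.single_eq_same, Prod.fst_sub, map_sub]
    rw [Pi.single_eq_of_ne hs0.symm, sub_zero, hw1, cof_smul, cof_un, ← hc,
      inv_mul_cancel₀ hb, sub_self, hw]
    simp [rotc]
  obtain ⟨y, hy⟩ := mem_fam hmem
  refine ⟨fam s b, ⟨(s, b), rfl⟩, y, by rw [hy]; exact hE, ?_⟩
  exact (finrank_ker hs0 b).le

end Pool.Agent.FAN
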