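import Pool.Agent.FAN.EQV

set_option autoImplicit false

namespace Pool.Agent.FAN

open MeasureTheory Topology Filter

variable {k : ℕ}

theorem par_mk {P : Type} [NormedAddCommGroup P] [NormedSpace ℝ P] [FiniteDimensional ℝ P]
    (Ψ : P → Fan k) (hΨ : ContDiff ℝ 1 Ψ) :
    ∃ τ : Param k, τ.1 = Module.finrank ℝ P ∧ ∀ p, ∃ y, τ.2.1 y = Ψ p := by
  have hf : Module.finrank ℝ P = Module.finrank ℝ (Fin (Module.finrank ℝ P) → ℝ) := by
    rw [Module.finrank_fin_fun]
  let e : P ≃L[ℝ] (Fin (Module.finrank ℝ P) → ℝ) := ContinuousLinearEquiv.ofFinrankEq hf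
  refine ⟨⟨Module.finrank ℝ P, ⟨fun y => Ψ (e.symm y), hΨ.comp e.symm.contDiff⟩⟩, rfl, fun p => ?_⟩
  refine ⟨e p, ?_⟩
  show Ψ (e.symm (e p)) = Ψ p
  rw [e.symm_apply_apply]

/-- functions vanishing at `i₀` and equal on the given pairs -/
def parA (Pr : Finset (Lb k × Lb k)) (i₀ : Lb k) : Submodule ℝ (Lb k → ℝ) where
  carrier := {v | v i₀ = 0 ∧ ∀ q ∈ Pr, v q.1 = v q.2}
  zero_mem' := ⟨rfl, fun _ _ => rfl⟩
  add_mem' := by
    rintro v w ⟨h1, h2⟩ ⟨h3, h4⟩
    refine ⟨?_, fun q hq => ?_⟩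
    · rw [Pi.add_apply, h1, h3, add_zero]
    · rw [Pi.add_apply, Pi.add_apply, h2 q hq, h4 q hq]
  smul_mem' := by
    rintro r v ⟨h1, h2⟩
    refine ⟨?_, fun q hq => ?_⟩
    · rw [Pi.smul_apply, h1, smul_zero]
    · rw [Pi.smul_apply, Pi.smul_apply, h2 q hq]

/-- the same for vector valued functions -/
def parW (Pr : Finset (Lb k × Lb k)) (i₀ : Lb k) : Submodule ℝ (Lb k → ((Fin k → ℝ) × ℝ)) where
  carrier := {v | v i₀ = 0 ∧ ∀ q ∈ Pr, v q.1 = v q.2}
  zero_mem' := ⟨rfl, fun _ _ => rfl⟩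
  add_mem' := by
    rintro v w ⟨h1, h2⟩ ⟨h3, h4⟩
    refine ⟨?_, fun q hq => ?_⟩
    · rw [Pi.add_apply, h1, h3, add_zero]
    · rw [Pi.add_apply, Pi.add_apply, h2 q hq, h4 q hq]
  smul_mem' := by
    rintro r v ⟨h1, h2⟩
    refine ⟨?_, fun q hq => ?_⟩
    · rw [Pi.smul_apply, h1, smul_zero]
    · rw [Pi.smul_apply, Pi.smul_apply, h2 q hq]

/-- the relations of the given pairs -/
def parR (Pr : Finset (Lb k × Lb k)) : Submodule ℝ (Lb k → ℝ) :=
  Submodule.span ℝ {v | ∃ q ∈ Pr, v = ed q.1 q.2}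

theorem par_dot_ed (v : Lb k → ℝ) (s s' : Lb k) : ∑ t, v t * ed s s' t = v s - v s' := by
  simp only [ed, Pi.sub_apply, mul_sub, Finset.sum_sub_distrib]
  rw [Finset.sum_eq_single s, Finset.sum_eq_single s']
  · simp
  · intro b _ hb
    rw [Pi.single_eq_of_ne hb, mul_zero]
  · intro hb
    exact absurd (Finset.mem_univ _) hb
  · intro b _ hb
    rw [Pi.single_eq_of_ne hb, mul_zero]
  · intro hb
    exact absurd (Finset.mem_univ _) hb

theorem parA_finrank (Pr : Finset (Lb k × Lb k)) (i₀ : Lb k) :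
    Module.finrank ℝ (parA Pr i₀) + Module.finrank ℝ (parR Pr) ≤ k + 4 := by
  set e : Lb k → ℝ := Pi.single i₀ 1 with he
  have hdot : ∀ v ∈ parA Pr i₀, ∀ w ∈ parR Pr ⊔ Submodule.span ℝ {e}, ∑ t, v t * w t = 0 := by
    intro v hv w hw
    obtain ⟨a, ha, b, hb, rfl⟩ := Submodule.mem_sup.mp hw
    have h1 : ∑ t, v t * a t = 0 := by
      unfold parR at ha
      refine Submodule.span_induction (p := fun a _ => ∑ t, v t * a t = 0) ?_ ?_ ?_ ?_ ha
      · rintro x ⟨q, hq, rfl⟩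
        rw [par_dot_ed, hv.2 q hq, sub_self]
      · simp
      · intro x y _ _ hx hy
        simp only [Pi.add_apply, mul_add, Finset.sum_add_distrib, hx, hy, add_zero]
      · intro r x _ hx
        have : ∑ t, v t * (r • x) t = r * ∑ t, v t * x t := by
          rw [Finset.mul_sum]
          refine Finset.sum_congr rfl fun t _ => ?_
          rw [Pi.smul_apply, smul_eq_mul]
          ring
        rw [this, hx, mul_zero]
    have h2 : ∑ t, v t * b t = 0 := by
      obtain ⟨c, rfl⟩ := Submodule.mem_span_singleton.mp hb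
      rw [Finset.sum_eq_single i₀]
      · rw [hv.1, zero_mul]
      · intro t _ ht
        rw [he, Pi.smul_apply, Pi.single_eq_of_ne ht, smul_zero, mul_zero]
      · intro hb
        exact absurd (Finset.mem_univ _) hb
    simp only [Pi.add_apply, mul_add, Finset.sum_add_distrib, h1, h2, add_zero]
  have hdisj : Disjoint (parA Pr i₀) (parR Pr ⊔ Submodule.span ℝ {e}) := by
    rw [Submodule.disjoint_def]
    intro v hv hw
    have h1 := hdot v hv v hw
    have h2 : ∀ t ∈ Finset.univ, v t * v t = 0 := by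
      rw [← Finset.sum_eq_zero_iff_of_nonneg]
      · exact h1
      · intro t _
        exact mul_self_nonneg _
    funext t
    exact mul_self_eq_zero.mp (h2 t (Finset.mem_univ t))
  have h3 := Submodule.finrank_add_finrank_le_of_disjoint hdisj
  rw [Module.finrank_fin_fun] at h3
  have hsum : ∀ w ∈ parR Pr, ∑ t, w t = 0 := by
    intro w hw
    unfold parR at hw
    refine Submodule.span_induction (p := fun a _ => ∑ t, a t = 0) ?_ ?_ ?_ ?_ hw
    · rintro x ⟨q, hq, rfl⟩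
      have := par_dot_ed (fun _ => 1) q.1 q.2
      simpa using this
    · simp
    · intro x y _ _ hx hy
      simp only [Pi.add_apply, Finset.sum_add_distrib, hx, hy, add_zero]
    · intro r x _ hx
      have : ∑ t, (r • x) t = r * ∑ t, x t := by
        rw [Finset.mul_sum]
        rfl
      rw [this, hx, mul_zero]
  have hinf : parR Pr ⊓ Submodule.span ℝ {e} = ⊥ := by
    rw [Submodule.eq_bot_iff]
    intro w hw
    obtain ⟨h4, h5⟩ := Submodule.mem_inf.mp hw
    obtain ⟨c, rfl⟩ := Submodule.mem_span_singleton.mp h5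
    have h6 := hsum _ h4
    rw [Finset.sum_eq_single i₀] at h6
    · rw [he, Pi.smul_apply, Pi.single_eq_same, smul_eq_mul, mul_one] at h6
      rw [h6, zero_smul]
    · intro t _ ht
      rw [he, Pi.smul_apply, Pi.single_eq_of_ne ht, smul_zero]
    · intro hb
      exact absurd (Finset.mem_univ _) hb
  have h7 := Submodule.finrank_sup_add_finrank_inf_eq (parR Pr) (Submodule.span ℝ {e})
  have hene : e ≠ 0 := by
    intro h0
    have := congrFun h0 i₀
    rw [he, Pi.single_eq_same] at this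
    exact one_ne_zero this
  rw [hinf, finrank_bot, finrank_span_singleton hene] at h7
  omega

theorem parW_finrank (Pr : Finset (Lb k × Lb k)) (i₀ : Lb k) :
    Module.finrank ℝ (parW Pr i₀) + (k + 1) * Module.finrank ℝ (parR Pr) ≤ (k + 1) * (k + 4) := by
  have hA := parA_finrank Pr i₀
  let f : parW Pr i₀ →ₗ[ℝ] (Fin k → parA Pr i₀) × parA Pr i₀ :=
    { toFun := fun v => (fun l => ⟨fun s => (v.1 s).1 l, by
          refine ⟨?_, fun q hq => ?_⟩
          · show (v.1 i₀).1 l = 0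
            rw [v.2.1]
            rfl
          · show (v.1 q.1).1 l = (v.1 q.2).1 l
            rw [v.2.2 q hq]⟩, ⟨fun s => (v.1 s).2, by
          refine ⟨?_, fun q hq => ?_⟩
          · show (v.1 i₀).2 = 0
            rw [v.2.1]
            rfl
          · show (v.1 q.1).2 = (v.1 q.2).2
            rw [v.2.2 q hq]⟩)
      map_add' := fun v w => rfl
      map_smul' := fun r v => rfl }
  have hinj : Function.Injective f := by
    intro v w hvw
    refine Subtype.ext (funext fun s => Prod.ext (funext fun l => ?_) ?_)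
    · have h1 := congrArg (fun z => ((z.1 l : parA Pr i₀) : Lb k → ℝ) s) hvw
      exact h1
    · have h1 := congrArg (fun z => ((z.2 : parA Pr i₀) : Lb k → ℝ) s) hvw
      exact h1
  have h1 := LinearMap.finrank_le_finrank_of_injective hinj
  rw [Module.finrank_prod, Module.finrank_pi_fintype] at h1
  simp only [Finset.sum_const, Finset.card_univ, Fintype.card_fin, smul_eq_mul] at h1
  have h2 : Module.finrank ℝ (parW Pr i₀) ≤ (k + 1) * Module.finrank ℝ (parA Pr i₀) := by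
    calc Module.finrank ℝ (parW Pr i₀)
        ≤ k * Module.finrank ℝ (parA Pr i₀) + Module.finrank ℝ (parA Pr i₀) := h1
      _ = (k + 1) * Module.finrank ℝ (parA Pr i₀) := by ring
  calc Module.finrank ℝ (parW Pr i₀) + (k + 1) * Module.finrank ℝ (parR Pr)
      ≤ (k + 1) * Module.finrank ℝ (parA Pr i₀) + (k + 1) * Module.finrank ℝ (parR Pr) := by
        exact Nat.add_le_add_right h2 _
    _ = (k + 1) * (Module.finrank ℝ (parA Pr i₀) + Module.finrank ℝ (parR Pr)) := by ring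
    _ ≤ (k + 1) * (k + 4) := Nat.mul_le_mul_left _ hA

open Classical in
/-- pairs of labels with equal `(λ, c)` -/
noncomputable def parPr (x : Fan k) : Finset (Lb k × Lb k) :=
  Finset.univ.filter fun q => (x q.1).2 = (x q.2).2

theorem parR_parPr (x : Fan k) : parR (parPr x) = EqR x := by
  unfold parR EqR
  congr 1
  ext v
  constructor
  · rintro ⟨q, hq, hv⟩
    rw [parPr, Finset.mem_filter] at hq
    exact ⟨q.1, q.2, hq.2, hv⟩
  · rintro ⟨s, s', h1, h2⟩
    refine ⟨(s, s'), ?_, h2⟩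
    rw [parPr, Finset.mem_filter]
    exact ⟨Finset.mem_univ _, h1⟩

theorem par_mem_W (x : Fan k) (i₀ : Lb k) :
    (fun s => (x s).2 - (x i₀).2) ∈ parW (parPr x) i₀ := by
  refine ⟨sub_self _, fun q hq => ?_⟩
  rw [parPr, Finset.mem_filter] at hq
  show (x q.1).2 - (x i₀).2 = (x q.2).2 - (x i₀).2
  rw [hq.2]

/-- the linear family of `par2` -/
noncomputable def par2Map (N : Finset (Lb k)) (i₀ : Lb k) (Pr : Finset (Lb k × Lb k)) :
    ((↥Nᶜ → ℂ × ℂ) × parW Pr i₀) →ₗ[ℝ] Fan k where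
  toFun v := fun s => (if h : s ∈ Nᶜ then v.1 ⟨s, h⟩ else 0, v.2.1 s)
  map_add' v w := by
    funext s
    refine Prod.ext ?_ rfl
    show (if h : s ∈ Nᶜ then (v + w).1 ⟨s, h⟩ else 0) =
      (if h : s ∈ Nᶜ then v.1 ⟨s, h⟩ else 0) + (if h : s ∈ Nᶜ then w.1 ⟨s, h⟩ else 0)
    by_cases h : s ∈ Nᶜ
    · rw [dif_pos h, dif_pos h, dif_pos h]
      rfl
    · rw [dif_neg h, dif_neg h, dif_neg h, add_zero]
  map_smul' r v := by
    funext s
    refine Prod.ext ?_ rfl
    show (if h : s ∈ Nᶜ then (r • v).1 ⟨s, h⟩ else 0) =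
      r • (if h : s ∈ Nᶜ then v.1 ⟨s, h⟩ else 0)
    by_cases h : s ∈ Nᶜ
    · rw [dif_pos h, dif_pos h]
      rfl
    · rw [dif_neg h, dif_neg h, smul_zero]

theorem par2 (k : ℕ) : ∃ S : Set (Param k), S.Countable ∧ ∀ x : Fan k, ∀ (N : Finset (Lb k)) (i₀ : Lb k),
    i₀ ∈ N → (∀ i ∈ N, (x i).1 = (x i₀).1) →
    ∃ τ ∈ S, ∃ y : Fin τ.1 → ℝ, Eqv x (τ.2.1 y) ∧
      τ.1 + 4 * (N.card - 1) + (k + 1) * Module.finrank ℝ (EqR x) ≤ (k + 5) * (k + 4) := by
  have hex : ∀ d : Finset (Lb k) × Lb k × Finset (Lb k × Lb k), ∃ τ : Param k,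
      τ.1 = Module.finrank ℝ ((↥(d.1)ᶜ → ℂ × ℂ) × parW d.2.2 d.2.1) ∧
      ∀ p, ∃ y, τ.2.1 y = par2Map d.1 d.2.1 d.2.2 p := fun d =>
    par_mk (par2Map d.1 d.2.1 d.2.2)
      (LinearMap.toContinuousLinearMap (par2Map d.1 d.2.1 d.2.2)).contDiff
  choose τ hτ1 hτ2 using hex
  refine ⟨Set.range τ, Set.countable_range τ, fun x N i₀ hi₀ hN => ?_⟩
  refine ⟨τ (N, i₀, parPr x), ⟨_, rfl⟩, ?_⟩
  let p : (↥Nᶜ → ℂ × ℂ) × parW (parPr x) i₀ :=
    (fun s => (x s).1 - (x i₀).1, ⟨fun s => (x s).2 - (x i₀).2, par_mem_W x i₀⟩)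
  obtain ⟨y, hy⟩ := hτ2 (N, i₀, parPr x) p
  refine ⟨y, ?_, ?_⟩
  · rw [hy]
    have h1 : par2Map N i₀ (parPr x) p = fun s => x s - x i₀ := by
      funext s
      refine Prod.ext ?_ rfl
      show (if h : s ∈ Nᶜ then (x s).1 - (x i₀).1 else 0) = (x s).1 - (x i₀).1
      by_cases h : s ∈ Nᶜ
      · rw [dif_pos h]
      · rw [dif_neg h]
        rw [Finset.mem_compl, not_not] at h
        rw [hN s h, sub_self]
    show Eqv x (par2Map N i₀ (parPr x) p)
    rw [h1]
    exact eqv_sub x (x i₀)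
  · rw [hτ1]
    have hW := parW_finrank (parPr x) i₀
    rw [parR_parPr] at hW
    have hc : N.card + (Nᶜ).card = k + 5 := by
      rw [Finset.card_add_card_compl, Fintype.card_fin]
    have hpos : 1 ≤ N.card := Finset.card_pos.mpr ⟨i₀, hi₀⟩
    have h4 : Module.finrank ℝ (ℂ × ℂ) = 4 := by
      rw [Module.finrank_prod, Complex.finrank_real_complex]
    rw [Module.finrank_prod, Module.finrank_pi_fintype]
    simp only [h4, Finset.sum_const, Finset.card_univ, Fintype.card_coe, smul_eq_mul]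
    have h5 : (k + 5) * (k + 4) = 4 * (k + 4) + (k + 1) * (k + 4) := by ring
    rw [h5]
    omega

end Pool.Agent.FAN
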