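import Pool.Agent.FAN.EQV
import Pool.Agent.FAN.PAR2

set_option autoImplicit false

namespace Pool.Agent.FAN

open MeasureTheory Topology Filter

variable {k : ℕ}

/-- parameters of the family of `par1` -/
abbrev Par1P (N : Finset (Lb k)) (u : Lb k) (Pr : Finset (Lb k × Lb k)) : Type :=
  (↥(insert u N)ᶜ → ℂ × ℂ) × (↥N → ℝ) × parW Pr u

/-- value of the free points -/
noncomputable def par1A (N : Finset (Lb k)) (u : Lb k) (Pr : Finset (Lb k × Lb k)) (s : Lb k)
    (p : Par1P N u Pr) : ℂ × ℂ :=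
  if h : s ∈ (insert u N)ᶜ then p.1 ⟨s, h⟩ else 0

/-- value of the line parameters -/
noncomputable def par1T (N : Finset (Lb k)) (u : Lb k) (Pr : Finset (Lb k × Lb k)) (s : Lb k)
    (p : Par1P N u Pr) : ℝ :=
  if h : s ∈ N then p.2.1 ⟨s, h⟩ else 0

/-- the family of `par1` -/
noncomputable def par1Map (N : Finset (Lb k)) (u : Lb k) (f : Lb k → Lb k)
    (Pr : Finset (Lb k × Lb k)) (p : Par1P N u Pr) : Fan k :=
  fun s => (if s ∈ N then (1 / 2 : ℝ) • par1A N u Pr (f s) p +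
      (((par1T N u Pr s p : ℝ) : ℂ) * Complex.I) • par1A N u Pr (f s) p
    else par1A N u Pr s p, p.2.2.1 s)

theorem par1A_contDiff (N : Finset (Lb k)) (u : Lb k) (Pr : Finset (Lb k × Lb k)) (s : Lb k) :
    ContDiff ℝ 1 (par1A N u Pr s) := by
  by_cases h : s ∈ (insert u N)ᶜ
  · have h1 : par1A N u Pr s = fun p => p.1 ⟨s, h⟩ := by
      funext p
      exact dif_pos h
    rw [h1]
    exact (contDiff_apply ℝ (ℂ × ℂ) (⟨s, h⟩ : ↥(insert u N)ᶜ)).comp contDiff_fst
  · have h1 : par1A N u Pr s = fun _ => 0 := by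
      funext p
      exact dif_neg h
    rw [h1]
    exact contDiff_const

theorem par1T_contDiff (N : Finset (Lb k)) (u : Lb k) (Pr : Finset (Lb k × Lb k)) (s : Lb k) :
    ContDiff ℝ 1 (par1T N u Pr s) := by
  by_cases h : s ∈ N
  · have h1 : par1T N u Pr s = fun p => p.2.1 ⟨s, h⟩ := by
      funext p
      exact dif_pos h
    rw [h1]
    exact (contDiff_apply ℝ ℝ (⟨s, h⟩ : ↥N)).comp (contDiff_fst.comp contDiff_snd)
  · have h1 : par1T N u Pr s = fun _ => 0 := by
      funext p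
      exact dif_neg h
    rw [h1]
    exact contDiff_const

theorem par1Map_contDiff (N : Finset (Lb k)) (u : Lb k) (f : Lb k → Lb k)
    (Pr : Finset (Lb k × Lb k)) : ContDiff ℝ 1 (par1Map N u f Pr) := by
  refine contDiff_pi.2 fun s => ?_
  refine ContDiff.prodMk ?_ ?_
  · by_cases h : s ∈ N
    · simp only [if_pos h]
      have hA := par1A_contDiff N u Pr (f s)
      have hT := par1T_contDiff N u Pr s
      have hc : ContDiff ℝ 1 (fun p : Par1P N u Pr => ((par1T N u Pr s p : ℝ) : ℂ) * Complex.I) :=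
        (Complex.ofRealCLM.contDiff.comp hT).mul contDiff_const
      have hB : ContDiff ℝ 1 (fun p : Par1P N u Pr =>
          (((par1T N u Pr s p : ℝ) : ℂ) * Complex.I) • par1A N u Pr (f s) p) :=
        ContDiff.prodMk (hc.mul (contDiff_fst.comp hA)) (hc.mul (contDiff_snd.comp hA))
      exact (hA.const_smul (1 / 2 : ℝ)).add hB
    · simp only [if_neg h]
      exact par1A_contDiff N u Pr s
  · have h1 : ContDiff ℝ 1 (fun p : Par1P N u Pr => (p.2.2 : Lb k → ((Fin k → ℝ) × ℝ))) :=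
      (parW Pr u).subtypeL.contDiff.comp (contDiff_snd.comp contDiff_snd)
    exact (contDiff_apply ℝ ((Fin k → ℝ) × ℝ) s).comp h1

theorem par1 (k : ℕ) : ∃ S : Set (Param k), S.Countable ∧ ∀ x : Fan k, ∀ (N : Finset (Lb k)) (u : Lb k), u ∉ N →
    (∀ i ∈ N, ∃ u', u' ∉ N ∧ (x u').2 = (x u).2 ∧ ∃ t : ℝ, (x i).1 = (1 / 2 : ℝ) • ((x u).1 + (x u').1) +
      ((t : ℂ) * Complex.I) • ((x u').1 - (x u).1)) →
    ∃ τ ∈ S, ∃ y : Fin τ.1 → ℝ, Eqv x (τ.2.1 y) ∧
      τ.1 + 3 * N.card + (k + 1) * Module.finrank ℝ (EqR x) ≤ (k + 5) * (k + 4) := by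
  have hex : ∀ d : Finset (Lb k) × Lb k × (Lb k → Lb k) × Finset (Lb k × Lb k), ∃ τ : Param k,
      τ.1 = Module.finrank ℝ (Par1P d.1 d.2.1 d.2.2.2) ∧
      ∀ p, ∃ y, τ.2.1 y = par1Map d.1 d.2.1 d.2.2.1 d.2.2.2 p := fun d =>
    par_mk (par1Map d.1 d.2.1 d.2.2.1 d.2.2.2) (par1Map_contDiff d.1 d.2.1 d.2.2.1 d.2.2.2)
  choose τ hτ1 hτ2 using hex
  refine ⟨Set.range τ, Set.countable_range τ, fun x N u hu hN => ?_⟩
  have hN' : ∀ i : Lb k, ∃ u' : Lb k, ∃ t : ℝ, i ∈ N → (u' ∉ N ∧ (x i).1 = (1 / 2 : ℝ) • ((x u).1 + (x u').1) +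
      ((t : ℂ) * Complex.I) • ((x u').1 - (x u).1)) := by
    intro i
    by_cases hi : i ∈ N
    · obtain ⟨u', h1, -, t, h2⟩ := hN i hi
      exact ⟨u', t, fun _ => ⟨h1, h2⟩⟩
    · exact ⟨u, 0, fun h => absurd h hi⟩
  choose f t hft using hN'
  refine ⟨τ (N, u, f, parPr x), ⟨_, rfl⟩, ?_⟩
  let p : Par1P N u (parPr x) :=
    (fun s => (x s).1 - (x u).1, fun s => t s, ⟨fun s => (x s).2 - (x u).2, par_mem_W x u⟩)
  obtain ⟨y, hy⟩ := hτ2 (N, u, f, parPr x) p
  refine ⟨y, ?_, ?_⟩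
  · rw [hy]
    have hA : ∀ s, s ∉ N → par1A N u (parPr x) s p = (x s).1 - (x u).1 := by
      intro s hs
      by_cases h : s ∈ (insert u N)ᶜ
      · exact dif_pos h
      · have h2 : s = u := by
          rw [Finset.mem_compl, not_not, Finset.mem_insert] at h
          exact h.resolve_right hs
        rw [par1A, dif_neg h, h2, sub_self]
    have h1 : par1Map N u f (parPr x) p = fun s => x s - x u := by
      funext s
      refine Prod.ext ?_ rfl
      show (if s ∈ N then (1 / 2 : ℝ) • par1A N u (parPr x) (f s) p +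
        (((par1T N u (parPr x) s p : ℝ) : ℂ) * Complex.I) • par1A N u (parPr x) (f s) p
        else par1A N u (parPr x) s p) = (x s).1 - (x u).1
      by_cases h : s ∈ N
      · rw [if_pos h]
        obtain ⟨h2, h3⟩ := hft s h
        rw [hA _ h2]
        have h4 : par1T N u (parPr x) s p = t s := dif_pos h
        rw [h4, h3]
        module
      · rw [if_neg h, hA s h]
    show Eqv x (par1Map N u f (parPr x) p)
    rw [h1]
    exact eqv_sub x (x u)
  · rw [hτ1]
    have hW := parW_finrank (parPr x) u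
    rw [parR_parPr] at hW
    have hc : (insert u N).card + ((insert u N)ᶜ).card = k + 5 := by
      rw [Finset.card_add_card_compl, Fintype.card_fin]
    rw [Finset.card_insert_of_notMem hu] at hc
    have h4 : Module.finrank ℝ (ℂ × ℂ) = 4 := by
      rw [Module.finrank_prod, Complex.finrank_real_complex]
    show Module.finrank ℝ (Par1P N u (parPr x)) + 3 * N.card +
      (k + 1) * Module.finrank ℝ (EqR x) ≤ (k + 5) * (k + 4)
    unfold Par1P
    rw [Module.finrank_prod, Module.finrank_prod, Module.finrank_pi_fintype,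
      Module.finrank_fintype_fun_eq_card]
    simp only [h4, Finset.sum_const, Finset.card_univ, Fintype.card_coe, smul_eq_mul]
    have h5 : (k + 5) * (k + 4) = 4 * (k + 4) + (k + 1) * (k + 4) := by ring
    rw [h5]
    omega

end Pool.Agent.FAN
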