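import Pool.Agent.FAN.EQV
import Pool.Agent.FAN.PT

set_option autoImplicit false

namespace Pool.Agent.FAN

open MeasureTheory Topology Filter

variable {k : ℕ}

namespace PARSaux

/-- the two complex coordinates -/
noncomputable def cof (b : Bool) : (ℂ × ℂ) →ₗ[ℝ] ℂ :=
  if b then LinearMap.fst ℝ ℂ ℂ else LinearMap.snd ℝ ℂ ℂ

/-- the two unit vectors -/
def un (b : Bool) : ℂ × ℂ := if b then (1, 0) else (0, 1)

theorem cof_un (b : Bool) : cof b (un b) = 1 := by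
  cases b <;> simp [cof, un]

theorem cof_smul (b : Bool) (z : ℂ) (a : ℂ × ℂ) : cof b (z • a) = z * cof b a := by
  cases b <;> simp [cof]

theorem exists_cof {a : ℂ × ℂ} (ha : a ≠ 0) : ∃ b, cof b a ≠ 0 := by
  by_contra h
  push Not at h
  apply ha
  have h1 := h true
  have h2 := h false
  simp only [cof, if_true, LinearMap.fst_apply, Bool.false_eq_true, if_false,
    LinearMap.snd_apply] at h1 h2
  exact Prod.ext h1 h2

/-- normalisation -/
theorem exists_norm (x : Fan k) (s0 : Lb k) {c : ℂ} (hc : c ≠ 0) : ∃ w : Fan k, ∃ ρ : ℝ, Eqv x w ∧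
    (∀ t, (w t).1 = c⁻¹ • ((x t).1 - (x s0).1)) ∧ (∀ t, (w t).2 = ρ • ((x t).2 - (x s0).2)) := by
  have hci : c⁻¹ ≠ 0 := inv_ne_zero hc
  have hn : 0 < ‖c⁻¹‖ := norm_pos_iff.2 hci
  obtain ⟨θ, hθ, hrθ⟩ : ∃ θ : ℂ, ‖θ‖ = 1 ∧ (‖c⁻¹‖ : ℂ) * θ = c⁻¹ := by
    refine ⟨(‖c⁻¹‖ : ℂ)⁻¹ * c⁻¹, ?_, ?_⟩
    · rw [norm_mul, norm_inv, Complex.norm_real, Real.norm_of_nonneg hn.le]
      exact inv_mul_cancel₀ hn.ne'
    · rw [← mul_assoc, mul_inv_cancel₀, one_mul]
      exact_mod_cast hn.ne'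
  have hw : ∀ t, ‖c⁻¹‖ • rotc θ (x t) + (-(‖c⁻¹‖ • rotc θ (x s0))) =
      ‖c⁻¹‖ • rotc θ (x t - x s0) := by
    intro t
    rw [rotc_sub, smul_sub, sub_eq_add_neg]
  refine ⟨fun t => ‖c⁻¹‖ • rotc θ (x t) + (-(‖c⁻¹‖ • rotc θ (x s0))), ‖c⁻¹‖,
    ⟨θ, hθ, ‖c⁻¹‖, hn, -(‖c⁻¹‖ • rotc θ (x s0)), fun t => rfl⟩, fun t => ?_, fun t => ?_⟩
  · simp only [hw]
    show ‖c⁻¹‖ • (θ • ((x t).1 - (x s0).1)) = c⁻¹ • ((x t).1 - (x s0).1)
    have h9 : ‖c⁻¹‖ • (θ • ((x t).1 - (x s0).1)) = ((‖c⁻¹‖ : ℂ) * θ) • ((x t).1 - (x s0).1) := by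
      rw [mul_smul, ← Complex.coe_smul]
    rw [h9, hrθ]
  · simp only [hw]
    rfl

/-- the affine family through `x0` with direction `V` -/
noncomputable def fam (V : Submodule ℝ (Fan k)) (x0 : Fan k) : Param k :=
  ⟨Module.finrank ℝ V, fun y => x0 + ((Module.finBasis ℝ V).equivFun.symm y : Fan k), by
      refine contDiff_const.add ?_
      have h1 : (fun y : Fin (Module.finrank ℝ V) → ℝ =>
          ((Module.finBasis ℝ V).equivFun.symm y : Fan k)) =
          (V.subtype.comp (Module.finBasis ℝ V).equivFun.symm.toLinearMap).toContinuousLinearMap := by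
        rfl
      rw [h1]
      exact ContinuousLinearMap.contDiff _⟩

theorem mem_fam {V : Submodule ℝ (Fan k)} {x0 w : Fan k} (h : w - x0 ∈ V) :
    ∃ y : Fin (fam V x0).1 → ℝ, (fam V x0).2.1 y = w := by
  refine ⟨(Module.finBasis ℝ V).equivFun ⟨_, h⟩, ?_⟩
  show x0 + ((Module.finBasis ℝ V).equivFun.symm ((Module.finBasis ℝ V).equivFun ⟨_, h⟩) : Fan k) = w
  rw [LinearEquiv.symm_apply_apply]
  simp

section
variable {q r : ℕ} (κ : ℂ) (C : Fin r × Fin q → Lb k) (s0 : Lb k) (b0 : Fin r) (m0 : Fin q) (b : Bool)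

/-- the conditions, with the value `v` of the coordinate -/
def Cond (v : ℂ) (w : Fan k) : Prop :=
  w s0 = 0 ∧ (∀ s, s ∉ Set.range C → (w s).1 = 0) ∧
    (∀ d (m : Fin q), (w (C (d, m))).1 = κ ^ (m : ℕ) • (w (C (d, m0))).1) ∧
    (∀ d (m : Fin q), (w (C (d, m))).2 = (w (C (d, m0))).2) ∧ cof b (w (C (b0, m0))).1 = v

/-- the linear space of directions -/
def Vs : Submodule ℝ (Fan k) where
  carrier := {w | Cond κ C s0 b0 m0 b 0 w}
  zero_mem' := by
    refine ⟨rfl, fun _ _ => rfl, fun _ _ => ?_, fun _ _ => rfl, ?_⟩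
    · show (0 : ℂ × ℂ) = _ • (0 : ℂ × ℂ)
      rw [smul_zero]
    · show cof b (0 : ℂ × ℂ) = 0
      rw [map_zero]
  add_mem' := by
    rintro w w' ⟨h1, h2, h3, h4, h5⟩ ⟨h1', h2', h3', h4', h5'⟩
    refine ⟨?_, fun s hs => ?_, fun d m => ?_, fun d m => ?_, ?_⟩
    · rw [Pi.add_apply, h1, h1', add_zero]
    · rw [Pi.add_apply, Prod.fst_add, h2 s hs, h2' s hs, add_zero]
    · rw [Pi.add_apply, Pi.add_apply, Prod.fst_add, Prod.fst_add, h3, h3', smul_add]
    · rw [Pi.add_apply, Pi.add_apply, Prod.snd_add, Prod.snd_add, h4, h4']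
    · rw [Pi.add_apply, Prod.fst_add, map_add, h5, h5', add_zero]
  smul_mem' := by
    rintro a w ⟨h1, h2, h3, h4, h5⟩
    refine ⟨?_, fun s hs => ?_, fun d m => ?_, fun d m => ?_, ?_⟩
    · rw [Pi.smul_apply, h1, smul_zero]
    · rw [Pi.smul_apply, Prod.smul_fst, h2 s hs, smul_zero]
    · rw [Pi.smul_apply, Pi.smul_apply, Prod.smul_fst, Prod.smul_fst, h3, smul_comm]
    · rw [Pi.smul_apply, Pi.smul_apply, Prod.smul_snd, Prod.smul_snd, h4]
    · rw [Pi.smul_apply, Prod.smul_fst, map_smul, h5, smul_zero]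

theorem sub_mem {v : ℂ} {w w' : Fan k} (h : Cond κ C s0 b0 m0 b v w)
    (h' : Cond κ C s0 b0 m0 b v w') : w - w' ∈ Vs κ C s0 b0 m0 b := by
  obtain ⟨h1, h2, h3, h4, h5⟩ := h
  obtain ⟨h1', h2', h3', h4', h5'⟩ := h'
  refine ⟨?_, fun s hs => ?_, fun d m => ?_, fun d m => ?_, ?_⟩
  · rw [Pi.sub_apply, h1, h1', sub_zero]
  · rw [Pi.sub_apply, Prod.fst_sub, h2 s hs, h2' s hs, sub_zero]
  · rw [Pi.sub_apply, Pi.sub_apply, Prod.fst_sub, Prod.fst_sub, h3, h3', smul_sub]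
  · rw [Pi.sub_apply, Pi.sub_apply, Prod.snd_sub, Prod.snd_sub, h4, h4']
  · rw [Pi.sub_apply, Prod.fst_sub, map_sub, h5, h5', sub_self]

/-- other labels -/
abbrev Ot : Type := {s : Lb k // s ∉ Set.range C ∧ s ≠ s0}

/-- the coordinate map of the first components -/
noncomputable def Am (r : ℕ) (b0 : Fin r) (b : Bool) : (Fin r → ℂ × ℂ) →ₗ[ℝ] ℂ :=
  (cof b).comp (LinearMap.proj b0)

theorem finrank_Am : Module.finrank ℝ (LinearMap.ker (Am r b0 b)) = 4 * r - 2 := by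
  have h1 := LinearMap.finrank_range_add_finrank_ker (Am r b0 b)
  have h2 : Function.Surjective (Am r b0 b) := by
    intro z
    refine ⟨fun _ => z • un b, ?_⟩
    show cof b (z • un b) = z
    rw [cof_smul, cof_un, mul_one]
  rw [LinearMap.range_eq_top.2 h2, finrank_top, Complex.finrank_real_complex,
    Module.finrank_pi_fintype] at h1
  have h3 : Module.finrank ℝ (ℂ × ℂ) = 4 := by
    rw [Module.finrank_prod, Complex.finrank_real_complex]
  simp only [h3, Finset.sum_const, Finset.card_univ, Fintype.card_fin, smul_eq_mul] at h1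
  omega

theorem finrank_Vs (hC : Function.Injective C) (hs0 : s0 ∉ Set.range C) :
    Module.finrank ℝ (Vs κ C s0 b0 m0 b) ≤
      (4 * r - 2) + (k + 1) * r + (k + 1) * ((k + 4) - q * r) := by
  classical
  let T : Vs κ C s0 b0 m0 b →ₗ[ℝ]
      (LinearMap.ker (Am r b0 b)) × ((Fin r → (Fin k → ℝ) × ℝ) × (Ot C s0 → (Fin k → ℝ) × ℝ)) :=
    { toFun := fun w => (⟨fun d => (w.1 (C (d, m0))).1, w.2.2.2.2.2⟩,
        (fun d => (w.1 (C (d, m0))).2, fun s => (w.1 s.1).2))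
      map_add' := fun w w' => rfl
      map_smul' := fun a w => rfl }
  have hT : Function.Injective T := by
    rw [← LinearMap.ker_eq_bot, LinearMap.ker_eq_bot']
    rintro ⟨w, h1, h2, h3, h4, h5⟩ hw
    have e1 : ∀ d, (w (C (d, m0))).1 = 0 := fun d =>
      congrFun (congrArg (fun z => (z.1 : Fin r → ℂ × ℂ)) hw) d
    have e2 : ∀ d, (w (C (d, m0))).2 = 0 := fun d =>
      congrFun (congrArg (fun z => z.2.1) hw) d
    have e3 : ∀ s : Ot C s0, (w s.1).2 = 0 := fun s =>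
      congrFun (congrArg (fun z => z.2.2) hw) s
    refine Subtype.ext (funext fun s => ?_)
    show w s = 0
    by_cases hs : s ∈ Set.range C
    · obtain ⟨⟨d, m⟩, rfl⟩ := hs
      refine Prod.ext ?_ ?_
      · rw [h3, e1, smul_zero]; rfl
      · rw [h4, e2]; rfl
    · by_cases hs' : s = s0
      · rw [hs', h1]
      · exact Prod.ext (h2 s hs) (e3 ⟨s, hs, hs'⟩)
  refine (LinearMap.finrank_le_finrank_of_injective hT).trans ?_
  have hE : Module.finrank ℝ ((Fin k → ℝ) × ℝ) = k + 1 := by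
    rw [Module.finrank_prod, Module.finrank_fin_fun, Module.finrank_self]
  have hcard : Fintype.card (Ot C s0) = (k + 4) - q * r := by
    rw [Fintype.card_subtype]
    have h1 : (Finset.univ.filter fun s => s ∉ Set.range C ∧ s ≠ s0) =
        (Finset.univ \ (Finset.univ.image C)).erase s0 := by
      ext s
      simp [and_comm]
    rw [h1, Finset.card_erase_of_mem, Finset.card_sdiff_of_subset (Finset.subset_univ _),
      Finset.card_image_of_injective _ hC, Finset.card_univ, Finset.card_univ, Fintype.card_fin,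
      Fintype.card_prod, Fintype.card_fin, Fintype.card_fin, mul_comm q r]
    · omega
    · rw [Finset.mem_sdiff]
      refine ⟨Finset.mem_univ _, ?_⟩
      intro h
      obtain ⟨p, -, hp⟩ := Finset.mem_image.1 h
      exact hs0 ⟨p, hp⟩
  rw [Module.finrank_prod, Module.finrank_prod, finrank_Am, Module.finrank_pi_fintype,
    Module.finrank_pi_fintype]
  simp only [hE, Finset.sum_const, Finset.card_univ, Fintype.card_fin, smul_eq_mul, hcard]
  rw [mul_comm r, mul_comm ((k + 4) - q * r)]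
  omega

end

end PARSaux

open PARSaux

theorem parS (k q r : ℕ) (hq : 2 ≤ q) (hr : 1 ≤ r) (hqr : q * r ≤ k + 4) (κ : ℂ) (hκ : κ ≠ 0) :
    ∃ S : Set (Param k), S.Countable ∧ ∀ x : Fan k, Nondeg x → ∀ C : Fin r × Fin q → Lb k, SymF x q r κ C →
    ∃ τ ∈ S, ∃ y : Fin τ.1 → ℝ, Eqv x (τ.2.1 y) ∧
      τ.1 ≤ 4 * (r - 1) + 2 + (k + 1) * (r + (k + 4) - q * r) := by
  classical
  let b0 : Fin r := ⟨0, hr⟩
  let m0 : Fin q := ⟨0, by omega⟩
  let pick : (Fin r × Fin q → Lb k) × Lb k × Bool → Fan k := fun p =>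
    if h : ∃ w, Cond κ p.1 p.2.1 b0 m0 p.2.2 1 w then h.choose else 0
  refine ⟨Set.range fun p : (Fin r × Fin q → Lb k) × Lb k × Bool =>
    fam (Vs κ p.1 p.2.1 b0 m0 p.2.2) (pick p), Set.countable_range _, ?_⟩
  intro x hx C hC
  -- a label outside the classes
  obtain ⟨s0, hs0⟩ : ∃ s0, s0 ∉ Set.range C := by
    by_contra h
    push Not at h
    have h1 : Function.Surjective C := h
    have h2 := Fintype.card_le_of_surjective C h1
    rw [Fintype.card_fin, Fintype.card_prod, Fintype.card_fin, Fintype.card_fin, mul_comm r q] at h2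
    omega
  have ha : (x (C (b0, m0))).1 ≠ 0 := by
    intro h0
    let m1 : Fin q := ⟨1, by omega⟩
    have h1 := hC.a b0 m1
    have h2 : (x (C (b0, m1))).1 = (x (C (b0, m0))).1 := by
      rw [h0, h1]
      show κ ^ 1 • (x (C (b0, m0))).1 = 0
      rw [h0, smul_zero]
    have h3 : (x (C (b0, m1))).2 = (x (C (b0, m0))).2 := hC.e b0 m1
    have h4 := hx.inj h2 (congrArg Prod.fst h3)
    have h5 := hC.inj h4
    have h6 : (1 : ℕ) = 0 := congrArg (fun p : Fin r × Fin q => (p.2 : ℕ)) h5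
    omega
  obtain ⟨b, hb⟩ := exists_cof ha
  obtain ⟨w, ρ, hE, hw1, hw2⟩ := exists_norm x s0 hb
  have hz0 := hC.zero s0 hs0
  have hcond : Cond κ C s0 b0 m0 b 1 w := by
    refine ⟨?_, fun s hs => ?_, fun d m => ?_, fun d m => ?_, ?_⟩
    · refine Prod.ext ?_ ?_
      · rw [hw1, sub_self, smul_zero]; rfl
      · rw [hw2, sub_self, smul_zero]; rfl
    · rw [hw1, hz0, hC.zero s hs, sub_self, smul_zero]
    · rw [hw1, hw1, hz0, sub_zero, sub_zero, hC.a d m, smul_comm]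
    · rw [hw2, hw2, hC.e d m]
    · rw [hw1, hz0, sub_zero, cof_smul, inv_mul_cancel₀ hb]
  have hex : ∃ w, Cond κ C s0 b0 m0 b 1 w := ⟨w, hcond⟩
  have hpick : Cond κ C s0 b0 m0 b 1 (pick (C, s0, b)) := by
    have : pick (C, s0, b) = hex.choose := dif_pos hex
    rw [this]
    exact hex.choose_spec
  obtain ⟨y, hy⟩ := mem_fam (sub_mem κ C s0 b0 m0 b hcond hpick)
  refine ⟨fam (Vs κ C s0 b0 m0 b) (pick (C, s0, b)), ⟨(C, s0, b), rfl⟩, y, by rw [hy]; exact hE, ?_⟩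
  refine (finrank_Vs κ C s0 b0 m0 b hC.inj hs0).trans ?_
  have h1 : r + (k + 4) - q * r = r + ((k + 4) - q * r) := by omega
  rw [h1, mul_add]
  omega

end Pool.Agent.FAN
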