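import Pool.Agent.FAN.SYR
import Pool.Agent.FAN.AX1
import Pool.Agent.FAN.AX2
import Pool.Agent.FAN.PTN
import Pool.Agent.FAN.KB

set_option autoImplicit false

namespace Pool.Agent.FAN

open MeasureTheory Topology Filter

variable {k : ℕ}

/-! ### invariance of `K` -/

theorem syk_cell {x : Fan k} {κ : ℂ} {τ : Equiv.Perm (Lb k)} (hτ : ∀ s, rotc κ (x s) = x (τ s))
    (s t : Lb k) (q : Sp k) : q ∈ cell x (τ s) (τ t) ↔ rot κ q ∈ cell x s t := by
  have h : ∀ s, cval (x s) (rot κ q) = cval (x (τ s)) q := fun s => by rw [cval_rot, hτ]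
  unfold cell
  simp only [Set.mem_setOf_eq, h]
  constructor
  · intro H r
    exact H (τ r)
  · intro H r
    have := H (τ.symm r)
    rwa [Equiv.apply_symm_apply] at this

theorem syk_Hf {x : Fan k} {κ : ℂ} {τ : Equiv.Perm (Lb k)} (hτ : ∀ s, rotc κ (x s) = x (τ s))
    (h : Lb k → Lb k → ℝ) (q : Sp k) : Hf x (fun s t => h (τ s) (τ t)) (rot κ q) = Hf x h q := by
  classical
  unfold Hf
  have h1 : ∀ s t, (cell x s t).indicator (fun _ => (1 : ℝ)) (rot κ q) =
      (cell x (τ s) (τ t)).indicator (fun _ => (1 : ℝ)) q := by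
    intro s t
    by_cases hc : rot κ q ∈ cell x s t
    · rw [Set.indicator_of_mem hc, Set.indicator_of_mem ((syk_cell hτ s t q).2 hc)]
    · rw [Set.indicator_of_notMem hc, Set.indicator_of_notMem (fun h => hc ((syk_cell hτ s t q).1 h))]
  simp only [h1]
  rw [Equiv.sum_comp τ (fun s => ∑ t, h s (τ t) * (cell x s (τ t)).indicator (fun _ => (1 : ℝ)) q)]
  refine Finset.sum_congr rfl fun s _ => ?_
  rw [Equiv.sum_comp τ (fun t => h s t * (cell x s t).indicator (fun _ => (1 : ℝ)) q)]

theorem syk_good {x : Fan k} {κ : ℂ} (hκ : κ ≠ 0) {p : Sp k} (hp : Good x p) : Good x (rot κ p) := by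
  intro s s' hs
  rcases hp s s' hs with h | h
  · left
    change zt ((x s).1 - (x s').1) (κ • p.1) ≠ 0
    rw [zt_smul_right]
    exact mul_ne_zero hκ h
  · right
    exact h

theorem syk_mem_K {x : Fan k} {κ : ℂ} (hκ : ‖κ‖ = 1) {τ : Equiv.Perm (Lb k)}
    (hτ : ∀ s, rotc κ (x s) = x (τ s)) {h : Lb k → Lb k → ℝ} (hh : h ∈ K x) :
    (fun s t => h (τ s) (τ t)) ∈ K x := by
  have hκ0 : κ ≠ 0 := by
    rintro rfl
    simp at hκ
  refine ⟨fun i => hh.1 (τ i), fun p hp => ?_⟩
  have h1 := hh.2 (rot κ⁻¹ p) (syk_good (inv_ne_zero hκ0) hp)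
  unfold avg at h1 ⊢
  rw [← h1]
  congr 1
  ext φ
  rw [← syk_Hf hτ h, rot_rot, rot_rot]
  congr 2
  field_simp

/-! ### the permutation -/

section perm

variable {n r : ℕ} {κ : ℂ} {x : Fan k} {C : Fin r × Fin (n + 2) → Lb k}

/-- rotation of the classes -/
noncomputable def sykTau (C : Fin r × Fin (n + 2) → Lb k) (hC : Function.Injective C) : Equiv.Perm (Lb k) :=
  Equiv.Perm.viaEmbedding (Equiv.prodCongr (Equiv.refl (Fin r)) (finRotate (n + 2))) ⟨C, hC⟩

theorem sykTau_apply (hC : Function.Injective C) (b : Fin r) (m : Fin (n + 2)) :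
    sykTau C hC (C (b, m)) = C (b, m + 1) := by
  have h := Equiv.Perm.viaEmbedding_apply
    (Equiv.prodCongr (Equiv.refl (Fin r)) (finRotate (n + 2))) ⟨C, hC⟩ (b, m)
  change sykTau C hC (C (b, m)) = C _ at h
  rw [h]
  congr 1
  simp

theorem sykTau_apply_of_notMem (hC : Function.Injective C) {s : Lb k} (hs : s ∉ Set.range C) :
    sykTau C hC s = s :=
  Equiv.Perm.viaEmbedding_apply_of_notMem
    (Equiv.prodCongr (Equiv.refl (Fin r)) (finRotate (n + 2))) ⟨C, hC⟩ s hs

/-- shift of an index -/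
def sykShift {n : ℕ} (j : Fin (n + 2)) (m : ℕ) : Fin (n + 2) := ⟨(j.val + m) % (n + 2), Nat.mod_lt _ (by omega)⟩

theorem sykShift_zero {n : ℕ} (j : Fin (n + 2)) : sykShift j 0 = j := by
  apply Fin.ext
  change (j.val + 0) % (n + 2) = j.val
  rw [add_zero, Nat.mod_eq_of_lt j.2]

theorem sykShift_self {n : ℕ} (j : Fin (n + 2)) : sykShift j (n + 2) = j := by
  apply Fin.ext
  change (j.val + (n + 2)) % (n + 2) = j.val
  rw [Nat.add_mod_right, Nat.mod_eq_of_lt j.2]

theorem sykShift_succ {n : ℕ} (j : Fin (n + 2)) (m : ℕ) : sykShift j m + 1 = sykShift j (m + 1) := by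
  apply Fin.ext
  rw [Fin.val_add]
  change ((j.val + m) % (n + 2) + 1 % (n + 2)) % (n + 2) = (j.val + (m + 1)) % (n + 2)
  rw [← Nat.add_mod, add_assoc]

theorem sykTau_pow (hC : Function.Injective C) (b : Fin r) (j : Fin (n + 2)) (m : ℕ) :
    (sykTau C hC ^ m) (C (b, j)) = C (b, sykShift j m) := by
  induction m with
  | zero => rw [sykShift_zero, pow_zero, Equiv.Perm.one_apply]
  | succ m ih => rw [pow_succ', Equiv.Perm.mul_apply, ih, sykTau_apply, sykShift_succ]

theorem sykTau_pow_of_notMem (hC : Function.Injective C) {s : Lb k} (hs : s ∉ Set.range C) (m : ℕ) :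
    (sykTau C hC ^ m) s = s := by
  induction m with
  | zero => simp
  | succ m ih => rw [pow_succ', Equiv.Perm.mul_apply, ih, sykTau_apply_of_notMem hC hs]

theorem sykTau_pow_self (hC : Function.Injective C) (s : Lb k) : (sykTau C hC ^ (n + 2)) s = s := by
  by_cases hs : s ∈ Set.range C
  · obtain ⟨⟨b, j⟩, rfl⟩ := hs
    rw [sykTau_pow, sykShift_self]
  · exact sykTau_pow_of_notMem hC hs _

theorem sykTau_rotc (hS : SymF x (n + 2) r κ C) (hord : κ ^ (n + 2) = 1) (s : Lb k) :
    rotc κ (x s) = x (sykTau C hS.inj s) := by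
  by_cases hs : s ∈ Set.range C
  · obtain ⟨⟨b, j⟩, rfl⟩ := hs
    rw [sykTau_apply]
    unfold rotc
    apply Prod.ext
    · change κ • (x (C (b, j))).1 = (x (C (b, j + 1))).1
      rw [hS.a b j, hS.a b (j + 1), smul_smul, ← pow_succ']
      congr 1
      rw [pow_eq_pow_mod (j.val + 1) hord]
      congr 1
    · change (x (C (b, j))).2 = (x (C (b, j + 1))).2
      rw [hS.e b j, hS.e b (j + 1)]
  · rw [sykTau_apply_of_notMem hS.inj hs]
    unfold rotc
    apply Prod.ext
    · change κ • (x s).1 = (x s).1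
      rw [hS.zero s hs, smul_zero]
    · rfl

/-- symmetrization -/
noncomputable def sykSum (C : Fin r × Fin (n + 2) → Lb k) (hC : Function.Injective C)
    (h : Lb k → Lb k → ℝ) : Lb k → Lb k → ℝ :=
  fun s t => ∑ m ∈ Finset.range (n + 2), h ((sykTau C hC ^ m) s) ((sykTau C hC ^ m) t)

theorem sykSum_inv (hC : Function.Injective C) (h : Lb k → Lb k → ℝ) (s t : Lb k) :
    sykSum C hC h (sykTau C hC s) (sykTau C hC t) = sykSum C hC h s t := by
  unfold sykSum
  have h1 : ∀ (m : ℕ) (s : Lb k), (sykTau C hC ^ m) (sykTau C hC s) = (sykTau C hC ^ (m + 1)) s := by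
    intro m s
    rw [pow_succ, Equiv.Perm.mul_apply]
  simp only [h1]
  have h2 := Finset.sum_range_succ' (fun m => h ((sykTau C hC ^ m) s) ((sykTau C hC ^ m) t)) (n + 2)
  have h3 := Finset.sum_range_succ (fun m => h ((sykTau C hC ^ m) s) ((sykTau C hC ^ m) t)) (n + 2)
  rw [h3] at h2
  simp only [sykTau_pow_self, pow_zero, Equiv.Perm.one_apply] at h2
  linarith

theorem sykSum_mem (hS : SymF x (n + 2) r κ C) (hκ : ‖κ‖ = 1) (hord : κ ^ (n + 2) = 1)
    {h : Lb k → Lb k → ℝ} (hh : h ∈ K x) : sykSum C hS.inj h ∈ K x := by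
  have h1 : ∀ m : ℕ, (fun s t => h ((sykTau C hS.inj ^ m) s) ((sykTau C hS.inj ^ m) t)) ∈ K x := by
    intro m
    induction m with
    | zero => simpa using hh
    | succ m ih =>
      have := syk_mem_K hκ (sykTau_rotc hS hord) ih
      refine (congrArg (· ∈ K x) ?_).mp this
      funext s t
      simp only [pow_succ, Equiv.Perm.mul_apply]
  have h2 : sykSum C hS.inj h = ∑ m ∈ Finset.range (n + 2),
      (fun s t => h ((sykTau C hS.inj ^ m) s) ((sykTau C hS.inj ^ m) t)) := by
    funext s t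
    rw [Finset.sum_apply, Finset.sum_apply]
    rfl
  rw [h2]
  exact Submodule.sum_mem _ fun m _ => h1 m

/-! ### the classes -/

theorem syk_class (hx : Nondeg x) (hS : SymF x (n + 2) r κ C) (hdim : r * (n + 1) = 4)
    {b b' : Fin r} {m m' : Fin (n + 2)} (h : (x (C (b, m))).2 = (x (C (b', m'))).2) : b = b' := by
  classical
  by_contra hbb
  have hZ : ∀ {s s' : Lb k}, (x s).2 = (x s').2 → ed s s' ∈ Zs x := fun {s s'} h =>
    EqR_le x (Submodule.subset_span ⟨s, s', h, rfl⟩)
  let v : Fin r × Fin (n + 1) → (Lb k → ℝ) := fun p => ed (C (p.1, p.2.succ)) (C (p.1, 0))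
  have he0 : ∀ b m, (x (C (b, m))).2 = (x (C (b, 0))).2 := fun b m => by
    rw [hS.e b m, hS.e b 0]
  have hli : LinearIndependent ℝ v := by
    rw [Fintype.linearIndependent_iff]
    intro g hg p
    have h3 := congrFun hg (C (p.1, p.2.succ))
    simp only [Finset.sum_apply, Pi.smul_apply, smul_eq_mul, Pi.zero_apply] at h3
    rw [Finset.sum_eq_single p] at h3
    · have h4 : v p (C (p.1, p.2.succ)) = 1 := by
        change ed _ _ _ = _
        rw [rel_ed_apply, if_pos rfl, if_neg, sub_zero]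
        intro h5
        have h6 := hS.inj h5
        exact absurd (Prod.mk.inj h6).2 (Fin.succ_ne_zero _)
      rw [h4, mul_one] at h3
      exact h3
    · intro c _ hc
      have h4 : v c (C (p.1, p.2.succ)) = 0 := by
        change ed _ _ _ = _
        rw [rel_ed_apply, if_neg, if_neg, sub_zero]
        · intro h5
          have h6 := hS.inj h5
          exact absurd (Prod.mk.inj h6).2 (Fin.succ_ne_zero _)
        · intro h5
          have h6 := hS.inj h5
          apply hc
          have h7 := Prod.mk.inj h6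
          exact Prod.ext h7.1.symm (Fin.succ_injective _ h7.2).symm
      rw [h4, mul_zero]
    · intro hh
      exact absurd (Finset.mem_univ _) hh
  have hle : Submodule.span ℝ (Set.range v) ≤ Zs x := by
    rw [Submodule.span_le]
    rintro _ ⟨p, rfl⟩
    exact hZ (he0 _ _)
  have hfr : Module.finrank ℝ (Submodule.span ℝ (Set.range v)) = 4 := by
    rw [finrank_span_eq_card hli, Fintype.card_prod, Fintype.card_fin, Fintype.card_fin, hdim]
  have heq : Submodule.span ℝ (Set.range v) = Zs x :=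
    Submodule.eq_of_le_of_finrank_eq hle (by rw [hfr, finrank_Zs hx])
  -- the sum over the class `b`
  let φ : (Lb k → ℝ) →ₗ[ℝ] ℝ :=
    { toFun := fun w => ∑ m, w (C (b, m))
      map_add' := fun w w' => by simp only [Pi.add_apply, Finset.sum_add_distrib]
      map_smul' := fun r w => by
        simp only [Pi.smul_apply, smul_eq_mul, RingHom.id_apply, Finset.mul_sum] }
  have hφ : ∀ (c c' : Fin r) (i i' : Fin (n + 2)), φ (ed (C (c, i)) (C (c', i'))) =
      (if b = c then 1 else 0) - (if b = c' then 1 else 0) := by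
    intro c c' i i'
    change ∑ m, ed (C (c, i)) (C (c', i')) (C (b, m)) = _
    simp only [rel_ed_apply, hS.inj.eq_iff, Prod.mk.injEq, Finset.sum_sub_distrib]
    congr 1
    · by_cases hbc : b = c
      · simp [hbc]
      · simp [hbc]
    · by_cases hbc : b = c'
      · simp [hbc]
      · simp [hbc]
  have hker : Zs x ≤ LinearMap.ker φ := by
    rw [← heq, Submodule.span_le]
    rintro _ ⟨p, rfl⟩
    change φ (ed _ _) = 0
    rw [hφ, sub_self]
  have h5 : φ (ed (C (b, m)) (C (b', m'))) = 0 := hker (hZ h)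
  rw [hφ, if_pos rfl, if_neg hbb] at h5
  norm_num at h5

theorem syk_a_ne (hx : Nondeg x) (hS : SymF x (n + 2) r κ C) (hκ : κ ≠ 0) {u : Lb k}
    (hu : u ∈ Set.range C) : (x u).1 ≠ 0 := by
  obtain ⟨⟨b, m⟩, rfl⟩ := hu
  intro h0
  -- two different labels of the class with `a = 0`
  have hne : C (b, 0) ≠ C (b, 1) := by
    intro h
    have := (Prod.mk.inj (hS.inj h)).2
    exact absurd this (by simp)
  have h2 : (x (C (b, 0))).2 = (x (C (b, 1))).2 := by rw [hS.e b 0, hS.e b 1]
  apply x3_a_ne hx hne h2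
  have h3 : (x (C (b, 0))).1 = 0 := by
    rw [hS.a b m] at h0
    exact (smul_eq_zero.1 h0).resolve_left (pow_ne_zero _ hκ)
  have h4 : (x (C (b, 1))).1 = κ ^ ((1 : Fin (n + 2)) : ℕ) • (x (C (b, 0))).1 := hS.a b 1
  rw [h4, h3, smul_zero]

/-- the rotations which relate two labels of a class are the powers of `κ` -/
theorem syk_theta (hx : Nondeg x) (hS : SymF x (n + 2) r κ C) (hdim : r * (n + 1) = 4) (hκ : κ ≠ 0)
    (hord : κ ^ (n + 2) = 1) {u s : Lb k} (hu : u ∈ Set.range C) (hs : s ∈ Set.range C)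
    (he : (x s).2 = (x u).2) {θ : ℂ} (h : θ • (x s).1 = (x u).1) : ∃ m < n + 2, θ = κ ^ m := by
  have hua := syk_a_ne hx hS hκ hu
  obtain ⟨⟨b, m⟩, rfl⟩ := hu
  obtain ⟨⟨b', m'⟩, rfl⟩ := hs
  obtain rfl : b' = b := syk_class hx hS hdim he
  rw [hS.a b' m, hS.a b' m'] at h
  rw [hS.a b' m] at hua
  have ha0 := (smul_ne_zero_iff.1 hua).2
  have h1 : θ * κ ^ (m' : ℕ) = κ ^ (m : ℕ) := by
    rw [smul_smul] at h
    exact smul_left_injective ℂ ha0 h
  refine ⟨(m.val + (n + 2 - m'.val)) % (n + 2), Nat.mod_lt _ (by omega), ?_⟩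
  rw [← pow_eq_pow_mod _ hord, pow_add, ← h1, mul_assoc, ← pow_add]
  have h2 : m'.val + (n + 2 - m'.val) = n + 2 := by omega
  rw [h2, hord, mul_one]

theorem syk_tame (hx : Nondeg x) (hS : SymF x (n + 2) r κ C) (hdim : r * (n + 1) = 4) (hκ : κ ≠ 0)
    (hord : κ ^ (n + 2) = 1) {u i : Lb k} (hu : u ∈ Set.range C) (hi : i ∉ Set.range C) :
    ∀ (θ : ℂ) (s s' : Lb k) (α : ℝ), ‖θ‖ = 1 → s ≠ s' → α ≠ 0 →
      rotc θ (x s - x s') = α • (x u - x i) → ∃ m < n + 2, θ = κ ^ m := by
  intro θ s s' α h1 h2 h3 h4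
  by_cases hθ : θ = 1
  · exact ⟨0, by omega, by rw [hθ, pow_zero]⟩
  have hai : (x i).1 = 0 := hS.zero i hi
  have hui : u ≠ i := fun h => hi (h ▸ hu)
  have ha : (x u).1 ≠ (x i).1 := by
    rw [hai]
    exact syk_a_ne hx hS hκ hu
  have hrange : ∀ {v : Lb k}, v ≠ u → (x u).2 = (x v).2 → v ∈ Set.range C := by
    intro v hv he
    by_contra hcon
    have hZ : ed v u ∈ Zs x := EqR_le x (Submodule.subset_span ⟨v, u, he.symm, rfl⟩)
    have h5 := hS.exact _ hZ v hcon
    rw [rel_ed_apply, if_pos rfl, if_neg hv] at h5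
    norm_num at h5
  rcases partner hx (fun ρ hρ _ => hS.exact ρ hρ i hi) hui ha h1 hθ h2 h3 h4 with
    ⟨h5, h6, h7, h8⟩ | ⟨h5, h6, h7, h8⟩
  · apply syk_theta hx hS hdim hκ hord hu (hrange h7 h8.1) h8.1.symm
    subst h5
    rw [h6, one_smul] at h4
    have h9 := congrArg Prod.fst h4
    change θ • ((x s).1 - (x s').1) = (x u).1 - (x s').1 at h9
    rw [hai, sub_zero, sub_zero] at h9
    exact h9
  · apply syk_theta hx hS hdim hκ hord hu (hrange h7 h8.1) h8.1.symm
    subst h5
    rw [h6, neg_one_smul] at h4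
    have h9 := congrArg Prod.fst h4
    change θ • ((x s).1 - (x s').1) = -((x u).1 - (x s).1) at h9
    rw [hai, sub_zero, zero_sub, smul_neg, neg_inj] at h9
    exact h9

theorem syk_outside (hx : Nondeg x) (hS : SymF x (n + 2) r κ C) {h : Lb k → Lb k → ℝ} (hh : h ∈ K x)
    {i j : Lb k} (hi : i ∉ Set.range C) (hj : j ∉ Set.range C) : h i j = 0 := by
  by_cases hij : i = j
  · rw [hij]; exact hh.1 j
  obtain ⟨y, h1, h2⟩ := axis_feasible (x := x) hij (by
    intro ρ hρ hsum
    rw [hS.exact ρ hρ i hi, hS.exact ρ hρ j hj, abs_zero, add_zero] at hsum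
    have h0 := (Finset.sum_eq_zero_iff_of_nonneg (fun s _ => abs_nonneg (ρ s))).1
      (le_antisymm hsum (Finset.sum_nonneg fun s _ => abs_nonneg (ρ s)))
    funext s
    by_cases hsi : s = i
    · rw [hsi]; exact hS.exact ρ hρ i hi
    by_cases hsj : s = j
    · rw [hsj]; exact hS.exact ρ hρ j hj
    have := h0 s (by rw [Finset.mem_filter]; exact ⟨Finset.mem_univ _, hsi, hsj⟩)
    exact abs_eq_zero.1 this)
  exact zero_of_feasible hx h1 h2 hh

theorem syk_exists_out (hk : 100 ≤ k) (hr : r * (n + 2) ≤ 100) (j : Lb k) :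
    ∃ i : Lb k, i ∉ Set.range C ∧ i ≠ j := by
  classical
  by_contra hno
  push Not at hno
  have hsub : (Finset.univ : Finset (Lb k)) ⊆ Finset.univ.image C ∪ {j} := by
    intro i _
    rw [Finset.mem_union, Finset.mem_singleton, Finset.mem_image]
    by_cases h1 : i ∈ Set.range C
    · obtain ⟨p, hp⟩ := h1
      exact Or.inl ⟨p, Finset.mem_univ _, hp⟩
    · exact Or.inr (hno i h1)
  have h2 := Finset.card_le_card hsub
  have h3 := Finset.card_union_le (Finset.univ.image C) ({j} : Finset (Lb k))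
  have h4 : (Finset.univ.image C).card ≤ r * (n + 2) := by
    refine Finset.card_image_le.trans ?_
    rw [Finset.card_univ, Fintype.card_prod, Fintype.card_fin, Fintype.card_fin]
  rw [Finset.card_univ, Fintype.card_fin] at h2
  rw [Finset.card_singleton] at h3
  omega

/-- invariant elements of `K` vanish -/
theorem syk_inv_zero (hx : Nondeg x) (hk : 100 ≤ k) (hS : SymF x (n + 2) r κ C) (hdim : r * (n + 1) = 4)
    (hr : r * (n + 2) ≤ 100) (hκ : ‖κ‖ = 1) (hord : κ ^ (n + 2) = 1)
    (hprim : ∀ m, 0 < m → m < n + 2 → κ ^ m ≠ 1) {h : Lb k → Lb k → ℝ} (hh : h ∈ K x)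
    (hinv : ∀ s t, h (sykTau C hS.inj s) (sykTau C hS.inj t) = h s t) : h = 0 := by
  have hκ0 : κ ≠ 0 := by
    rintro rfl
    simp at hκ
  have key : ∀ {u i : Lb k}, u ∈ Set.range C → i ∉ Set.range C → ∀ j, u ≠ j → i ≠ j →
      h u j = h i j ∧ h j u = h j i := by
    intro u i hu hi j huj hij
    have hui : u ≠ i := fun h => hi (h ▸ hu)
    have ha : (x u).1 ≠ (x i).1 := by
      rw [hS.zero i hi]
      exact syk_a_ne hx hS hκ0 hu
    have htau := sykTau_apply_of_notMem hS.inj hi
    exact ⟨sym_top hx (by omega) hκ hord hprim (sykTau C hS.inj) (sykTau_rotc hS hord) hh hinv hui huj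
        hij ha htau (syk_tame hx hS hdim hκ0 hord hu hi),
      sym_bot hx (by omega) hκ hord hprim (sykTau C hS.inj) (sykTau_rotc hS hord) hh hinv hui huj
        hij ha htau (syk_tame hx hS hdim hκ0 hord hu hi)⟩
  -- one index outside
  have h1 : ∀ {u j : Lb k}, u ∈ Set.range C → j ∉ Set.range C → h u j = 0 ∧ h j u = 0 := by
    intro u j hu hj
    obtain ⟨i, hi, hij⟩ := syk_exists_out (C := C) hk hr j
    have huj : u ≠ j := fun h => hj (h ▸ hu)
    obtain ⟨h2, h3⟩ := key hu hi j huj hij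
    rw [h2, h3]
    exact ⟨syk_outside hx hS hh hi hj, syk_outside hx hS hh hj hi⟩
  funext s t
  by_cases hs : s ∈ Set.range C
  · by_cases ht : t ∈ Set.range C
    · by_cases hst : s = t
      · rw [hst]; exact hh.1 t
      · obtain ⟨i, hi, hit⟩ := syk_exists_out (C := C) hk hr t
        rw [(key hs hi t hst hit).1]
        exact (h1 ht hi).2
    · exact (h1 hs ht).1
  · by_cases ht : t ∈ Set.range C
    · exact (h1 ht hs).2
    · exact syk_outside hx hS hh hs ht

open Classical in
/-- labels of the classes with nonzero index -/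
noncomputable def sykR (C : Fin r × Fin (n + 2) → Lb k) : Finset (Lb k) :=
  (Finset.univ.filter fun p : Fin r × Fin (n + 2) => p.2 ≠ 0).image C

open Classical in
/-- the determining set -/
noncomputable def sykD (C : Fin r × Fin (n + 2) → Lb k) : Finset (Lb k × Lb k) :=
  ((sykR C ×ˢ (Finset.univ : Finset (Fin (k + 4)))).image fun p => (p.1, p.1.succAbove p.2)) ∪
    ((Finset.univ.image C)ᶜ ×ˢ sykR C)

theorem sykR_card (C : Fin r × Fin (n + 2) → Lb k) : (sykR C).card ≤ r * (n + 1) := by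
  classical
  unfold sykR
  refine Finset.card_image_le.trans ?_
  have h1 : (Finset.univ.filter fun p : Fin r × Fin (n + 2) => p.2 ≠ 0) ⊆
      (Finset.univ : Finset (Fin r)) ×ˢ (Finset.univ.erase (0 : Fin (n + 2))) := by
    intro p hp
    rw [Finset.mem_filter] at hp
    rw [Finset.mem_product, Finset.mem_erase]
    exact ⟨Finset.mem_univ _, hp.2, Finset.mem_univ _⟩
  refine (Finset.card_le_card h1).trans ?_
  rw [Finset.card_product, Finset.card_erase_of_mem (Finset.mem_univ _), Finset.card_univ,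
    Finset.card_univ, Fintype.card_fin, Fintype.card_fin]
  exact le_rfl

theorem sykD_card (hC : Function.Injective C) (hdim : r * (n + 1) = 4) :
    (sykD C).card ≤ 4 * (k + 4) + (k + 5 - r * (n + 2)) * 4 := by
  classical
  have h1 := sykR_card C
  rw [hdim] at h1
  have h2 : (((sykR C ×ˢ (Finset.univ : Finset (Fin (k + 4)))).image
      fun p => (p.1, p.1.succAbove p.2))).card ≤ 4 * (k + 4) := by
    refine Finset.card_image_le.trans ?_
    rw [Finset.card_product, Finset.card_univ, Fintype.card_fin]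
    exact Nat.mul_le_mul_right _ h1
  have h3 : ((Finset.univ.image C)ᶜ).card = k + 5 - r * (n + 2) := by
    rw [Finset.card_compl, Finset.card_image_of_injective _ hC, Finset.card_univ, Fintype.card_prod,
      Fintype.card_fin, Fintype.card_fin, Fintype.card_fin]
  have h4 : ((Finset.univ.image C)ᶜ ×ˢ sykR C).card ≤ (k + 5 - r * (n + 2)) * 4 := by
    rw [Finset.card_product, h3]
    exact Nat.mul_le_mul_left _ h1
  unfold sykD
  exact (Finset.card_union_le _ _).trans (Nat.add_le_add h2 h4)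

theorem syk_general (hx : Nondeg x) (hk : 100 ≤ k) (hS : SymF x (n + 2) r κ C) (hdim : r * (n + 1) = 4)
    (hr : r * (n + 2) ≤ 100) (hκ : ‖κ‖ = 1) (hord : κ ^ (n + 2) = 1)
    (hprim : ∀ m, 0 < m → m < n + 2 → κ ^ m ≠ 1) :
    Module.finrank ℝ (K x) ≤ 4 * (k + 4) + (k + 5 - r * (n + 2)) * 4 := by
  classical
  refine (kb_finrank_le (K x) (sykD C) ?_).trans (sykD_card hS.inj hdim)
  intro h hh h0
  have hsum : sykSum C hS.inj h = 0 := syk_inv_zero hx hk hS hdim hr hκ hord hprim
    (sykSum_mem hS hκ hord hh) (sykSum_inv hS.inj h)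
  -- rows with nonzero index
  have hR : ∀ (b : Fin r) (m : Fin (n + 2)), m ≠ 0 → ∀ t, h (C (b, m)) t = 0 := by
    intro b m hm t
    by_cases ht : t = C (b, m)
    · rw [ht]; exact hh.1 _
    · obtain ⟨t', ht'⟩ := Fin.exists_succAbove_eq ht
      apply h0 (C (b, m), t)
      unfold sykD
      apply Finset.mem_union_left
      rw [Finset.mem_image]
      refine ⟨(C (b, m), t'), ?_, by rw [ht']⟩
      rw [Finset.mem_product]
      refine ⟨?_, Finset.mem_univ _⟩
      unfold sykR
      rw [Finset.mem_image]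
      exact ⟨(b, m), by rw [Finset.mem_filter]; exact ⟨Finset.mem_univ _, hm⟩, rfl⟩
  have hO : ∀ s, s ∉ Set.range C → ∀ (b : Fin r) (m : Fin (n + 2)), m ≠ 0 → h s (C (b, m)) = 0 := by
    intro s hs b m hm
    apply h0 (s, C (b, m))
    unfold sykD
    apply Finset.mem_union_right
    rw [Finset.mem_product, Finset.mem_compl, Finset.mem_image]
    refine ⟨?_, ?_⟩
    · rintro ⟨p, -, hp⟩
      exact hs ⟨p, hp⟩
    · unfold sykR
      rw [Finset.mem_image]
      exact ⟨(b, m), by rw [Finset.mem_filter]; exact ⟨Finset.mem_univ _, hm⟩, rfl⟩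
  have hshift : ∀ m : ℕ, m < n + 1 → sykShift (0 : Fin (n + 2)) (m + 1) ≠ 0 := by
    intro m hm h1
    have h2 := congrArg Fin.val h1
    change (0 + (m + 1)) % (n + 2) = 0 at h2
    rw [zero_add, Nat.mod_eq_of_lt (by omega)] at h2
    omega
  funext s t
  by_cases hs : s ∈ Set.range C
  · obtain ⟨⟨b, m⟩, rfl⟩ := hs
    by_cases hm : m = 0
    · subst hm
      have h1 := congrFun (congrFun hsum (C (b, 0))) t
      unfold sykSum at h1
      rw [Finset.sum_range_succ'] at h1
      rw [Finset.sum_eq_zero] at h1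
      · simpa using h1
      · intro m hm
        rw [sykTau_pow]
        exact hR b _ (hshift m (Finset.mem_range.1 hm)) _
    · exact hR b m hm t
  · by_cases ht : t ∈ Set.range C
    · obtain ⟨⟨b, m⟩, rfl⟩ := ht
      by_cases hm : m = 0
      · subst hm
        have h1 := congrFun (congrFun hsum s) (C (b, 0))
        unfold sykSum at h1
        rw [Finset.sum_range_succ'] at h1
        rw [Finset.sum_eq_zero] at h1
        · simpa using h1
        · intro m hm
          rw [sykTau_pow, sykTau_pow_of_notMem hS.inj hs]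
          exact hO s hs b _ (hshift m (Finset.mem_range.1 hm))
      · exact hO s hs b m hm
    · exact syk_outside hx hS hh hs ht

end perm

theorem symK2 {x : Fan k} (hx : Nondeg x) (hk : 100 ≤ k) {C : Fin 4 × Fin 2 → Lb k} (hC : SymF x 2 4 (-1) C) :
    Module.finrank ℝ (K x) ≤ 8 * k + 4 := by
  have h := syk_general (n := 0) (r := 4) hx hk hC (by norm_num) (by norm_num) (by simp) (by norm_num) (by
    intro m h1 h2
    obtain rfl : m = 1 := by omega
    norm_num)
  omega

theorem symK3 {x : Fan k} (hx : Nondeg x) (hk : 100 ≤ k) {κ : ℂ} (hκ : κ ^ 2 + κ + 1 = 0)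
    {C : Fin 2 × Fin 3 → Lb k} (hC : SymF x 3 2 κ C) : Module.finrank ℝ (K x) ≤ 8 * k + 12 := by
  have h3 : κ ^ 3 = 1 := by
    have : κ ^ 3 - 1 = (κ - 1) * (κ ^ 2 + κ + 1) := by ring
    rw [hκ, mul_zero] at this
    linear_combination this
  have hn : ‖κ‖ = 1 := by
    have h4 : ‖κ‖ ^ 3 = 1 := by rw [← norm_pow, h3, norm_one]
    exact (pow_eq_one_iff_of_nonneg (norm_nonneg κ) (by norm_num)).1 h4
  have h1 : κ ≠ 1 := by
    rintro rfl
    norm_num at hκ
  have h2 : κ ^ 2 ≠ 1 := by
    intro h2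
    apply h1
    have h5 : κ ^ 3 = κ * κ ^ 2 := by ring
    rw [h3, h2, mul_one] at h5
    exact h5.symm
  have h := syk_general (n := 1) (r := 2) hx hk hC (by norm_num) (by norm_num) hn h3 (by
    intro m hm1 hm2
    have : m = 1 ∨ m = 2 := by omega
    rcases this with rfl | rfl
    · rwa [pow_one]
    · exact h2)
  omega

end Pool.Agent.FAN
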