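import Pool.Agent.FAN.X3
import Pool.Agent.FAN.NDG
import Pool.Agent.FAN.KB
import Pool.Agent.FAN.FULL
import Pool.Agent.FAN.EX
import Pool.Agent.FAN.SYK
import Pool.Agent.FAN.PAR0
import Pool.Agent.FAN.PAR1
import Pool.Agent.FAN.PAR2
import Pool.Agent.FAN.PARS

set_option autoImplicit false

namespace Pool.Agent.FAN

open MeasureTheory Topology Filter

variable {k : ℕ}

theorem Rel_eq_of_eqv_sub (x : Fan k) (w : Cf k) (i : Lb k) : Rel (fun s => x s - w) i = Rel x i := by
  unfold Rel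
  congr 1
  ext v
  simp only [Set.mem_ofPred_eq, rel_sub]

theorem finrank_EqR_le {x : Fan k} (hx : Nondeg x) : Module.finrank ℝ (EqR x) ≤ 4 := by
  rw [← finrank_Zs hx]
  exact Submodule.finrank_mono (EqR_le x)

theorem card_compl_ge {U : Finset (Lb k)} (hU : U.card ≤ 40) : k + 5 ≤ Uᶜ.card + 40 := by
  have h := Finset.card_add_card_compl U
  simp only [Fintype.card_fin] at h
  omega

/-- a root of `κ² + κ + 1` -/
noncomputable def om : ℂ := (-1 + (Real.sqrt 3 : ℂ) * Complex.I) / 2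

theorem om_eq : om ^ 2 + om + 1 = 0 := by
  have h3 : ((Real.sqrt 3 : ℝ) : ℂ) ^ 2 = 3 := by
    rw [← Complex.ofReal_pow, Real.sq_sqrt (by norm_num)]; norm_num
  have hI : Complex.I ^ 2 = -1 := Complex.I_sq
  unfold om
  have : ((-1 + (Real.sqrt 3 : ℂ) * Complex.I) / 2) ^ 2 + (-1 + (Real.sqrt 3 : ℂ) * Complex.I) / 2 + 1 =
      (((Real.sqrt 3 : ℝ) : ℂ) ^ 2 * Complex.I ^ 2 + 3) / 4 := by ring
  rw [this, h3, hI]; norm_num

theorem om_cases {κ : ℂ} (h : κ ^ 2 + κ + 1 = 0) : κ = om ∨ κ = -1 - om := by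
  have h1 : (κ - om) * (κ - (-1 - om)) = 0 := by
    have := om_eq
    have e : (κ - om) * (κ - (-1 - om)) = (κ ^ 2 + κ + 1) - (om ^ 2 + om + 1) := by ring
    rw [e, h, this]; ring
  rcases mul_eq_zero.mp h1 with h | h
  · exact Or.inl (sub_eq_zero.mp h)
  · exact Or.inr (sub_eq_zero.mp h)

theorem classification (k : ℕ) (hk : 3000 ≤ k) : ∃ S : Set (Param k), S.Countable ∧
    ∀ x : Fan k, Nondeg x → ∃ τ ∈ S, ∃ y : Fin τ.1 → ℝ, Eqv x (τ.2.1 y) ∧
      τ.1 + Module.finrank ℝ (K x) + 1 ≤ (k + 5) * (k + 4) - 1 := by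
  obtain ⟨S0, hS0, H0⟩ := par0 k
  obtain ⟨S1, hS1, H1⟩ := par1 k
  obtain ⟨S2, hS2, H2⟩ := par2 k
  obtain ⟨S3, hS3, H3⟩ := parS k 2 4 (by norm_num) (by norm_num) (by omega) (-1) (by norm_num)
  have hom0 : om ≠ 0 := by
    intro h
    have := om_eq
    rw [h] at this; norm_num at this
  have hom1 : (-1 - om : ℂ) ≠ 0 := by
    intro h
    have h' : om = -1 := by linear_combination -h
    have := om_eq
    rw [h'] at this; norm_num at this
  obtain ⟨S4, hS4, H4⟩ := parS k 3 2 (by norm_num) (by norm_num) (by omega) om hom0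
  obtain ⟨S5, hS5, H5⟩ := parS k 3 2 (by norm_num) (by norm_num) (by omega) (-1 - om) hom1
  refine ⟨S0 ∪ (S1 ∪ (S2 ∪ (S3 ∪ (S4 ∪ S5)))),
    hS0.union (hS1.union (hS2.union (hS3.union (hS4.union hS5)))), fun x hx => ?_⟩
  have hsq : (k + 5) * (k + 4) = k * k + 9 * k + 20 := by ring
  by_cases hK : K x = ⊥
  · obtain ⟨τ, hτ, y, hy, hM⟩ := H0 x hx
    refine ⟨τ, Or.inl hτ, y, hy, ?_⟩
    rw [hK, finrank_bot]
    omega
  obtain ⟨U, hU⟩ := exists_tame hx
  have hcard := card_compl_ge hU.card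
  have he4 := finrank_EqR_le hx
  obtain ⟨u, huU, j, hsp⟩ := exists_special hx hU (by omega) hK
  have hne : Uᶜ.Nonempty := by
    rw [← Finset.card_pos]; omega
  by_cases hND : ∃ i₁ ∈ Uᶜ, ∃ i₂ ∈ Uᶜ, (x i₁).1 ≠ (x i₂).1
  · -- two different values
    obtain ⟨i₀, hi₀, hmin⟩ := Finset.exists_min_image Uᶜ (fun i => Module.finrank ℝ (Rel x i)) hne
    have hi₀' : i₀ ∉ U := by simpa using hi₀
    obtain ⟨i₁, hi₁, hdiff⟩ : ∃ i₁ ∈ Uᶜ, (x i₀).1 ≠ (x i₁).1 := by
      obtain ⟨i₁, h1, i₂, h2, h12⟩ := hND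
      by_cases h : (x i₀).1 = (x i₁).1
      · exact ⟨i₂, h2, fun h' => h12 (h.symm.trans h')⟩
      · exact ⟨i₁, h1, h⟩
    set d := Module.finrank ℝ (Rel x i₀) with hd
    set e := Module.finrank ℝ (EqR x) with he
    have hde : d ≤ e := Submodule.finrank_mono (Rel_le x i₀)
    have hgap : 2 ≤ d → d + 1 ≤ e := fun h2 => nd_gap hx hdiff h2 (hmin i₁ hi₁)
    have hKb := Kbound hx hU (by omega) hi₀'
    rw [← hd] at hKb
    obtain ⟨τ, hτ, y, hy, hM⟩ := H1 x (Uᶜ.erase j) u (by simp [huU]) (by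
      intro i hi
      have hi' := Finset.mem_erase.mp hi
      have hiU : i ∉ U := by simpa using hi'.2
      obtain ⟨u', hu', h1, t, ht⟩ := hsp i hiU hi'.1
      exact ⟨u', by simp [hu'], h1, t, ht⟩)
    refine ⟨τ, Or.inr (Or.inl hτ), y, hy, ?_⟩
    rw [← he] at hM
    have hc : Uᶜ.card - 1 ≤ (Uᶜ.erase j).card := Finset.pred_card_le_card_erase
    have h3 : k ≤ (Uᶜ.erase j).card + 36 := by omega
    have hd3 : d ≤ 3 := by
      by_contra hcon
      have := hgap (by omega)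
      omega
    interval_cases d
    · omega
    · have : k + 1 ≤ (k + 1) * e := by nlinarith
      omega
    · have h3e := hgap (by norm_num)
      have : (k + 1) * 3 ≤ (k + 1) * e := Nat.mul_le_mul_left _ h3e
      omega
    · have h3e := hgap (by norm_num)
      have : (k + 1) * 4 ≤ (k + 1) * e := Nat.mul_le_mul_left _ h3e
      omega
  · push Not at hND
    obtain ⟨i₀, hi₀⟩ := hne
    have hi₀' : i₀ ∉ U := by simpa using hi₀
    have heq : ∀ i, i ∉ U → (x i).1 = (x i₀).1 := fun i hi => hND i (by simpa using hi) i₀ hi₀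
    set d := Module.finrank ℝ (Rel x i₀) with hd
    set e := Module.finrank ℝ (EqR x) with he
    have hde : d ≤ e := Submodule.finrank_mono (Rel_le x i₀)
    have hKb := Kbound hx hU (by omega) hi₀'
    rw [← hd] at hKb
    obtain ⟨τ, hτ, y, hy, hM⟩ := H2 x Uᶜ i₀ hi₀ (fun i hi => heq i (by simpa using hi))
    rw [← he] at hM
    have hcase : d ≤ 3 ∨ Module.finrank ℝ (K x) ≤ 7 * (k + 5) + 1760 ∨
        (d = 4 ∧ 7 * (k + 5) + 1760 < Module.finrank ℝ (K x)) := by omega
    have h3 : 4 * k ≤ 4 * (Uᶜ.card - 1) + 144 := by omega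
    rcases hcase with hd3 | hK7 | ⟨hd4, hbig⟩
    · refine ⟨τ, Or.inr (Or.inr (Or.inl hτ)), y, hy, ?_⟩
      interval_cases d
      · omega
      · have : (k + 1) * 1 ≤ (k + 1) * e := Nat.mul_le_mul_left _ hde
        omega
      · have : (k + 1) * 2 ≤ (k + 1) * e := Nat.mul_le_mul_left _ hde
        omega
      · have : (k + 1) * 3 ≤ (k + 1) * e := Nat.mul_le_mul_left _ hde
        omega
    · by_cases hd3 : d ≤ 3
      · refine ⟨τ, Or.inr (Or.inr (Or.inl hτ)), y, hy, ?_⟩
        interval_cases d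
        · omega
        · have : (k + 1) * 1 ≤ (k + 1) * e := Nat.mul_le_mul_left _ hde
          omega
        · have : (k + 1) * 2 ≤ (k + 1) * e := Nat.mul_le_mul_left _ hde
          omega
        · have : (k + 1) * 3 ≤ (k + 1) * e := Nat.mul_le_mul_left _ hde
          omega
      · refine ⟨τ, Or.inr (Or.inr (Or.inl hτ)), y, hy, ?_⟩
        have he4' : e = 4 := by omega
        rw [he4'] at hM
        omega
    · -- exact case
      set w : Cf k := ((x i₀).1, 0) with hw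
      set x' : Fan k := fun s => x s - w with hx'
      have hE : Eqv x x' := eqv_sub x w
      have hx'n : Nondeg x' := hE.nondeg hx
      have hKx : K x' = K x := hE.K
      have hZx : Zs x' = Zs x := hE.Zs
      have hU' : Tame x' U := ⟨hU.card, by rw [hZx]; exact hU.short, by rw [hKx]; exact hU.zero⟩
      have hRx : Rel x' i₀ = Rel x i₀ := Rel_eq_of_eqv_sub x w i₀
      have h0 : ∀ i, i ∉ U → (x' i).1 = 0 := by
        intro i hi
        simp only [hx', hw, Prod.fst_sub, heq i hi, sub_self]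
      have h4 : Module.finrank ℝ (Rel x' i₀) = 4 := by rw [hRx, ← hd, hd4]
      have hbig' : 7 * (k + 5) + 1760 < Module.finrank ℝ (K x') := by rw [hKx]; exact hbig
      have hfull := full_of_big hx'n hU' (by omega) h0 hi₀' h4 hbig'
      have hKfin : Module.finrank ℝ (K x') = Module.finrank ℝ (K x) := by rw [hKx]
      rcases exact_sym hx'n hU' (by omega) h0 hi₀' h4 hfull with ⟨C, hC⟩ | ⟨κ, hκ, C, hC⟩
      · obtain ⟨τ', hτ', y', hy', hM'⟩ := H3 x' hx'n C hC
        refine ⟨τ', Or.inr (Or.inr (Or.inr (Or.inl hτ'))), y', hE.trans hy', ?_⟩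
        have hs := symK2 hx'n (by omega) hC
        rw [hKfin] at hs
        have e1 : 4 + (k + 4) - 2 * 4 = k := by omega
        rw [e1] at hM'
        have e2 : (k + 1) * k = k * k + k := by ring
        omega
      · have hs := symK3 hx'n (by omega) hκ hC
        rw [hKfin] at hs
        have e1 : 2 + (k + 4) - 3 * 2 = k := by omega
        have e2 : (k + 1) * k = k * k + k := by ring
        rcases om_cases hκ with rfl | rfl
        · obtain ⟨τ', hτ', y', hy', hM'⟩ := H4 x' hx'n C hC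
          refine ⟨τ', Or.inr (Or.inr (Or.inr (Or.inr (Or.inl hτ')))), y', hE.trans hy', ?_⟩
          rw [e1] at hM'
          omega
        · obtain ⟨τ', hτ', y', hy', hM'⟩ := H5 x' hx'n C hC
          refine ⟨τ', Or.inr (Or.inr (Or.inr (Or.inr (Or.inr hτ')))), y', hE.trans hy', ?_⟩
          rw [e1] at hM'
          omega

end Pool.Agent.FAN
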