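import Pool.Agent.FAN.KR
import Pool.Agent.FAN.KDT
import Pool.Agent.FAN.TOP

set_option autoImplicit false

namespace Pool.Agent.FAN

open MeasureTheory Topology Filter

variable {k : ℕ}

theorem rotc_zero (θ : ℂ) : rotc θ (0 : Cf k) = 0 := by simp [rotc]

theorem rotc_inj {θ : ℂ} (hθ : ‖θ‖ = 1) {c : Cf k} (h : rotc θ c = 0) : c = 0 := by
  have hθ0 : θ ≠ 0 := by
    intro h0; rw [h0] at hθ; simp at hθ
  have h1 : θ • c.1 = 0 := congrArg Prod.fst h
  have h2 : c.2 = 0 := congrArg Prod.snd h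
  exact Prod.ext ((smul_eq_zero.mp h1).resolve_left hθ0) h2

/-- no nontrivial linear combinations -/
theorem no_comb {x : Fan k} (hx : Nondeg x) {θ : ℂ} (hθ : ‖θ‖ = 1) {t j s r : Lb k} (htj : t ≠ j) (hts : t ≠ s)
    (htr : t ≠ r) (c₁ c₂ : ℝ) :
    rotc θ (x t - x j) ≠ c₁ • rotc θ (x s - x j) + c₂ • rotc θ (x r - x j) := by
  classical
  intro h
  have h1 : rotc θ ((x t - x j) - (c₁ • (x s - x j) + c₂ • (x r - x j))) = 0 := by
    rw [rotc_sub, rotc_add, rotc_smul, rotc_smul, h, sub_self]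
  have h2 := rotc_inj hθ h1
  set ρ : Lb k → ℝ := fun a => (if a = t then 1 else 0) - (if a = j then 1 else 0) -
    (c₁ * ((if a = s then 1 else 0) - (if a = j then 1 else 0)) +
      c₂ * ((if a = r then 1 else 0) - (if a = j then 1 else 0))) with hρ
  have hsum : ∀ (V : Type) [AddCommGroup V] [Module ℝ V] (f : Lb k → V),
      ∑ a, ρ a • f a = (f t - f j) - (c₁ • (f s - f j) + c₂ • (f r - f j)) := by
    intro V _ _ f
    simp only [hρ, sub_smul, add_smul, mul_smul, Finset.sum_sub_distrib, Finset.sum_add_distrib, ← Finset.smul_sum,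
      ite_smul, one_smul, zero_smul, Finset.sum_ite_eq', Finset.mem_univ, if_true]
  have e1 : ∑ a, ρ a = 0 := by
    have := hsum ℝ (fun _ => 1)
    simpa using this
  have e2 : ∑ a, ρ a • (x a).1 = 0 := by
    rw [hsum]; exact congrArg Prod.fst h2
  have e3 : ∑ a, ρ a • (x a).2.1 = 0 := by
    rw [hsum]; exact congrArg (fun c : Cf k => c.2.1) h2
  have := congrFun (hx ρ e1 e2 e3) t
  simp [hρ, htj, hts, htr] at this

/-- the set of points such that `i` is the strict bottom on the whole circle orbit is open -/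
theorem isOpen_bottom (x : Fan k) (i : Lb k) :
    IsOpen {p : Sp k | ∀ θ : ℂ, ‖θ‖ = 1 → ∀ s, s ≠ i → cval (x i) (rot θ p) < cval (x s) (rot θ p)} := by
  rw [isOpen_iff_eventually]
  intro p hp
  have hK : IsCompact (Metric.sphere (0 : ℂ) 1) := isCompact_sphere _ _
  have h := hK.eventually_forall_of_forall_eventually (x₀ := p)
    (P := fun (q : Sp k) (θ : ℂ) => ∀ s, s ≠ i → cval (x i) (rot θ q) < cval (x s) (rot θ q)) ?_
  · filter_upwards [h] with q hq θ hθ
    exact hq θ (by simpa using hθ)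
  · intro θ hθ
    have hθ' : ‖θ‖ = 1 := by simpa using hθ
    rw [Filter.eventually_all]
    intro s
    by_cases hs : s = i
    · exact Filter.Eventually.of_forall fun z hz => absurd hs hz
    · have hc : ∀ c : Cf k, Continuous fun z : Sp k × ℂ => cval c (rot z.2 z.1) := fun c =>
        (continuous_cval_right c).comp (continuous_rot.comp (continuous_snd.prodMk continuous_fst))
      have : ∀ᶠ z : Sp k × ℂ in 𝓝 (p, θ), cval (x i) (rot z.2 z.1) < cval (x s) (rot z.2 z.1) :=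
        (hc (x i)).continuousAt.eventually_lt (hc (x s)).continuousAt (hp θ hθ' s hs)
      filter_upwards [this] with z hz _
      exact hz

theorem column_relation {x : Fan k} (hx : Nondeg x) {u j l i : Lb k} (huj : u ≠ j) (hul : u ≠ l) (hjl : j ≠ l)
    (hui : u ≠ i) (hji : j ≠ i) (hli : l ≠ i)
    (hI : cdet ((x u).1 - (x j).1) ((x l).1 - (x j).1) ≠ 0)
    (hbot : ∃ e : Sp k, e.1 = 0 ∧ (∀ s, s ≠ i → clin (x s - x j) e = 0) ∧ clin (x i - x j) e = -1)
    (htame : ∀ (θ : ℂ) (s s' : Lb k) (α : ℝ), ‖θ‖ = 1 → θ ≠ 1 → s ≠ s' → α ≠ 0 →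
      rotc θ (x s - x s') = α • (x u - x j) → (s' = j ∧ α = 1) ∨ (s = j ∧ α = -1)) :
    ∃ ε : Lb k → ℝ, ε u = 1 ∧
      (∀ s, s ≠ u → ε s ≠ 0 → ∃ θ : ℂ, ‖θ‖ = 1 ∧ θ ≠ 1 ∧ rotc θ (x s - x j) = x u - x j ∧
        ∃ (l' : Lb k) (β₁ β₂ : ℝ), l' ≠ s ∧ l' ≠ j ∧ β₂ ≠ 0 ∧
          rotc θ (x l' - x j) = β₁ • (x u - x j) + β₂ • (x l - x j) ∧ ε s = Real.sign β₂) ∧
      ∀ h ∈ K x, ∑ s, ε s * (h s i - h j i) = 0 := by
  classical
  obtain ⟨e, he1, he2, he3⟩ := hbot
  obtain ⟨p₁, hp₁, hp₁a, hp₁b⟩ := exists_mem_Otop hx (u := u) (i := j) (l := l) (j := i) hui.symm hji.symm hli.symm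
  -- move far along `e`
  obtain ⟨B, hB⟩ : ∃ B : ℝ, ∀ θ : ℂ, ‖θ‖ = 1 → ∀ s, |cval (x s - x j) (rot θ p₁)| ≤ B := by
    have hK : IsCompact (Metric.sphere (0 : ℂ) 1) := isCompact_sphere _ _
    have h1 : ∀ s, ∃ B : ℝ, ∀ θ : ℂ, ‖θ‖ = 1 → |cval (x s - x j) (rot θ p₁)| ≤ B := by
      intro s
      obtain ⟨B, hB⟩ := hK.exists_bound_of_continuousOn (f := fun θ : ℂ => cval (x s - x j) (rot θ p₁))
        ((continuous_cval_right _).comp (continuous_rot.comp (continuous_id.prodMk continuous_const))).continuousOn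
      exact ⟨B, fun θ hθ => hB θ (by simpa using hθ)⟩
    choose Bs hBs using h1
    refine ⟨∑ s, |Bs s|, fun θ hθ s => (hBs s θ hθ).trans ((le_abs_self _).trans ?_)⟩
    exact Finset.single_le_sum (f := fun s => |Bs s|) (fun s _ => abs_nonneg _) (Finset.mem_univ s)
  set Λ : ℝ := 2 * |B| + 1 with hΛ
  set p₀ : Sp k := p₁ + Λ • e with hp₀
  have hrot : ∀ θ : ℂ, rot θ p₀ = rot θ p₁ + Λ • e := by
    intro θ
    simp only [hp₀, rot, Prod.ext_iff, Prod.fst_add, Prod.snd_add, Prod.smul_fst, Prod.smul_snd, he1, smul_zero,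
      add_zero, and_self]
  have hval : ∀ (θ : ℂ) (s : Lb k), s ≠ i → cval (x s - x j) (rot θ p₀) = cval (x s - x j) (rot θ p₁) := by
    intro θ s hs
    rw [hrot, cval_add_point, clin_smul_right, he2 s hs]; ring
  have hvali : ∀ (θ : ℂ), cval (x i - x j) (rot θ p₀) = cval (x i - x j) (rot θ p₁) - Λ := by
    intro θ
    rw [hrot, cval_add_point, clin_smul_right, he3]; ring
  have hp₀O : p₀ ∈ Otop x u j l i ∩
      {p : Sp k | ∀ θ : ℂ, ‖θ‖ = 1 → ∀ s, s ≠ i → cval (x i) (rot θ p) < cval (x s) (rot θ p)} := by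
    have hbt : ∀ θ : ℂ, ‖θ‖ = 1 → ∀ s, s ≠ i → cval (x i) (rot θ p₀) < cval (x s) (rot θ p₀) := by
      intro θ hθ s hs
      have h1 := hval θ s hs
      have h2 := hvali θ
      have h3 := abs_le.mp (hB θ hθ s)
      have h4 := abs_le.mp (hB θ hθ i)
      have h5 : B ≤ |B| := le_abs_self B
      rw [cval_sub] at h1 h2 h3 h4
      simp only [cval_sub] at h1 h2 h3 h4
      linarith
    refine ⟨⟨?_, ?_⟩, hbt⟩
    · intro s h1 h2 h3
      by_cases hsi : s = i
      · have := hbt 1 (by simp) j hji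
        rw [hsi]; simpa using this
      · have h4 := hval 1 s hsi
        have h5 := hp₁.1 s h1 h2 h3
        simp only [rot_one, cval_sub] at h4
        linarith
    · intro s hs
      simpa using hbt 1 (by simp) s hs
  have hF1 : cval (x u - x j) p₀ = 0 := by
    have := hval 1 u hui
    simp only [rot_one] at this
    rw [this, hp₁a]
  have hF2 : cval (x l - x j) p₀ = 0 := by
    have := hval 1 l hli
    simp only [rot_one] at this
    rw [this, hp₁b]
  obtain ⟨w, ν, hd⟩ := exists_dirs hx huj hul hjl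
  obtain ⟨p, hp, hp1, hp2, hG, Θ, hΘ, hΘ', hsum⟩ :=
    kink_relation hx huj hul hjl hI hd ((isOpen_Otop x u j l i).inter (isOpen_bottom x i)) hp₀O hF1 hF2
  obtain ⟨hpO, hpb⟩ := hp
  have hju : (x u).1 ≠ (x j).1 := by
    intro h0; apply hI; rw [h0]; simp [cdet]
  -- uniqueness of the angle
  have huniq : ∀ (θ θ' : ℂ) (s : Lb k), rotc θ (x s - x j) = x u - x j → rotc θ' (x s - x j) = x u - x j → θ = θ' := by
    intro θ θ' s h1 h2
    have e1 : θ • ((x s).1 - (x j).1) = (x u).1 - (x j).1 := congrArg Prod.fst h1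
    have e2 : θ' • ((x s).1 - (x j).1) = (x u).1 - (x j).1 := congrArg Prod.fst h2
    have h0 : (x s).1 - (x j).1 ≠ 0 := by
      intro h0; rw [h0, smul_zero] at e1; exact hju (sub_eq_zero.mp e1.symm)
    have e3 : (θ - θ') • ((x s).1 - (x j).1) = 0 := by rw [sub_smul, e1, e2, sub_self]
    exact sub_eq_zero.mp ((smul_eq_zero.mp e3).resolve_right h0)
  -- the contribution of `θ = 1`
  have hone : ∀ h, kD x h 1 p w ν = h u i - h j i := by
    intro h
    have e1 : cval (x u) p = cval (x j) p := by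
      rw [cval_sub] at hp1; linarith
    have e2 : cval (x l) p = cval (x j) p := by
      rw [cval_sub] at hp2; linarith
    have := kD_triple hx huj hul hjl hd (p := p) (θ := 1) (by simp) (s₁ := u) (s₂ := j) (s₃ := l) (b := i)
      huj hul hjl hui.symm hji.symm hli.symm (by simpa using e1) (by simpa using e2)
      (by
        intro s hs1 hs2 hs3
        simpa using hpO.1 s hs1 hs2 hs3)
      (by
        intro s hs1
        simpa using hpO.2 s hs1)
      (by simp) (β₁ := 0) (β₂ := 1) one_ne_zero (by simp) h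
    rw [this]; simp
  have h1Θ : (1 : ℂ) ∈ Θ := by
    by_contra hcon
    have h0 : kD x (fun a b => if a = u ∧ b = i then 1 else 0) 1 p w ν = 0 := by
      unfold kD
      refine Finset.sum_eq_zero fun i' _ => Finset.sum_eq_zero fun j' _ => ?_
      by_cases hij' : i' = j'
      · rw [if_pos hij']
      · rw [if_neg hij', hΘ' 1 (by simp) hcon i' j' hij', mul_zero]
    rw [hone] at h0
    simp [huj.symm] at h0
  -- the contribution of the other angles
  have key : ∀ θ ∈ Θ, ∃ (s : Lb k) (c : ℝ), s ≠ j ∧ (∀ h, kD x h θ p w ν = c * (h s i - h j i)) ∧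
      (c ≠ 0 → rotc θ (x s - x j) = x u - x j ∧ (θ ≠ 1 → ∃ (l' : Lb k) (β₁ β₂ : ℝ), l' ≠ s ∧ l' ≠ j ∧ β₂ ≠ 0 ∧
          rotc θ (x l' - x j) = β₁ • (x u - x j) + β₂ • (x l - x j) ∧ c = Real.sign β₂)) := by
    intro θ hθΘ
    have hθ := hΘ θ hθΘ
    by_cases hθ1 : θ = 1
    · subst hθ1
      exact ⟨u, 1, huj, fun h => by rw [hone]; ring, fun _ => ⟨by simp, fun h => absurd rfl h⟩⟩
    by_cases hall : ∀ i' j', i' ≠ j' → wt x i' j' θ p w ν = 0
    · refine ⟨u, 0, huj, fun h => ?_, fun h => absurd rfl h⟩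
      unfold kD
      rw [zero_mul]
      refine Finset.sum_eq_zero fun i' _ => Finset.sum_eq_zero fun j' _ => ?_
      split_ifs with hij'
      · rfl
      · rw [hall i' j' hij', mul_zero]
    push Not at hall
    obtain ⟨i', j', hij', hwne⟩ := hall
    obtain ⟨hcell, c, hc, d, hdd, hcd, hc0, hd0, hspan, α, hα, hr⟩ := wt_support hx hd hG hθ hij' hwne
    have hstrict : ∀ s, s ≠ i → cval (x i) (rot θ p) < cval (x s) (rot θ p) := fun s hs => hpb θ hθ s hs
    have hj'i : j' = i := by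
      by_contra hne
      exact absurd (hcell i).2 (not_le.mpr (hstrict j' hne))
    subst hj'i
    have hc' := mem_Cons.mp hc
    have hd' := mem_Cons.mp hdd
    rw [cval_sub] at hc0 hd0
    have hc1 : c.1 = i' := by
      refine hc'.2.resolve_right fun h2 => ?_
      have := hstrict c.1 (fun h1 => hc'.1 (h1.trans h2.symm))
      rw [h2] at hc0; linarith
    have hd1 : d.1 = i' := by
      refine hd'.2.resolve_right fun h2 => ?_
      have := hstrict d.1 (fun h1 => hd'.1 (h1.trans h2.symm))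
      rw [h2] at hd0; linarith
    have hd2c2 : d.2 ≠ c.2 := fun h => hcd (Prod.ext (hc1.trans hd1.symm) h.symm)
    have hsubr : ∀ s t r : Lb k, rotc θ (x s - x t) = rotc θ (x s - x r) - rotc θ (x t - x r) := by
      intro s t r
      rw [← rotc_sub]; congr 1; abel
    obtain ⟨a, b, hab⟩ := Submodule.mem_span_pair.mp hspan
    -- uniform description
    obtain ⟨s, hsj, hrs, htop, hl's, hl'j, hl'0, β₁, β₂, hβ⟩ : ∃ s, s ≠ j ∧ rotc θ (x s - x j) = x u - x j ∧
        (i' = s ∨ i' = j) ∧ d.2 ≠ s ∧ d.2 ≠ j ∧ cval (x s) (rot θ p) = cval (x j) (rot θ p) ∧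
        ∃ β₁ β₂ : ℝ, rotc θ (x d.2 - x j) = β₁ • (x u - x j) + β₂ • (x l - x j) := by
      rcases htame θ c.1 c.2 α hθ hθ1 hc'.1 hα hr with ⟨h2, hα1⟩ | ⟨h1, hα1⟩
      · rw [hα1, one_smul, h2] at hr
        refine ⟨c.1, ?_, hr, Or.inl hc1.symm, ?_, ?_, ?_, 1 - a, -b, ?_⟩
        · rw [← h2]; exact hc'.1
        · rw [hc1, ← hd1]; exact hd'.1.symm
        · rw [← h2]; exact hd2c2
        · rw [h2] at hc0; linarith
        · have e1 := hsubr d.1 d.2 j
          rw [hd1, ← hc1, hr] at e1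
          rw [hd1, ← hc1] at hab
          have e2 : rotc θ (x d.2 - x j) = (x u - x j) - rotc θ (x c.1 - x d.2) := by rw [e1]; abel
          rw [e2, ← hab, sub_smul, one_smul, neg_smul]; abel
      · rw [hα1, h1] at hr
        have hr2 : rotc θ (x c.2 - x j) = x u - x j := by
          have e0 := hsubr j c.2 j
          rw [sub_self, rotc_zero, hr] at e0
          have e0' : rotc θ (x c.2 - x j) = - ((-1 : ℝ) • (x u - x j)) := by rw [e0]; abel
          rw [e0', neg_smul, one_smul, neg_neg]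
        refine ⟨c.2, ?_, hr2, Or.inr (hc1.symm.trans h1), hd2c2, ?_, ?_, -a, -b, ?_⟩
        · rw [← h1]; exact hc'.1.symm
        · rw [← h1, hc1, ← hd1]; exact hd'.1.symm
        · rw [h1] at hc0; linarith
        · have e1 := hsubr j d.2 j
          rw [sub_self, rotc_zero] at e1
          rw [hd1, ← hc1, h1] at hab
          have e2 : rotc θ (x d.2 - x j) = - rotc θ (x j - x d.2) := by rw [e1]; abel
          rw [e2, ← hab, neg_smul, neg_smul]; abel
    have hβ2 : β₂ ≠ 0 := by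
      intro h0
      apply no_comb hx hθ hl'j hl's hl's β₁ 0
      rw [hβ, h0, hrs, zero_smul, zero_smul]
    -- all three on top
    have htopval : cval (x i') (rot θ p) = cval (x j) (rot θ p) := by
      rcases htop with h | h
      · rw [h]; exact hl'0
      · rw [h]
    have hd2val : cval (x d.2) (rot θ p) = cval (x j) (rot θ p) := by
      rw [hd1] at hd0; linarith
    have hlow : ∀ t, t ≠ s → t ≠ j → t ≠ d.2 → cval (x t) (rot θ p) < cval (x j) (rot θ p) := by
      intro t h1 h2 h3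
      refine lt_of_le_of_ne ?_ fun heq => ?_
      · rw [← htopval]; exact (hcell t).1
      · obtain ⟨hm, -⟩ := hG.pencil t j s j h2 hsj (fun h => h1 h.1) (fun h => h2 h.1) θ hθ
          (by rw [cval_sub, heq, sub_self]) (by rw [cval_sub, hl'0, sub_self])
        obtain ⟨γ₁, γ₂, hγ⟩ := Submodule.mem_span_pair.mp hm
        apply no_comb hx hθ h2 h1 h3 (γ₁ - γ₂ * β₁ / β₂) (γ₂ / β₂)
        rw [← hγ, hβ, hrs, smul_add, smul_smul, smul_smul, sub_smul]
        have e1 : γ₂ / β₂ * β₂ = γ₂ := by field_simp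
        have e2 : γ₂ / β₂ * β₁ = γ₂ * β₁ / β₂ := by ring
        rw [e1, e2]; abel
    refine ⟨s, Real.sign β₂, hsj, fun h => ?_, fun _ => ⟨hrs, fun _ => ⟨d.2, β₁, β₂, hl's, hl'j, hβ2, hβ, rfl⟩⟩⟩
    have hij : j' ≠ j := hji.symm
    have his : j' ≠ s := by
      intro h0
      have := hstrict j hji
      rw [h0, hl'0] at this
      exact lt_irrefl _ this
    have hid : j' ≠ d.2 := by
      intro h0
      have := hstrict j hji
      rw [h0, hd2val] at this
      exact lt_irrefl _ this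
    exact kD_triple hx huj hul hjl hd hθ (s₁ := s) (s₂ := j) (s₃ := d.2) (b := j') hsj hl's.symm hl'j.symm his hij hid
      hl'0 hd2val (fun t h1 h2 h3 => hlow t h1 h2 h3) hstrict hrs hβ2 hβ h
  -- assemble
  choose! S c hSj hkD hprop using key
  refine ⟨fun s => ∑ θ ∈ Θ with S θ = s, c θ, ?_, ?_, ?_⟩
  · -- value at `u`
    have hS1 : S 1 = u ∧ c 1 = 1 := by
      have h0 := hkD 1 h1Θ (fun a b => if a = u ∧ b = i then 1 else 0)
      rw [hone] at h0
      by_cases hSu : S 1 = u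
      · refine ⟨hSu, ?_⟩
        simp [hSu, huj.symm] at h0
        linarith
      · simp [hSu, huj.symm] at h0
    simp only
    rw [Finset.sum_eq_single_of_mem (1 : ℂ) (by simp [h1Θ, hS1.1]), hS1.2]
    intro θ hθ hne
    obtain ⟨hθΘ, hSθ⟩ := Finset.mem_filter.mp hθ
    by_contra hcθ
    have h1 := (hprop θ hθΘ hcθ).1
    rw [hSθ] at h1
    exact hne (huniq θ 1 u h1 (by simp))
  · intro s hsu hεs
    obtain ⟨θ, hθ, hcθ⟩ := Finset.exists_ne_zero_of_sum_ne_zero hεs
    obtain ⟨hθΘ, hSθ⟩ := Finset.mem_filter.mp hθ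
    obtain ⟨h1, h2⟩ := hprop θ hθΘ hcθ
    rw [hSθ] at h1 h2
    have hθ1 : θ ≠ 1 := by
      rintro rfl
      rw [rotc_one] at h1
      have h3 : x s = x u := sub_left_injective h1
      exact hsu (hx.inj (by rw [h3]) (by rw [h3]))
    obtain ⟨l', β₁, β₂, ha, hb, hc, hd', he⟩ := h2 hθ1
    refine ⟨θ, hΘ θ hθΘ, hθ1, h1, l', β₁, β₂, ha, hb, hc, hd', ?_⟩
    rw [← he]
    simp only
    refine Finset.sum_eq_single_of_mem θ hθ fun θ' hθ' hne => ?_
    obtain ⟨hθ'Θ, hSθ'⟩ := Finset.mem_filter.mp hθ'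
    by_contra hcθ'
    have h1' := (hprop θ' hθ'Θ hcθ').1
    rw [hSθ'] at h1'
    exact hne (huniq θ' θ s h1' h1)
  · intro h hh
    have h0 := hsum h hh
    rw [Finset.sum_congr rfl fun θ hθ => hkD θ hθ h] at h0
    rw [← h0, ← Finset.sum_fiberwise Θ S (fun θ => c θ * (h (S θ) i - h j i))]
    refine Finset.sum_congr rfl fun s _ => ?_
    rw [Finset.sum_mul]
    refine Finset.sum_congr rfl fun θ hθ => ?_
    rw [(Finset.mem_filter.mp hθ).2]

end Pool.Agent.FAN
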