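import Mathlib

/-!
# Definitions for the fan equipartition problem (MP_0ba608_co)

The space is `Sp k = ℂ² × ℝᵏ` (real dimension `k + 4`), the labels are `Lb k = Fin (k + 5)`, a fan is a family of
`k + 5` affine functions `cval (x s)`, and the cell `(i, j)` is the set where `i` is the top and `j` the bottom
label.  The unit circle acts by scalars on `ℂ²` and trivially on `ℝᵏ`.
-/

set_option autoImplicit false

namespace Pool.Agent.FAN

open MeasureTheory

/-- labels -/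
abbrev Lb (k : ℕ) := Fin (k + 5)

/-- the space `ℂ² × ℝᵏ` -/
abbrev Sp (k : ℕ) := (ℂ × ℂ) × (Fin k → ℝ)

/-- coefficients `((α, β), (λ, c))` of the affine function `Re (α z₁ + β z₂) + λ · y + c` -/
abbrev Cf (k : ℕ) := (ℂ × ℂ) × ((Fin k → ℝ) × ℝ)

/-- fans -/
abbrev Fan (k : ℕ) := Lb k → Cf k

/-- complex bilinear pairing -/
def zt (a z : ℂ × ℂ) : ℂ := a.1 * z.1 + a.2 * z.2

/-- affine part -/
def et {k : ℕ} (e : (Fin k → ℝ) × ℝ) (y : Fin k → ℝ) : ℝ := (∑ l, e.1 l * y l) + e.2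

/-- value of the affine function with coefficients `c` at `p` -/
def cval {k : ℕ} (c : Cf k) (p : Sp k) : ℝ := (zt c.1 p.1).re + et c.2 p.2

/-- linear part of the affine function with coefficients `c` -/
def clin {k : ℕ} (c : Cf k) (v : Sp k) : ℝ := (zt c.1 v.1).re + ∑ l, c.2.1 l * v.2 l

/-- rotation of points -/
def rot {k : ℕ} (θ : ℂ) (p : Sp k) : Sp k := (θ • p.1, p.2)

/-- rotation of coefficients -/
def rotc {k : ℕ} (θ : ℂ) (c : Cf k) : Cf k := (θ • c.1, c.2)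

/-- the closed cell: `i` is a top label and `j` is a bottom label -/
def cell {k : ℕ} (x : Fan k) (i j : Lb k) : Set (Sp k) :=
  {p | ∀ s, cval (x s) p ≤ cval (x i) p ∧ cval (x j) p ≤ cval (x s) p}

/-- nondegenerate fans: the linear parts are affinely independent -/
def Nondeg {k : ℕ} (x : Fan k) : Prop :=
  ∀ ρ : Lb k → ℝ, ∑ s, ρ s = 0 → ∑ s, ρ s • (x s).1 = 0 → ∑ s, ρ s • (x s).2.1 = 0 → ρ = 0

/-- points whose circle orbit is not contained in a wall -/
def Good {k : ℕ} (x : Fan k) (p : Sp k) : Prop :=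
  ∀ s s', s ≠ s' → zt ((x s).1 - (x s').1) p.1 ≠ 0 ∨ et ((x s).2 - (x s').2) p.2 ≠ 0

/-- the function `h (top, bottom)` -/
noncomputable def Hf {k : ℕ} (x : Fan k) (h : Lb k → Lb k → ℝ) (q : Sp k) : ℝ :=
  ∑ i, ∑ j, h i j * (cell x i j).indicator (fun _ => (1 : ℝ)) q

/-- `e^{iφ}` -/
noncomputable def ang (φ : ℝ) : ℂ := Complex.exp (φ * Complex.I)

/-- circle average (times `2π`) of `h (top, bottom)` -/
noncomputable def avg {k : ℕ} (x : Fan k) (h : Lb k → Lb k → ℝ) (p : Sp k) : ℝ :=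
  ∫ φ in (0 : ℝ)..(2 * Real.pi), Hf x h (rot (ang φ) p)

theorem Hf_add {k : ℕ} (x : Fan k) (h h' : Lb k → Lb k → ℝ) (q : Sp k) :
    Hf x (h + h') q = Hf x h q + Hf x h' q := by
  simp only [Hf, Pi.add_apply, add_mul, Finset.sum_add_distrib]

theorem Hf_smul {k : ℕ} (x : Fan k) (r : ℝ) (h : Lb k → Lb k → ℝ) (q : Sp k) :
    Hf x (r • h) q = r * Hf x h q := by
  simp only [Hf, Pi.smul_apply, smul_eq_mul, Finset.mul_sum, mul_assoc]

end Pool.Agent.FAN
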