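import Pool.Agent.FAN.NUB

set_option autoImplicit false

namespace Pool.Agent.FAN

open MeasureTheory Topology Filter

variable {k : ℕ}

theorem Eqv.refl (x : Fan k) : Eqv x x :=
  ⟨1, norm_one, 1, one_pos, 0, fun s => by rw [rotc_one, one_smul, add_zero]⟩

theorem Eqv.trans {x y z : Fan k} (h : Eqv x y) (h' : Eqv y z) : Eqv x z := by
  obtain ⟨θ, hθ, r, hr, w, hw⟩ := h
  obtain ⟨θ', hθ', r', hr', w', hw'⟩ := h'
  refine ⟨θ' * θ, by rw [norm_mul, hθ, hθ', one_mul], r' * r, mul_pos hr' hr,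
    r' • rotc θ' w + w', fun s => ?_⟩
  rw [hw', hw, rotc_add, rotc_smul, rotc_rotc, smul_add, smul_smul, add_assoc]

namespace EQVaux

theorem ne_zero_of_norm {θ : ℂ} (hθ : ‖θ‖ = 1) : θ ≠ 0 := by
  rintro rfl
  simp at hθ

theorem cval_y {x y : Fan k} {θ : ℂ} {r : ℝ} {w : Cf k} (hw : ∀ s, y s = r • rotc θ (x s) + w)
    (s : Lb k) (p : Sp k) : cval (y s) p = r * cval (x s) (rot θ p) + cval w p := by
  rw [hw, cval_add, cval_smul, cval_rot]

theorem mem_cell {x y : Fan k} {θ : ℂ} {r : ℝ} (hr : 0 < r) {w : Cf k}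
    (hw : ∀ s, y s = r • rotc θ (x s) + w) (i j : Lb k) (p : Sp k) :
    p ∈ cell y i j ↔ rot θ p ∈ cell x i j := by
  have h1 : ∀ s s', (cval (y s) p ≤ cval (y s') p ↔ cval (x s) (rot θ p) ≤ cval (x s') (rot θ p)) := by
    intro s s'
    rw [cval_y hw, cval_y hw]
    constructor
    · intro h
      have : r * cval (x s) (rot θ p) ≤ r * cval (x s') (rot θ p) := by linarith
      exact le_of_mul_le_mul_left this hr
    · intro h
      have := mul_le_mul_of_nonneg_left h hr.le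
      linarith
  simp only [cell, Set.mem_setOf_eq, h1]

theorem Hf_y {x y : Fan k} {θ : ℂ} {r : ℝ} (hr : 0 < r) {w : Cf k}
    (hw : ∀ s, y s = r • rotc θ (x s) + w) (h : Lb k → Lb k → ℝ) (p : Sp k) :
    Hf y h p = Hf x h (rot θ p) := by
  unfold Hf
  refine Finset.sum_congr rfl fun i _ => Finset.sum_congr rfl fun j _ => ?_
  congr 1
  by_cases hp : p ∈ cell y i j
  · rw [Set.indicator_of_mem hp, Set.indicator_of_mem ((mem_cell hr hw i j p).1 hp)]
  · rw [Set.indicator_of_notMem hp,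
      Set.indicator_of_notMem (fun hq => hp ((mem_cell hr hw i j p).2 hq))]

theorem good_y {x y : Fan k} {θ : ℂ} (hθ : ‖θ‖ = 1) {r : ℝ} (hr : 0 < r) {w : Cf k}
    (hw : ∀ s, y s = r • rotc θ (x s) + w) (p : Sp k) : Good y p ↔ Good x p := by
  have hθ0 := ne_zero_of_norm hθ
  have h1 : ∀ s s', zt ((y s).1 - (y s').1) p.1 = (r : ℂ) * (θ * zt ((x s).1 - (x s').1) p.1) := by
    intro s s'
    rw [hw, hw]
    simp only [rotc, Prod.fst_add, Prod.smul_fst, zt_sub_left, zt_add_left, zt_rsmul_left,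
      zt_smul_left]
    ring
  have h2 : ∀ s s', et ((y s).2 - (y s').2) p.2 = r * et ((x s).2 - (x s').2) p.2 := by
    intro s s'
    rw [hw, hw]
    simp only [rotc, Prod.snd_add, Prod.smul_snd, et_sub_left, et_add_left, et_smul_left]
    ring
  have hr0 : (r : ℂ) ≠ 0 := by exact_mod_cast hr.ne'
  have h3 : ∀ s s', (zt ((y s).1 - (y s').1) p.1 ≠ 0 ∨ et ((y s).2 - (y s').2) p.2 ≠ 0) ↔
      (zt ((x s).1 - (x s').1) p.1 ≠ 0 ∨ et ((x s).2 - (x s').2) p.2 ≠ 0) := by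
    intro s s'
    rw [h1, h2, mul_ne_zero_iff, mul_ne_zero_iff, mul_ne_zero_iff]
    simp [hr0, hθ0, hr.ne']
  unfold Good
  simp only [h3]

theorem avg_y {x y : Fan k} {θ : ℂ} (hθ : ‖θ‖ = 1) {r : ℝ} (hr : 0 < r) {w : Cf k}
    (hw : ∀ s, y s = r • rotc θ (x s) + w) (h : Lb k → Lb k → ℝ) (p : Sp k) :
    avg y h p = avg x h p := by
  have harg : θ = ang (Complex.arg θ) := by
    have := Complex.norm_mul_exp_arg_mul_I θ
    rw [hθ, Complex.ofReal_one, one_mul] at this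
    exact this.symm
  unfold avg
  have h1 : ∀ φ : ℝ, Hf y h (rot (ang φ) p) = Hf x h (rot (ang (φ + Complex.arg θ)) p) := by
    intro φ
    rw [Hf_y hr hw, rot_rot, ang_add, ← harg, mul_comm]
  simp only [h1]
  rw [intervalIntegral.integral_comp_add_right (fun φ => Hf x h (rot (ang φ) p))]
  have hper : Function.Periodic (fun φ : ℝ => Hf x h (rot (ang φ) p)) (2 * Real.pi) := by
    intro φ
    simp only
    rw [ang_add, ang_two_pi, mul_one]
  have h2 := hper.intervalIntegral_add_eq (Complex.arg θ) 0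
  rw [zero_add] at h2
  rw [zero_add, add_comm (2 * Real.pi)]
  exact h2

theorem sum_smul_y1 {x y : Fan k} {θ : ℂ} {r : ℝ} {w : Cf k}
    (hw : ∀ s, y s = r • rotc θ (x s) + w) {ρ : Lb k → ℝ} (h0 : ∑ s, ρ s = 0) :
    ∑ s, ρ s • (y s).1 = r • θ • ∑ s, ρ s • (x s).1 := by
  have h1 : ∀ s, ρ s • (y s).1 = r • θ • (ρ s • (x s).1) + ρ s • w.1 := by
    intro s
    rw [hw]
    simp only [rotc, Prod.fst_add, Prod.smul_fst, smul_add]
    rw [smul_comm θ (ρ s), smul_comm r (ρ s)]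
  rw [Finset.sum_congr rfl fun s _ => h1 s, Finset.sum_add_distrib, ← Finset.sum_smul, h0, zero_smul,
    add_zero, Finset.smul_sum, Finset.smul_sum]

theorem sum_smul_y2 {x y : Fan k} {θ : ℂ} {r : ℝ} {w : Cf k}
    (hw : ∀ s, y s = r • rotc θ (x s) + w) {ρ : Lb k → ℝ} (h0 : ∑ s, ρ s = 0) :
    ∑ s, ρ s • (y s).2.1 = r • ∑ s, ρ s • (x s).2.1 := by
  have h1 : ∀ s, ρ s • (y s).2.1 = r • (ρ s • (x s).2.1) + ρ s • w.2.1 := by
    intro s
    rw [hw]
    simp only [rotc, Prod.snd_add, Prod.smul_snd, Prod.fst_add, Prod.smul_fst, smul_add]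
    rw [smul_comm r (ρ s)]
  rw [Finset.sum_congr rfl fun s _ => h1 s, Finset.sum_add_distrib, ← Finset.sum_smul, h0, zero_smul,
    add_zero, Finset.smul_sum]

end EQVaux

open EQVaux

theorem Eqv.nondeg {x y : Fan k} (h : Eqv x y) (hx : Nondeg x) : Nondeg y := by
  obtain ⟨θ, hθ, r, hr, w, hw⟩ := h
  have hθ0 := ne_zero_of_norm hθ
  intro ρ h0 h1 h2
  refine hx ρ h0 ?_ ?_
  · rw [sum_smul_y1 hw h0] at h1
    exact (smul_eq_zero.1 ((smul_eq_zero.1 h1).resolve_left hr.ne')).resolve_left hθ0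
  · rw [sum_smul_y2 hw h0] at h2
    exact (smul_eq_zero.1 h2).resolve_left hr.ne'

theorem Eqv.nu_cell {x y : Fan k} (h : Eqv x y) (s : ℕ) (i j : Lb k) :
    nu k s (cell y i j) = nu k s (cell x i j) := by
  obtain ⟨θ, hθ, r, hr, w, hw⟩ := h
  have h1 : cell y i j = rot θ ⁻¹' (cell x i j) := by
    ext p
    exact mem_cell hr hw i j p
  rw [h1, nu_rot k s hθ (measurableSet_cell x i j)]

theorem Eqv.gv {x y : Fan k} (h : Eqv x y) (s : ℕ) : gv k s y = gv k s x := by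
  funext i j
  simp only [FAN.gv, h.nu_cell]

theorem Eqv.K {x y : Fan k} (h : Eqv x y) : FAN.K y = FAN.K x := by
  obtain ⟨θ, hθ, r, hr, w, hw⟩ := h
  ext h
  rw [mem_K, mem_K]
  simp only [good_y hθ hr hw, avg_y hθ hr hw]

theorem Eqv.Zs {x y : Fan k} (h : Eqv x y) : FAN.Zs y = FAN.Zs x := by
  obtain ⟨θ, hθ, r, hr, w, hw⟩ := h
  ext ρ
  rw [mem_Zs, mem_Zs]
  refine and_congr_right fun h0 => ?_
  rw [sum_smul_y2 hw h0, smul_eq_zero]
  simp [hr.ne']

theorem eqv_sub (x : Fan k) (w : Cf k) : Eqv x (fun s => x s - w) :=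
  ⟨1, norm_one, 1, one_pos, -w, fun s => by
    show x s - w = _
    rw [rotc_one, one_smul, sub_eq_add_neg]⟩

theorem rel_sub (x : Fan k) (w : Cf k) (i s s' : Lb k) : rel (fun s => x s - w) i s s' ↔ rel x i s s' := by
  unfold rel
  simp only [Prod.snd_sub, Prod.fst_sub, sub_sub_sub_cancel_right, sub_left_inj]

end Pool.Agent.FAN
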