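import Pool.Agent.FAN.KDefs

set_option autoImplicit false

namespace Pool.Agent.FAN

open MeasureTheory Topology Filter

variable {k : ℕ}

/-- coefficients of a linear form -/
noncomputable def finCoef (ℓ : Sp k →ₗ[ℝ] ℝ) (c : ℝ) : Cf k :=
  ((⟨ℓ ((1, 0), 0), -ℓ ((Complex.I, 0), 0)⟩, ⟨ℓ ((0, 1), 0), -ℓ ((0, Complex.I), 0)⟩),
    (fun l => ℓ ((0, 0), Pi.single l 1), c))

theorem finCoef_clin (ℓ : Sp k →ₗ[ℝ] ℝ) (c : ℝ) (v : Sp k) : clin (finCoef ℓ c) v = ℓ v := by
  classical
  obtain ⟨⟨z, w⟩, y⟩ := v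
  have hdec : (((z, w), y) : Sp k) = z.re • (((1, 0), 0) : Sp k) + z.im • (((Complex.I, 0), 0) : Sp k)
      + (w.re • (((0, 1), 0) : Sp k) + w.im • (((0, Complex.I), 0) : Sp k))
      + ∑ l, y l • (((0, 0), Pi.single l 1) : Sp k) := by
    have hsum : ∑ l, y l • (((0, 0), Pi.single l 1) : Sp k) = (((0 : ℂ), (0 : ℂ)), y) := by
      refine Prod.ext ?_ ?_
      · rw [Prod.fst_sum]
        simp only [Prod.smul_mk, smul_zero]
        rw [Finset.sum_const]
        simp
      · rw [Prod.snd_sum]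
        ext m
        rw [Finset.sum_apply]
        simp [Pi.single_apply]
    rw [hsum]
    refine Prod.ext (Prod.ext ?_ ?_) ?_
    · simp [Complex.ext_iff]
    · simp [Complex.ext_iff]
    · simp
  conv_rhs => rw [hdec]
  rw [map_add, map_add, map_add, map_add, map_sum]
  simp only [map_smul, smul_eq_mul]
  simp only [clin, finCoef, zt, Complex.add_re, Complex.mul_re]
  have h2 : ∑ l, ℓ ((0, 0), Pi.single l 1) * y l = ∑ l, y l * ℓ ((0, 0), Pi.single l 1) :=
    Finset.sum_congr rfl fun l _ => mul_comm _ _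
  rw [h2]
  ring

theorem finCoef_cval (ℓ : Sp k →ₗ[ℝ] ℝ) (c : ℝ) (p : Sp k) : cval (finCoef ℓ c) p = ℓ p + c := by
  have h := finCoef_clin ℓ c p
  have h2 : cval (finCoef ℓ c) p = clin (finCoef ℓ c) p + c := by
    simp only [cval, clin, et, finCoef]
    ring
  rw [h2, h]

theorem fin_clin_sum {ι : Type} (s : Finset ι) (ρ : ι → ℝ) (x : ι → Cf k) (v : Sp k)
    (h1 : ∑ i ∈ s, ρ i • (x i).1 = 0) (h2 : ∑ i ∈ s, ρ i • (x i).2.1 = 0) :
    ∑ i ∈ s, ρ i * clin (x i) v = 0 := by
  have e1 : ∑ i ∈ s, ρ i * (zt (x i).1 v.1).re = (zt (∑ i ∈ s, ρ i • (x i).1) v.1).re := by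
    simp only [zt, Prod.fst_sum, Prod.snd_sum, Prod.smul_fst, Prod.smul_snd]
    rw [Finset.sum_mul, Finset.sum_mul, Complex.add_re, Complex.re_sum, Complex.re_sum,
      ← Finset.sum_add_distrib]
    refine Finset.sum_congr rfl fun i _ => ?_
    simp only [Complex.real_smul, Complex.add_re, Complex.mul_re, Complex.ofReal_re,
      Complex.ofReal_im, Complex.mul_im]
    ring
  have e2 : ∑ i ∈ s, ρ i * (∑ l, (x i).2.1 l * v.2 l) =
      ∑ l, (∑ i ∈ s, ρ i • (x i).2.1) l * v.2 l := by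
    simp only [Finset.sum_apply, Pi.smul_apply, smul_eq_mul, Finset.mul_sum, Finset.sum_mul]
    rw [Finset.sum_comm]
    refine Finset.sum_congr rfl fun l _ => Finset.sum_congr rfl fun i _ => ?_
    ring
  calc ∑ i ∈ s, ρ i * clin (x i) v
      = ∑ i ∈ s, ρ i * (zt (x i).1 v.1).re + ∑ i ∈ s, ρ i * (∑ l, (x i).2.1 l * v.2 l) := by
        rw [← Finset.sum_add_distrib]
        refine Finset.sum_congr rfl fun i _ => ?_
        simp only [clin]
        ring
    _ = 0 := by
        rw [e1, e2, h1, h2]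
        simp [zt]

theorem fin_finrank (k : ℕ) : Module.finrank ℝ (Sp k) = Module.finrank ℝ (Fin (k + 4) → ℝ) := by
  rw [Module.finrank_prod, Module.finrank_prod, Complex.finrank_real_complex,
    Module.finrank_fin_fun, Module.finrank_fin_fun]
  omega

theorem frozen_of_bad (k : ℕ) (μ : Measure (Sp k)) (hμ : IsFiniteMeasure μ) (hac : μ ≪ volume)
    (hbad : ∀ x : Fan k, Nondeg x → ¬ ∃ c : ENNReal, ∀ i j : Lb k, i ≠ j → μ (cell x i j) = c) :
    ¬ (∀ n : ℕ, 1 ≤ n →
      ∀ μ : MeasureTheory.Measure (Fin n → ℝ),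
        MeasureTheory.IsFiniteMeasure μ →
        MeasureTheory.Measure.AbsolutelyContinuous μ MeasureTheory.volume →
        ∃ A : AffineEquiv ℝ (Fin n → ℝ) (Fin n → ℝ), ∃ c : ENNReal,
          ∀ i j : Fin (n + 1), i ≠ j →
            μ (A '' {y : Fin n → ℝ | ∀ k : Fin (n + 1),
                (Matrix.vecCons (0 : ℝ) y : Fin (n + 1) → ℝ) k
                    ≤ (Matrix.vecCons (0 : ℝ) y : Fin (n + 1) → ℝ) i ∧
                  (Matrix.vecCons (0 : ℝ) y : Fin (n + 1) → ℝ) j
                    ≤ (Matrix.vecCons (0 : ℝ) y : Fin (n + 1) → ℝ) k}) = c) := by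
  intro H
  let e : Sp k ≃L[ℝ] (Fin (k + 4) → ℝ) := ContinuousLinearEquiv.ofFinrankEq (fin_finrank k)
  let em : Sp k ≃ᵐ (Fin (k + 4) → ℝ) := e.toHomeomorph.toMeasurableEquiv
  have hfin : IsFiniteMeasure (μ.map em) := Measure.isFiniteMeasure_map μ em
  have hac' : μ.map em ≪ (volume : Measure (Fin (k + 4) → ℝ)) := by
    have h1 : μ.map em ≪ (volume : Measure (Sp k)).map em := hac.map em.measurable
    have i1 : (volume : Measure (ℂ × ℂ)).IsAddHaarMeasure :=
      inferInstanceAs ((volume : Measure ℂ).prod (volume : Measure ℂ)).IsAddHaarMeasure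
    have i2 : (volume : Measure (Sp k)).IsAddHaarMeasure :=
      @Measure.prod.instIsAddHaarMeasure (ℂ × ℂ) _ _ _ (Fin k → ℝ) _ _ _ volume volume i1
        inferInstance inferInstance inferInstance inferInstance inferInstance
    have h2 : ((volume : Measure (Sp k)).map em).IsAddHaarMeasure := by
      have := e.isAddHaarMeasure_map (volume : Measure (Sp k))
      exact this
    have h3 : (volume : Measure (Sp k)).map em ≪ (volume : Measure (Fin (k + 4) → ℝ)) :=
      Measure.absolutelyContinuous_isAddHaarMeasure _ _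
    exact h1.trans h3
  obtain ⟨A, c, hA⟩ := H (k + 4) (by omega) (μ.map em) hfin hac'
  let L : Sp k →ₗ[ℝ] (Fin (k + 4) → ℝ) :=
    (A.symm.linear : (Fin (k + 4) → ℝ) →ₗ[ℝ] (Fin (k + 4) → ℝ)).comp
      (e.toLinearEquiv : Sp k →ₗ[ℝ] (Fin (k + 4) → ℝ))
  let x : Fan k := fun s => Fin.cases (finCoef 0 0)
    (fun m : Fin (k + 4) => finCoef ((LinearMap.proj m).comp L) (A.symm 0 m)) s
  have hAsymm : ∀ y : Fin (k + 4) → ℝ, A.symm y = A.symm.linear y + A.symm 0 := by
    intro y
    have := A.symm.map_vadd 0 y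
    rw [vadd_eq_add, vadd_eq_add, add_zero] at this
    exact this
  have hval : ∀ (p : Sp k) (s : Fin (k + 4 + 1)),
      cval (x s) p = (Matrix.vecCons (0 : ℝ) (A.symm (em p)) : Fin (k + 4 + 1) → ℝ) s := by
    intro p s
    refine Fin.cases ?_ (fun m => ?_) s
    · show cval (finCoef 0 0) p = _
      rw [finCoef_cval]
      simp
    · show cval (finCoef ((LinearMap.proj m).comp L) (A.symm 0 m)) p = _
      rw [finCoef_cval, Matrix.cons_val_succ, hAsymm (em p)]
      rfl
  have hlin : ∀ (v : Sp k) (m : Fin (k + 4)), clin (x m.succ) v = L v m := by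
    intro v m
    show clin (finCoef ((LinearMap.proj m).comp L) (A.symm 0 m)) v = _
    rw [finCoef_clin]
    rfl
  have hlin0 : ∀ (v : Sp k), clin (x 0) v = 0 := by
    intro v
    show clin (finCoef 0 0) v = _
    rw [finCoef_clin]
    rfl
  have hLs : Function.Surjective L := by
    intro y
    obtain ⟨z, hz⟩ := A.symm.linear.surjective y
    obtain ⟨v, hv⟩ := e.surjective z
    refine ⟨v, ?_⟩
    show A.symm.linear (e v) = y
    rw [hv, hz]
  have hnd : Nondeg x := by
    intro ρ h0 h1 h2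
    have hsucc : ∀ m : Fin (k + 4), ρ m.succ = 0 := by
      intro m
      obtain ⟨v, hv⟩ := hLs (Pi.single m 1)
      have h3 := fin_clin_sum Finset.univ ρ x v h1 h2
      have h4 : ∑ i : Fin (k + 4 + 1), ρ i * clin (x i) v = 0 := h3
      rw [Fin.sum_univ_succ, hlin0, mul_zero, zero_add] at h4
      simp only [hlin, hv] at h4
      rw [Finset.sum_eq_single m] at h4
      · simpa using h4
      · intro b _ hb
        rw [Pi.single_eq_of_ne hb, mul_zero]
      · intro hm
        exact absurd (Finset.mem_univ m) hm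
    have hzero : ρ 0 = 0 := by
      have h5 : ∑ i : Fin (k + 4 + 1), ρ i = 0 := h0
      rw [Fin.sum_univ_succ] at h5
      simpa [hsucc] using h5
    funext s
    exact Fin.cases (motive := fun s : Fin (k + 4 + 1) => ρ s = 0) hzero hsucc s
  refine hbad x hnd ⟨c, fun i j hij => ?_⟩
  have hAij := hA i j hij
  rw [MeasurableEquiv.map_apply] at hAij
  rw [← hAij]
  congr 1
  ext p
  simp only [Set.mem_preimage, Set.mem_image, Set.mem_ofPred_eq, cell]
  constructor
  · intro hp
    refine ⟨A.symm (em p), fun s => ?_, A.apply_symm_apply _⟩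
    have := hp s
    rw [hval, hval, hval] at this
    exact this
  · rintro ⟨y, hy, hyp⟩ s
    have hy' : A.symm (em p) = y := by
      rw [← hyp]
      exact A.symm_apply_apply y
    rw [hval, hval, hval, hy']
    exact hy s

end Pool.Agent.FAN
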