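import Pool.Agent.FAN.LM

set_option autoImplicit false

namespace Pool.Agent.FAN

open MeasureTheory Topology Filter

variable {k : ℕ}

/-! ### functions that are polynomial along lines -/

/-- continuous functions, polynomial along lines -/
def GPL (g : Sp k → ℝ) : Prop :=
  Continuous g ∧ ∀ p v : Sp k, ∃ P : Polynomial ℝ, ∀ t : ℝ, g (p + t • v) = P.eval t

theorem GPL.add {f g : Sp k → ℝ} (hf : GPL f) (hg : GPL g) : GPL (fun p => f p + g p) := by
  refine ⟨hf.1.add hg.1, fun p v => ?_⟩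
  obtain ⟨P, hP⟩ := hf.2 p v
  obtain ⟨Q, hQ⟩ := hg.2 p v
  exact ⟨P + Q, fun t => by beta_reduce; rw [Polynomial.eval_add, hP, hQ]⟩

theorem GPL.sub {f g : Sp k → ℝ} (hf : GPL f) (hg : GPL g) : GPL (fun p => f p - g p) := by
  refine ⟨hf.1.sub hg.1, fun p v => ?_⟩
  obtain ⟨P, hP⟩ := hf.2 p v
  obtain ⟨Q, hQ⟩ := hg.2 p v
  exact ⟨P - Q, fun t => by beta_reduce; rw [Polynomial.eval_sub, hP, hQ]⟩

theorem GPL.mul {f g : Sp k → ℝ} (hf : GPL f) (hg : GPL g) : GPL (fun p => f p * g p) := by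
  refine ⟨hf.1.mul hg.1, fun p v => ?_⟩
  obtain ⟨P, hP⟩ := hf.2 p v
  obtain ⟨Q, hQ⟩ := hg.2 p v
  exact ⟨P * Q, fun t => by beta_reduce; rw [Polynomial.eval_mul, hP, hQ]⟩

theorem GPL.sq {f : Sp k → ℝ} (hf : GPL f) : GPL (fun p => f p ^ 2) := by
  have := hf.mul hf
  simpa only [← pow_two] using this

theorem gpl_re (a : ℂ × ℂ) : GPL (fun p : Sp k => (zt a p.1).re) := by
  refine ⟨by unfold zt; fun_prop, fun p v => ?_⟩
  refine ⟨Polynomial.C ((zt a p.1).re) + Polynomial.X * Polynomial.C ((zt a v.1).re), fun t => ?_⟩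
  simp [zt_add_right, zt_rsmul_right]
  ring

theorem gpl_im (a : ℂ × ℂ) : GPL (fun p : Sp k => (zt a p.1).im) := by
  refine ⟨by unfold zt; fun_prop, fun p v => ?_⟩
  refine ⟨Polynomial.C ((zt a p.1).im) + Polynomial.X * Polynomial.C ((zt a v.1).im), fun t => ?_⟩
  simp [zt_add_right, zt_rsmul_right]
  ring

theorem gpl_et (e : (Fin k → ℝ) × ℝ) : GPL (fun p : Sp k => et e p.2) := by
  refine ⟨by unfold et; fun_prop, fun p v => ?_⟩
  refine ⟨Polynomial.C (et e p.2) + Polynomial.X * Polynomial.C (∑ l, e.1 l * v.2 l), fun t => ?_⟩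
  simp only [et, Prod.snd_add, Prod.smul_snd, Pi.add_apply, Pi.smul_apply, smul_eq_mul,
    Polynomial.eval_add, Polynomial.eval_C, Polynomial.eval_mul, Polynomial.eval_X, mul_add,
    Finset.sum_add_distrib, Finset.mul_sum]
  have : ∑ l, e.1 l * (t * v.2 l) = ∑ l, t * (e.1 l * v.2 l) :=
    Finset.sum_congr rfl fun l _ => by ring
  rw [this]
  ring

/-- the first step: one function -/
theorem gpl_step {g : Sp k → ℝ} (hg : GPL g) {F : Set (Sp k)}
    (hF : ∀ p ∈ F, ∀ q ∈ F, ∀ t : ℝ, p + t • (q - p) ∈ F) {q : Sp k} (hq : q ∈ F) (hgq : g q ≠ 0)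
    {O : Set (Sp k)} (hO : IsOpen O) {p : Sp k} (hp : p ∈ O) (hpF : p ∈ F) :
    ∃ p' ∈ O, p' ∈ F ∧ g p' ≠ 0 := by
  obtain ⟨P, hP⟩ := hg.2 p (q - p)
  have hP0 : P ≠ 0 := by
    rintro rfl
    apply hgq
    have := hP 1
    simpa using this
  have hc : Continuous (fun t : ℝ => p + t • (q - p)) := by fun_prop
  have h1 : {t : ℝ | p + t • (q - p) ∈ O} ∈ 𝓝 (0 : ℝ) := by
    apply (hO.preimage hc).mem_nhds
    simpa using hp
  have h2 : {t : ℝ | P.eval t ≠ 0} ∈ 𝓝[≠] (0 : ℝ) := by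
    have hfin : (P.roots.toFinset : Set ℝ).Finite := Finset.finite_toSet _
    have h3 : ((P.roots.toFinset : Set ℝ) \ {0})ᶜ ∈ 𝓝 (0 : ℝ) := by
      apply IsOpen.mem_nhds
      · exact ((hfin.subset Set.sdiff_subset).isClosed).isOpen_compl
      · simp
    rw [mem_nhdsWithin]
    refine ⟨((P.roots.toFinset : Set ℝ) \ {0})ᶜ, ?_, by simp, ?_⟩
    · exact ((hfin.subset Set.sdiff_subset).isClosed).isOpen_compl
    · rintro t ⟨ht1, ht2⟩ ht3
      apply ht1
      refine ⟨?_, ht2⟩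
      rw [Finset.mem_coe, Multiset.mem_toFinset, Polynomial.mem_roots hP0]
      exact ht3
  have h4 := Filter.inter_mem (mem_nhdsWithin_of_mem_nhds h1) h2
  obtain ⟨t, ht1, ht2⟩ := Filter.nonempty_of_mem h4
  refine ⟨p + t • (q - p), ht1, hF p hpF q hq t, ?_⟩
  rw [hP]
  exact ht2

/-- finitely many functions -/
theorem gpl_finite {ι : Type} (T : Finset ι) (g : ι → Sp k → ℝ) (hg : ∀ c ∈ T, GPL (g c)) {F : Set (Sp k)}
    (hF : ∀ p ∈ F, ∀ q ∈ F, ∀ t : ℝ, p + t • (q - p) ∈ F) (hq : ∀ c ∈ T, ∃ q ∈ F, g c q ≠ 0)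
    {O : Set (Sp k)} (hO : IsOpen O) {p : Sp k} (hp : p ∈ O) (hpF : p ∈ F) :
    ∃ O' : Set (Sp k), IsOpen O' ∧ O' ⊆ O ∧ (∃ p₁ ∈ O', p₁ ∈ F) ∧ ∀ p ∈ O', ∀ c ∈ T, g c p ≠ 0 := by
  classical
  induction T using Finset.induction_on with
  | empty => exact ⟨O, hO, subset_rfl, ⟨p, hp, hpF⟩, by simp⟩
  | insert a T _ ih =>
    obtain ⟨O', hO', hsub, ⟨p₁, hp₁, hp₁F⟩, hall⟩ := ih (fun c hc => hg c (Finset.mem_insert_of_mem hc))
      (fun c hc => hq c (Finset.mem_insert_of_mem hc))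
    obtain ⟨q, hqF, hgq⟩ := hq a (Finset.mem_insert_self _ _)
    have hga := hg a (Finset.mem_insert_self _ _)
    obtain ⟨p₂, hp₂, hp₂F, hgp₂⟩ := gpl_step hga hF hqF hgq hO' hp₁ hp₁F
    refine ⟨O' ∩ {p | g a p ≠ 0}, ?_, Set.inter_subset_left.trans hsub, ⟨p₂, ⟨hp₂, hgp₂⟩, hp₂F⟩, ?_⟩
    · exact hO'.inter (isOpen_ne.preimage hga.1)
    · intro p hp c hc
      rcases Finset.mem_insert.1 hc with rfl | hc
      · exact hp.2
      · exact hall p hp.1 c hc

/-! ### points of the face -/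

theorem gen_exists_point {a₁ a₂ : ℂ × ℂ} (h : cdet a₁ a₂ ≠ 0) (w₁ w₂ : ℂ) :
    ∃ z : ℂ × ℂ, zt a₁ z = w₁ ∧ zt a₂ z = w₂ := by
  refine ⟨((w₁ * a₂.2 - w₂ * a₁.2) / cdet a₁ a₂, (w₂ * a₁.1 - w₁ * a₂.1) / cdet a₁ a₂), ?_, ?_⟩
  · unfold zt
    dsimp only
    rw [← mul_div_assoc, ← mul_div_assoc, ← add_div, div_eq_iff h]
    unfold cdet
    ring
  · unfold zt
    dsimp only
    rw [← mul_div_assoc, ← mul_div_assoc, ← add_div, div_eq_iff h]
    unfold cdet
    ring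

theorem gen_face_point {n₁ n₂ : Cf k} (h : cdet n₁.1 n₂.1 ≠ 0) (y : Fin k → ℝ) (σ₁ σ₂ : ℝ) :
    ∃ p : Sp k, p.2 = y ∧ zt n₁.1 p.1 = -(et n₁.2 y : ℂ) + σ₁ * Complex.I ∧
      zt n₂.1 p.1 = -(et n₂.2 y : ℂ) + σ₂ * Complex.I ∧ cval n₁ p = 0 ∧ cval n₂ p = 0 := by
  obtain ⟨z, hz1, hz2⟩ := gen_exists_point h (-(et n₁.2 y : ℂ) + σ₁ * Complex.I)
    (-(et n₂.2 y : ℂ) + σ₂ * Complex.I)
  refine ⟨(z, y), rfl, hz1, hz2, ?_, ?_⟩
  · unfold cval
    rw [hz1]
    simp
  · unfold cval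
    rw [hz2]
    simp

/-- a linear form is a combination of two independent ones -/
theorem gen_comb {a₁ a₂ : ℂ × ℂ} (h : cdet a₁ a₂ ≠ 0) (b : ℂ × ℂ) :
    ∃ β₁ β₂ : ℂ, (∀ z, zt b z = β₁ * zt a₁ z + β₂ * zt a₂ z) ∧ (b ≠ 0 → β₁ ≠ 0 ∨ β₂ ≠ 0) := by
  refine ⟨cdet b a₂ / cdet a₁ a₂, cdet a₁ b / cdet a₁ a₂, fun z => ?_, fun hb => ?_⟩
  · rw [div_mul_eq_mul_div, div_mul_eq_mul_div, ← add_div, eq_div_iff h]
    unfold zt cdet
    ring
  · by_contra hcon
    push Not at hcon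
    obtain ⟨h1, h2⟩ := hcon
    rw [div_eq_zero_iff, or_iff_left h] at h1 h2
    apply hb
    unfold cdet at h h1 h2
    have e1 : b.1 * (a₁.1 * a₂.2 - a₁.2 * a₂.1) = 0 := by
      linear_combination a₁.1 * h1 + a₂.1 * h2
    have e2 : b.2 * (a₁.1 * a₂.2 - a₁.2 * a₂.1) = 0 := by
      linear_combination a₁.2 * h1 + a₂.2 * h2
    exact Prod.ext ((mul_eq_zero.1 e1).resolve_right h) ((mul_eq_zero.1 e2).resolve_right h)

theorem gen_normSq_ne {n₁ n₂ : Cf k} (h : cdet n₁.1 n₂.1 ≠ 0) {b : ℂ × ℂ} (hb : b ≠ 0)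
    (y : Fin k → ℝ) (K : ℝ) :
    ∃ p : Sp k, p.2 = y ∧ cval n₁ p = 0 ∧ cval n₂ p = 0 ∧ Complex.normSq (zt b p.1) ≠ K := by
  by_contra hcon
  push Not at hcon
  obtain ⟨β₁, β₂, hβ, hβ0⟩ := gen_comb h b
  have key : ∀ σ₁ σ₂ : ℝ, Complex.normSq (β₁ * (-(et n₁.2 y : ℂ) + σ₁ * Complex.I) +
      β₂ * (-(et n₂.2 y : ℂ) + σ₂ * Complex.I)) = K := by
    intro σ₁ σ₂
    obtain ⟨p, hp, hz1, hz2, hc1, hc2⟩ := gen_face_point h y σ₁ σ₂
    have := hcon p hp hc1 hc2
    rw [hβ, hz1, hz2] at this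
    exact this
  have k0 := key 0 0
  have k1 := key 1 0
  have k2 := key (-1) 0
  have k3 := key 0 1
  have k4 := key 0 (-1)
  simp only [Complex.normSq_apply, Complex.add_re, Complex.mul_re, Complex.neg_re, Complex.ofReal_re,
    Complex.ofReal_im, Complex.I_re, Complex.I_im, Complex.add_im, Complex.mul_im, Complex.neg_im,
    mul_zero, mul_one, sub_self, add_zero, zero_add, neg_zero, sub_zero] at k0 k1 k2 k3 k4
  rcases hβ0 hb with h3 | h3
  · apply h3
    have e1 : β₁.re * β₁.re + β₁.im * β₁.im = 0 := by linear_combination (k1 + k2 - 2 * k0) / 2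
    exact Complex.normSq_eq_zero.1 e1
  · apply h3
    have e1 : β₂.re * β₂.re + β₂.im * β₂.im = 0 := by linear_combination (k3 + k4 - 2 * k0) / 2
    exact Complex.normSq_eq_zero.1 e1

theorem gen_exists_et {e : (Fin k → ℝ) × ℝ} (h : e.1 ≠ 0) : ∃ y, et e y ≠ 0 := by
  classical
  by_contra hcon
  push Not at hcon
  apply h
  have h0 := hcon 0
  simp only [et, Pi.zero_apply, mul_zero, Finset.sum_const_zero, zero_add] at h0
  funext j
  have h1 := hcon (Pi.single j 1)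
  simp only [et, Pi.single_apply, mul_ite, mul_one, mul_zero, Finset.sum_ite_eq', Finset.mem_univ,
    if_true] at h1
  rw [h0, add_zero] at h1
  exact h1


/-! ### the functions -/

/-- `|zt|² - et²` -/
noncomputable def genQ (d : Cf k) (p : Sp k) : ℝ :=
  ((zt d.1 p.1).re ^ 2 + (zt d.1 p.1).im ^ 2) - et d.2 p.2 ^ 2

/-- the expression of Lemma M -/
noncomputable def genP (c d : Cf k) (p : Sp k) : ℝ :=
  ((et c.2 p.2 * (zt d.1 p.1).re - et d.2 p.2 * (zt c.1 p.1).re) ^ 2 +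
    (et c.2 p.2 * (zt d.1 p.1).im - et d.2 p.2 * (zt c.1 p.1).im) ^ 2) -
    ((zt c.1 p.1).im * (zt d.1 p.1).re - (zt c.1 p.1).re * (zt d.1 p.1).im) ^ 2

/-- `Im (z₁ conj z₂)` -/
noncomputable def genJ (c d : Cf k) (p : Sp k) : ℝ :=
  (zt c.1 p.1).im * (zt d.1 p.1).re - (zt c.1 p.1).re * (zt d.1 p.1).im

theorem gpl_Q (d : Cf k) : GPL (genQ d) :=
  (((gpl_re d.1).sq.add (gpl_im d.1).sq)).sub (gpl_et d.2).sq

theorem gpl_J (c d : Cf k) : GPL (genJ c d) :=
  ((gpl_im c.1).mul (gpl_re d.1)).sub ((gpl_re c.1).mul (gpl_im d.1))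

theorem gpl_P (c d : Cf k) : GPL (genP c d) :=
  ((((gpl_et c.2).mul (gpl_re d.1)).sub ((gpl_et d.2).mul (gpl_re c.1))).sq.add
    (((gpl_et c.2).mul (gpl_im d.1)).sub ((gpl_et d.2).mul (gpl_im c.1))).sq).sub (gpl_J c d).sq

theorem gen_ne_of_Q {d : Cf k} {p : Sp k} (h : genQ d p ≠ 0) : zt d.1 p.1 ≠ 0 ∨ et d.2 p.2 ≠ 0 := by
  by_contra hcon
  push Not at hcon
  apply h
  unfold genQ
  rw [hcon.1, hcon.2]
  simp

theorem gen_trans_of_Q {d : Cf k} {p : Sp k} (h : genQ d p ≠ 0) {θ : ℂ} (hθ : ‖θ‖ = 1)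
    (h0 : cval d (rot θ p) = 0) : (θ * zt d.1 p.1).im ≠ 0 := by
  intro him
  apply h
  have h1 : (θ * zt d.1 p.1).re + et d.2 p.2 = 0 := by
    have := h0
    simp only [cval, rot, zt_smul_right] at this
    exact this
  have h2 : Complex.normSq (θ * zt d.1 p.1) = Complex.normSq (zt d.1 p.1) := by
    rw [map_mul, Complex.normSq_eq_norm_sq, hθ]
    ring
  rw [Complex.normSq_apply, Complex.normSq_apply, him] at h2
  unfold genQ
  have h3 : (θ * zt d.1 p.1).re = -et d.2 p.2 := by linarith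
  rw [h3] at h2
  linear_combination -h2

/-- two walls through a common point of the orbit -/
theorem gen_P_zero {c d : Cf k} {p : Sp k} {θ : ℂ} (hθ : ‖θ‖ = 1) (hc : cval c (rot θ p) = 0)
    (hd : cval d (rot θ p) = 0) : genP c d p = 0 := by
  have h1 : (θ * zt c.1 p.1).re + et c.2 p.2 = 0 := by
    have := hc
    simp only [cval, rot, zt_smul_right] at this
    exact this
  have h2 : (θ * zt d.1 p.1).re + et d.2 p.2 = 0 := by
    have := hd
    simp only [cval, rot, zt_smul_right] at this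
    exact this
  have h3 : θ.re * θ.re + θ.im * θ.im = 1 := by
    have := Complex.normSq_eq_norm_sq θ
    rw [hθ, Complex.normSq_apply] at this
    rw [this]
    norm_num
  unfold genP
  rw [Complex.mul_re] at h1 h2
  have e1 : et c.2 p.2 = -(θ.re * (zt c.1 p.1).re - θ.im * (zt c.1 p.1).im) := by linarith
  have e2 : et d.2 p.2 = -(θ.re * (zt d.1 p.1).re - θ.im * (zt d.1 p.1).im) := by linarith
  rw [e1, e2]
  generalize (zt c.1 p.1).re = a
  generalize (zt c.1 p.1).im = b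
  generalize (zt d.1 p.1).re = a'
  generalize (zt d.1 p.1).im = b'
  generalize θ.re = t at *
  generalize θ.im = t' at *
  linear_combination (b * a' - a * b') ^ 2 * h3

theorem gen_P_eq {c d : Cf k} {p : Sp k} (h : genP c d p = 0) :
    Complex.normSq ((et c.2 p.2 : ℂ) * zt d.1 p.1 - (et d.2 p.2 : ℂ) * zt c.1 p.1) =
        ((zt c.1 p.1 * (starRingEnd ℂ) (zt d.1 p.1)).im) ^ 2 := by
  unfold genP at h
  simp only [Complex.normSq_apply, Complex.sub_re, Complex.sub_im, Complex.mul_re, Complex.mul_im,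
    Complex.ofReal_re, Complex.ofReal_im, Complex.conj_re, Complex.conj_im, zero_mul, sub_zero, add_zero]
  linear_combination h

/-! ### nondegeneracy -/

theorem gen_nd {x : Fan k} (hx : Nondeg x) {s s' t t' : Lb k} (hs : s ≠ s') (ht : t ≠ t')
    (h1 : ¬ (s = t ∧ s' = t')) (h2 : ¬ (s = t' ∧ s' = t)) (r : ℝ)
    (ha : (x t - x t').1 = r • (x s - x s').1) : (x t - x t').2.1 ≠ r • (x s - x s').2.1 := by
  classical
  intro hl
  set ρ : Lb k → ℝ := Pi.single t 1 - Pi.single t' 1 - r • (Pi.single s 1 - Pi.single s' 1) with hρ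
  have hsum : ∀ {M : Type} [AddCommGroup M] [Module ℝ M] (f : Lb k → M),
      ∑ j, ρ j • f j = (f t - f t') - r • (f s - f s') := by
    intro M _ _ f
    simp only [hρ, Pi.sub_apply, Pi.smul_apply, sub_smul, smul_sub, Finset.sum_sub_distrib,
      smul_eq_mul, mul_smul, ← Finset.smul_sum]
    have e : ∀ a : Lb k, ∑ j, (Pi.single a (1 : ℝ) : Lb k → ℝ) j • f j = f a := by
      intro a
      rw [Finset.sum_eq_single a]
      · rw [Pi.single_eq_same, one_smul]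
      · intro b _ hb
        rw [Pi.single_eq_of_ne hb, zero_smul]
      · simp
    simp only [e]
  have h0 : ρ = 0 := by
    apply hx ρ
    · have := hsum (M := ℝ) (fun _ => 1)
      simpa using this
    · rw [hsum (fun j => (x j).1)]
      have := ha
      simp only [Prod.fst_sub] at this
      rw [this, sub_self]
    · rw [hsum (fun j => (x j).2.1)]
      have := hl
      simp only [Prod.snd_sub, Prod.fst_sub] at this
      rw [this, sub_self]
  have ht0 := congrFun h0 t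
  have ht0' := congrFun h0 t'
  simp only [hρ, Pi.sub_apply, Pi.smul_apply, smul_eq_mul, Pi.single_apply, Pi.zero_apply] at ht0 ht0'
  by_cases c1 : t = s
  · have c2 : t' ≠ s' := fun h => h1 ⟨c1.symm, h.symm⟩
    have c3 : t' ≠ s := fun h => ht (c1.trans h.symm)
    simp [c2, c3, ht.symm] at ht0'
  · by_cases c2 : t = s'
    · have c3 : t' ≠ s := fun h => h2 ⟨h.symm, c2.symm⟩
      have c4 : t' ≠ s' := fun h => ht (c2.trans h.symm)
      simp [c3, c4, ht.symm] at ht0'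
    · simp [c1, c2, ht] at ht0

theorem gen_nd2 {x : Fan k} (hx : Nondeg x) {s s' : Lb k} (hs : s ≠ s')
    (ha : (x s - x s').1 = 0) : (x s - x s').2.1 ≠ 0 := by
  obtain ⟨c, hc1, hc2⟩ : ∃ c : Lb k, c ≠ s ∧ c ≠ s' := by
    have : (({s, s'} : Finset (Lb k))ᶜ).Nonempty := by
      rw [← Finset.card_pos, Finset.card_compl, Fintype.card_fin]
      have := Finset.card_le_two (a := s) (b := s')
      omega
    obtain ⟨c, hc⟩ := this
    rw [Finset.mem_compl, Finset.mem_insert, Finset.mem_singleton, not_or] at hc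
    exact ⟨c, hc.1, hc.2⟩
  have := gen_nd hx (s := c) (s' := s) (t := s) (t' := s') hc1 hs (fun h => hc1 h.1)
    (fun h => hc2 h.1) 0 (by rw [ha, zero_smul])
  rwa [zero_smul] at this


/-! ### the pencil condition -/

/-- the case where the expression of Lemma M vanishes on the face -/
theorem gen_pencil {x : Fan k} (hx : Nondeg x) {n₁ n₂ : Cf k} (hI : cdet n₁.1 n₂.1 ≠ 0)
    {s s' t t' : Lb k} (hs : s ≠ s') (ht : t ≠ t')
    (h1 : ¬ (s = t ∧ s' = t')) (h2 : ¬ (s = t' ∧ s' = t))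
    (hbs : (x s - x s').1 ≠ 0) (hbt : (x t - x t').1 ≠ 0)
    (hP : ∀ p : Sp k, cval n₁ p = 0 → cval n₂ p = 0 → genP (x s - x s') (x t - x t') p = 0)
    {p : Sp k} (hp1 : cval n₁ p = 0) (hp2 : cval n₂ p = 0) (hz : genQ n₁ p ≠ 0)
    (hJ : (∃ q : Sp k, cval n₁ q = 0 ∧ cval n₂ q = 0 ∧ genJ n₁ n₂ q ≠ 0) → genJ n₁ n₂ p ≠ 0)
    {θ : ℂ} (hθ : ‖θ‖ = 1) (hc : cval (x s - x s') (rot θ p) = 0)
    (hd : cval (x t - x t') (rot θ p) = 0) :
    rotc θ (x s - x s') ∈ Submodule.span ℝ {n₁, n₂} ∧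
      rotc θ (x t - x t') ∈ Submodule.span ℝ {n₁, n₂} := by
  set c := x s - x s' with hcdef
  set d := x t - x t' with hddef
  -- independence over the reals
  have hb : ∀ r₁ r₂ : ℝ, r₁ • c.1 + r₂ • d.1 = 0 → r₁ = 0 ∧ r₂ = 0 := by
    by_contra hcon
    push Not at hcon
    obtain ⟨r₁, r₂, h3, h4⟩ := hcon
    have hr2 : r₂ ≠ 0 := by
      rintro rfl
      rw [zero_smul, add_zero, smul_eq_zero] at h3
      rcases h3 with h3 | h3
      · exact h4 h3 rfl
      · exact hbs h3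
    set r : ℝ := -(r₁ / r₂) with hr
    have hdr : d.1 = r • c.1 := by
      have h5 : r₂ • d.1 = -(r₁ • c.1) := (neg_eq_of_add_eq_zero_right h3).symm
      have h6 : d.1 = r₂⁻¹ • (r₂ • d.1) := by rw [smul_smul, inv_mul_cancel₀ hr2, one_smul]
      rw [h6, h5, smul_neg, smul_smul, hr, neg_smul]
      congr 2
      field_simp
    have hnd := gen_nd hx hs ht h1 h2 r hdr
    obtain ⟨y, hy⟩ := gen_exists_et (k := k) (e := d.2 - r • c.2) (by
      rw [Prod.fst_sub, Prod.smul_fst]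
      exact sub_ne_zero.2 hnd)
    obtain ⟨q, hq, hq1, hq2, hq3⟩ := gen_normSq_ne hI hbs y 0
    have h7 := hP q hq1 hq2
    rw [et_sub_left, et_smul_left] at hy
    unfold genP at h7
    rw [hdr, zt_rsmul_left, Complex.re_ofReal_mul, Complex.im_ofReal_mul, hq] at h7
    rw [Complex.normSq_apply] at hq3
    have h8 : (et d.2 y - r * et c.2 y) ^ 2 * ((zt c.1 q.1).re * (zt c.1 q.1).re +
        (zt c.1 q.1).im * (zt c.1 q.1).im) = 0 := by
      linear_combination h7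
    rcases mul_eq_zero.1 h8 with h9 | h9
    · exact hy (pow_eq_zero_iff (two_ne_zero) |>.1 h9)
    · exact hq3 h9
  obtain ⟨θ₀, hθ₀, hm1, hm2⟩ := lemmaM (a₁ := n₁.1) (a₂ := n₂.1) (b₁ := c.1) (b₂ := d.1)
    (e₁ := n₁.2) (e₂ := n₂.2) (f₁ := c.2) (f₂ := d.2) hI hb (fun q hq1 hq2 => gen_P_eq (hP q hq1 hq2))
  change rotc θ₀ c ∈ Submodule.span ℝ {n₁, n₂} at hm1
  change rotc θ₀ d ∈ Submodule.span ℝ {n₁, n₂} at hm2
  have hθ₀0 : θ₀ ≠ 0 := by
    rintro rfl
    simp at hθ₀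
  set θ₁ : ℂ := θ / θ₀ with hθ₁
  have hθ₁n : ‖θ₁‖ = 1 := by rw [hθ₁, norm_div, hθ, hθ₀, div_one]
  have hmul : θ = θ₁ * θ₀ := by rw [hθ₁, div_mul_cancel₀ _ hθ₀0]
  obtain ⟨α₁, α₂, hα⟩ := Submodule.mem_span_pair.1 hm1
  obtain ⟨β₁, β₂, hβ⟩ := Submodule.mem_span_pair.1 hm2
  -- it suffices that `θ₁` is real
  have hreal : θ₁ = 1 ∨ (θ₁ = -1 ∧ n₁.2 = 0 ∧ n₂.2 = 0) := by
    have e1 : α₁ * cval (rotc θ₁ n₁) p + α₂ * cval (rotc θ₁ n₂) p = 0 := by
      have h3 : cval (rotc θ c) p = 0 := by rw [← cval_rot]; exact hc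
      rw [hmul, ← rotc_rotc, ← hα, rotc_add, rotc_smul, rotc_smul, cval_add, cval_smul,
        cval_smul] at h3
      exact h3
    have e2 : β₁ * cval (rotc θ₁ n₁) p + β₂ * cval (rotc θ₁ n₂) p = 0 := by
      have h3 : cval (rotc θ d) p = 0 := by rw [← cval_rot]; exact hd
      rw [hmul, ← rotc_rotc, ← hβ, rotc_add, rotc_smul, rotc_smul, cval_add, cval_smul,
        cval_smul] at h3
      exact h3
    have hdet : α₁ * β₂ - α₂ * β₁ ≠ 0 := by
      intro h3
      have f1 : θ₀ • c.1 = α₁ • n₁.1 + α₂ • n₂.1 := by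
        have := congrArg Prod.fst hα
        exact this.symm
      have f2 : θ₀ • d.1 = β₁ • n₁.1 + β₂ • n₂.1 := by
        have := congrArg Prod.fst hβ
        exact this.symm
      have f3 : θ₀ • (β₂ • c.1 + (-α₂) • d.1) = 0 := by
        have : θ₀ • (β₂ • c.1 + (-α₂) • d.1) = β₂ • (θ₀ • c.1) + (-α₂) • (θ₀ • d.1) := by
          rw [smul_add, smul_comm θ₀ β₂, smul_comm θ₀ (-α₂)]
        rw [this, f1, f2]
        have : β₂ • (α₁ • n₁.1 + α₂ • n₂.1) + -α₂ • (β₁ • n₁.1 + β₂ • n₂.1) =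
            (α₁ * β₂ - α₂ * β₁) • n₁.1 := by
          module
        rw [this, h3, zero_smul]
      have f4 : θ₀ • (β₁ • c.1 + (-α₁) • d.1) = 0 := by
        have : θ₀ • (β₁ • c.1 + (-α₁) • d.1) = β₁ • (θ₀ • c.1) + (-α₁) • (θ₀ • d.1) := by
          rw [smul_add, smul_comm θ₀ β₁, smul_comm θ₀ (-α₁)]
        rw [this, f1, f2]
        have : β₁ • (α₁ • n₁.1 + α₂ • n₂.1) + -α₁ • (β₁ • n₁.1 + β₂ • n₂.1) =
            (-(α₁ * β₂ - α₂ * β₁)) • n₂.1 := by
          module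
        rw [this, h3, neg_zero, zero_smul]
      rw [smul_eq_zero, or_iff_right hθ₀0] at f3 f4
      have g1 := hb _ _ f3
      have g2 := hb _ _ f4
      have g3 : c.1 = 0 := by
        have : α₁ = 0 := by linarith [g2.2]
        have h5 : α₂ = 0 := by linarith [g1.2]
        rw [this, h5, zero_smul, zero_smul, add_zero, smul_eq_zero, or_iff_right hθ₀0] at f1
        exact f1
      exact hbs g3
    have v1 : cval (rotc θ₁ n₁) p = 0 := by
      have : (α₁ * β₂ - α₂ * β₁) * cval (rotc θ₁ n₁) p = 0 := by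
        linear_combination β₂ * e1 - α₂ * e2
      exact (mul_eq_zero.1 this).resolve_left hdet
    have v2 : cval (rotc θ₁ n₂) p = 0 := by
      have : (α₁ * β₂ - α₂ * β₁) * cval (rotc θ₁ n₂) p = 0 := by
        linear_combination α₁ * e2 - β₁ * e1
      exact (mul_eq_zero.1 this).resolve_left hdet
    simp only [cval, rotc, zt_smul_left, Complex.mul_re] at v1 v2 hp1 hp2
    have hn : θ₁.re * θ₁.re + θ₁.im * θ₁.im = 1 := by
      have := Complex.normSq_eq_norm_sq θ₁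
      rw [hθ₁n, Complex.normSq_apply] at this
      rw [this]
      norm_num
    by_cases hJ' : ∃ q : Sp k, cval n₁ q = 0 ∧ cval n₂ q = 0 ∧ genJ n₁ n₂ q ≠ 0
    · left
      have hJp := hJ hJ'
      unfold genJ at hJp
      have g1 : (θ₁.re - 1) * ((zt n₁.1 p.1).im * (zt n₂.1 p.1).re -
          (zt n₁.1 p.1).re * (zt n₂.1 p.1).im) = 0 := by
        linear_combination (zt n₁.1 p.1).im * (v2 - hp2) - (zt n₂.1 p.1).im * (v1 - hp1)
      have g2 : θ₁.im * ((zt n₁.1 p.1).im * (zt n₂.1 p.1).re -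
          (zt n₁.1 p.1).re * (zt n₂.1 p.1).im) = 0 := by
        linear_combination (zt n₁.1 p.1).re * (v2 - hp2) - (zt n₂.1 p.1).re * (v1 - hp1)
      have g3 := (mul_eq_zero.1 g1).resolve_right hJp
      have g4 := (mul_eq_zero.1 g2).resolve_right hJp
      apply Complex.ext
      · simp only [Complex.one_re]; linarith
      · simpa using g4
    · push Not at hJ'
      -- the affine parts vanish
      have hzero : ∀ y, et n₁.2 y = 0 ∧ et n₂.2 y = 0 := by
        intro y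
        obtain ⟨q, hq, hz1, hz2, hc1, hc2⟩ := gen_face_point hI y 0 1
        have g1 := hJ' q hc1 hc2
        obtain ⟨q', hq', hz1', hz2', hc1', hc2'⟩ := gen_face_point hI y 1 0
        have g2 := hJ' q' hc1' hc2'
        unfold genJ at g1 g2
        rw [hz1, hz2] at g1
        rw [hz1', hz2'] at g2
        simp at g1 g2
        exact ⟨g1, g2⟩
      have hn12 : n₁.2 = 0 := by
        apply Prod.ext
        · by_contra h3
          obtain ⟨y, hy⟩ := gen_exists_et h3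
          exact hy (hzero y).1
        · have := (hzero 0).1
          simpa [et] using this
      have hn22 : n₂.2 = 0 := by
        apply Prod.ext
        · by_contra h3
          obtain ⟨y, hy⟩ := gen_exists_et h3
          exact hy (hzero y).2
        · have := (hzero 0).2
          simpa [et] using this
      rw [hn12, et_zero_left, add_zero] at v1 hp1
      have hre : (zt n₁.1 p.1).re = 0 := hp1
      have him : (zt n₁.1 p.1).im ≠ 0 := by
        intro h3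
        apply hz
        unfold genQ
        rw [hre, h3, hn12, et_zero_left]
        norm_num
      rw [hre, mul_zero, zero_sub, neg_eq_zero, mul_eq_zero, or_iff_left him] at v1
      rw [v1] at hn
      have h3 : (θ₁.re - 1) * (θ₁.re + 1) = 0 := by linear_combination hn
      rcases mul_eq_zero.1 h3 with h4 | h4
      · left
        apply Complex.ext
        · simp only [Complex.one_re]; linarith
        · simpa using v1
      · right
        refine ⟨?_, hn12, hn22⟩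
        apply Complex.ext
        · simp only [Complex.neg_re, Complex.one_re]; linarith
        · simpa using v1
  rcases hreal with h3 | ⟨h3, h4, h5⟩
  · rw [h3, one_mul] at hmul
    rw [hmul]
    exact ⟨hm1, hm2⟩
  · have hneg : ∀ v ∈ Submodule.span ℝ {n₁, n₂}, rotc (-1) v ∈ Submodule.span ℝ {n₁, n₂} := by
      intro v hv
      obtain ⟨a, b, rfl⟩ := Submodule.mem_span_pair.1 hv
      have e1 : rotc (-1) n₁ = -n₁ := by
        unfold rotc
        refine Prod.ext ?_ ?_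
        · simp
        · simp [h4]
      have e2 : rotc (-1) n₂ = -n₂ := by
        unfold rotc
        refine Prod.ext ?_ ?_
        · simp
        · simp [h5]
      rw [rotc_add, rotc_smul, rotc_smul, e1, e2]
      exact Submodule.add_mem _ (Submodule.smul_mem _ _ (Submodule.neg_mem _
        (Submodule.subset_span (by simp)))) (Submodule.smul_mem _ _ (Submodule.neg_mem _
        (Submodule.subset_span (by simp))))
    rw [h3] at hmul
    rw [hmul, ← rotc_rotc, ← rotc_rotc]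
    exact ⟨hneg _ hm1, hneg _ hm2⟩

theorem gen_nhds {x : Fan k} (hx : Nondeg x) {u i l : Lb k} (hui : u ≠ i) (hul : u ≠ l) (hil : i ≠ l)
    (hI : cdet ((x u).1 - (x i).1) ((x l).1 - (x i).1) ≠ 0) {O : Set (Sp k)} (hO : IsOpen O) {p₀ : Sp k}
    (hp₀ : p₀ ∈ O) (h1 : cval (x u - x i) p₀ = 0) (h2 : cval (x l - x i) p₀ = 0) :
    ∃ O' : Set (Sp k), IsOpen O' ∧ O' ⊆ O ∧
      (∃ p₁ ∈ O', cval (x u - x i) p₁ = 0 ∧ cval (x l - x i) p₁ = 0) ∧
      ∀ p ∈ O', cval (x u - x i) p = 0 → cval (x l - x i) p = 0 → Gen x u i l p := by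
  classical
  set n₁ := x u - x i with hn1
  set n₂ := x l - x i with hn2
  have hI' : cdet n₁.1 n₂.1 ≠ 0 := hI
  set F : Set (Sp k) := {p | cval n₁ p = 0 ∧ cval n₂ p = 0} with hFdef
  have hlin : ∀ (c : Cf k) (p q : Sp k) (t : ℝ), cval c (p + t • (q - p)) =
      (1 - t) * cval c p + t * cval c q := by
    intro c p q t
    have e1 : cval c q = cval c p + clin c (q - p) := by
      rw [← cval_add_point, add_sub_cancel]
    rw [cval_add_point, clin_smul_right, e1]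
    ring
  have hF : ∀ p ∈ F, ∀ q ∈ F, ∀ t : ℝ, p + t • (q - p) ∈ F := by
    rintro p ⟨hp1, hp2⟩ q ⟨hq1, hq2⟩ t
    refine ⟨?_, ?_⟩
    · rw [hlin, hp1, hq1]; ring
    · rw [hlin, hp2, hq2]; ring
  -- the list of functions
  let g : (Lb k × Lb k) ⊕ (Lb k × Lb k × Lb k × Lb k) ⊕ Unit → Sp k → ℝ := fun c =>
    match c with
    | Sum.inl a => genQ (x a.1 - x a.2)
    | Sum.inr (Sum.inl a) => genP (x a.1 - x a.2.1) (x a.2.2.1 - x a.2.2.2)
    | Sum.inr (Sum.inr _) => genJ n₁ n₂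
  have hg : ∀ c, GPL (g c) := by
    rintro (a | a | a)
    · exact gpl_Q _
    · exact gpl_P _ _
    · exact gpl_J _ _
  obtain ⟨O', hO', hsub, ⟨p₁, hp₁, hp₁F⟩, hall⟩ := gpl_finite
    (Finset.univ.filter fun c => ∃ q ∈ F, g c q ≠ 0) g (fun c _ => hg c) hF
    (fun c hc => (Finset.mem_filter.1 hc).2) hO hp₀ ⟨h1, h2⟩
  have hall' : ∀ p ∈ O', ∀ c, (∃ q ∈ F, g c q ≠ 0) → g c p ≠ 0 := fun p hp c hc =>
    hall p hp c (Finset.mem_filter.2 ⟨Finset.mem_univ _, hc⟩)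
  refine ⟨O', hO', hsub, ⟨p₁, hp₁, hp₁F⟩, fun p hp hp1 hp2 => ?_⟩
  have hQ : ∀ s s', s ≠ s' → genQ (x s - x s') p ≠ 0 := by
    intro s s' hss
    refine hall' p hp (Sum.inl (s, s')) ?_
    change ∃ q ∈ F, genQ (x s - x s') q ≠ 0
    by_cases hb : (x s - x s').1 = 0
    · obtain ⟨y, hy⟩ := gen_exists_et (gen_nd2 hx hss hb)
      obtain ⟨q, hq, -, -, hc1, hc2⟩ := gen_face_point hI' y 0 0
      refine ⟨q, ⟨hc1, hc2⟩, ?_⟩
      unfold genQ
      rw [hb, hq, zt_zero_left]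
      simpa using hy
    · obtain ⟨q, hq, hc1, hc2, hq3⟩ := gen_normSq_ne hI' hb 0 (et (x s - x s').2 0 ^ 2)
      refine ⟨q, ⟨hc1, hc2⟩, ?_⟩
      intro h0
      apply hq3
      unfold genQ at h0
      rw [hq] at h0
      rw [Complex.normSq_apply]
      linear_combination h0
  refine ⟨?_, ?_, ?_⟩
  · intro s s' hss
    exact gen_ne_of_Q (hQ s s' hss)
  · intro s s' hss θ hθ h0
    exact gen_trans_of_Q (hQ s s' hss) hθ h0
  · intro s s' t t' hs ht h3 h4 θ hθ hc hd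
    have hbs : (x s - x s').1 ≠ 0 := by
      intro hb
      have h5 := gen_trans_of_Q (hQ s s' hs) hθ hc
      rw [hb, zt_zero_left, mul_zero] at h5
      exact h5 rfl
    have hbt : (x t - x t').1 ≠ 0 := by
      intro hb
      have h5 := gen_trans_of_Q (hQ t t' ht) hθ hd
      rw [hb, zt_zero_left, mul_zero] at h5
      exact h5 rfl
    by_cases hP : ∃ q ∈ F, genP (x s - x s') (x t - x t') q ≠ 0
    · exact absurd (gen_P_zero hθ hc hd) (hall' p hp (Sum.inr (Sum.inl (s, s', t, t'))) hP)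
    · push Not at hP
      refine gen_pencil hx hI' hs ht h3 h4 hbs hbt (fun q hq1 hq2 => hP q ⟨hq1, hq2⟩) hp1 hp2
        (hQ u i hui) ?_ hθ hc hd
      rintro ⟨q, hq1, hq2, hq3⟩
      exact hall' p hp (Sum.inr (Sum.inr ())) ⟨q, ⟨hq1, hq2⟩, hq3⟩

end Pool.Agent.FAN
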