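import Pool.Agent.FAN.Basic

/-! Definitions used in the statements of the modules: generic points of a codimension two face, the kink weights,
the equivalence relation of labels, tame sets, parametrised families. -/

set_option autoImplicit false

namespace Pool.Agent.FAN

open MeasureTheory

variable {k : ℕ}

/-- generic points of the codimension two face `v_u = v_i = v_l` -/
structure Gen (x : Fan k) (u i l : Lb k) (p : Sp k) : Prop where
  good : Good x p
  trans : ∀ s s', s ≠ s' → ∀ θ : ℂ, ‖θ‖ = 1 → cval (x s - x s') (rot θ p) = 0 →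
    (θ * zt ((x s).1 - (x s').1) p.1).im ≠ 0
  pencil : ∀ s s' t t', s ≠ s' → t ≠ t' → ¬ (s = t ∧ s' = t') → ¬ (s = t' ∧ s' = t) → ∀ θ : ℂ, ‖θ‖ = 1 →
    cval (x s - x s') (rot θ p) = 0 → cval (x t - x t') (rot θ p) = 0 →
    rotc θ (x s - x s') ∈ Submodule.span ℝ {x u - x i, x l - x i} ∧
    rotc θ (x t - x t') ∈ Submodule.span ℝ {x u - x i, x l - x i}

/-- the constraints of the cell `(i, j)`: `v_{c.1} ≥ v_{c.2}` for `c ∈ Cons i j` -/
def Cons (i j : Lb k) : Finset (Lb k × Lb k) :=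
  Finset.univ.filter fun c => c.1 ≠ c.2 ∧ (c.1 = i ∨ c.2 = j)

open Classical in
/-- kink weight of the cell `(i, j)` at the point `rot θ p` with respect to the wall `clin · w = 0` -/
noncomputable def wt (x : Fan k) (i j : Lb k) (θ : ℂ) (p w ν : Sp k) : ℝ :=
  if rot θ p ∈ cell x i j then
    ∑ c ∈ Cons i j, ∑ d ∈ Cons i j,
      if c ≠ d ∧ cval (x c.1 - x c.2) (rot θ p) = 0 ∧ cval (x d.1 - x d.2) (rot θ p) = 0 ∧
          clin (rotc θ (x c.1 - x c.2)) w = 0 then
        Real.sign (clin (rotc θ (x c.1 - x c.2)) ν) * Real.sign (clin (rotc θ (x d.1 - x d.2)) w)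
      else 0
  else 0

/-- total kink at the point `rot θ p` -/
noncomputable def kD (x : Fan k) (h : Lb k → Lb k → ℝ) (θ : ℂ) (p w ν : Sp k) : ℝ :=
  ∑ i, ∑ j, if i = j then 0 else h i j * wt x i j θ p w ν

/-- the direction vectors used in the kink relation of the face `v_u = v_i = v_l` -/
def Dirs (x : Fan k) (u i l : Lb k) (w ν : Sp k) : Prop :=
  clin (x u - x i) w = 0 ∧ clin (x l - x i) w = -1 ∧ clin (x u - x i) ν = 1 ∧ clin (x l - x i) ν = 0

/-- `s` and `s'` are related with respect to the centre `i` -/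
def rel (x : Fan k) (i s s' : Lb k) : Prop :=
  (x s).2 = (x s').2 ∧ ∃ θ : ℂ, ‖θ‖ = 1 ∧ θ • ((x s').1 - (x i).1) = (x s).1 - (x i).1

/-- `e_s - e_{s'}` -/
def ed (s s' : Lb k) : Lb k → ℝ := Pi.single s 1 - Pi.single s' 1

/-- relations between related labels -/
def Rel (x : Fan k) (i : Lb k) : Submodule ℝ (Lb k → ℝ) :=
  Submodule.span ℝ {v | ∃ s s', rel x i s s' ∧ v = ed s s'}

/-- relations between labels with equal `(λ, c)` -/
def EqR (x : Fan k) : Submodule ℝ (Lb k → ℝ) :=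
  Submodule.span ℝ {v | ∃ s s', (x s).2 = (x s').2 ∧ v = ed s s'}

/-- `U` is a small set of labels, all other labels are tame -/
structure Tame (x : Fan k) (U : Finset (Lb k)) : Prop where
  card : U.card ≤ 40
  short : ∀ ρ ∈ Zs x, (Finset.univ.filter fun s => ρ s ≠ 0).card ≤ 4 → ∀ s, ρ s ≠ 0 → s ∈ U
  zero : ∀ h ∈ K x, ∀ i, i ∉ U → ∀ j, j ∉ U → h i j = 0

/-- smooth finite dimensional families of fans -/
abbrev Param (k : ℕ) := Σ M : ℕ, {ψ : (Fin M → ℝ) → Fan k // ContDiff ℝ 1 ψ}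

/-- symmetric fans: `r` classes of size `q`, rotated by `κ`, all other labels have `a_s = 0` -/
structure SymF (x : Fan k) (q r : ℕ) (κ : ℂ) (C : Fin r × Fin q → Lb k) : Prop where
  inj : Function.Injective C
  a : ∀ b m, (x (C (b, m))).1 = κ ^ (m : ℕ) • (x (C (b, ⟨0, Nat.lt_of_le_of_lt (Nat.zero_le _) m.2⟩))).1
  e : ∀ b m, (x (C (b, m))).2 = (x (C (b, ⟨0, Nat.lt_of_le_of_lt (Nat.zero_le _) m.2⟩))).2
  zero : ∀ s, s ∉ Set.range C → (x s).1 = 0
  exact : ∀ ρ ∈ Zs x, ∀ s, s ∉ Set.range C → ρ s = 0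

/-- the functions of the second difference lemma -/
noncomputable def fn {ι : Type} (Z Z' : ι → ℂ) (e e' : ι → ℝ) (c : ι) (φ ε : ℝ) : ℝ :=
  (ang φ * (Z c + (ε : ℂ) * Z' c)).re + (e c + ε * e' c)

/-- measure of the set of angles where all functions are nonnegative -/
noncomputable def Gm {ι : Type} (Z Z' : ι → ℂ) (e e' : ι → ℝ) (ε : ℝ) : ℝ :=
  (volume {φ : ℝ | φ ∈ Set.Icc 0 (2 * Real.pi) ∧ ∀ c, 0 ≤ fn Z Z' e e' c φ ε}).toReal

open Classical in
/-- active constraints at the angle `φ` -/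
noncomputable def actF {ι : Type} [Fintype ι] (Z : ι → ℂ) (e : ι → ℝ) (φ : ℝ) : Finset ι :=
  Finset.univ.filter fun c => (ang φ * Z c).re + e c = 0

open Classical in
/-- the class of `s` with respect to the centre `i` -/
noncomputable def cls (x : Fan k) (i s : Lb k) : Finset (Lb k) := Finset.univ.filter fun s' => rel x i s s'

/-- the column entries of `h` on the class of `s` -/
def colMap (C : Finset (Lb k)) (i : Lb k) : (Lb k → Lb k → ℝ) →ₗ[ℝ] (C → ℝ) where
  toFun h := fun s => h s i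
  map_add' _ _ := rfl
  map_smul' _ _ := rfl

end Pool.Agent.FAN
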