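import Mathlib

set_option autoImplicit false

namespace Pool.Agent.FAN

open MeasureTheory Topology Filter

variable {k : ℕ}

namespace PFaux

open Polynomial

theorem abs_div_eq {a b : ℝ} (ha : a ≠ 0) (hb : b ≠ 0) :
    |a * b| / (a * b) = Real.sign a * Real.sign b := by
  rw [abs_mul]
  rcases lt_or_gt_of_ne ha with h | h <;> rcases lt_or_gt_of_ne hb with h' | h'
  · rw [abs_of_neg h, abs_of_neg h', Real.sign_of_neg h, Real.sign_of_neg h']
    field_simp
  · rw [abs_of_neg h, abs_of_pos h', Real.sign_of_neg h, Real.sign_of_pos h']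
    field_simp
  · rw [abs_of_pos h, abs_of_neg h', Real.sign_of_pos h, Real.sign_of_neg h']
    field_simp
  · rw [abs_of_pos h, abs_of_pos h', Real.sign_of_pos h, Real.sign_of_pos h']
    field_simp

/-- the quadratic polynomial of the denominator -/
noncomputable def F (a b : ℝ × ℝ) : ℝ[X] := (C a.1 * X + C a.2) * (C b.1 * X + C b.2)

theorem eval_F (a b : ℝ × ℝ) (s : ℝ) : (F a b).eval s = (a.1 * s + a.2) * (b.1 * s + b.2) := by
  simp [F]

theorem lin_ne {a : ℝ × ℝ} (h : a.1 ≠ 0 ∨ a.2 ≠ 0) : (C a.1 * X + C a.2 : ℝ[X]) ≠ 0 := by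
  intro h0
  rcases h with h | h
  · apply h
    have := congrArg (fun p : ℝ[X] => p.coeff 1) h0
    simpa using this
  · apply h
    have := congrArg (fun p : ℝ[X] => p.coeff 0) h0
    simpa using this

theorem F_ne {a b : ℝ × ℝ} (h : a.1 * b.2 - a.2 * b.1 ≠ 0) : F a b ≠ 0 := by
  refine mul_ne_zero (lin_ne ?_) (lin_ne ?_)
  · by_contra hc
    push Not at hc
    apply h
    rw [hc.1, hc.2]; ring
  · by_contra hc
    push Not at hc
    apply h
    rw [hc.1, hc.2]; ring

theorem tendsto_term {q : ℝ} {a b : ℝ × ℝ} (h : a.1 * b.2 - a.2 * b.1 ≠ 0) :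
    Tendsto (fun s : ℝ => s * (q * (|a.1 * b.2 - a.2 * b.1| / ((a.1 * s + a.2) * (b.1 * s + b.2)))))
      (𝓝[≠] 0) (𝓝 (q * ((if a.2 = 0 then Real.sign a.1 * Real.sign b.2 else 0) +
        (if b.2 = 0 then Real.sign b.1 * Real.sign a.2 else 0)))) := by
  obtain ⟨a1, a2⟩ := a
  obtain ⟨b1, b2⟩ := b
  simp only at h ⊢
  by_cases ha : a2 = 0
  · subst ha
    have hab : a1 * b2 ≠ 0 := by simpa using h
    have ha1 : a1 ≠ 0 := left_ne_zero_of_mul hab
    have hb2 : b2 ≠ 0 := right_ne_zero_of_mul hab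
    rw [if_pos rfl, if_neg hb2, add_zero, ← abs_div_eq ha1 hb2]
    have h1 : Tendsto (fun s : ℝ => q * (|a1 * b2| / (a1 * (b1 * s + b2)))) (𝓝[≠] 0)
        (𝓝 (q * (|a1 * b2| / (a1 * (b1 * 0 + b2))))) := by
      refine Tendsto.mono_left ?_ nhdsWithin_le_nhds
      refine ContinuousAt.tendsto ?_
      refine continuousAt_const.mul (continuousAt_const.div (by fun_prop) ?_)
      rw [mul_zero, zero_add]
      exact hab
    rw [mul_zero, zero_add] at h1
    refine h1.congr' ?_
    filter_upwards [self_mem_nhdsWithin] with s hs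
    have hs' : s ≠ 0 := hs
    rw [zero_mul, sub_zero, add_zero]
    by_cases hz : b1 * s + b2 = 0
    · rw [hz]; simp
    · field_simp
  · by_cases hb : b2 = 0
    · subst hb
      have hab : a2 * b1 ≠ 0 := by
        intro h0
        apply h
        rw [mul_zero, h0, sub_zero]
      have ha2 : a2 ≠ 0 := left_ne_zero_of_mul hab
      have hb1 : b1 ≠ 0 := right_ne_zero_of_mul hab
      rw [if_neg ha, if_pos rfl, zero_add, ← abs_div_eq hb1 ha2]
      have h1 : Tendsto (fun s : ℝ => q * (|b1 * a2| / (b1 * (a1 * s + a2)))) (𝓝[≠] 0)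
          (𝓝 (q * (|b1 * a2| / (b1 * (a1 * 0 + a2))))) := by
        refine Tendsto.mono_left ?_ nhdsWithin_le_nhds
        refine ContinuousAt.tendsto ?_
        refine continuousAt_const.mul (continuousAt_const.div (by fun_prop) ?_)
        rw [mul_zero, zero_add]
        exact mul_ne_zero hb1 ha2
      rw [mul_zero, zero_add] at h1
      refine h1.congr' ?_
      filter_upwards [self_mem_nhdsWithin] with s hs
      have hs' : s ≠ 0 := hs
      rw [mul_zero, zero_sub, abs_neg, mul_comm a2 b1, add_zero]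
      by_cases hz : a1 * s + a2 = 0
      · rw [hz]; simp
      · field_simp
    · rw [if_neg ha, if_neg hb, add_zero, mul_zero]
      have h1 : Tendsto (fun s : ℝ => s * (q * (|a1 * b2 - a2 * b1| / ((a1 * s + a2) * (b1 * s + b2)))))
          (𝓝[≠] 0) (𝓝 (0 * (q * (|a1 * b2 - a2 * b1| / ((a1 * 0 + a2) * (b1 * 0 + b2)))))) := by
        refine Tendsto.mono_left ?_ nhdsWithin_le_nhds
        refine ContinuousAt.tendsto ?_
        refine continuousAt_id.mul (continuousAt_const.mul (continuousAt_const.div (by fun_prop) ?_))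
        rw [mul_zero, zero_add, mul_zero, zero_add]
        exact mul_ne_zero ha hb
      rw [zero_mul] at h1
      exact h1

end PFaux

open PFaux Polynomial in
theorem partial_fractions {ι : Type} [Fintype ι] (q : ι → ℝ) (α β : ι → ℝ × ℝ) {V : Set (ℝ × ℝ)}
    (hV : IsOpen V) (hne : V.Nonempty) (hdet : ∀ c, (α c).1 * (β c).2 - (α c).2 * (β c).1 ≠ 0)
    (hα : ∀ X ∈ V, ∀ c, (α c).1 * X.1 + (α c).2 * X.2 ≠ 0)
    (hβ : ∀ X ∈ V, ∀ c, (β c).1 * X.1 + (β c).2 * X.2 ≠ 0)
    (H : ∀ X ∈ V, ∑ c, q c * (|(α c).1 * (β c).2 - (α c).2 * (β c).1| /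
      (((α c).1 * X.1 + (α c).2 * X.2) * ((β c).1 * X.1 + (β c).2 * X.2))) = 0) :
    ∑ c, q c * ((if (α c).2 = 0 then Real.sign (α c).1 * Real.sign (β c).2 else 0) +
      (if (β c).2 = 0 then Real.sign (β c).1 * Real.sign (α c).2 else 0)) = 0 := by
  classical
  -- a point with nonzero second coordinate
  obtain ⟨X1, hX1⟩ := hne
  obtain ⟨t, ht0, htV⟩ : ∃ t : ℝ, t ≠ 0 ∧ (X1.1, t) ∈ V := by
    have h1 : {t : ℝ | (X1.1, t) ∈ V} ∈ 𝓝 X1.2 := by
      have h2 : ContinuousAt (fun t : ℝ => (X1.1, t)) X1.2 := by fun_prop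
      exact h2.preimage_mem_nhds (hV.mem_nhds hX1)
    obtain ⟨t, ht1, ht2⟩ := (dense_compl_singleton (0 : ℝ)).inter_nhds_nonempty h1
    exact ⟨t, ht1, ht2⟩
  -- the identity on an interval
  have hI : {s : ℝ | (t * s, t) ∈ V} ∈ 𝓝 (X1.1 / t) := by
    have h2 : ContinuousAt (fun s : ℝ => (t * s, t)) (X1.1 / t) := by fun_prop
    refine h2.preimage_mem_nhds (hV.mem_nhds ?_)
    have h3 : t * (X1.1 / t) = X1.1 := by field_simp
    rw [h3]
    exact htV
  have hIne : ∀ s : ℝ, (t * s, t) ∈ V → ∀ c, (F (α c) (β c)).eval s ≠ 0 := by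
    intro s hs c
    rw [eval_F]
    have h1 := hα _ hs c
    have h2 := hβ _ hs c
    simp only at h1 h2
    refine mul_ne_zero ?_ ?_
    · intro h0
      apply h1
      have : (α c).1 * (t * s) + (α c).2 * t = t * ((α c).1 * s + (α c).2) := by ring
      rw [this, h0, mul_zero]
    · intro h0
      apply h2
      have : (β c).1 * (t * s) + (β c).2 * t = t * ((β c).1 * s + (β c).2) := by ring
      rw [this, h0, mul_zero]
  have hIsum : ∀ s : ℝ, (t * s, t) ∈ V →
      ∑ c, q c * (|(α c).1 * (β c).2 - (α c).2 * (β c).1| / (F (α c) (β c)).eval s) = 0 := by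
    intro s hs
    have h1 := H _ hs
    simp only at h1
    have h2 : ∑ c, q c * (|(α c).1 * (β c).2 - (α c).2 * (β c).1| / (F (α c) (β c)).eval s) =
        t ^ 2 * ∑ c, q c * (|(α c).1 * (β c).2 - (α c).2 * (β c).1| /
          (((α c).1 * (t * s) + (α c).2 * t) * ((β c).1 * (t * s) + (β c).2 * t))) := by
      rw [Finset.mul_sum]
      refine Finset.sum_congr rfl fun c _ => ?_
      have h3 := hIne s hs c
      rw [eval_F] at h3 ⊢
      have h4 : ((α c).1 * (t * s) + (α c).2 * t) * ((β c).1 * (t * s) + (β c).2 * t) =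
          t ^ 2 * (((α c).1 * s + (α c).2) * ((β c).1 * s + (β c).2)) := by ring
      rw [h4, ← div_div]
      have h5 : t ^ 2 ≠ 0 := pow_ne_zero _ ht0
      field_simp
    rw [h2, h1, mul_zero]
  -- the polynomial
  let P : ℝ[X] := ∑ c, C (q c * |(α c).1 * (β c).2 - (α c).2 * (β c).1|) *
    ∏ c' ∈ Finset.univ.erase c, F (α c') (β c')
  have hPe : ∀ s : ℝ, (∀ c, (F (α c) (β c)).eval s ≠ 0) → P.eval s =
      (∏ c, (F (α c) (β c)).eval s) *
        ∑ c, q c * (|(α c).1 * (β c).2 - (α c).2 * (β c).1| / (F (α c) (β c)).eval s) := by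
    intro s hs
    rw [Finset.mul_sum, eval_finset_sum]
    refine Finset.sum_congr rfl fun c _ => ?_
    rw [eval_mul, eval_C, eval_prod, ← Finset.mul_prod_erase Finset.univ _ (Finset.mem_univ c)]
    have h1 := hs c
    field_simp
  have hP : P = 0 := by
    refine Polynomial.eq_zero_of_infinite_isRoot P ?_
    refine Set.Infinite.mono ?_ (infinite_of_mem_nhds _ hI)
    intro s hs
    have hs' : (t * s, t) ∈ V := hs
    show P.eval s = 0
    rw [hPe s (hIne s hs'), hIsum s hs', mul_zero]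
  -- near zero
  have hev : ∀ᶠ s in 𝓝[≠] (0 : ℝ), ∀ c, (F (α c) (β c)).eval s ≠ 0 := by
    rw [eventually_all]
    intro c
    have hfin : {s : ℝ | (F (α c) (β c)).IsRoot s}.Finite :=
      Polynomial.finite_setOf_isRoot (F_ne (hdet c))
    have h1 : ({s : ℝ | (F (α c) (β c)).IsRoot s} \ {0})ᶜ ∈ 𝓝 (0 : ℝ) := by
      refine (hfin.subset Set.diff_subset).isClosed.isOpen_compl.mem_nhds ?_
      simp
    filter_upwards [nhdsWithin_le_nhds h1, self_mem_nhdsWithin] with s hs hs0 h0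
    exact hs ⟨h0, hs0⟩
  have hlim : Tendsto (fun s : ℝ => ∑ c, s * (q c * (|(α c).1 * (β c).2 - (α c).2 * (β c).1| /
      (((α c).1 * s + (α c).2) * ((β c).1 * s + (β c).2))))) (𝓝[≠] 0)
      (𝓝 (∑ c, q c * ((if (α c).2 = 0 then Real.sign (α c).1 * Real.sign (β c).2 else 0) +
        (if (β c).2 = 0 then Real.sign (β c).1 * Real.sign (α c).2 else 0)))) :=
    tendsto_finset_sum _ fun c _ => tendsto_term (hdet c)
  have hzero : Tendsto (fun s : ℝ => ∑ c, s * (q c * (|(α c).1 * (β c).2 - (α c).2 * (β c).1| /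
      (((α c).1 * s + (α c).2) * ((β c).1 * s + (β c).2))))) (𝓝[≠] 0) (𝓝 0) := by
    refine tendsto_const_nhds.congr' ?_
    filter_upwards [hev] with s hs
    rw [← Finset.mul_sum]
    have h1 := hPe s hs
    rw [hP, eval_zero] at h1
    have h2 : ∏ c, (F (α c) (β c)).eval s ≠ 0 := Finset.prod_ne_zero_iff.2 fun c _ => hs c
    have h3 := (mul_eq_zero.1 h1.symm).resolve_left h2
    simp only [eval_F] at h3
    rw [h3, mul_zero]
  exact tendsto_nhds_unique hlim hzero

end Pool.Agent.FAN
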