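import Pool.Agent.FAN.SD
import Pool.Agent.FAN.GEN
import Pool.Agent.FAN.PF

/-! Module KR: the kink relation. -/

set_option autoImplicit false

namespace Pool.Agent.FAN

open MeasureTheory Topology Filter

variable {k : ℕ}

/-! ### linear algebra -/

theorem kr_nd {x : Fan k} (hx : Nondeg x) {ρ : Lb k → ℝ} (h0 : ∑ s, ρ s = 0)
    (h : ∑ s, ρ s • x s = 0) : ρ = 0 := by
  refine hx ρ h0 ?_ ?_
  · have := congrArg (fun c : Cf k => c.1) h
    simpa [Prod.fst_sum] using this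
  · have := congrArg (fun c : Cf k => c.2.1) h
    simpa [Prod.snd_sum, Prod.fst_sum] using this

theorem kr_ed_sum (s s' : Lb k) : ∑ t, ed s s' t = 0 := by
  simp [ed]

theorem kr_ed_smul (x : Fan k) (s s' : Lb k) : ∑ t, ed s s' t • x t = x s - x s' := by
  simp [ed, sub_smul, Finset.sum_sub_distrib, Pi.single_apply]

theorem kr_sub_ne {x : Fan k} (hx : Nondeg x) {s s' : Lb k} (h : s ≠ s') : x s - x s' ≠ 0 := by
  intro h0
  have := kr_nd hx (kr_ed_sum s s') (by rw [kr_ed_smul, h0])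
  have h1 := congrFun this s
  simp [ed, h] at h1

theorem kr_rotc_inj {θ : ℂ} (hθ : ‖θ‖ = 1) {c : Cf k} (h : rotc θ c = 0) : c = 0 := by
  have hne : θ ≠ 0 := fun h0 => by rw [h0, norm_zero] at hθ; exact zero_ne_one hθ
  have h1 := congrArg (fun c : Cf k => c.1) h
  have h2 := congrArg (fun c : Cf k => c.2) h
  simp only [rotc, Prod.fst_zero, Prod.snd_zero] at h1 h2
  rw [smul_eq_zero] at h1
  exact Prod.ext (h1.resolve_left hne) h2

/-- coefficients in the pencil -/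
theorem kr_coef {x : Fan k} {u i l : Lb k} {w ν : Sp k} (hd : Dirs x u i l w ν) {v : Cf k}
    (hv : v ∈ Submodule.span ℝ {x u - x i, x l - x i}) :
    v = (clin v ν) • (x u - x i) + (-(clin v w)) • (x l - x i) := by
  obtain ⟨a, b, rfl⟩ := Submodule.mem_span_pair.mp hv
  obtain ⟨d1, d2, d3, d4⟩ := hd
  have e1 : clin (a • (x u - x i) + b • (x l - x i)) ν = a := by
    rw [clin_add, clin_smul, clin_smul, d3, d4]; ring
  have e2 : clin (a • (x u - x i) + b • (x l - x i)) w = -b := by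
    rw [clin_add, clin_smul, clin_smul, d1, d2]; ring
  rw [e1, e2, neg_neg]

theorem kr_pen_zero {x : Fan k} {u i l : Lb k} {v : Cf k}
    (hv : v ∈ Submodule.span ℝ {x u - x i, x l - x i}) {p : Sp k} (h1 : cval (x u - x i) p = 0)
    (h2 : cval (x l - x i) p = 0) : cval v p = 0 := by
  obtain ⟨a, b, rfl⟩ := Submodule.mem_span_pair.mp hv
  rw [cval_add, cval_smul, cval_smul, h1, h2]; ring

theorem kr_cindep {a b : ℂ × ℂ} (h : cdet a b ≠ 0) {P Q : ℂ} (h0 : P • a + Q • b = 0) :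
    P = 0 ∧ Q = 0 := by
  have h1 := congrArg Prod.fst h0
  have h2 := congrArg Prod.snd h0
  simp only [Prod.fst_add, Prod.snd_add, Prod.smul_fst, Prod.smul_snd, smul_eq_mul, Prod.fst_zero,
    Prod.snd_zero] at h1 h2
  unfold cdet at h
  constructor
  · have : P * (a.1 * b.2 - a.2 * b.1) = 0 := by linear_combination b.2 * h1 - b.1 * h2
    exact (mul_eq_zero.mp this).resolve_right h
  · have : Q * (a.1 * b.2 - a.2 * b.1) = 0 := by linear_combination a.1 * h2 - a.2 * h1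
    exact (mul_eq_zero.mp this).resolve_right h

/-- the angles at which a given wall is rotated into the pencil -/
theorem kr_two {x : Fan k} {u i l : Lb k}
    (hI : cdet ((x u).1 - (x i).1) ((x l).1 - (x i).1) ≠ 0) {v : Cf k} (hv : v ≠ 0) {θ₀ θ : ℂ}
    (h0 : ‖θ₀‖ = 1) (h1 : ‖θ‖ = 1) (hs0 : rotc θ₀ v ∈ Submodule.span ℝ {x u - x i, x l - x i})
    (hs1 : rotc θ v ∈ Submodule.span ℝ {x u - x i, x l - x i}) : θ = θ₀ ∨ θ = -θ₀ := by
  obtain ⟨a₀, b₀, e0⟩ := Submodule.mem_span_pair.mp hs0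
  obtain ⟨a, b, e1⟩ := Submodule.mem_span_pair.mp hs1
  have hθ₀ : θ₀ ≠ 0 := fun h => by rw [h, norm_zero] at h0; exact zero_ne_one h0
  have f0 : a₀ • ((x u).1 - (x i).1) + b₀ • ((x l).1 - (x i).1) = θ₀ • v.1 :=
    congrArg (fun c : Cf k => c.1) e0
  have f1 : a • ((x u).1 - (x i).1) + b • ((x l).1 - (x i).1) = θ • v.1 :=
    congrArg (fun c : Cf k => c.1) e1
  have key : (θ * a₀ - θ₀ * a) • ((x u).1 - (x i).1) + (θ * b₀ - θ₀ * b) • ((x l).1 - (x i).1) = 0 := by
    have g0 : θ • (a₀ • ((x u).1 - (x i).1) + b₀ • ((x l).1 - (x i).1)) = (θ * θ₀) • v.1 := by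
      rw [f0, smul_smul]
    have g1 : θ₀ • (a • ((x u).1 - (x i).1) + b • ((x l).1 - (x i).1)) = (θ * θ₀) • v.1 := by
      rw [f1, smul_smul, mul_comm]
    have g2 := g0.trans g1.symm
    have hr : ∀ (r : ℝ) (z : ℂ × ℂ), r • z = (r : ℂ) • z := fun r z => by
      ext <;> simp
    rw [hr, hr, hr, hr, smul_add, smul_add, smul_smul, smul_smul, smul_smul, smul_smul] at g2
    rw [sub_smul, sub_smul]
    rw [← sub_eq_zero] at g2
    rw [← g2]
    abel
  obtain ⟨k1, k2⟩ := kr_cindep hI key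
  have hreal : ∀ (r₀ r : ℝ), r₀ ≠ 0 → θ * r₀ - θ₀ * r = 0 → θ = θ₀ ∨ θ = -θ₀ := by
    intro r₀ r hr₀ he
    have hr₀' : (r₀ : ℂ) ≠ 0 := by exact_mod_cast hr₀
    have he' : θ = θ₀ * ((r / r₀ : ℝ) : ℂ) := by
      push_cast
      field_simp
      linear_combination he
    have hn : ‖((r / r₀ : ℝ) : ℂ)‖ = 1 := by
      have := congrArg norm he'
      rw [norm_mul, h0, h1, one_mul] at this
      exact this.symm
    rw [Complex.norm_real, Real.norm_eq_abs] at hn
    rcases (abs_eq (zero_le_one)).mp hn with h | h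
    · left; rw [he', h]; simp
    · right; rw [he', h]; simp
  by_cases ha : a₀ = 0
  · by_cases hb : b₀ = 0
    · exfalso
      rw [ha, hb, zero_smul, zero_smul, add_zero] at e0
      exact hv (kr_rotc_inj h0 e0.symm)
    · exact hreal b₀ b hb k2
  · exact hreal a₀ a ha k1

/-- the set of relevant angles -/
def krSet (x : Fan k) (u i l : Lb k) : Set ℂ :=
  {θ | ‖θ‖ = 1 ∧ ∃ s s', s ≠ s' ∧ rotc θ (x s - x s') ∈ Submodule.span ℝ {x u - x i, x l - x i}}

theorem kr_finite {x : Fan k} (hx : Nondeg x) {u i l : Lb k}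
    (hI : cdet ((x u).1 - (x i).1) ((x l).1 - (x i).1) ≠ 0) : (krSet x u i l).Finite := by
  have : krSet x u i l ⊆ ⋃ s : Lb k, ⋃ s' : Lb k, {θ : ℂ | ‖θ‖ = 1 ∧ s ≠ s' ∧
      rotc θ (x s - x s') ∈ Submodule.span ℝ {x u - x i, x l - x i}} := by
    rintro θ ⟨h1, s, s', h2, h3⟩
    simp only [Set.mem_iUnion]
    exact ⟨s, s', h1, h2, h3⟩
  refine Set.Finite.subset (Set.finite_iUnion fun s => Set.finite_iUnion fun s' => ?_) this
  by_cases hne : ∃ θ₀ : ℂ, ‖θ₀‖ = 1 ∧ s ≠ s' ∧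
      rotc θ₀ (x s - x s') ∈ Submodule.span ℝ {x u - x i, x l - x i}
  · obtain ⟨θ₀, h1, h2, h3⟩ := hne
    refine Set.Finite.subset (Set.toFinite ({θ₀, -θ₀} : Set ℂ)) ?_
    rintro θ ⟨g1, g2, g3⟩
    exact kr_two hI (kr_sub_ne hx h2) h1 g1 h3 g3
  · have : {θ : ℂ | ‖θ‖ = 1 ∧ s ≠ s' ∧
        rotc θ (x s - x s') ∈ Submodule.span ℝ {x u - x i, x l - x i}} = ∅ := by
      rw [Set.eq_empty_iff_forall_notMem]
      rintro θ h
      exact hne ⟨θ, h⟩
    rw [this]
    exact Set.finite_empty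

/-- at most two independent walls in the pencil -/
theorem kr_li {x : Fan k} (hx : Nondeg x) {u i l : Lb k} {θ : ℂ} (hθ : ‖θ‖ = 1)
    (A : Finset (Lb k × Lb k)) (f : Lb k × Lb k → Lb k)
    (hA : ∀ c ∈ A, c.1 ≠ c.2) (hf : ∀ c ∈ A, f c = c.1 ∨ f c = c.2)
    (hsep : ∀ c ∈ A, ∀ d ∈ A, d ≠ c → f c ≠ d.1 ∧ f c ≠ d.2)
    (hspan : ∀ c ∈ A, rotc θ (x c.1 - x c.2) ∈ Submodule.span ℝ {x u - x i, x l - x i}) :
    A.card ≤ 2 := by
  classical
  set S := Submodule.span ℝ {x u - x i, x l - x i} with hS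
  have hfr : Module.finrank ℝ S ≤ 2 := by
    have h1 := finrank_span_finset_le_card (R := ℝ) ({x u - x i, x l - x i} : Finset (Cf k))
    have h2 : (({x u - x i, x l - x i} : Finset (Cf k)) : Set (Cf k)) = {x u - x i, x l - x i} := by
      simp
    unfold Set.finrank at h1
    rw [h2] at h1
    exact h1.trans Finset.card_le_two
  have hli : LinearIndependent ℝ (fun c : A => (⟨rotc θ (x c.1.1 - x c.1.2), hspan c.1 c.2⟩ : S)) := by
    rw [Fintype.linearIndependent_iff]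
    intro g hg c₀
    have h1 : ∑ c : A, g c • rotc θ (x c.1.1 - x c.1.2) = 0 := by
      have := congrArg (Submodule.subtype S) hg
      simpa using this
    have h2 : rotc θ (∑ c : A, g c • (x c.1.1 - x c.1.2)) = 0 := by
      rw [← h1]
      have hlin : ∀ (B : Finset A), rotc θ (∑ c ∈ B, g c • (x c.1.1 - x c.1.2)) =
          ∑ c ∈ B, g c • rotc θ (x c.1.1 - x c.1.2) := by
        intro B
        induction B using Finset.induction_on with
        | empty => simp [rotc]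
        | insert c B hc ih =>
          rw [Finset.sum_insert hc, Finset.sum_insert hc, rotc_add, rotc_smul, ih]
      exact hlin Finset.univ
    have h3 := kr_rotc_inj hθ h2
    set ρ : Lb k → ℝ := fun t => ∑ c : A, g c * ed c.1.1 c.1.2 t with hρ
    have h4 : ρ = 0 := by
      refine kr_nd hx ?_ ?_
      · rw [hρ]
        simp only
        rw [Finset.sum_comm]
        refine Finset.sum_eq_zero fun c _ => ?_
        rw [← Finset.mul_sum, kr_ed_sum, mul_zero]
      · rw [hρ]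
        simp only [Finset.sum_smul]
        rw [Finset.sum_comm, ← h3]
        refine Finset.sum_congr rfl fun c _ => ?_
        rw [← kr_ed_smul, Finset.smul_sum]
        refine Finset.sum_congr rfl fun t _ => ?_
        rw [mul_smul]
    have h5 := congrFun h4 (f c₀.1)
    rw [hρ] at h5
    simp only [Pi.zero_apply] at h5
    rw [Finset.sum_eq_single c₀] at h5
    · have h6 : ed c₀.1.1 c₀.1.2 (f c₀.1) ≠ 0 := by
        have hne := hA c₀.1 c₀.2
        rcases hf c₀.1 c₀.2 with h | h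
        · rw [h]; simp [ed, hne]
        · rw [h]; simp [ed, hne.symm]
      exact (mul_eq_zero.mp h5).resolve_right h6
    · intro c _ hc
      obtain ⟨g1, g2⟩ := hsep c₀.1 c₀.2 c.1 c.2 (fun h => hc (Subtype.ext h))
      have : ed c.1.1 c.1.2 (f c₀.1) = 0 := by
        simp [ed, g1, g2]
      rw [this, mul_zero]
    · intro h
      exact absurd (Finset.mem_univ _) h
  have := hli.fintype_card_le_finrank
  rw [Fintype.card_coe] at this
  exact this.trans hfr

theorem kr_mem_Cons {i j : Lb k} {c : Lb k × Lb k} :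
    c ∈ Cons i j ↔ c.1 ≠ c.2 ∧ (c.1 = i ∨ c.2 = j) := by
  simp [Cons]

/-- different constraints are different walls -/
theorem kr_cons_ne {i j : Lb k} (hij : i ≠ j) {c d : Lb k × Lb k} (hc : c ∈ Cons i j)
    (hd : d ∈ Cons i j) (hcd : c ≠ d) :
    ¬ (c.1 = d.1 ∧ c.2 = d.2) ∧ ¬ (c.1 = d.2 ∧ c.2 = d.1) := by
  rw [kr_mem_Cons] at hc hd
  refine ⟨fun h => hcd (Prod.ext h.1 h.2), ?_⟩
  rintro ⟨h1, h2⟩
  rcases hc.2 with h | h <;> rcases hd.2 with h' | h'
  · exact hc.1 (by rw [h, h2, h'])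
  · exact hij (by rw [← h, h1, h'])
  · exact hij (by rw [← h', ← h2, h])
  · exact hc.1 (by rw [h, h1, h'])

theorem kr_mem_cell_iff {x : Fan k} {i j : Lb k} {q : Sp k} :
    q ∈ cell x i j ↔ ∀ c ∈ Cons i j, 0 ≤ cval (x c.1 - x c.2) q := by
  constructor
  · intro h c hc
    rw [kr_mem_Cons] at hc
    rw [cval_sub]
    rcases hc.2 with h' | h'
    · rw [h']; linarith [(h c.2).1]
    · rw [h']; linarith [(h c.1).2]
  · intro h s
    constructor
    · by_cases hs : s = i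
      · rw [hs]
      · have := h (i, s) (kr_mem_Cons.mpr ⟨fun h' => hs h'.symm, Or.inl rfl⟩)
        rw [cval_sub] at this
        simp only at this
        linarith
    · by_cases hs : s = j
      · rw [hs]
      · have := h (s, j) (kr_mem_Cons.mpr ⟨hs, Or.inr rfl⟩)
        rw [cval_sub] at this
        simp only at this
        linarith

/-- at a generic point at most two constraints are active -/
theorem kr_active_card {x : Fan k} (hx : Nondeg x) {u i l : Lb k} {p : Sp k} (hp : Gen x u i l p)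
    {θ : ℂ} (hθ : ‖θ‖ = 1) {i' j' : Lb k} (hij : i' ≠ j') (hc : rot θ p ∈ cell x i' j')
    (A : Finset (Lb k × Lb k)) (hA : A ⊆ Cons i' j')
    (hact : ∀ c ∈ A, cval (x c.1 - x c.2) (rot θ p) = 0) : A.card ≤ 2 := by
  classical
  by_contra hcon
  push Not at hcon
  -- all the walls in `A` are in the pencil
  have hpen : ∀ c ∈ A, rotc θ (x c.1 - x c.2) ∈ Submodule.span ℝ {x u - x i, x l - x i} := by
    intro c hcA
    obtain ⟨d, hdA, hdc⟩ := Finset.exists_mem_ne (by omega : 1 < A.card) c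
    obtain ⟨n1, n2⟩ := kr_cons_ne hij (hA hcA) (hA hdA) hdc.symm
    exact (hp.pencil c.1 c.2 d.1 d.2 (kr_mem_Cons.mp (hA hcA)).1 (kr_mem_Cons.mp (hA hdA)).1 n1 n2 θ hθ
      (hact c hcA) (hact d hdA)).1
  have hntie : cval (x i') (rot θ p) ≠ cval (x j') (rot θ p) := by
    intro htie
    have hall : ∀ s s', cval (x s - x s') (rot θ p) = 0 := by
      intro s s'
      rw [cval_sub]
      have h1 := hc s
      have h2 := hc s'
      linarith [h1.1, h1.2, h2.1, h2.2]
    set z0 : Lb k := ⟨0, by omega⟩ with hz0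
    set z1 : Lb k := ⟨1, by omega⟩ with hz1
    set z2 : Lb k := ⟨2, by omega⟩ with hz2
    set z3 : Lb k := ⟨3, by omega⟩ with hz3
    have n01 : z0 ≠ z1 := by simp [hz0, hz1]
    have n02 : z0 ≠ z2 := by simp [hz0, hz2]
    have n03 : z0 ≠ z3 := by simp [hz0, hz3]
    have n12 : z1 ≠ z2 := by simp [hz1, hz2]
    have n13 : z1 ≠ z3 := by simp [hz1, hz3]
    have n23 : z2 ≠ z3 := by simp [hz2, hz3]
    set B : Finset (Lb k × Lb k) := {(z0, z1), (z0, z2), (z0, z3)} with hB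
    have hBc : B.card = 3 := by
      rw [hB, Finset.card_eq_three]
      exact ⟨_, _, _, fun h => n12 (congrArg Prod.snd h), fun h => n13 (congrArg Prod.snd h),
        fun h => n23 (congrArg Prod.snd h), rfl⟩
    have hB1 : ∀ c ∈ B, c.1 = z0 ∧ c.2 ≠ z0 := by
      intro c hcB
      rw [hB] at hcB
      simp only [Finset.mem_insert, Finset.mem_singleton] at hcB
      rcases hcB with rfl | rfl | rfl
      · exact ⟨rfl, n01.symm⟩
      · exact ⟨rfl, n02.symm⟩
      · exact ⟨rfl, n03.symm⟩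
    have := kr_li (u := u) (i := i) (l := l) hx hθ B Prod.snd
      (fun c hcB => by rw [(hB1 c hcB).1]; exact (hB1 c hcB).2.symm)
      (fun c _ => Or.inr rfl)
      (fun c hcB d hdB hdc => by
        refine ⟨by rw [(hB1 d hdB).1]; exact (hB1 c hcB).2, fun h => hdc ?_⟩
        exact Prod.ext ((hB1 d hdB).1.trans (hB1 c hcB).1.symm) h.symm)
      (fun c hcB => by
        obtain ⟨d, hdB, hdc⟩ := Finset.exists_mem_ne (by omega : 1 < B.card) c
        refine (hp.pencil c.1 c.2 d.1 d.2 ?_ ?_ ?_ ?_ θ hθ (hall _ _) (hall _ _)).1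
        · rw [(hB1 c hcB).1]; exact (hB1 c hcB).2.symm
        · rw [(hB1 d hdB).1]; exact (hB1 d hdB).2.symm
        · rintro ⟨e1, e2⟩; exact hdc (Prod.ext e1.symm e2.symm)
        · rintro ⟨e1, e2⟩; exact (hB1 c hcB).2 (by rw [e2, (hB1 d hdB).1]))
    omega
  have := kr_li (u := u) (i := i) (l := l) hx hθ A (fun c => if c.1 = i' then c.2 else c.1)
    (fun c hcA => (kr_mem_Cons.mp (hA hcA)).1)
    (fun c _ => by by_cases h : c.1 = i' <;> simp [h])
    (fun c hcA d hdA hdc => by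
      have h1 := hact c hcA
      have h2 := hact d hdA
      rw [cval_sub] at h1 h2
      obtain ⟨c1, c2⟩ := kr_mem_Cons.mp (hA hcA)
      obtain ⟨d1, d2⟩ := kr_mem_Cons.mp (hA hdA)
      by_cases hc' : c.1 = i'
      · simp only [hc', if_true]
        rw [hc'] at h1 c1
        by_cases hd' : d.1 = i'
        · rw [hd']
          refine ⟨c1.symm, fun h => hdc (Prod.ext (hd'.trans hc'.symm) h.symm)⟩
        · have hd2 := d2.resolve_left hd'
          rw [hd2] at h2 ⊢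
          refine ⟨fun h => hntie ?_, fun h => hntie ?_⟩
          · rw [h] at h1
            linarith
          · rw [h] at h1
            linarith
      · have hc2 := c2.resolve_left hc'
        simp only [hc', if_false]
        rw [hc2] at h1 c1
        by_cases hd' : d.1 = i'
        · rw [hd'] at h2 ⊢
          refine ⟨hc', fun h => hntie ?_⟩
          rw [h] at h1
          linarith
        · have hd2 := d2.resolve_left hd'
          rw [hd2]
          exact ⟨fun h => hdc (Prod.ext h.symm (hd2.trans hc2.symm)), c1⟩)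
    hpen
  omega

/-! ### circle averages and second differences -/

theorem kr_val (θ : ℂ) (c : Cf k) (p : Sp k) : (θ * zt c.1 p.1).re + et c.2 p.2 = cval c (rot θ p) := by
  simp only [cval, rot, zt_smul_right]

theorem kr_fn (θ : ℂ) (c : Cf k) (p v : Sp k) (ε : ℝ) :
    (θ * (zt c.1 p.1 + (ε : ℂ) * zt c.1 v.1)).re + (et c.2 p.2 + ε * ∑ l, c.2.1 l * v.2 l) =
      cval c (rot θ (p + ε • v)) := by
  rw [← kr_val]
  have h1 : zt c.1 (p + ε • v).1 = zt c.1 p.1 + (ε : ℂ) * zt c.1 v.1 := by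
    rw [Prod.fst_add, Prod.smul_fst, zt_add_right, zt_rsmul_right]
  have h2 : et c.2 (p + ε • v).2 = et c.2 p.2 + ε * ∑ l, c.2.1 l * v.2 l := by
    simp only [et, Prod.snd_add, Prod.smul_snd, Pi.add_apply, Pi.smul_apply, smul_eq_mul, mul_add,
      Finset.sum_add_distrib, Finset.mul_sum]
    have : ∑ x : Fin k, c.2.1 x * (ε * v.2 x) = ∑ x : Fin k, ε * (c.2.1 x * v.2 x) :=
      Finset.sum_congr rfl fun _ _ => by ring
    rw [this]
    ring
  rw [h1, h2]

theorem kr_good_open (x : Fan k) : IsOpen {p : Sp k | Good x p} := by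
  have : {p : Sp k | Good x p} = ⋂ s, ⋂ s', {p | s ≠ s' →
      zt ((x s).1 - (x s').1) p.1 ≠ 0 ∨ et ((x s).2 - (x s').2) p.2 ≠ 0} := by
    ext p; simp [Good]
  rw [this]
  refine isOpen_iInter_of_finite fun s => isOpen_iInter_of_finite fun s' => ?_
  by_cases h : s = s'
  · simp [h]
  · have h2 : {p : Sp k | s ≠ s' → zt ((x s).1 - (x s').1) p.1 ≠ 0 ∨ et ((x s).2 - (x s').2) p.2 ≠ 0} =
        {p : Sp k | zt ((x s).1 - (x s').1) p.1 ≠ 0} ∪ {p : Sp k | et ((x s).2 - (x s').2) p.2 ≠ 0} := by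
      ext p
      simp [h]
    rw [h2]
    refine IsOpen.union ?_ ?_
    · exact isOpen_ne_fun (by unfold zt; fun_prop) continuous_const
    · exact isOpen_ne_fun (by unfold et; fun_prop) continuous_const

/-- measure of the set of angles in a cell -/
noncomputable def krM (x : Fan k) (i j : Lb k) (q : Sp k) : ℝ :=
  (volume {φ : ℝ | φ ∈ Set.Icc 0 (2 * Real.pi) ∧ rot (ang φ) q ∈ cell x i j}).toReal

theorem kr_avg (x : Fan k) {h : Lb k → Lb k → ℝ} (hd : ∀ i, h i i = 0) (q : Sp k) :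
    avg x h q = ∑ i, ∑ j, if i = j then 0 else h i j * krM x i j q := by
  have hcont : Continuous fun φ : ℝ => rot (ang φ) q :=
    continuous_rot.comp (continuous_ang.prodMk continuous_const)
  have hS : ∀ i j, MeasurableSet {φ : ℝ | rot (ang φ) q ∈ cell x i j} := fun i j =>
    (isClosed_cell x i j).measurableSet.preimage hcont.measurable
  have hint : ∀ i j, IntervalIntegrable (fun φ : ℝ => h i j *
      (cell x i j).indicator (fun _ => (1 : ℝ)) (rot (ang φ) q)) volume 0 (2 * Real.pi) := by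
    intro i j
    have hm : Measurable fun φ : ℝ => h i j * (cell x i j).indicator (fun _ => (1 : ℝ)) (rot (ang φ) q) :=
      ((measurable_const.indicator (measurableSet_cell x i j)).comp hcont.measurable).const_mul _
    refine ⟨?_, ?_⟩ <;>
    · refine Measure.integrableOn_of_bounded (M := |h i j|) measure_Ioc_lt_top.ne
        hm.aestronglyMeasurable ?_
      refine Filter.Eventually.of_forall fun φ => ?_
      rw [norm_mul, Real.norm_eq_abs]
      by_cases hq : rot (ang φ) q ∈ cell x i j <;> simp [hq]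
  unfold avg Hf
  rw [intervalIntegral.integral_finsetSum
    (fun i _ => by
      have := IntervalIntegrable.sum (μ := volume) (a := 0) (b := 2 * Real.pi) Finset.univ
        (f := fun (j : Lb k) (φ : ℝ) => h i j * (cell x i j).indicator (fun _ => (1 : ℝ)) (rot (ang φ) q))
        (fun j _ => hint i j)
      simpa only [Finset.sum_fn] using this)]
  refine Finset.sum_congr rfl fun i _ => ?_
  rw [intervalIntegral.integral_finsetSum (fun j _ => hint i j)]
  refine Finset.sum_congr rfl fun j _ => ?_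
  by_cases hij : i = j
  · rw [if_pos hij, hij, hd j]
    simp
  · rw [if_neg hij, intervalIntegral.integral_const_mul]
    congr 1
    rw [intervalIntegral.integral_of_le (by positivity), ← integral_Icc_eq_integral_Ioc]
    have h1 : (fun φ : ℝ => (cell x i j).indicator (fun _ => (1 : ℝ)) (rot (ang φ) q)) =
        {φ : ℝ | rot (ang φ) q ∈ cell x i j}.indicator (fun _ => (1 : ℝ)) := by
      funext φ
      by_cases hq : rot (ang φ) q ∈ cell x i j
      · rw [Set.indicator_of_mem hq]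
        exact (Set.indicator_of_mem (s := {φ : ℝ | rot (ang φ) q ∈ cell x i j}) (a := φ) hq
          (fun _ => (1 : ℝ))).symm
      · rw [Set.indicator_of_notMem hq]
        exact (Set.indicator_of_notMem (s := {φ : ℝ | rot (ang φ) q ∈ cell x i j}) (a := φ) hq
          (fun _ => (1 : ℝ))).symm
    rw [h1, integral_indicator (hS i j), Measure.restrict_restrict (hS i j), setIntegral_const,
      smul_eq_mul, mul_one, Measure.real, krM]
    congr 2
    ext φ
    simp only [Set.mem_inter_iff, Set.mem_ofPred_eq]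
    tauto

theorem kr_ang_inj {φ ψ : ℝ} (h1 : φ ∈ Set.Ico 0 (2 * Real.pi)) (h2 : ψ ∈ Set.Ico 0 (2 * Real.pi))
    (h : ang φ = ang ψ) : φ = ψ := by
  unfold ang at h
  rw [Complex.exp_eq_exp_iff_exists_int] at h
  obtain ⟨n, hn⟩ := h
  have h3 : φ = ψ + n * (2 * Real.pi) := by
    have h4 : ((φ : ℂ) - (ψ + n * (2 * Real.pi))) * Complex.I = 0 := by
      linear_combination hn
    have h5 := (mul_eq_zero.mp h4).resolve_right Complex.I_ne_zero
    have h6 : (φ : ℂ) = ((ψ + n * (2 * Real.pi) : ℝ) : ℂ) := by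
      push_cast
      linear_combination h5
    exact_mod_cast h6
  have hpi := Real.pi_pos
  have hn1 : n < 1 := by
    by_contra hcon
    push Not at hcon
    have : (1 : ℝ) ≤ n := by exact_mod_cast hcon
    nlinarith [h1.2, h2.1]
  have hn2 : -1 < n := by
    by_contra hcon
    push Not at hcon
    have : (n : ℝ) ≤ -1 := by exact_mod_cast hcon
    nlinarith [h1.1, h2.2]
  have : n = 0 := by omega
  rw [h3, this]; simp

theorem kr_ang_surj {θ : ℂ} (hθ : ‖θ‖ = 1) : ∃ φ ∈ Set.Ico 0 (2 * Real.pi), ang φ = θ := by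
  have hpi := Real.pi_pos
  have h1 : ang (Complex.arg θ) = θ := by
    have := Complex.norm_mul_exp_arg_mul_I θ
    rw [hθ] at this
    simpa [ang] using this
  rcases le_or_gt 0 (Complex.arg θ) with h | h
  · exact ⟨_, ⟨h, by linarith [Complex.arg_le_pi θ]⟩, h1⟩
  · refine ⟨Complex.arg θ + 2 * Real.pi, ⟨by linarith [Complex.neg_pi_lt_arg θ], by linarith⟩, ?_⟩
    rw [ang_add, h1, ang_two_pi, mul_one]

open Classical in
theorem kr_sum_sub {α : Type} (S : Finset α) (P : α → Prop) (Q : α → α → Prop)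
    (hQ : ∀ c d, Q c d ↔ (c ≠ d ∧ P c ∧ P d)) (F : α → α → ℝ)
    (T : Finset S) (hT : ∀ c : S, c ∈ T ↔ P c.1) :
    ∑ c ∈ T, ∑ d ∈ T.erase c, F c d = ∑ c ∈ S, ∑ d ∈ S, if Q c d then F c d else 0 := by
  rw [← Finset.sum_coe_sort S (fun c => ∑ d ∈ S, if Q c d then F c d else 0)]
  have hTf : T = Finset.univ.filter (fun c : S => P c.1) := by
    ext c; simp [hT]
  have h1 : ∑ c ∈ T, ∑ d ∈ T.erase c, F c d =
      ∑ c : S, if P c.1 then ∑ d ∈ T.erase c, F c d else 0 := by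
    rw [← Finset.sum_filter, ← hTf]
  rw [h1]
  refine Finset.sum_congr rfl fun c _ => ?_
  rw [← Finset.sum_coe_sort S (fun d => if Q c.1 d then F c.1 d else 0)]
  by_cases hc : P c.1
  · rw [if_pos hc]
    have h2 : T.erase c = Finset.univ.filter (fun d : S => Q c.1 d.1) := by
      ext d
      simp only [Finset.mem_erase, hT, Finset.mem_filter, Finset.mem_univ, true_and, hQ, hc, ne_eq]
      refine and_congr_left fun _ => ?_
      rw [← Subtype.ext_iff]
      exact ⟨fun h h' => h h'.symm, fun h h' => h h'.symm⟩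
    rw [h2, Finset.sum_filter]
  · rw [if_neg hc]
    symm
    refine Finset.sum_eq_zero fun d _ => ?_
    rw [if_neg (fun h => hc ((hQ _ _).mp h).2.1)]

/-- the quotient occurring in the second difference -/
noncomputable def krE (x : Fan k) (p w : Sp k) (θ : ℂ) (c d : Lb k × Lb k) : ℝ :=
  |(θ * zt (x c.1 - x c.2).1 p.1).im * clin (rotc θ (x d.1 - x d.2)) w -
      (θ * zt (x d.1 - x d.2).1 p.1).im * clin (rotc θ (x c.1 - x c.2)) w| /
    ((θ * zt (x c.1 - x c.2).1 p.1).im * (θ * zt (x d.1 - x d.2).1 p.1).im)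

/-- both constraints are active at `rot θ p` -/
def krAct (x : Fan k) (p : Sp k) (θ : ℂ) (c d : Lb k × Lb k) : Prop :=
  c ≠ d ∧ cval (x c.1 - x c.2) (rot θ p) = 0 ∧ cval (x d.1 - x d.2) (rot θ p) = 0

open Classical in
theorem kr_cell_limit {x : Fan k} (hx : Nondeg x) {u i l : Lb k} {p : Sp k} (hp : Gen x u i l p)
    (Φ : Finset ℂ) (hΦ : ∀ θ, θ ∈ Φ ↔ θ ∈ krSet x u i l) (v : Sp k) {i' j' : Lb k} (hij : i' ≠ j') :
    Tendsto (fun ε : ℝ => (krM x i' j' (p + ε • v) + krM x i' j' (p + (-ε) • v) -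
        2 * krM x i' j' (p + (0 : ℝ) • v)) / ε) (𝓝[>] 0)
      (𝓝 (-((1 / 2) * ∑ θ ∈ Φ, if rot θ p ∈ cell x i' j' then
        ∑ c ∈ Cons i' j', ∑ d ∈ Cons i' j', (if krAct x p θ c d then krE x p v θ c d else 0) else 0))) := by
  set ι := {c // c ∈ Cons i' j'} with hι
  set Z : ι → ℂ := fun c => zt (x c.1.1 - x c.1.2).1 p.1 with hZ
  set Z' : ι → ℂ := fun c => zt (x c.1.1 - x c.1.2).1 v.1 with hZ'
  set e : ι → ℝ := fun c => et (x c.1.1 - x c.1.2).2 p.2 with he
  set e' : ι → ℝ := fun c => ∑ l, (x c.1.1 - x c.1.2).2.1 l * v.2 l with he'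
  have hval : ∀ (φ : ℝ) (c : ι), (ang φ * Z c).re + e c = cval (x c.1.1 - x c.1.2) (rot (ang φ) p) :=
    fun φ c => kr_val _ _ _
  have hcell : ∀ φ : ℝ, (∀ c, 0 ≤ (ang φ * Z c).re + e c) ↔ rot (ang φ) p ∈ cell x i' j' := by
    intro φ
    rw [kr_mem_cell_iff]
    constructor
    · intro h c hc
      rw [← hval φ ⟨c, hc⟩]
      exact h ⟨c, hc⟩
    · intro h c
      rw [hval]
      exact h c.1 c.2
  have hGm : ∀ ε : ℝ, Gm Z Z' e e' ε = krM x i' j' (p + ε • v) := by
    intro ε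
    unfold Gm krM
    congr 2
    ext φ
    simp only [Set.mem_ofPred_eq]
    refine and_congr_right fun _ => ?_
    rw [kr_mem_cell_iff]
    have hfn : ∀ c : ι, fn Z Z' e e' c φ ε = cval (x c.1.1 - x c.1.2) (rot (ang φ) (p + ε • v)) := by
      intro c
      unfold fn
      exact kr_fn _ _ _ _ _
    constructor
    · intro h c hc
      rw [← hfn ⟨c, hc⟩]
      exact h ⟨c, hc⟩
    · intro h c
      rw [hfn]
      exact h c.1 c.2
  have hactmem : ∀ (φ : ℝ) (c : ι), c ∈ actF Z e φ ↔ cval (x c.1.1 - x c.1.2) (rot (ang φ) p) = 0 := by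
    intro φ c
    unfold actF
    rw [Finset.mem_filter, hval]
    simp
  have hcard : ∀ φ : ℝ, rot (ang φ) p ∈ cell x i' j' → (actF Z e φ).card ≤ 2 := by
    intro φ hφ
    rw [← Finset.card_map (Function.Embedding.subtype _)]
    refine kr_active_card hx hp (norm_ang φ) hij hφ _ ?_ ?_
    · intro c hc
      rw [Finset.mem_map] at hc
      obtain ⟨c', _, rfl⟩ := hc
      exact c'.2
    · intro c hc
      rw [Finset.mem_map] at hc
      obtain ⟨c', hc', rfl⟩ := hc
      exact (hactmem φ c').mp hc'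
  obtain ⟨Θ, hΘ, hlim⟩ := second_difference Z Z' e e'
    (fun φ h => hcard φ ((hcell φ).mp h))
    (fun φ c _ h => by
      rw [hval] at h
      exact hp.trans c.1.1 c.1.2 (kr_mem_Cons.mp c.2).1 (ang φ) (norm_ang φ) h)
  simp only [hGm] at hlim
  refine hlim.congr' (Filter.EventuallyEq.refl _ _) |>.mono_right (le_of_eq ?_)
  congr 1
  rw [← Finset.mul_sum]
  congr 2
  -- the sum over `Θ` as a sum over `Φ`
  set G : ℂ → ℝ := fun θ => ∑ c ∈ Cons i' j', ∑ d ∈ Cons i' j',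
    (if krAct x p θ c d then krE x p v θ c d else 0) with hG
  have hgoal : ∑ θ ∈ Θ.image ang, G θ = ∑ θ ∈ Φ, if rot θ p ∈ cell x i' j' then G θ else 0 := by
    rw [← Finset.sum_filter]
    refine Finset.sum_subset ?_ ?_
    · intro θ hθ
      rw [Finset.mem_image] at hθ
      obtain ⟨φ, hφ, rfl⟩ := hθ
      obtain ⟨_, h2, h3⟩ := (hΘ φ).mp hφ
      rw [Finset.mem_filter]
      refine ⟨?_, (hcell φ).mp h2⟩
      rw [hΦ]
      refine ⟨norm_ang φ, ?_⟩
      obtain ⟨c, d, hcd, hcd2⟩ := Finset.card_eq_two.mp h3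
      have hc : c ∈ actF Z e φ := by rw [hcd2]; simp
      have hd : d ∈ actF Z e φ := by rw [hcd2]; simp
      rw [hactmem] at hc hd
      obtain ⟨n1, n2⟩ := kr_cons_ne hij c.2 d.2 (fun h => hcd (Subtype.ext h))
      exact ⟨c.1.1, c.1.2, (kr_mem_Cons.mp c.2).1, (hp.pencil _ _ _ _ (kr_mem_Cons.mp c.2).1
        (kr_mem_Cons.mp d.2).1 n1 n2 (ang φ) (norm_ang φ) hc hd).1⟩
    · intro θ hθ hθ'
      rw [Finset.mem_filter] at hθ
      obtain ⟨hθ1, hθ2⟩ := hθ
      obtain ⟨φ, hφ, rfl⟩ := kr_ang_surj ((hΦ θ).mp hθ1).1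
      have hnot : ¬ (actF Z e φ).card = 2 := by
        intro h
        exact hθ' (Finset.mem_image_of_mem _ ((hΘ φ).mpr ⟨hφ, (hcell φ).mpr hθ2, h⟩))
      have hle := hcard φ hθ2
      rw [hG]
      refine Finset.sum_eq_zero fun c hc => Finset.sum_eq_zero fun d hd => ?_
      rw [if_neg]
      rintro ⟨h1, h2, h3⟩
      have h4 : 1 < (actF Z e φ).card := by
        rw [Finset.one_lt_card]
        refine ⟨⟨c, hc⟩, (hactmem φ _).mpr h2, ⟨d, hd⟩, (hactmem φ _).mpr h3, fun h => h1 ?_⟩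
        exact congrArg Subtype.val h
      omega
  refine Eq.trans ?_ hgoal
  rw [Finset.sum_image (fun φ hφ ψ hψ h => kr_ang_inj ((hΘ φ).mp hφ).1 ((hΘ ψ).mp hψ).1 h)]
  refine Finset.sum_congr rfl fun φ _ => ?_
  refine Eq.trans ?_ (kr_sum_sub (Cons i' j') (fun c => cval (x c.1 - x c.2) (rot (ang φ) p) = 0)
      (krAct x p (ang φ)) (fun c d => Iff.rfl)
      (krE x p v (ang φ)) (actF Z e φ) (hactmem φ))
  refine Finset.sum_congr rfl fun c _ => ?_
  refine Finset.sum_congr (by congr; exact Subsingleton.elim _ _) fun d _ => ?_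
  unfold krE
  have h2 : ∀ c : ι, (ang φ * Z' c).re + e' c = clin (rotc (ang φ) (x c.1.1 - x c.1.2)) v := by
    intro c
    simp only [clin, rotc, zt_smul_left, hZ', he']
  rw [h2, h2]

open Classical in
/-- the second difference identity -/
theorem kr_sd {x : Fan k} (hx : Nondeg x) {u i l : Lb k} {p : Sp k} (hp : Gen x u i l p)
    (Φ : Finset ℂ) (hΦ : ∀ θ, θ ∈ Φ ↔ θ ∈ krSet x u i l) (v : Sp k) {h : Lb k → Lb k → ℝ}
    (hh : h ∈ K x) :
    ∑ θ ∈ Φ, ∑ i', ∑ j', (if i' = j' then 0 else if rot θ p ∈ cell x i' j' then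
      h i' j' * ∑ c ∈ Cons i' j', ∑ d ∈ Cons i' j', (if krAct x p θ c d then krE x p v θ c d else 0)
      else 0) = 0 := by
  obtain ⟨hd, hav⟩ := mem_K.mp hh
  set D : Lb k → Lb k → ℝ → ℝ := fun i' j' ε => (krM x i' j' (p + ε • v) + krM x i' j' (p + (-ε) • v) -
        2 * krM x i' j' (p + (0 : ℝ) • v)) / ε with hD
  set Lm : Lb k → Lb k → ℝ := fun i' j' => ∑ θ ∈ Φ, if rot θ p ∈ cell x i' j' then
        ∑ c ∈ Cons i' j', ∑ d ∈ Cons i' j', (if krAct x p θ c d then krE x p v θ c d else 0) else 0 with hLm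
  have h1 : Tendsto (fun ε : ℝ => ∑ i', ∑ j', if i' = j' then 0 else h i' j' * D i' j' ε) (𝓝[>] 0)
      (𝓝 (∑ i', ∑ j', if i' = j' then 0 else h i' j' * (-((1 / 2) * Lm i' j')))) := by
    refine tendsto_finsetSum _ fun i' _ => tendsto_finsetSum _ fun j' _ => ?_
    by_cases hij : i' = j'
    · simp only [if_pos hij]
      exact tendsto_const_nhds
    · simp only [if_neg hij]
      exact (kr_cell_limit hx hp Φ hΦ v hij).const_mul _
  have hgood : ∀ᶠ ε : ℝ in 𝓝 0, Good x (p + ε • v) := by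
    have hc : Continuous fun ε : ℝ => p + ε • v := by fun_prop
    have := (kr_good_open x).preimage hc
    refine this.mem_nhds ?_
    simpa using hp.good
  have hgood' : ∀ᶠ ε : ℝ in 𝓝 0, Good x (p + (-ε) • v) := by
    have : Tendsto (fun ε : ℝ => -ε) (𝓝 0) (𝓝 0) := by
      have := (continuous_neg (G := ℝ)).tendsto 0
      simpa using this
    exact this.eventually hgood
  have h2 : ∀ᶠ ε : ℝ in 𝓝[>] 0, (∑ i', ∑ j', if i' = j' then 0 else h i' j' * D i' j' ε) = 0 := by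
    filter_upwards [nhdsWithin_le_nhds hgood, nhdsWithin_le_nhds hgood'] with ε g1 g2
    have a1 := hav _ g1
    have a2 := hav _ g2
    have a3 := hav _ (show Good x (p + (0 : ℝ) • v) by simpa using hp.good)
    rw [kr_avg x hd] at a1 a2 a3
    have : (∑ i', ∑ j', if i' = j' then 0 else h i' j' * D i' j' ε) =
        ((∑ i', ∑ j', if i' = j' then 0 else h i' j' * krM x i' j' (p + ε • v)) +
         (∑ i', ∑ j', if i' = j' then 0 else h i' j' * krM x i' j' (p + (-ε) • v)) -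
         2 * (∑ i', ∑ j', if i' = j' then 0 else h i' j' * krM x i' j' (p + (0 : ℝ) • v))) / ε := by
      rw [Finset.mul_sum, ← Finset.sum_add_distrib, ← Finset.sum_sub_distrib, Finset.sum_div]
      refine Finset.sum_congr rfl fun i' _ => ?_
      rw [Finset.mul_sum, ← Finset.sum_add_distrib, ← Finset.sum_sub_distrib, Finset.sum_div]
      refine Finset.sum_congr rfl fun j' _ => ?_
      by_cases hij : i' = j'
      · simp [hij]
      · simp only [if_neg hij, hD]
        ring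
    rw [this, a1, a2, a3]
    simp
  have h3 : (∑ i', ∑ j', if i' = j' then 0 else h i' j' * (-((1 / 2) * Lm i' j'))) = 0 := by
    refine tendsto_nhds_unique h1 ?_
    exact Tendsto.congr' (Filter.EventuallyEq.symm h2) tendsto_const_nhds
  have h4 : (∑ i', ∑ j', if i' = j' then 0 else h i' j' * (-((1 / 2) * Lm i' j'))) =
      (-(1 / 2)) * ∑ i', ∑ j', if i' = j' then 0 else h i' j' * Lm i' j' := by
    rw [Finset.mul_sum]
    refine Finset.sum_congr rfl fun i' _ => ?_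
    rw [Finset.mul_sum]
    refine Finset.sum_congr rfl fun j' _ => ?_
    by_cases hij : i' = j'
    · simp [hij]
    · simp only [if_neg hij]; ring
  rw [h4] at h3
  have h5 : ∑ i', ∑ j', (if i' = j' then 0 else h i' j' * Lm i' j') = 0 := by linarith
  refine Eq.trans ?_ h5
  rw [Finset.sum_comm]
  refine Finset.sum_congr rfl fun i' _ => ?_
  rw [Finset.sum_comm]
  refine Finset.sum_congr rfl fun j' _ => ?_
  by_cases hij : i' = j'
  · simp [hij]
  · simp only [if_neg hij, hLm]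
    rw [Finset.mul_sum]
    refine Finset.sum_congr rfl fun θ _ => ?_
    by_cases hc : rot θ p ∈ cell x i' j'
    · rw [if_pos hc, if_pos hc]
    · rw [if_neg hc, if_neg hc, mul_zero]

/-! ### assembly -/

theorem kr_ind2 {x : Fan k} (hx : Nondeg x) {θ : ℂ} (hθ : ‖θ‖ = 1) {c d : Lb k × Lb k}
    (hc : c.1 ≠ c.2) (hd : d.1 ≠ d.2) (h1 : ¬ (c.1 = d.1 ∧ c.2 = d.2)) (h2 : ¬ (c.1 = d.2 ∧ c.2 = d.1))
    {r₁ r₂ : ℝ} (h : r₁ • rotc θ (x c.1 - x c.2) + r₂ • rotc θ (x d.1 - x d.2) = 0) :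
    r₁ = 0 ∧ r₂ = 0 := by
  rw [← rotc_smul, ← rotc_smul, ← rotc_add] at h
  have h3 := kr_rotc_inj hθ h
  have h4 : (fun t => r₁ * ed c.1 c.2 t + r₂ * ed d.1 d.2 t) = (0 : Lb k → ℝ) := by
    refine kr_nd hx ?_ ?_
    · rw [Finset.sum_add_distrib, ← Finset.mul_sum, ← Finset.mul_sum, kr_ed_sum, kr_ed_sum]
      ring
    · simp only [add_smul, mul_smul]
      rw [Finset.sum_add_distrib, ← Finset.smul_sum, ← Finset.smul_sum, kr_ed_smul, kr_ed_smul, h3]
  have e1 := congrFun h4 c.1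
  have e2 := congrFun h4 c.2
  have e3 := congrFun h4 d.1
  simp only [Pi.zero_apply] at e1 e2 e3
  have hr1 : r₁ = 0 := by
    by_cases g1 : c.1 = d.1
    · have g2 : c.2 ≠ d.2 := fun h => h1 ⟨g1, h⟩
      have g3 : c.2 ≠ d.1 := fun h => hc (g1.trans h.symm)
      simp [ed, hc.symm, g2, g3] at e2
      exact e2
    · by_cases g2 : c.1 = d.2
      · have g3 : c.2 ≠ d.1 := fun h => h2 ⟨g2, h⟩
        have g4 : c.2 ≠ d.2 := fun h => hc (g2.trans h.symm)
        simp [ed, hc.symm, g3, g4] at e2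
        exact e2
      · simp [ed, hc, g1, g2] at e1
        exact e1
  refine ⟨hr1, ?_⟩
  rw [hr1] at e3
  simp [ed, hd] at e3
  exact e3

open Classical in
/-- index set of the partial fractions -/
noncomputable def krT (x : Fan k) (p : Sp k) (Φ : Finset ℂ) :
    Finset (ℂ × (Lb k × Lb k) × (Lb k × Lb k) × (Lb k × Lb k)) :=
  (Φ ×ˢ Finset.univ).filter fun t => t.2.1.1 ≠ t.2.1.2 ∧ rot t.1 p ∈ cell x t.2.1.1 t.2.1.2 ∧
    t.2.2.1 ∈ Cons t.2.1.1 t.2.1.2 ∧ t.2.2.2 ∈ Cons t.2.1.1 t.2.1.2 ∧ krAct x p t.1 t.2.2.1 t.2.2.2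

open Classical in
theorem kr_nf (x : Fan k) (p : Sp k) (Φ : Finset ℂ) (h : Lb k → Lb k → ℝ)
    (g : ℂ → Lb k × Lb k → Lb k × Lb k → ℝ) :
    ∑ t : krT x p Φ, h t.1.2.1.1 t.1.2.1.2 * g t.1.1 t.1.2.2.1 t.1.2.2.2 =
      ∑ θ ∈ Φ, ∑ i', ∑ j', (if i' = j' then 0 else if rot θ p ∈ cell x i' j' then
        h i' j' * ∑ c ∈ Cons i' j', ∑ d ∈ Cons i' j', (if krAct x p θ c d then g θ c d else 0)
        else 0) := by
  rw [Finset.sum_coe_sort (krT x p Φ) (fun t => h t.2.1.1 t.2.1.2 * g t.1 t.2.2.1 t.2.2.2), krT,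
    Finset.sum_filter, Finset.sum_product]
  refine Finset.sum_congr rfl fun θ _ => ?_
  rw [Fintype.sum_prod_type, Fintype.sum_prod_type]
  refine Finset.sum_congr rfl fun i' _ => Finset.sum_congr rfl fun j' _ => ?_
  rw [Fintype.sum_prod_type]
  by_cases hij : i' = j'
  · rw [if_pos hij]
    refine Finset.sum_eq_zero fun c _ => Finset.sum_eq_zero fun d _ => ?_
    rw [if_neg (fun h => h.1 hij)]
  · rw [if_neg hij]
    by_cases hc : rot θ p ∈ cell x i' j'
    · rw [if_pos hc, Finset.mul_sum]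
      have h1 : ∀ F : Lb k × Lb k → ℝ, ∑ c ∈ Cons i' j', F c = ∑ c, if c ∈ Cons i' j' then F c else 0 := by
        intro F
        rw [Finset.sum_ite_mem, Finset.univ_inter]
      rw [h1]
      refine Finset.sum_congr rfl fun c _ => ?_
      rw [h1, Finset.mul_sum]
      by_cases hcC : c ∈ Cons i' j'
      · rw [if_pos hcC]
        refine Finset.sum_congr rfl fun d _ => ?_
        by_cases hdC : d ∈ Cons i' j'
        · rw [if_pos hdC]
          by_cases hact : krAct x p θ c d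
          · rw [if_pos ⟨hij, hc, hcC, hdC, hact⟩, if_pos hact]
          · rw [if_neg (fun h => hact h.2.2.2.2), if_neg hact, mul_zero]
        · rw [if_neg (fun h => hdC h.2.2.2.1), if_neg hdC, mul_zero]
      · rw [if_neg hcC]
        refine Finset.sum_eq_zero fun d _ => ?_
        rw [if_neg (fun h => hcC h.2.2.1)]
    · rw [if_neg hc]
      refine Finset.sum_eq_zero fun c _ => Finset.sum_eq_zero fun d _ => ?_
      rw [if_neg (fun h => hc h.2.1)]

theorem krAct_symm {x : Fan k} {p : Sp k} {θ : ℂ} {c d : Lb k × Lb k} :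
    krAct x p θ c d ↔ krAct x p θ d c :=
  ⟨fun h => ⟨h.1.symm, h.2.2, h.2.1⟩, fun h => ⟨h.1.symm, h.2.2, h.2.1⟩⟩

open Classical in
theorem kr_nf_symm (x : Fan k) (p : Sp k) (Φ : Finset ℂ) (h : Lb k → Lb k → ℝ)
    (g : ℂ → Lb k × Lb k → Lb k × Lb k → ℝ) :
    ∑ t : krT x p Φ, h t.1.2.1.1 t.1.2.1.2 * g t.1.1 t.1.2.2.2 t.1.2.2.1 =
      ∑ t : krT x p Φ, h t.1.2.1.1 t.1.2.1.2 * g t.1.1 t.1.2.2.1 t.1.2.2.2 := by
  rw [kr_nf x p Φ h (fun θ c d => g θ d c), kr_nf x p Φ h g]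
  refine Finset.sum_congr rfl fun θ _ => Finset.sum_congr rfl fun i' _ =>
    Finset.sum_congr rfl fun j' _ => ?_
  have key : ∑ c ∈ Cons i' j', ∑ d ∈ Cons i' j', (if krAct x p θ c d then g θ d c else 0) =
      ∑ c ∈ Cons i' j', ∑ d ∈ Cons i' j', (if krAct x p θ c d then g θ c d else 0) := by
    rw [Finset.sum_comm]
    refine Finset.sum_congr rfl fun c _ => Finset.sum_congr rfl fun d _ => ?_
    by_cases hact : krAct x p θ c d
    · rw [if_pos hact, if_pos (krAct_symm.mp hact)]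
    · rw [if_neg hact, if_neg (fun h => hact (krAct_symm.mp h))]
  rw [key]

/-- coefficients in the pencil -/
noncomputable def krA (x : Fan k) (w ν : Sp k) (θ : ℂ) (c : Lb k × Lb k) : ℝ × ℝ :=
  (clin (rotc θ (x c.1 - x c.2)) ν, -clin (rotc θ (x c.1 - x c.2)) w)

theorem kr_im {x : Fan k} {u i l : Lb k} {w ν : Sp k} (hd : Dirs x u i l w ν) {θ : ℂ}
    {c : Lb k × Lb k} (hc : rotc θ (x c.1 - x c.2) ∈ Submodule.span ℝ {x u - x i, x l - x i})
    (p : Sp k) : (θ * zt (x c.1 - x c.2).1 p.1).im =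
      (krA x w ν θ c).1 * (zt ((x u).1 - (x i).1) p.1).im +
      (krA x w ν θ c).2 * (zt ((x l).1 - (x i).1) p.1).im := by
  have h1 := kr_coef hd hc
  have h2 : θ * zt (x c.1 - x c.2).1 p.1 = zt (rotc θ (x c.1 - x c.2)).1 p.1 := by
    simp only [rotc, zt_smul_left]
  rw [h2, h1]
  simp only [Prod.fst_add, Prod.smul_fst, Prod.fst_sub, zt_add_left, zt_rsmul_left, Complex.add_im,
    Complex.im_ofReal_mul, krA]

theorem kr_det {x : Fan k} (hx : Nondeg x) {u i l : Lb k} {w ν : Sp k} (hd : Dirs x u i l w ν) {θ : ℂ}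
    (hθ : ‖θ‖ = 1) {c d : Lb k × Lb k} (hc1 : c.1 ≠ c.2) (hd1 : d.1 ≠ d.2)
    (h1 : ¬ (c.1 = d.1 ∧ c.2 = d.2)) (h2 : ¬ (c.1 = d.2 ∧ c.2 = d.1))
    (hc : rotc θ (x c.1 - x c.2) ∈ Submodule.span ℝ {x u - x i, x l - x i})
    (hdd : rotc θ (x d.1 - x d.2) ∈ Submodule.span ℝ {x u - x i, x l - x i}) :
    (krA x w ν θ c).1 * (krA x w ν θ d).2 - (krA x w ν θ c).2 * (krA x w ν θ d).1 ≠ 0 := by
  intro h0
  have e1 : rotc θ (x c.1 - x c.2) = (krA x w ν θ c).1 • (x u - x i) + (krA x w ν θ c).2 • (x l - x i) :=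
    kr_coef hd hc
  have e2 : rotc θ (x d.1 - x d.2) = (krA x w ν θ d).1 • (x u - x i) + (krA x w ν θ d).2 • (x l - x i) :=
    kr_coef hd hdd
  have r1 : (krA x w ν θ d).2 • rotc θ (x c.1 - x c.2) +
      (-(krA x w ν θ c).2) • rotc θ (x d.1 - x d.2) = 0 := by
    rw [e1, e2, smul_add, smul_add, smul_smul, smul_smul, smul_smul, smul_smul]
    have : ((krA x w ν θ d).2 * (krA x w ν θ c).1) • (x u - x i) +
        ((krA x w ν θ d).2 * (krA x w ν θ c).2) • (x l - x i) +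
        ((-(krA x w ν θ c).2 * (krA x w ν θ d).1) • (x u - x i) +
        (-(krA x w ν θ c).2 * (krA x w ν θ d).2) • (x l - x i)) =
        ((krA x w ν θ c).1 * (krA x w ν θ d).2 - (krA x w ν θ c).2 * (krA x w ν θ d).1) • (x u - x i) := by
      module
    rw [this, h0, zero_smul]
  have r2 : (krA x w ν θ d).1 • rotc θ (x c.1 - x c.2) +
      (-(krA x w ν θ c).1) • rotc θ (x d.1 - x d.2) = 0 := by
    rw [e1, e2, smul_add, smul_add, smul_smul, smul_smul, smul_smul, smul_smul]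
    have : ((krA x w ν θ d).1 * (krA x w ν θ c).1) • (x u - x i) +
        ((krA x w ν θ d).1 * (krA x w ν θ c).2) • (x l - x i) +
        ((-(krA x w ν θ c).1 * (krA x w ν θ d).1) • (x u - x i) +
        (-(krA x w ν θ c).1 * (krA x w ν θ d).2) • (x l - x i)) =
        (-((krA x w ν θ c).1 * (krA x w ν θ d).2 - (krA x w ν θ c).2 * (krA x w ν θ d).1)) • (x l - x i) := by
      module
    rw [this, h0, neg_zero, zero_smul]
  obtain ⟨_, s2⟩ := kr_ind2 hx hθ hc1 hd1 h1 h2 r1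
  obtain ⟨_, s4⟩ := kr_ind2 hx hθ hc1 hd1 h1 h2 r2
  have s2' : (krA x w ν θ c).2 = 0 := by linarith
  have s4' : (krA x w ν θ c).1 = 0 := by linarith
  rw [s2', s4', zero_smul, zero_smul, add_zero] at e1
  exact kr_sub_ne hx hc1 (kr_rotc_inj hθ e1)

theorem kink_relation {x : Fan k} (hx : Nondeg x) {u i l : Lb k} (hui : u ≠ i) (hul : u ≠ l) (hil : i ≠ l)
    (hI : cdet ((x u).1 - (x i).1) ((x l).1 - (x i).1) ≠ 0) {w ν : Sp k} (hd : Dirs x u i l w ν)
    {O : Set (Sp k)} (hO : IsOpen O) {p₀ : Sp k} (hp₀ : p₀ ∈ O) (h1 : cval (x u - x i) p₀ = 0)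
    (h2 : cval (x l - x i) p₀ = 0) :
    ∃ p ∈ O, cval (x u - x i) p = 0 ∧ cval (x l - x i) p = 0 ∧ Gen x u i l p ∧
      ∃ Θ : Finset ℂ, (∀ θ ∈ Θ, ‖θ‖ = 1) ∧
        (∀ θ : ℂ, ‖θ‖ = 1 → θ ∉ Θ → ∀ i' j', i' ≠ j' → wt x i' j' θ p w ν = 0) ∧
        ∀ h ∈ K x, ∑ θ ∈ Θ, kD x h θ p w ν = 0 := by
  classical
  obtain ⟨O', hO', hsub, ⟨p₁, hp₁, f1, f2⟩, hgen⟩ := gen_nhds hx hui hul hil hI hO hp₀ h1 h2
  have hG₁ := hgen p₁ hp₁ f1 f2
  set Φ : Finset ℂ := (kr_finite hx hI).toFinset with hΦdef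
  have hΦ : ∀ θ, θ ∈ Φ ↔ θ ∈ krSet x u i l := fun θ => Set.Finite.mem_toFinset _
  refine ⟨p₁, hsub hp₁, f1, f2, hG₁, Φ, fun θ hθ => ((hΦ θ).mp hθ).1, ?_, ?_⟩
  · intro θ hθ hnot i' j' hij
    unfold wt
    split_ifs with hc
    · refine Finset.sum_eq_zero fun c hcC => Finset.sum_eq_zero fun d hdC => ?_
      rw [if_neg]
      rintro ⟨g1, g2, g3, _⟩
      obtain ⟨n1, n2⟩ := kr_cons_ne hij hcC hdC g1
      apply hnot
      rw [hΦ]
      exact ⟨hθ, c.1, c.2, (kr_mem_Cons.mp hcC).1, (hG₁.pencil _ _ _ _ (kr_mem_Cons.mp hcC).1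
        (kr_mem_Cons.mp hdC).1 n1 n2 θ hθ g2 g3).1⟩
    · rfl
  intro h hh
  -- walls which are active at `p₁` are in the pencil
  have hpen : ∀ θ ∈ Φ, ∀ s s', s ≠ s' → cval (x s - x s') (rot θ p₁) = 0 →
      rotc θ (x s - x s') ∈ Submodule.span ℝ {x u - x i, x l - x i} := by
    intro θ hθ s s' hs h0
    obtain ⟨hn, t, t', ht, hsp⟩ := (hΦ θ).mp hθ
    by_cases e1 : s = t ∧ s' = t'
    · rw [e1.1, e1.2]; exact hsp
    · by_cases e2 : s = t' ∧ s' = t
      · rw [e2.1, e2.2]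
        have : x t' - x t = -(x t - x t') := by abel
        have h3 : rotc θ (x t' - x t) = -rotc θ (x t - x t') := by
          rw [rotc_sub, rotc_sub]; abel
        rw [h3]
        exact Submodule.neg_mem _ hsp
      · refine (hG₁.pencil s s' t t' hs ht e1 e2 θ hn h0 ?_).1
        rw [cval_rot]
        exact kr_pen_zero hsp f1 f2
  -- a neighbourhood where the signs do not change
  set O2 : Set (Sp k) := O' ∩ ⋂ θ ∈ Φ, ⋂ s, ⋂ s', {p | 0 < cval (x s - x s') (rot θ p₁) →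
    0 < cval (x s - x s') (rot θ p)} with hO2
  have hO2open : IsOpen O2 := by
    refine hO'.inter (isOpen_biInter_finset fun θ _ => isOpen_iInter_of_finite fun s =>
      isOpen_iInter_of_finite fun s' => ?_)
    by_cases hpos : 0 < cval (x s - x s') (rot θ p₁)
    · have : {p : Sp k | 0 < cval (x s - x s') (rot θ p₁) → 0 < cval (x s - x s') (rot θ p)} =
          {p : Sp k | 0 < cval (x s - x s') (rot θ p)} := by
        ext p; simp [hpos]
      rw [this]
      exact isOpen_lt continuous_const ((continuous_cval_right _).comp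
        (continuous_rot.comp (continuous_const.prodMk continuous_id)))
    · have : {p : Sp k | 0 < cval (x s - x s') (rot θ p₁) → 0 < cval (x s - x s') (rot θ p)} =
          Set.univ := by
        ext p; simp [hpos]
      rw [this]
      exact isOpen_univ
  have hp₁2 : p₁ ∈ O2 := by
    refine ⟨hp₁, ?_⟩
    simp only [Set.mem_iInter]
    intro θ _ s s' hpos
    exact hpos
  have hpos : ∀ p ∈ O2, ∀ θ ∈ Φ, ∀ s s', 0 < cval (x s - x s') (rot θ p₁) →
      0 < cval (x s - x s') (rot θ p) := by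
    intro p hp θ hθ s s' h0
    have h3 := hp.2
    simp only [Set.mem_iInter] at h3
    exact h3 θ hθ s s' h0
  have hsign : ∀ p ∈ O2, cval (x u - x i) p = 0 → cval (x l - x i) p = 0 → ∀ θ ∈ Φ, ∀ s s', s ≠ s' →
      (cval (x s - x s') (rot θ p) = 0 ↔ cval (x s - x s') (rot θ p₁) = 0) ∧
      (0 ≤ cval (x s - x s') (rot θ p) ↔ 0 ≤ cval (x s - x s') (rot θ p₁)) := by
    intro p hp g1 g2 θ hθ s s' hs
    rcases lt_trichotomy (cval (x s - x s') (rot θ p₁)) 0 with h0 | h0 | h0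
    · have h3 : 0 < cval (x s' - x s) (rot θ p₁) := by
        rw [cval_sub] at h0 ⊢; linarith
      have h4 := hpos p hp θ hθ s' s h3
      have h5 : cval (x s - x s') (rot θ p) < 0 := by
        rw [cval_sub] at h4 ⊢; linarith
      exact ⟨⟨fun h => absurd h h5.ne, fun h => absurd h h0.ne⟩,
        ⟨fun h => absurd h (not_le.mpr h5), fun h => absurd h (not_le.mpr h0)⟩⟩
    · have h3 : cval (x s - x s') (rot θ p) = 0 := by
        rw [cval_rot]
        exact kr_pen_zero (hpen θ hθ s s' hs h0) g1 g2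
      rw [h3, h0]
      simp
    · have h3 := hpos p hp θ hθ s s' h0
      exact ⟨⟨fun h => absurd h h3.ne', fun h => absurd h h0.ne'⟩, ⟨fun _ => h0.le, fun _ => h3.le⟩⟩
  have hcell : ∀ p ∈ O2, cval (x u - x i) p = 0 → cval (x l - x i) p = 0 → ∀ θ ∈ Φ, ∀ i' j',
      (rot θ p ∈ cell x i' j' ↔ rot θ p₁ ∈ cell x i' j') := by
    intro p hp g1 g2 θ hθ i' j'
    rw [kr_mem_cell_iff, kr_mem_cell_iff]
    exact forall_congr' fun c => forall_congr' fun hc =>
      (hsign p hp g1 g2 θ hθ c.1 c.2 (kr_mem_Cons.mp hc).1).2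
  have hact : ∀ p ∈ O2, cval (x u - x i) p = 0 → cval (x l - x i) p = 0 → ∀ θ ∈ Φ, ∀ c d : Lb k × Lb k,
      c.1 ≠ c.2 → d.1 ≠ d.2 → (krAct x p θ c d ↔ krAct x p₁ θ c d) := by
    intro p hp g1 g2 θ hθ c d hc hd'
    unfold krAct
    rw [(hsign p hp g1 g2 θ hθ c.1 c.2 hc).1, (hsign p hp g1 g2 θ hθ d.1 d.2 hd').1]
  -- the points with prescribed imaginary parts
  set a₁ : ℂ × ℂ := (x u).1 - (x i).1 with ha₁
  set a₂ : ℂ × ℂ := (x l).1 - (x i).1 with ha₂
  set Δ : ℂ := cdet a₁ a₂ with hΔ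
  set g₁ : ℂ × ℂ := (Complex.I * a₂.2 / Δ, -(Complex.I * a₂.1 / Δ)) with hg₁
  set g₂ : ℂ × ℂ := (-(Complex.I * a₁.2 / Δ), Complex.I * a₁.1 / Δ) with hg₂
  have z11 : zt a₁ g₁ = Complex.I := by
    simp only [zt, hg₁]
    field_simp
    rw [hΔ, cdet]; ring
  have z21 : zt a₂ g₁ = 0 := by
    simp only [zt, hg₁]
    field_simp
    ring
  have z12 : zt a₁ g₂ = 0 := by
    simp only [zt, hg₂]
    field_simp
    ring
  have z22 : zt a₂ g₂ = Complex.I := by
    simp only [zt, hg₂]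
    field_simp
    rw [hΔ, cdet]; ring
  set X₁ : ℝ × ℝ := ((zt a₁ p₁.1).im, (zt a₂ p₁.1).im) with hX₁
  set P : ℝ × ℝ → Sp k := fun X => p₁ + ((X.1 - X₁.1) • g₁ + (X.2 - X₁.2) • g₂, 0) with hP
  have hPcont : Continuous P := by
    rw [hP]
    fun_prop
  have hPX₁ : P X₁ = p₁ := by
    simp [hP]
  have hPz : ∀ (a : ℂ × ℂ) (X : ℝ × ℝ), zt a (P X).1 = zt a p₁.1 + ((X.1 - X₁.1 : ℝ) : ℂ) * zt a g₁ +
      ((X.2 - X₁.2 : ℝ) : ℂ) * zt a g₂ := by
    intro a X
    simp only [hP, Prod.fst_add, zt_add_right, zt_rsmul_right]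
    ring
  have hPy : ∀ X, (P X).2 = p₁.2 := by
    intro X
    simp [hP]
  have hPim1 : ∀ X, (zt a₁ (P X).1).im = X.1 := by
    intro X
    rw [hPz, z11, z12]
    simp [hX₁]
  have hPim2 : ∀ X, (zt a₂ (P X).1).im = X.2 := by
    intro X
    rw [hPz, z21, z22]
    simp [hX₁]
  have hPf1 : ∀ X, cval (x u - x i) (P X) = 0 := by
    intro X
    rw [← f1]
    unfold cval
    rw [hPy, show (x u - x i).1 = a₁ from rfl, hPz, z11, z12]
    simp
  have hPf2 : ∀ X, cval (x l - x i) (P X) = 0 := by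
    intro X
    rw [← f2]
    unfold cval
    rw [hPy, show (x l - x i).1 = a₂ from rfl, hPz, z21, z22]
    simp
  set V : Set (ℝ × ℝ) := P ⁻¹' O2 with hV
  have hVopen : IsOpen V := hO2open.preimage hPcont
  have hVne : V.Nonempty := ⟨X₁, by rw [hV, Set.mem_preimage, hPX₁]; exact hp₁2⟩
  have hVgen : ∀ X ∈ V, Gen x u i l (P X) := fun X hX => hgen _ hX.1 (hPf1 X) (hPf2 X)
  -- properties of the index set
  have hT : ∀ t : krT x p₁ Φ, t.1.1 ∈ Φ ∧ t.1.2.1.1 ≠ t.1.2.1.2 ∧ t.1.2.2.1 ∈ Cons t.1.2.1.1 t.1.2.1.2 ∧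
      t.1.2.2.2 ∈ Cons t.1.2.1.1 t.1.2.1.2 ∧ krAct x p₁ t.1.1 t.1.2.2.1 t.1.2.2.2 ∧
      rotc t.1.1 (x t.1.2.2.1.1 - x t.1.2.2.1.2) ∈ Submodule.span ℝ {x u - x i, x l - x i} ∧
      rotc t.1.1 (x t.1.2.2.2.1 - x t.1.2.2.2.2) ∈ Submodule.span ℝ {x u - x i, x l - x i} := by
    intro t
    have ht := t.2
    unfold krT at ht
    rw [Finset.mem_filter, Finset.mem_product] at ht
    obtain ⟨⟨q1, _⟩, q2, q3, q4, q5, q6⟩ := ht
    exact ⟨q1, q2, q4, q5, q6, hpen _ q1 _ _ (kr_mem_Cons.mp q4).1 q6.2.1,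
      hpen _ q1 _ _ (kr_mem_Cons.mp q5).1 q6.2.2⟩
  have hne : ∀ X ∈ V, ∀ θ ∈ Φ, ∀ c : Lb k × Lb k, c.1 ≠ c.2 →
      rotc θ (x c.1 - x c.2) ∈ Submodule.span ℝ {x u - x i, x l - x i} →
      (krA x w ν θ c).1 * X.1 + (krA x w ν θ c).2 * X.2 ≠ 0 := by
    intro X hX θ hθ c hc hsp
    have h3 := kr_im hd hsp (P X)
    rw [← ha₁, ← ha₂, hPim1, hPim2] at h3
    rw [← h3]
    refine (hVgen X hX).trans c.1 c.2 hc θ ((hΦ θ).mp hθ).1 ?_
    rw [cval_rot]
    exact kr_pen_zero hsp (hPf1 X) (hPf2 X)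
  have hpf := partial_fractions (ι := krT x p₁ Φ) (fun t => h t.1.2.1.1 t.1.2.1.2)
    (fun t => krA x w ν t.1.1 t.1.2.2.1) (fun t => krA x w ν t.1.1 t.1.2.2.2) hVopen hVne
    (fun t => by
      obtain ⟨q1, q2, q3, q4, q5, q6, q7⟩ := hT t
      obtain ⟨n1, n2⟩ := kr_cons_ne q2 q3 q4 q5.1
      exact kr_det hx hd ((hΦ _).mp q1).1 (kr_mem_Cons.mp q3).1 (kr_mem_Cons.mp q4).1 n1 n2 q6 q7)
    (fun X hX t => by
      obtain ⟨q1, q2, q3, q4, q5, q6, q7⟩ := hT t
      exact hne X hX _ q1 _ (kr_mem_Cons.mp q3).1 q6)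
    (fun X hX t => by
      obtain ⟨q1, q2, q3, q4, q5, q6, q7⟩ := hT t
      exact hne X hX _ q1 _ (kr_mem_Cons.mp q4).1 q7)
    (fun X hX => by
      have hX1 : X.1 ≠ 0 := by
        have h3 := (hVgen X hX).trans u i hui 1 (by simp) (by rw [rot_one]; exact hPf1 X)
        rw [one_mul, ← ha₁, hPim1] at h3
        exact h3
      have sd := kr_sd hx (hVgen X hX) Φ hΦ ((-1 : ℝ) • w) hh
      set gX : ℂ → Lb k × Lb k → Lb k × Lb k → ℝ := fun θ c d =>
        |(krA x w ν θ c).1 * (krA x w ν θ d).2 - (krA x w ν θ c).2 * (krA x w ν θ d).1| /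
          (((krA x w ν θ c).1 * X.1 + (krA x w ν θ c).2 * X.2) *
            ((krA x w ν θ d).1 * X.1 + (krA x w ν θ d).2 * X.2)) with hgX
      have e1 := kr_nf x p₁ Φ h (fun θ c d => |X.1| * gX θ c d)
      have e2 : ∑ t : krT x p₁ Φ, h t.1.2.1.1 t.1.2.1.2 * (|X.1| * gX t.1.1 t.1.2.2.1 t.1.2.2.2) =
          |X.1| * ∑ t : krT x p₁ Φ, h t.1.2.1.1 t.1.2.1.2 * gX t.1.1 t.1.2.2.1 t.1.2.2.2 := by
        rw [Finset.mul_sum]
        exact Finset.sum_congr rfl fun t _ => by ring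
      have e3 : |X.1| * ∑ t : krT x p₁ Φ, h t.1.2.1.1 t.1.2.1.2 * gX t.1.1 t.1.2.2.1 t.1.2.2.2 = 0 := by
        rw [← e2, e1]
        refine Eq.trans ?_ sd
        refine Finset.sum_congr rfl fun θ hθ => Finset.sum_congr rfl fun i' _ =>
          Finset.sum_congr rfl fun j' _ => ?_
        by_cases hij : i' = j'
        · rw [if_pos hij, if_pos hij]
        rw [if_neg hij, if_neg hij]
        by_cases hc : rot θ p₁ ∈ cell x i' j'
        · rw [if_pos hc, if_pos ((hcell (P X) hX (hPf1 X) (hPf2 X) θ hθ i' j').mpr hc)]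
          congr 1
          refine Finset.sum_congr rfl fun c hcC => Finset.sum_congr rfl fun d hdC => ?_
          have hiff := hact (P X) hX (hPf1 X) (hPf2 X) θ hθ c d (kr_mem_Cons.mp hcC).1
            (kr_mem_Cons.mp hdC).1
          by_cases ha : krAct x p₁ θ c d
          · rw [if_pos ha, if_pos (hiff.mpr ha)]
            have sp1 := hpen θ hθ _ _ (kr_mem_Cons.mp hcC).1 ha.2.1
            have sp2 := hpen θ hθ _ _ (kr_mem_Cons.mp hdC).1 ha.2.2
            have i1 := kr_im hd sp1 (P X)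
            have i2 := kr_im hd sp2 (P X)
            rw [← ha₁, ← ha₂, hPim1, hPim2] at i1 i2
            unfold krE
            rw [i1, i2, clin_smul_right, clin_smul_right]
            have c1 : -1 * clin (rotc θ (x d.1 - x d.2)) w = (krA x w ν θ d).2 := by
              simp [krA]
            have c2 : -1 * clin (rotc θ (x c.1 - x c.2)) w = (krA x w ν θ c).2 := by
              simp [krA]
            rw [c1, c2, hgX]
            simp only
            rw [← mul_div_assoc, ← abs_mul]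
            congr 2
            ring
          · rw [if_neg ha, if_neg (fun h' => ha (hiff.mp h'))]
        · rw [if_neg hc, if_neg (fun h' => hc ((hcell (P X) hX (hPf1 X) (hPf2 X) θ hθ i' j').mp h'))]
      exact (mul_eq_zero.mp e3).resolve_left (abs_ne_zero.mpr hX1))
  -- conclusion
  set gk : ℂ → Lb k × Lb k → Lb k × Lb k → ℝ := fun θ c d =>
    if clin (rotc θ (x c.1 - x c.2)) w = 0 then
      Real.sign (clin (rotc θ (x c.1 - x c.2)) ν) * Real.sign (clin (rotc θ (x d.1 - x d.2)) w)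
    else 0 with hgk
  have e1 : ∑ θ ∈ Φ, kD x h θ p₁ w ν =
      ∑ t : krT x p₁ Φ, h t.1.2.1.1 t.1.2.1.2 * gk t.1.1 t.1.2.2.1 t.1.2.2.2 := by
    rw [kr_nf x p₁ Φ h gk]
    refine Finset.sum_congr rfl fun θ _ => ?_
    unfold kD
    refine Finset.sum_congr rfl fun i' _ => Finset.sum_congr rfl fun j' _ => ?_
    by_cases hij : i' = j'
    · rw [if_pos hij, if_pos hij]
    rw [if_neg hij, if_neg hij]
    unfold wt
    by_cases hc : rot θ p₁ ∈ cell x i' j'
    · rw [if_pos hc, if_pos hc]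
      congr 1
      refine Finset.sum_congr rfl fun c _ => Finset.sum_congr rfl fun d _ => ?_
      rw [hgk]
      simp only
      by_cases ha : krAct x p₁ θ c d
      · rw [if_pos ha]
        by_cases hw : clin (rotc θ (x c.1 - x c.2)) w = 0
        · rw [if_pos hw, if_pos ⟨ha.1, ha.2.1, ha.2.2, hw⟩]
        · rw [if_neg hw, if_neg (fun h' => hw h'.2.2.2)]
      · rw [if_neg ha, if_neg (fun h' => ha ⟨h'.1, h'.2.1, h'.2.2.1⟩)]
    · rw [if_neg hc, if_neg hc, mul_zero]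
  have e2 := kr_nf_symm x p₁ Φ h gk
  have e3 : ∑ t : krT x p₁ Φ, h t.1.2.1.1 t.1.2.1.2 *
      ((if (krA x w ν t.1.1 t.1.2.2.1).2 = 0 then Real.sign (krA x w ν t.1.1 t.1.2.2.1).1 *
          Real.sign (krA x w ν t.1.1 t.1.2.2.2).2 else 0) +
        (if (krA x w ν t.1.1 t.1.2.2.2).2 = 0 then Real.sign (krA x w ν t.1.1 t.1.2.2.2).1 *
          Real.sign (krA x w ν t.1.1 t.1.2.2.1).2 else 0)) =
      -(∑ t : krT x p₁ Φ, h t.1.2.1.1 t.1.2.1.2 * gk t.1.1 t.1.2.2.1 t.1.2.2.2 +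
        ∑ t : krT x p₁ Φ, h t.1.2.1.1 t.1.2.1.2 * gk t.1.1 t.1.2.2.2 t.1.2.2.1) := by
    rw [← Finset.sum_add_distrib, ← Finset.sum_neg_distrib]
    refine Finset.sum_congr rfl fun t _ => ?_
    simp only [krA, hgk, neg_eq_zero, Real.sign_neg]
    split_ifs <;> ring
  rw [e2] at e3
  have e4 := hpf
  rw [e1]
  have e5 := e3.symm.trans e4
  linarith

end Pool.Agent.FAN
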