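import Pool.Agent.FAN.KDefs

/-! Cell masses are locally Lipschitz functions of the fan; nondegeneracy is an open condition. -/

set_option autoImplicit false

namespace Pool.Agent.FAN

open MeasureTheory Topology Filter

variable {k : ℕ}

theorem isOpen_nondeg (k : ℕ) : IsOpen {x : Fan k | Nondeg x} := by
  have h1 : {x : Fan k | Nondeg x} =
      (fun x : Fan k => fun s => ((1 : ℝ), (x s).1, (x s).2.1)) ⁻¹'
        {f : Lb k → ℝ × (ℂ × ℂ) × (Fin k → ℝ) | LinearIndependent ℝ f} := by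
    ext x
    simp only [Set.mem_ofPred_eq, Set.mem_preimage, Fintype.linearIndependent_iff]
    constructor
    · intro h g hg
      have h2 : ∑ s, g s = 0 := by
        have := congrArg Prod.fst hg
        simpa [Prod.fst_sum] using this
      have h3 : ∑ s, g s • (x s).1 = 0 := by
        have := congrArg (fun q => q.2.1) hg
        simpa [Prod.fst_sum, Prod.snd_sum] using this
      have h4 : ∑ s, g s • (x s).2.1 = 0 := by
        have := congrArg (fun q => q.2.2) hg
        simpa [Prod.fst_sum, Prod.snd_sum] using this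
      intro i
      exact congrFun (h g h2 h3 h4) i
    · intro h g h2 h3 h4
      funext i
      refine h g ?_ i
      refine Prod.ext ?_ (Prod.ext ?_ ?_)
      · simpa [Prod.fst_sum] using h2
      · simpa [Prod.fst_sum, Prod.snd_sum] using h3
      · simpa [Prod.fst_sum, Prod.snd_sum] using h4
  rw [h1]
  refine isOpen_setOfPred_linearIndependent.preimage ?_
  fun_prop

theorem LIP_cval_le (c : Cf k) (p : Sp k) : |cval c p| ≤ (k + 2) * ‖c‖ * (1 + ‖p‖) := by
  have hc1 : ‖c.1.1‖ ≤ ‖c‖ := (norm_fst_le c.1).trans (norm_fst_le c)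
  have hc2 : ‖c.1.2‖ ≤ ‖c‖ := (norm_snd_le c.1).trans (norm_fst_le c)
  have hc3 : ∀ l, ‖c.2.1 l‖ ≤ ‖c‖ := fun l =>
    (norm_le_pi_norm c.2.1 l).trans ((norm_fst_le c.2).trans (norm_snd_le c))
  have hc4 : ‖c.2.2‖ ≤ ‖c‖ := (norm_snd_le c.2).trans (norm_snd_le c)
  have hp1 : ‖p.1.1‖ ≤ ‖p‖ := (norm_fst_le p.1).trans (norm_fst_le p)
  have hp2 : ‖p.1.2‖ ≤ ‖p‖ := (norm_snd_le p.1).trans (norm_fst_le p)
  have hp3 : ∀ l, ‖p.2 l‖ ≤ ‖p‖ := fun l => (norm_le_pi_norm p.2 l).trans (norm_snd_le p)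
  have h1 : |(zt c.1 p.1).re| ≤ 2 * (‖c‖ * ‖p‖) := by
    refine (Complex.abs_re_le_norm _).trans ?_
    unfold zt
    refine (norm_add_le _ _).trans ?_
    rw [norm_mul, norm_mul]
    have a1 := mul_le_mul hc1 hp1 (norm_nonneg _) (norm_nonneg _)
    have a2 := mul_le_mul hc2 hp2 (norm_nonneg _) (norm_nonneg _)
    linarith
  have h2 : |∑ l, c.2.1 l * p.2 l| ≤ k * (‖c‖ * ‖p‖) := by
    refine (Finset.abs_sum_le_sum_abs _ _).trans ?_
    have : ∀ l ∈ (Finset.univ : Finset (Fin k)), |c.2.1 l * p.2 l| ≤ ‖c‖ * ‖p‖ := by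
      intro l _
      rw [abs_mul]
      exact mul_le_mul (hc3 l) (hp3 l) (abs_nonneg _) (norm_nonneg _)
    refine (Finset.sum_le_sum this).trans ?_
    simp
  have h3 : |cval c p| ≤ |(zt c.1 p.1).re| + (|∑ l, c.2.1 l * p.2 l| + |c.2.2|) := by
    unfold cval et
    exact (abs_add_le _ _).trans (add_le_add le_rfl (abs_add_le _ _))
  have h4 : |c.2.2| ≤ ‖c‖ := hc4
  have hk : (0 : ℝ) ≤ k := Nat.cast_nonneg k
  nlinarith [norm_nonneg c, norm_nonneg p, mul_nonneg (norm_nonneg c) (norm_nonneg p), mul_nonneg hk (norm_nonneg c)]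

theorem LIP_clin_le (c : Cf k) (v : Sp k) : |clin c v| ≤ (k + 2) * ‖c‖ * ‖v‖ := by
  have h : clin c v = cval (c.1, (c.2.1, 0)) v := by simp [clin, cval, et]
  by_cases hv : ‖v‖ = 0
  · have : v = 0 := norm_eq_zero.mp hv
    subst this
    simp [clin]
  -- homogeneity: use large multiples
  have hc1 : ‖c.1.1‖ ≤ ‖c‖ := (norm_fst_le c.1).trans (norm_fst_le c)
  have hc2 : ‖c.1.2‖ ≤ ‖c‖ := (norm_snd_le c.1).trans (norm_fst_le c)
  have hc3 : ∀ l, ‖c.2.1 l‖ ≤ ‖c‖ := fun l =>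
    (norm_le_pi_norm c.2.1 l).trans ((norm_fst_le c.2).trans (norm_snd_le c))
  have hp1 : ‖v.1.1‖ ≤ ‖v‖ := (norm_fst_le v.1).trans (norm_fst_le v)
  have hp2 : ‖v.1.2‖ ≤ ‖v‖ := (norm_snd_le v.1).trans (norm_fst_le v)
  have hp3 : ∀ l, ‖v.2 l‖ ≤ ‖v‖ := fun l => (norm_le_pi_norm v.2 l).trans (norm_snd_le v)
  have h1 : |(zt c.1 v.1).re| ≤ 2 * (‖c‖ * ‖v‖) := by
    refine (Complex.abs_re_le_norm _).trans ?_
    unfold zt
    refine (norm_add_le _ _).trans ?_
    rw [norm_mul, norm_mul]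
    have a1 := mul_le_mul hc1 hp1 (norm_nonneg _) (norm_nonneg _)
    have a2 := mul_le_mul hc2 hp2 (norm_nonneg _) (norm_nonneg _)
    linarith
  have h2 : |∑ l, c.2.1 l * v.2 l| ≤ k * (‖c‖ * ‖v‖) := by
    refine (Finset.abs_sum_le_sum_abs _ _).trans ?_
    have : ∀ l ∈ (Finset.univ : Finset (Fin k)), |c.2.1 l * v.2 l| ≤ ‖c‖ * ‖v‖ := by
      intro l _
      rw [abs_mul]
      exact mul_le_mul (hc3 l) (hp3 l) (abs_nonneg _) (norm_nonneg _)
    refine (Finset.sum_le_sum this).trans ?_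
    simp
  have h3 : |clin c v| ≤ |(zt c.1 v.1).re| + |∑ l, c.2.1 l * v.2 l| := by
    unfold clin
    exact abs_add_le _ _
  nlinarith

instance LIP_haar1 : (volume : Measure (ℂ × ℂ)).IsAddHaarMeasure := by
  rw [Measure.volume_eq_prod]; infer_instance

instance LIP_haar : (volume : Measure (Sp k)).IsAddHaarMeasure := by
  have h2 : (volume : Measure (Fin k → ℝ)).IsAddHaarMeasure := inferInstance
  have := LIP_haar1
  exact Measure.prod.instIsAddHaarMeasure (volume : Measure (ℂ × ℂ)) (volume : Measure (Fin k → ℝ))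

instance LIP_inv : (volume : Measure (Sp k)).IsAddRightInvariant := inferInstance

/-- slab estimate for Lebesgue measure on balls -/
theorem LIP_slab (c : Cf k) (e : Sp k) (he : ‖e‖ ≤ 1) {δ : ℝ} (hδ : 0 < δ) (hc : δ ≤ clin c e)
    {ε : ℝ} (hε : 0 < ε) {R : ℝ} :
    (volume {p : Sp k | ‖p‖ ≤ R ∧ |cval c p| ≤ ε}).toReal ≤
      6 * (ε / δ) * (volume (Metric.closedBall (0 : Sp k) (R + 1))).toReal := by
  set S : Set (Sp k) := {p : Sp k | ‖p‖ ≤ R ∧ |cval c p| ≤ ε} with hS
  have hSc : IsClosed S := by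
    have h1 : IsClosed {p : Sp k | ‖p‖ ≤ R} := isClosed_le continuous_norm continuous_const
    have h2 : IsClosed {p : Sp k | |cval c p| ≤ ε} := isClosed_le (continuous_cval_right c).abs continuous_const
    exact h1.inter h2
  have hSm : MeasurableSet S := hSc.measurableSet
  have hVfin : volume (Metric.closedBall (0 : Sp k) (R + 1)) ≠ ⊤ := measure_closedBall_lt_top.ne
  have hd : 0 < clin c e := lt_of_lt_of_le hδ hc
  set τ : ℝ := 3 * ε / clin c e with hτ
  have hτ0 : 0 < τ := by positivity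
  have hτd : τ * clin c e = 3 * ε := by rw [hτ]; field_simp
  have hτle : 2 * τ ≤ 6 * (ε / δ) := by
    have : ε / clin c e ≤ ε / δ := div_le_div_of_nonneg_left hε.le hδ hc
    have h2 : τ = 3 * (ε / clin c e) := by rw [hτ]; ring
    rw [h2]; linarith
  have hV0 : 0 ≤ (volume (Metric.closedBall (0 : Sp k) (R + 1))).toReal := ENNReal.toReal_nonneg
  have hsub0 : S ⊆ Metric.closedBall (0 : Sp k) (R + 1) := by
    intro p hp
    rw [Metric.mem_closedBall, dist_zero_right]
    exact hp.1.trans (by linarith)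
  have hmono : (volume S).toReal ≤ (volume (Metric.closedBall (0 : Sp k) (R + 1))).toReal :=
    ENNReal.toReal_mono hVfin (measure_mono hsub0)
  by_cases hcase : 1 / 2 ≤ τ
  · have : 1 ≤ 6 * (ε / δ) := by linarith
    nlinarith
  · push Not at hcase
    set N : ℕ := ⌊1 / τ⌋₊ with hN
    have hN1 : (N : ℝ) ≤ 1 / τ := Nat.floor_le (by positivity)
    have hN2 : 1 / τ < N + 1 := Nat.lt_floor_add_one _
    have hNτ : N * τ ≤ 1 := by
      rw [le_div_iff₀ hτ0] at hN1; exact hN1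
    have hN3 : 1 ≤ 2 * τ * N := by
      rw [div_lt_iff₀ hτ0] at hN2
      nlinarith
    let T : ℕ → Set (Sp k) := fun j => (fun p => p + (-(j * τ)) • e) ⁻¹' S
    have hTm : ∀ j ∈ Finset.range N, MeasurableSet (T j) := fun j _ =>
      hSm.preimage (by fun_prop)
    have hTv : ∀ j, volume (T j) = volume S := fun j => measure_preimage_add_right volume _ S
    have hcT : ∀ j p, p ∈ T j → |cval c p - j * (3 * ε)| ≤ ε := by
      intro j p hp
      have h1 := hp.2
      rw [cval_add_point, clin_smul_right] at h1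
      have : cval c p + -(j * τ) * clin c e = cval c p - j * (3 * ε) := by
        rw [← hτd]; ring
      rwa [this] at h1
    have hdisj : (↑(Finset.range N) : Set ℕ).PairwiseDisjoint T := by
      intro i _ j _ hij
      rw [Function.onFun, Set.disjoint_left]
      intro p hpi hpj
      have h1 := abs_le.mp (hcT i p hpi)
      have h2 := abs_le.mp (hcT j p hpj)
      rcases lt_or_gt_of_ne hij with h | h
      · have : (i : ℝ) + 1 ≤ j := by exact_mod_cast h
        nlinarith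
      · have : (j : ℝ) + 1 ≤ i := by exact_mod_cast h
        nlinarith
    have hsub : (⋃ j ∈ Finset.range N, T j) ⊆ Metric.closedBall (0 : Sp k) (R + 1) := by
      intro p hp
      simp only [Set.mem_iUnion] at hp
      obtain ⟨j, hj, hp⟩ := hp
      rw [Metric.mem_closedBall, dist_zero_right]
      have h1 : ‖p + (-(j * τ)) • e‖ ≤ R := hp.1
      have h2 : ‖((j : ℝ) * τ) • e‖ ≤ 1 := by
        rw [norm_smul, Real.norm_eq_abs, abs_of_nonneg (by positivity)]
        have hj' : (j : ℝ) ≤ N := by exact_mod_cast (Finset.mem_range.mp hj).le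
        have : (j : ℝ) * τ ≤ 1 := (mul_le_mul_of_nonneg_right hj' hτ0.le).trans hNτ
        nlinarith [norm_nonneg e, mul_nonneg (Nat.cast_nonneg (α := ℝ) j) hτ0.le]
      have h3 : p = (p + (-(j * τ)) • e) + ((j : ℝ) * τ) • e := by
        rw [neg_smul]; abel
      rw [h3]
      exact (norm_add_le _ _).trans (add_le_add h1 h2)
    have hsum : (N : ENNReal) * volume S ≤ volume (Metric.closedBall (0 : Sp k) (R + 1)) := by
      have h1 := measure_biUnion_finset (μ := volume) hdisj hTm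
      have h2 : ∑ j ∈ Finset.range N, volume (T j) = (N : ENNReal) * volume S := by
        rw [Finset.sum_congr rfl fun j _ => hTv j]
        simp
      rw [← h2, ← h1]
      exact measure_mono hsub
    have hsum' : (N : ℝ) * (volume S).toReal ≤ (volume (Metric.closedBall (0 : Sp k) (R + 1))).toReal := by
      have := ENNReal.toReal_mono hVfin hsum
      rwa [ENNReal.toReal_mul, ENNReal.toReal_natCast] at this
    have hS0 : 0 ≤ (volume S).toReal := ENNReal.toReal_nonneg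
    calc (volume S).toReal = 1 * (volume S).toReal := (one_mul _).symm
      _ ≤ (2 * τ * N) * (volume S).toReal := mul_le_mul_of_nonneg_right hN3 hS0
      _ = 2 * τ * (N * (volume S).toReal) := by ring
      _ ≤ 2 * τ * (volume (Metric.closedBall (0 : Sp k) (R + 1))).toReal :=
          mul_le_mul_of_nonneg_left hsum' (by positivity)
      _ ≤ 6 * (ε / δ) * (volume (Metric.closedBall (0 : Sp k) (R + 1))).toReal :=
          mul_le_mul_of_nonneg_right hτle hV0


/-- radius of a ball containing the support of `nu k s` -/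
noncomputable def LIP_R (k s : ℕ) : ℝ :=
  ‖TopologicalSpace.denseSeq (Sp k) s.unpair.1‖ + 1 / ((s.unpair.2 : ℝ) + 1)

/-- volume of a big ball -/
noncomputable def LIP_V (k s : ℕ) : ℝ := (volume (Metric.closedBall (0 : Sp k) (LIP_R k s + 1))).toReal

theorem LIP_R_nonneg (k s : ℕ) : 0 ≤ LIP_R k s := by unfold LIP_R; positivity

theorem LIP_V_nonneg (k s : ℕ) : 0 ≤ LIP_V k s := ENNReal.toReal_nonneg

theorem LIP_Bl_sub {s : ℕ} {p : Sp k} (hp : p ∈ Bl k s) : ‖p‖ ≤ LIP_R k s := by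
  unfold Bl at hp
  rw [Metric.mem_closedBall, dist_eq_norm] at hp
  unfold LIP_R
  calc ‖p‖ = ‖TopologicalSpace.denseSeq (Sp k) s.unpair.1 + (p - TopologicalSpace.denseSeq (Sp k) s.unpair.1)‖ := by
        congr 1; abel
    _ ≤ _ := (norm_add_le _ _).trans (by linarith)

theorem LIP_vol_Bl (k s : ℕ) : volume (Bl k s) < ⊤ := measure_closedBall_lt_top

theorem LIP_meas_Bl (k s : ℕ) : MeasurableSet (Bl k s) := Metric.isClosed_closedBall.measurableSet

instance LIP_fin1 (k s : ℕ) : IsFiniteMeasure ((volume : Measure (Sp k)).restrict (Bl k s)) :=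
  ⟨by rw [Measure.restrict_apply_univ]; exact LIP_vol_Bl k s⟩

instance LIP_fin2 : IsFiniteMeasure ((volume : Measure ℝ).restrict (Set.Icc (0 : ℝ) (2 * Real.pi))) :=
  ⟨by rw [Measure.restrict_apply_univ]; exact measure_Icc_lt_top⟩

instance LIP_fin (k s : ℕ) : IsFiniteMeasure (nu k s) := by
  unfold nu; infer_instance

theorem LIP_meas_f : Measurable (fun q : Sp k × ℝ => rot (ang q.2) q.1) :=
  (continuous_rot.comp ((continuous_ang.comp continuous_snd).prodMk continuous_fst)).measurable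

theorem LIP_nu_apply (s : ℕ) {W : Set (Sp k)} (hW : MeasurableSet W) :
    nu k s W = ∫⁻ φ in Set.Icc (0 : ℝ) (2 * Real.pi), volume ({p : Sp k | rot (ang φ) p ∈ W} ∩ Bl k s) := by
  unfold nu
  rw [Measure.map_apply LIP_meas_f hW, Measure.prod_apply_symm (LIP_meas_f hW)]
  refine lintegral_congr fun φ => ?_
  rw [Measure.restrict_apply]
  · rfl
  · exact (measurable_id.prodMk measurable_const) (LIP_meas_f hW)

theorem LIP_nu_compl (s : ℕ) : nu k s (Metric.closedBall (0 : Sp k) (LIP_R k s))ᶜ = 0 := by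
  rw [LIP_nu_apply s Metric.isClosed_closedBall.measurableSet.compl]
  refine (lintegral_congr fun φ => ?_).trans lintegral_zero
  have : {p : Sp k | rot (ang φ) p ∈ (Metric.closedBall (0 : Sp k) (LIP_R k s))ᶜ} ∩ Bl k s = ∅ := by
    ext p
    simp only [Set.mem_inter_iff, Set.mem_ofPred_eq, Set.mem_compl_iff, Metric.mem_closedBall, dist_zero_right,
      norm_rot (norm_ang φ), Set.mem_empty_iff_false, iff_false, not_and]
    intro h1 h2
    exact h1 (LIP_Bl_sub h2)
  rw [this, measure_empty]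

theorem LIP_clin_rot {θ : ℂ} (hθ : ‖θ‖ = 1) (c : Cf k) (e : Sp k) : clin (rotc θ c) (rot θ⁻¹ e) = clin c e := by
  have h0 : θ ≠ 0 := by
    intro h; rw [h] at hθ; simp at hθ
  unfold clin rotc rot
  simp only [zt_smul_left, zt_smul_right]
  rw [← mul_assoc, inv_mul_cancel₀ h0, one_mul]

theorem LIP_nu_slab (s : ℕ) (c : Cf k) (e : Sp k) (he : ‖e‖ ≤ 1) {δ : ℝ} (hδ : 0 < δ) (hc : δ ≤ clin c e)
    {ε : ℝ} (hε : 0 < ε) :
    (nu k s {p : Sp k | |cval c p| ≤ ε}).toReal ≤ 2 * Real.pi * (6 * (ε / δ) * LIP_V k s) := by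
  have hW : MeasurableSet {p : Sp k | |cval c p| ≤ ε} :=
    (isClosed_le (continuous_cval_right c).abs continuous_const).measurableSet
  have hV := LIP_V_nonneg k s
  have hB : 0 ≤ 6 * (ε / δ) * LIP_V k s := by positivity
  have key : ∀ φ : ℝ, volume ({p : Sp k | rot (ang φ) p ∈ {p : Sp k | |cval c p| ≤ ε}} ∩ Bl k s) ≤
      ENNReal.ofReal (6 * (ε / δ) * LIP_V k s) := by
    intro φ
    have hn : ‖(ang φ)⁻¹‖ = 1 := by rw [norm_inv, norm_ang, inv_one]
    have h1 := LIP_slab (rotc (ang φ) c) (rot (ang φ)⁻¹ e) (by rw [norm_rot hn]; exact he) hδ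
      (by rw [LIP_clin_rot (norm_ang φ)]; exact hc) hε (R := LIP_R k s)
    have h2 : {p : Sp k | rot (ang φ) p ∈ {p : Sp k | |cval c p| ≤ ε}} ∩ Bl k s ⊆
        {p : Sp k | ‖p‖ ≤ LIP_R k s ∧ |cval (rotc (ang φ) c) p| ≤ ε} := by
      rintro p ⟨hp1, hp2⟩
      refine ⟨LIP_Bl_sub hp2, ?_⟩
      rw [← cval_rot]; exact hp1
    refine (measure_mono h2).trans ?_
    have hfin : volume {p : Sp k | ‖p‖ ≤ LIP_R k s ∧ |cval (rotc (ang φ) c) p| ≤ ε} ≠ ⊤ := by
      refine ne_top_of_le_ne_top (measure_closedBall_lt_top (x := (0 : Sp k)) (r := LIP_R k s)).ne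
        (measure_mono fun p hp => ?_)
      rw [Metric.mem_closedBall, dist_zero_right]; exact hp.1
    rw [← ENNReal.ofReal_toReal hfin]
    exact ENNReal.ofReal_le_ofReal h1
  rw [LIP_nu_apply s hW]
  have h3 : ∫⁻ φ in Set.Icc (0 : ℝ) (2 * Real.pi),
      volume ({p : Sp k | rot (ang φ) p ∈ {p : Sp k | |cval c p| ≤ ε}} ∩ Bl k s) ≤
      ENNReal.ofReal (2 * Real.pi * (6 * (ε / δ) * LIP_V k s)) := by
    refine (lintegral_mono key).trans ?_
    rw [lintegral_const, Measure.restrict_apply_univ, Real.volume_Icc, sub_zero, mul_comm,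
      ← ENNReal.ofReal_mul (by positivity)]
  exact ENNReal.toReal_le_of_le_ofReal (by positivity) h3

theorem LIP_cell_diff {x x' : Fan k} {i j : Lb k} {R D : ℝ} (hD : ‖x - x'‖ ≤ D) {p : Sp k}
    (hp : ‖p‖ ≤ R) (h1 : p ∈ cell x i j) (h2 : p ∉ cell x' i j) :
    ∃ a : Lb k × Lb k, a.1 ≠ a.2 ∧ |cval (x a.1 - x a.2) p| ≤ 2 * ((k + 2) * D * (1 + R)) := by
  have hbd : ∀ s, |cval (x s) p - cval (x' s) p| ≤ (k + 2) * D * (1 + R) := by
    intro s
    rw [← cval_sub]
    refine (LIP_cval_le _ _).trans ?_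
    have : ‖x s - x' s‖ ≤ D := (norm_le_pi_norm (x - x') s).trans hD
    have h0 : 0 ≤ D := (norm_nonneg _).trans this
    have hk : (0 : ℝ) ≤ k := Nat.cast_nonneg k
    gcongr
  have hE : 0 ≤ (k + 2) * D * (1 + R) := (abs_nonneg _).trans (hbd i)
  unfold cell at h1 h2
  simp only [Set.mem_ofPred_eq, not_forall, not_and_or, not_le] at h1 h2
  obtain ⟨t, ht⟩ := h2
  obtain ⟨h1a, h1b⟩ := h1 t
  have bt := abs_le.mp (hbd t)
  rcases ht with ht | ht
  · refine ⟨(t, i), ?_, ?_⟩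
    · intro h
      have h' : t = i := h
      rw [h'] at ht; exact lt_irrefl _ ht
    · have bi := abs_le.mp (hbd i)
      simp only
      rw [cval_sub, abs_le]
      constructor <;> linarith [bi.1, bi.2, bt.1, bt.2]
  · refine ⟨(j, t), ?_, ?_⟩
    · intro h
      have h' : j = t := h
      rw [h'] at ht; exact lt_irrefl _ ht
    · have bj := abs_le.mp (hbd j)
      simp only
      rw [cval_sub, abs_le]
      constructor <;> linarith [bj.1, bj.2, bt.1, bt.2]

theorem LIP_exists_dir {x : Fan k} (hx : Nondeg x) {s t : Lb k} (hst : s ≠ t) :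
    ∃ e : Sp k, ‖e‖ ≤ 1 ∧ 0 < clin (x s - x t) e := by
  set c := x s - x t with hc
  have hne : ¬ (c.1 = 0 ∧ c.2.1 = 0) := by
    rintro ⟨h1, h2⟩
    have h3 := hx (Pi.single s 1 - Pi.single t 1) (by simp) ?_ ?_
    · have := congrFun h3 s
      simp [hst] at this
    · simp only [Pi.sub_apply, sub_smul, Finset.sum_sub_distrib, Pi.single_apply, ite_smul, one_smul, zero_smul,
        Finset.sum_ite_eq', Finset.mem_univ, if_true]
      simpa [hc] using h1
    · simp only [Pi.sub_apply, sub_smul, Finset.sum_sub_distrib, Pi.single_apply, ite_smul, one_smul, zero_smul,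
        Finset.sum_ite_eq', Finset.mem_univ, if_true]
      simpa [hc] using h2
  let v : Sp k := (((starRingEnd ℂ) c.1.1, (starRingEnd ℂ) c.1.2), c.2.1)
  have hv : clin c v = Complex.normSq c.1.1 + Complex.normSq c.1.2 + ∑ l, c.2.1 l * c.2.1 l := by
    simp only [clin, zt, v, Complex.mul_conj, Complex.add_re, Complex.ofReal_re]
  have hsum : 0 ≤ ∑ l, c.2.1 l * c.2.1 l := Finset.sum_nonneg fun l _ => mul_self_nonneg _
  have hpos : 0 < clin c v := by
    rw [hv]
    by_contra hle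
    push Not at hle
    have n1 := Complex.normSq_nonneg c.1.1
    have n2 := Complex.normSq_nonneg c.1.2
    have z1 : Complex.normSq c.1.1 = 0 := by linarith
    have z2 : Complex.normSq c.1.2 = 0 := by linarith
    have z3 : ∑ l, c.2.1 l * c.2.1 l = 0 := by linarith
    refine hne ⟨Prod.ext (Complex.normSq_eq_zero.mp z1) (Complex.normSq_eq_zero.mp z2), ?_⟩
    funext l
    have := (Finset.sum_eq_zero_iff_of_nonneg fun l _ => mul_self_nonneg (c.2.1 l)).mp z3 l (Finset.mem_univ l)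
    exact mul_self_eq_zero.mp this
  refine ⟨(1 / (1 + ‖v‖)) • v, ?_, ?_⟩
  · rw [norm_smul, Real.norm_eq_abs, abs_of_nonneg (by positivity), one_div, inv_mul_le_iff₀ (by positivity)]
    linarith
  · rw [clin_smul_right]
    exact mul_pos (by positivity) hpos

theorem LIP_exists_delta {x : Fan k} (hx : Nondeg x) :
    ∃ δ : ℝ, 0 < δ ∧ ∃ e : Lb k × Lb k → Sp k, ∀ a, a.1 ≠ a.2 → ‖e a‖ ≤ 1 ∧
      ∀ x' ∈ Metric.closedBall x (δ / (2 * (k + 2))), δ ≤ clin (x' a.1 - x' a.2) (e a) := by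
  have h1 : ∀ a : Lb k × Lb k, ∃ e : Sp k, ∃ d : ℝ, 0 < d ∧ (a.1 ≠ a.2 → ‖e‖ ≤ 1 ∧ d = clin (x a.1 - x a.2) e) := by
    intro a
    by_cases ha : a.1 = a.2
    · exact ⟨0, 1, one_pos, fun h => absurd ha h⟩
    · obtain ⟨e, he1, he2⟩ := LIP_exists_dir hx ha
      exact ⟨e, _, he2, fun _ => ⟨he1, rfl⟩⟩
  choose e d hd he using h1
  obtain ⟨a0, ha0⟩ := Finite.exists_min d
  refine ⟨d a0 / 2, by linarith [hd a0], e, fun a ha => ⟨(he a ha).1, fun x' hx' => ?_⟩⟩
  have hk : (0 : ℝ) ≤ k := Nat.cast_nonneg k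
  have h2 : |clin ((x' a.1 - x' a.2) - (x a.1 - x a.2)) (e a)| ≤ d a0 / 2 := by
    refine (LIP_clin_le _ _).trans ?_
    have hn : ∀ s, ‖x' s - x s‖ ≤ d a0 / 2 / (2 * (k + 2)) := fun s =>
      (norm_le_pi_norm (x' - x) s).trans (by rw [← dist_eq_norm]; exact Metric.mem_closedBall.mp hx')
    have hn2 : ‖(x' a.1 - x' a.2) - (x a.1 - x a.2)‖ ≤ d a0 / 2 / (k + 2) := by
      have : (x' a.1 - x' a.2) - (x a.1 - x a.2) = (x' a.1 - x a.1) - (x' a.2 - x a.2) := by abel
      rw [this]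
      refine (norm_sub_le _ _).trans ((add_le_add (hn _) (hn _)).trans (le_of_eq ?_))
      field_simp
      ring
    calc (k + 2) * ‖(x' a.1 - x' a.2) - (x a.1 - x a.2)‖ * ‖e a‖
        ≤ (k + 2) * (d a0 / 2 / (k + 2)) * 1 := by
          have := (he a ha).1
          have h0 := (norm_nonneg _).trans hn2
          gcongr
      _ = d a0 / 2 := by field_simp
  rw [clin_sub] at h2
  have h3 := (abs_le.mp h2).1
  have h4 := (he a ha).2
  have h5 := ha0 a
  linarith

/-- the difference of cell masses, one direction -/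
theorem LIP_nu_diff (s : ℕ) {x x' : Fan k} {e : Lb k × Lb k → Sp k} {δ : ℝ} (hδ : 0 < δ)
    (he : ∀ a, a.1 ≠ a.2 → ‖e a‖ ≤ 1) (hx : ∀ a, a.1 ≠ a.2 → δ ≤ clin (x a.1 - x a.2) (e a))
    {D : ℝ} (hD0 : 0 < D) (hD : ‖x - x'‖ ≤ D) (i j : Lb k) :
    (nu k s (cell x i j)).toReal ≤ (nu k s (cell x' i j)).toReal +
      (k + 5) ^ 2 * (2 * Real.pi * (6 * (2 * ((k + 2) * D * (1 + LIP_R k s)) / δ) * LIP_V k s)) := by
  classical
  set E : ℝ := 2 * ((k + 2) * D * (1 + LIP_R k s)) with hE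
  have hR := LIP_R_nonneg k s
  have hE0 : 0 < E := by positivity
  let P : Finset (Lb k × Lb k) := Finset.univ.filter fun a => a.1 ≠ a.2
  have hsub : cell x i j ⊆ cell x' i j ∪ ((⋃ a ∈ P, {p : Sp k | |cval (x a.1 - x a.2) p| ≤ E}) ∪
      (Metric.closedBall (0 : Sp k) (LIP_R k s))ᶜ) := by
    intro p hp
    by_cases h1 : p ∈ cell x' i j
    · exact Or.inl h1
    · right
      by_cases h2 : p ∈ Metric.closedBall (0 : Sp k) (LIP_R k s)
      · left
        rw [Metric.mem_closedBall, dist_zero_right] at h2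
        obtain ⟨a, ha1, ha2⟩ := LIP_cell_diff hD h2 hp h1
        simp only [Set.mem_iUnion]
        exact ⟨a, Finset.mem_filter.mpr ⟨Finset.mem_univ _, ha1⟩, ha2⟩
      · exact Or.inr h2
  have h1 : nu k s (cell x i j) ≤ nu k s (cell x' i j) +
      ∑ a ∈ P, nu k s {p : Sp k | |cval (x a.1 - x a.2) p| ≤ E} := by
    refine (measure_mono hsub).trans ((measure_union_le _ _).trans (add_le_add le_rfl ?_))
    refine (measure_union_le _ _).trans ?_
    rw [LIP_nu_compl, add_zero]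
    exact measure_biUnion_finset_le _ _
  have hfin : ∀ W : Set (Sp k), nu k s W ≠ ⊤ := fun W => measure_ne_top _ _
  have h2 : (nu k s (cell x i j)).toReal ≤ (nu k s (cell x' i j)).toReal +
      ∑ a ∈ P, (nu k s {p : Sp k | |cval (x a.1 - x a.2) p| ≤ E}).toReal := by
    have hs : ∑ a ∈ P, nu k s {p : Sp k | |cval (x a.1 - x a.2) p| ≤ E} ≠ ⊤ :=
      ENNReal.sum_ne_top.mpr fun a _ => hfin _
    have := ENNReal.toReal_mono (ENNReal.add_ne_top.mpr ⟨hfin _, hs⟩) h1
    rwa [ENNReal.toReal_add (hfin _) hs, ENNReal.toReal_sum fun a _ => hfin _] at this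
  refine h2.trans (add_le_add le_rfl ?_)
  have h3 : ∀ a ∈ P, (nu k s {p : Sp k | |cval (x a.1 - x a.2) p| ≤ E}).toReal ≤
      2 * Real.pi * (6 * (E / δ) * LIP_V k s) := by
    intro a ha
    have ha' : a.1 ≠ a.2 := (Finset.mem_filter.mp ha).2
    exact LIP_nu_slab s _ (e a) (he a ha') hδ (hx a ha') hE0
  have hV := LIP_V_nonneg k s
  refine (Finset.sum_le_card_nsmul _ _ _ h3).trans ?_
  rw [nsmul_eq_mul]
  refine mul_le_mul_of_nonneg_right ?_ (by positivity)
  have hcard : P.card ≤ (k + 5) ^ 2 := by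
    refine (Finset.card_le_univ P).trans ?_
    simp [Fintype.card_prod, sq]
  exact_mod_cast hcard

theorem gv_lip (k : ℕ) : ∃ Λ : ℕ → ℝ, (∀ s, 0 < Λ s) ∧ (∀ s, (nu k s Set.univ).toReal ≤ Λ s) ∧
    ∀ x : Fan k, Nondeg x → ∃ r > 0, ∃ C : ℝ, 0 ≤ C ∧ ∀ x' ∈ Metric.closedBall x r,
      ∀ x'' ∈ Metric.closedBall x r, ∀ s, ‖gv k s x' - gv k s x''‖ ≤ C * Λ s * ‖x' - x''‖ := by
  have hk : (0 : ℝ) ≤ k := Nat.cast_nonneg k
  refine ⟨fun s => 1 + (nu k s Set.univ).toReal + (1 + LIP_R k s) * LIP_V k s, fun s => ?_, fun s => ?_, ?_⟩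
  · have h1 := LIP_R_nonneg k s
    have h2 := LIP_V_nonneg k s
    have h3 : 0 ≤ (nu k s Set.univ).toReal := ENNReal.toReal_nonneg
    positivity
  · have h1 := LIP_R_nonneg k s
    have h2 := LIP_V_nonneg k s
    have h3 : 0 ≤ (1 + LIP_R k s) * LIP_V k s := by positivity
    simp only
    linarith
  intro x hx
  obtain ⟨δ, hδ, e, he⟩ := LIP_exists_delta hx
  refine ⟨δ / (2 * (k + 2)), by positivity,
    2 * ((k + 5) ^ 2 * (2 * Real.pi * (6 * (2 * (k + 2) / δ)))), by positivity, ?_⟩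
  intro x' hx' x'' hx'' s
  by_cases hD : x' = x''
  · subst hD; simp
  have hD0 : 0 < ‖x' - x''‖ := norm_pos_iff.mpr (sub_ne_zero.mpr hD)
  have hR := LIP_R_nonneg k s
  have hV := LIP_V_nonneg k s
  have h3 : 0 ≤ (nu k s Set.univ).toReal := ENNReal.toReal_nonneg
  set B : ℝ := (k + 5) ^ 2 * (2 * Real.pi * (6 * (2 * ((k + 2) * ‖x' - x''‖ * (1 + LIP_R k s)) / δ) * LIP_V k s))
    with hB
  have hB0 : 0 ≤ B := by positivity
  have key : ∀ i j, |(nu k s (cell x' i j)).toReal - (nu k s (cell x'' i j)).toReal| ≤ B := by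
    intro i j
    have a1 := LIP_nu_diff s hδ (fun a ha => (he a ha).1) (fun a ha => (he a ha).2 x' hx') hD0 le_rfl i j
      (x' := x'')
    have a2 := LIP_nu_diff s hδ (fun a ha => (he a ha).1) (fun a ha => (he a ha).2 x'' hx'') hD0
      (le_of_eq (norm_sub_rev x'' x')) i j (x' := x')
    rw [abs_le]
    constructor <;> linarith
  have h4 : ‖gv k s x' - gv k s x''‖ ≤ 2 * B := by
    rw [pi_norm_le_iff_of_nonneg (by positivity)]
    intro i
    rw [pi_norm_le_iff_of_nonneg (by positivity)]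
    intro j
    rw [Real.norm_eq_abs]
    simp only [Pi.sub_apply, gv]
    by_cases hij : i = j
    · simp [hij]; positivity
    · rw [if_neg hij, if_neg hij]
      have b1 := abs_le.mp (key i j)
      have b2 := abs_le.mp (key 0 1)
      rw [abs_le]
      constructor <;> linarith [b1.1, b1.2, b2.1, b2.2]
  refine h4.trans ?_
  have h5 : 2 * B = 2 * ((k + 5) ^ 2 * (2 * Real.pi * (6 * (2 * (k + 2) / δ)))) *
      ((1 + LIP_R k s) * LIP_V k s) * ‖x' - x''‖ := by
    rw [hB]; ring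
  rw [h5]
  gcongr
  linarith

end Pool.Agent.FAN
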