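import Pool.Agent.FAN.KDefs

set_option autoImplicit false

namespace Pool.Agent.FAN

open MeasureTheory Topology Filter

variable {k : ℕ}

namespace LMaux

/-- the real symplectic form on `ℂ` -/
def om (u v : ℂ) : ℝ := u.im * v.re - u.re * v.im

theorem om_eq (u v : ℂ) : (u * (starRingEnd ℂ) v).im = om u v := by
  simp only [om, Complex.mul_im, Complex.conj_re, Complex.conj_im]
  ring

/-- proportionality -/
theorem om_zero {u v : ℂ} (hu : u ≠ 0) (h : om u v = 0) : ∃ r : ℝ, v = r * u := by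
  have hn : Complex.normSq u ≠ 0 := fun h0 => hu (Complex.normSq_eq_zero.mp h0)
  obtain ⟨N, hN⟩ : ∃ N : ℝ, N = u.re * u.re + u.im * u.im := ⟨_, rfl⟩
  have hn2 : N ≠ 0 := by rwa [hN, ← Complex.normSq_apply]
  refine ⟨(v.re * u.re + v.im * u.im) / N, ?_⟩
  unfold om at h
  apply Complex.ext
  · rw [Complex.re_ofReal_mul, div_mul_eq_mul_div, eq_div_iff hn2, hN]
    linear_combination (u.im) * h
  · rw [Complex.im_ofReal_mul, div_mul_eq_mul_div, eq_div_iff hn2, hN]
    linear_combination (-u.re) * h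

theorem quartic {p0 p1 p2 c0 c1 c2 : ℝ} (h : ∀ x : ℝ, p0 + p1 * x + p2 * x ^ 2 =
    (c0 + c1 * x + c2 * x ^ 2) ^ 2) : c2 = 0 := by
  have h0 := h 0
  have h1 := h 1
  have h2 := h 2
  have h3 := h (-1)
  have h4 := h (-2)
  have : c2 ^ 2 = 0 := by linear_combination (-1 / 24) * (h2 - 4 * h1 + 6 * h0 - 4 * h3 + h4)
  exact pow_eq_zero_iff (two_ne_zero) |>.mp this

theorem et_ext {e : (Fin k → ℝ) × ℝ} (h : ∀ y, et e y = 0) : e = 0 := by
  have h2 : e.2 = 0 := by
    have := h 0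
    simpa [et] using this
  have h1 : e.1 = 0 := by
    funext l
    have := h (Pi.single l 1)
    simpa [et, h2, Pi.single_apply] using this
  exact Prod.ext h1 h2

theorem et_affine (e : (Fin k → ℝ) × ℝ) (y y' : Fin k → ℝ) :
    et e ((1 / 2 : ℝ) • y + (1 / 2 : ℝ) • y') = (et e y + et e y') / 2 := by
  simp only [et, Pi.add_apply, Pi.smul_apply, smul_eq_mul, mul_add, Finset.sum_add_distrib]
  have e1 : ∀ z : Fin k → ℝ, ∑ l, e.1 l * (1 / 2 * z l) = (1 / 2) * ∑ l, e.1 l * z l := by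
    intro z
    rw [Finset.mul_sum]
    exact Finset.sum_congr rfl fun l _ => by ring
  rw [e1, e1]
  ring

theorem et_mul_zero {e f : (Fin k → ℝ) × ℝ} (h : ∀ y, et e y * et f y = 0) : e = 0 ∨ f = 0 := by
  by_contra hc
  rw [not_or] at hc
  have h1 : ∃ y, et e y ≠ 0 := by
    by_contra h2
    push Not at h2
    exact hc.1 (et_ext h2)
  have h2 : ∃ y, et f y ≠ 0 := by
    by_contra h2
    push Not at h2
    exact hc.2 (et_ext h2)
  obtain ⟨y, hy⟩ := h1
  obtain ⟨y', hy'⟩ := h2
  have a1 : et f y = 0 := (mul_eq_zero.mp (h y)).resolve_left hy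
  have a2 : et e y' = 0 := (mul_eq_zero.mp (h y')).resolve_right hy'
  have a3 := h ((1 / 2 : ℝ) • y + (1 / 2 : ℝ) • y')
  rw [et_affine, et_affine, a1, a2, add_zero, zero_add] at a3
  rcases mul_eq_zero.mp a3 with h4 | h4
  · exact hy (by linarith)
  · exact hy' (by linarith)

theorem sq_eq {e f : (Fin k → ℝ) × ℝ} (h : ∀ y, et f y ^ 2 = et e y ^ 2) : f = e ∨ f = -e := by
  have h1 : ∀ y, et (f - e) y * et (f + e) y = 0 := by
    intro y
    rw [et_sub_left, et_add_left]
    linear_combination h y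
  rcases et_mul_zero h1 with h2 | h2
  · left
    exact sub_eq_zero.mp h2
  · right
    exact eq_neg_of_add_eq_zero_left h2

end LMaux

open LMaux

theorem lemmaM {a₁ a₂ b₁ b₂ : ℂ × ℂ} {e₁ e₂ f₁ f₂ : (Fin k → ℝ) × ℝ} (ha : cdet a₁ a₂ ≠ 0)
    (hb : ∀ r₁ r₂ : ℝ, r₁ • b₁ + r₂ • b₂ = 0 → r₁ = 0 ∧ r₂ = 0)
    (hP : ∀ p : Sp k, cval (a₁, e₁) p = 0 → cval (a₂, e₂) p = 0 →
      Complex.normSq ((et f₁ p.2 : ℂ) * zt b₂ p.1 - (et f₂ p.2 : ℂ) * zt b₁ p.1) =
        ((zt b₁ p.1 * (starRingEnd ℂ) (zt b₂ p.1)).im) ^ 2) :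
    ∃ θ : ℂ, ‖θ‖ = 1 ∧
      rotc θ ((b₁, f₁) : Cf k) ∈ Submodule.span ℝ {((a₁, e₁) : Cf k), ((a₂, e₂) : Cf k)} ∧
      rotc θ ((b₂, f₂) : Cf k) ∈ Submodule.span ℝ {((a₁, e₁) : Cf k), ((a₂, e₂) : Cf k)} := by
  have hD : a₁.1 * a₂.2 - a₁.2 * a₂.1 ≠ 0 := ha
  -- coordinates
  have hco : ∀ b : ℂ × ℂ, ∃ x y : ℂ, b = x • a₁ + y • a₂ := by
    intro b
    obtain ⟨D, hDD⟩ : ∃ D : ℂ, D = a₁.1 * a₂.2 - a₁.2 * a₂.1 := ⟨_, rfl⟩
    have hD' : D ≠ 0 := by rwa [hDD]
    refine ⟨(b.1 * a₂.2 - b.2 * a₂.1) / D, (a₁.1 * b.2 - a₁.2 * b.1) / D, ?_⟩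
    apply Prod.ext
    · simp only [Prod.fst_add, Prod.smul_fst, smul_eq_mul]
      rw [div_mul_eq_mul_div, div_mul_eq_mul_div, ← add_div, eq_div_iff hD', hDD]
      ring
    · simp only [Prod.snd_add, Prod.smul_snd, smul_eq_mul]
      rw [div_mul_eq_mul_div, div_mul_eq_mul_div, ← add_div, eq_div_iff hD', hDD]
      ring
  have hz : ∀ z1 z2 : ℂ, ∃ z : ℂ × ℂ, zt a₁ z = z1 ∧ zt a₂ z = z2 := by
    intro z1 z2
    obtain ⟨D, hDD⟩ : ∃ D : ℂ, D = a₁.1 * a₂.2 - a₁.2 * a₂.1 := ⟨_, rfl⟩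
    have hD' : D ≠ 0 := by rwa [hDD]
    refine ⟨((z1 * a₂.2 - z2 * a₁.2) / D, (z2 * a₁.1 - z1 * a₂.1) / D), ?_, ?_⟩
    · simp only [zt]
      rw [mul_div_assoc', mul_div_assoc', ← add_div, div_eq_iff hD', hDD]
      ring
    · simp only [zt]
      rw [mul_div_assoc', mul_div_assoc', ← add_div, div_eq_iff hD', hDD]
      ring
  obtain ⟨β11, β12, hb1⟩ := hco b₁
  obtain ⟨β21, β22, hb2⟩ := hco b₂
  -- the identity in coordinates
  have hI : ∀ (y : Fin k → ℝ) (s t : ℝ),
      Complex.normSq ((et f₁ y : ℂ) * (β21 * (-(et e₁ y : ℂ) + s * Complex.I)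
          + β22 * (-(et e₂ y : ℂ) + t * Complex.I))
        - (et f₂ y : ℂ) * (β11 * (-(et e₁ y : ℂ) + s * Complex.I)
          + β12 * (-(et e₂ y : ℂ) + t * Complex.I))) =
        (om (β11 * (-(et e₁ y : ℂ) + s * Complex.I) + β12 * (-(et e₂ y : ℂ) + t * Complex.I))
          (β21 * (-(et e₁ y : ℂ) + s * Complex.I) + β22 * (-(et e₂ y : ℂ) + t * Complex.I))) ^ 2 := by
    intro y s t
    obtain ⟨z, hz1, hz2⟩ := hz (-(et e₁ y : ℂ) + s * Complex.I) (-(et e₂ y : ℂ) + t * Complex.I)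
    have h1 : zt b₁ z = β11 * (-(et e₁ y : ℂ) + s * Complex.I)
        + β12 * (-(et e₂ y : ℂ) + t * Complex.I) := by
      rw [hb1, zt_add_left, zt_smul_left, zt_smul_left, hz1, hz2]
    have h2 : zt b₂ z = β21 * (-(et e₁ y : ℂ) + s * Complex.I)
        + β22 * (-(et e₂ y : ℂ) + t * Complex.I) := by
      rw [hb2, zt_add_left, zt_smul_left, zt_smul_left, hz1, hz2]
    have h3 := hP (z, y) (by
      change (zt a₁ z).re + et e₁ y = 0
      rw [hz1]
      simp) (by
      change (zt a₂ z).re + et e₂ y = 0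
      rw [hz2]
      simp)
    rw [← h1, ← h2, ← om_eq]
    exact h3
  -- degree four part
  have hω : ∀ s t : ℝ, om (β11 * s + β12 * t) (β21 * s + β22 * t) = 0 := by
    intro s t
    set l1 := et e₁ (0 : Fin k → ℝ)
    set l2 := et e₂ (0 : Fin k → ℝ)
    set m1 := et f₁ (0 : Fin k → ℝ)
    set m2 := et f₂ (0 : Fin k → ℝ)
    have h : ∀ x : ℝ, Complex.normSq ((m1 : ℂ) * (β21 * (-(l1 : ℂ) + (x * s : ℝ) * Complex.I)
          + β22 * (-(l2 : ℂ) + (x * t : ℝ) * Complex.I))
        - (m2 : ℂ) * (β11 * (-(l1 : ℂ) + (x * s : ℝ) * Complex.I)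
          + β12 * (-(l2 : ℂ) + (x * t : ℝ) * Complex.I))) =
        (om (β11 * (-(l1 : ℂ) + (x * s : ℝ) * Complex.I) + β12 * (-(l2 : ℂ) + (x * t : ℝ) * Complex.I))
          (β21 * (-(l1 : ℂ) + (x * s : ℝ) * Complex.I)
            + β22 * (-(l2 : ℂ) + (x * t : ℝ) * Complex.I))) ^ 2 := fun x => hI 0 (x * s) (x * t)
    simp only [om, Complex.normSq_apply, Complex.sub_re, Complex.sub_im, Complex.mul_re,
      Complex.mul_im, Complex.add_re, Complex.add_im, Complex.neg_re, Complex.neg_im,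
      Complex.ofReal_re, Complex.ofReal_im, Complex.I_re, Complex.I_im] at h
    have h' := quartic (p0 := (m1 * (-β21.re * l1 - β22.re * l2) - m2 * (-β11.re * l1 - β12.re * l2)) ^ 2
        + (m1 * (-β21.im * l1 - β22.im * l2) - m2 * (-β11.im * l1 - β12.im * l2)) ^ 2)
      (p1 := 2 * (m1 * (-β21.re * l1 - β22.re * l2) - m2 * (-β11.re * l1 - β12.re * l2))
          * (m1 * (-β21.im * s - β22.im * t) - m2 * (-β11.im * s - β12.im * t))
        + 2 * (m1 * (-β21.im * l1 - β22.im * l2) - m2 * (-β11.im * l1 - β12.im * l2))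
          * (m1 * (β21.re * s + β22.re * t) - m2 * (β11.re * s + β12.re * t)))
      (p2 := (m1 * (-β21.im * s - β22.im * t) - m2 * (-β11.im * s - β12.im * t)) ^ 2
        + (m1 * (β21.re * s + β22.re * t) - m2 * (β11.re * s + β12.re * t)) ^ 2)
      (c0 := (-β11.im * l1 - β12.im * l2) * (-β21.re * l1 - β22.re * l2)
        - (-β11.re * l1 - β12.re * l2) * (-β21.im * l1 - β22.im * l2))
      (c1 := (β11.re * s + β12.re * t) * (-β21.re * l1 - β22.re * l2)
        + (-β11.im * l1 - β12.im * l2) * (-β21.im * s - β22.im * t)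
        - (-β11.im * s - β12.im * t) * (-β21.im * l1 - β22.im * l2)
        - (-β11.re * l1 - β12.re * l2) * (β21.re * s + β22.re * t))
      (c2 := (β11.re * s + β12.re * t) * (-β21.im * s - β22.im * t)
        - (-β11.im * s - β12.im * t) * (β21.re * s + β22.re * t))
      (fun x => by linear_combination h x)
    simp only [om, Complex.mul_re, Complex.mul_im, Complex.add_re, Complex.add_im,
      Complex.ofReal_re, Complex.ofReal_im]
    linear_combination h'
  -- the phases agree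
  have w1 : om β11 β21 = 0 := by simpa using hω 1 0
  have w2 : om β12 β22 = 0 := by simpa using hω 0 1
  have w3 : om β11 β22 + om β12 β21 = 0 := by
    have h := hω 1 1
    simp only [Complex.ofReal_one, mul_one] at h
    unfold om at *
    simp only [Complex.add_re, Complex.add_im] at h
    linear_combination h - w1 - w2
  have hrow1 : ¬ (β11 = 0 ∧ β12 = 0) := by
    rintro ⟨h1, h2⟩
    have := (hb 1 0 (by rw [hb1, h1, h2]; simp)).1
    exact one_ne_zero this
  have hrow2 : ¬ (β21 = 0 ∧ β22 = 0) := by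
    rintro ⟨h1, h2⟩
    have := (hb 0 1 (by rw [hb2, h1, h2]; simp)).2
    exact one_ne_zero this
  have om_smul_right : ∀ (u v : ℂ) (r : ℝ), om u (r * v) = r * om u v := by
    intro u v r
    unfold om
    rw [Complex.re_ofReal_mul, Complex.im_ofReal_mul]
    ring
  have om_smul_left : ∀ (u v : ℂ) (r : ℝ), om (r * u) v = r * om u v := by
    intro u v r
    unfold om
    rw [Complex.re_ofReal_mul, Complex.im_ofReal_mul]
    ring
  have om_anti : ∀ u v : ℂ, om v u = - om u v := by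
    intro u v
    unfold om
    ring
  have w4 : om β11 β12 = 0 := by
    by_contra hne
    have h1 : β11 ≠ 0 := by
      rintro h
      apply hne
      rw [h]
      simp [om]
    have h2 : β12 ≠ 0 := by
      rintro h
      apply hne
      rw [h]
      simp [om]
    obtain ⟨r, hr⟩ := om_zero h1 w1
    obtain ⟨r', hr'⟩ := om_zero h2 w2
    rw [hr, hr', om_smul_right, om_smul_right, om_anti β11 β12] at w3
    have h3 : (r' - r) * om β11 β12 = 0 := by linear_combination w3
    have h4 : r' = r := by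
      have := (mul_eq_zero.mp h3).resolve_right hne
      linarith
    have h5 := (hb r (-1) (by
      rw [hb1, hb2, hr, hr', h4]
      apply Prod.ext
      · simp only [Prod.fst_add, Prod.smul_fst, smul_eq_mul, Complex.real_smul, Prod.fst_zero]
        push_cast
        ring
      · simp only [Prod.snd_add, Prod.smul_snd, smul_eq_mul, Complex.real_smul, Prod.snd_zero]
        push_cast
        ring)).2
    norm_num at h5
  have w5 : om β21 β22 = 0 := by
    by_contra hne
    have h1 : β21 ≠ 0 := by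
      rintro h
      apply hne
      rw [h]
      simp [om]
    have h2 : β22 ≠ 0 := by
      rintro h
      apply hne
      rw [h]
      simp [om]
    obtain ⟨r, hr⟩ := om_zero h1 (v := β11) (by rw [om_anti, w1, neg_zero])
    obtain ⟨r', hr'⟩ := om_zero h2 (v := β12) (by rw [om_anti, w2, neg_zero])
    rw [hr, hr', om_smul_left, om_smul_left, om_anti β21 β22] at w3
    have h3 : (r - r') * om β21 β22 = 0 := by linear_combination w3
    have h4 : r' = r := by
      have := (mul_eq_zero.mp h3).resolve_right hne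
      linarith
    have h5 := (hb (-1) r (by
      rw [hb1, hb2, hr, hr', h4]
      apply Prod.ext
      · simp only [Prod.fst_add, Prod.smul_fst, smul_eq_mul, Complex.real_smul, Prod.fst_zero]
        push_cast
        ring
      · simp only [Prod.snd_add, Prod.smul_snd, smul_eq_mul, Complex.real_smul, Prod.snd_zero]
        push_cast
        ring)).1
    norm_num at h5
  have w6 : om β11 β22 = 0 := by
    by_cases h1 : β11 = 0
    · rw [h1]
      simp [om]
    · obtain ⟨r, hr⟩ := om_zero h1 w4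
      rw [hr, om_smul_left, w1, mul_zero, add_zero] at w3
      exact w3
  have w7 : om β12 β21 = 0 := by
    rw [w6, zero_add] at w3
    exact w3
  -- the common phase
  obtain ⟨u, hu, hu1, hu2, hu3, hu4⟩ : ∃ u : ℂ, u ≠ 0 ∧ om u β11 = 0 ∧ om u β12 = 0 ∧
      om u β21 = 0 ∧ om u β22 = 0 := by
    by_cases h1 : β11 = 0
    · have h2 : β12 ≠ 0 := fun h => hrow1 ⟨h1, h⟩
      exact ⟨β12, h2, by rw [om_anti, w4, neg_zero], by unfold om; ring, w7, w2⟩
    · exact ⟨β11, h1, by unfold om; ring, w4, w1, w6⟩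
  obtain ⟨θ', hθ', hline⟩ : ∃ θ' : ℂ, ‖θ'‖ = 1 ∧ ∀ v : ℂ, om u v = 0 → ∃ r : ℝ, v = θ' * r := by
    have hn : (‖u‖ : ℝ) ≠ 0 := norm_ne_zero_iff.mpr hu
    refine ⟨u / (‖u‖ : ℝ), ?_, fun v hv => ?_⟩
    · rw [norm_div, Complex.norm_real, norm_norm, div_self hn]
    · obtain ⟨r, hr⟩ := om_zero hu hv
      refine ⟨r * ‖u‖, ?_⟩
      rw [hr]
      have hn' : ((‖u‖ : ℝ) : ℂ) ≠ 0 := Complex.ofReal_ne_zero.mpr hn
      push_cast
      field_simp
  obtain ⟨r11, h11⟩ := hline _ hu1
  obtain ⟨r12, h12⟩ := hline _ hu2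
  obtain ⟨r21, h21⟩ := hline _ hu3
  obtain ⟨r22, h22⟩ := hline _ hu4
  have hθ0 : θ' ≠ 0 := by
    intro h
    rw [h, norm_zero] at hθ'
    exact zero_ne_one hθ'
  have hnsq : Complex.normSq θ' = 1 := by
    rw [Complex.normSq_eq_norm_sq, hθ', one_pow]
  have hnsq' : θ'.re * θ'.re + θ'.im * θ'.im = 1 := by rwa [← Complex.normSq_apply]
  have hB1 : b₁ = θ' • (r11 • a₁ + r12 • a₂) := by
    rw [hb1, h11, h12]
    apply Prod.ext
    · simp only [Prod.fst_add, Prod.smul_fst, smul_eq_mul, Complex.real_smul]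
      ring
    · simp only [Prod.snd_add, Prod.smul_snd, smul_eq_mul, Complex.real_smul]
      ring
  have hB2 : b₂ = θ' • (r21 • a₁ + r22 • a₂) := by
    rw [hb2, h21, h22]
    apply Prod.ext
    · simp only [Prod.fst_add, Prod.smul_fst, smul_eq_mul, Complex.real_smul]
      ring
    · simp only [Prod.snd_add, Prod.smul_snd, smul_eq_mul, Complex.real_smul]
      ring
  have hΔ : r11 * r22 - r12 * r21 ≠ 0 := by
    intro hΔ
    have k1 := hb r21 (-r11) (by
      rw [hB1, hB2]
      apply Prod.ext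
      · simp only [Prod.fst_add, Prod.smul_fst, smul_eq_mul, Complex.real_smul, Prod.fst_zero]
        have : ((r11 * r22 - r12 * r21 : ℝ) : ℂ) = 0 := by rw [hΔ]; simp
        push_cast at this ⊢
        linear_combination (-θ' * a₂.1) * this
      · simp only [Prod.snd_add, Prod.smul_snd, smul_eq_mul, Complex.real_smul, Prod.snd_zero]
        have : ((r11 * r22 - r12 * r21 : ℝ) : ℂ) = 0 := by rw [hΔ]; simp
        push_cast at this ⊢
        linear_combination (-θ' * a₂.2) * this)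
    have k2 := hb r22 (-r12) (by
      rw [hB1, hB2]
      apply Prod.ext
      · simp only [Prod.fst_add, Prod.smul_fst, smul_eq_mul, Complex.real_smul, Prod.fst_zero]
        have : ((r11 * r22 - r12 * r21 : ℝ) : ℂ) = 0 := by rw [hΔ]; simp
        push_cast at this ⊢
        linear_combination (θ' * a₁.1) * this
      · simp only [Prod.snd_add, Prod.smul_snd, smul_eq_mul, Complex.real_smul, Prod.snd_zero]
        have : ((r11 * r22 - r12 * r21 : ℝ) : ℂ) = 0 := by rw [hΔ]; simp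
        push_cast at this ⊢
        linear_combination (θ' * a₁.2) * this)
    apply hrow1
    have e1 : r11 = 0 := by linarith [k1.2]
    have e2 : r12 = 0 := by linarith [k2.2]
    exact ⟨by rw [h11, e1]; simp, by rw [h12, e2]; simp⟩
  -- the identity in the new coordinates
  set g₁ := r11 • e₁ + r12 • e₂ with hg1
  set g₂ := r21 • e₁ + r22 • e₂ with hg2
  have hJ : ∀ (y : Fin k → ℝ) (s t : ℝ),
      (et f₁ y * et g₂ y - et f₂ y * et g₁ y) ^ 2
        + (et f₁ y * (r21 * s + r22 * t) - et f₂ y * (r11 * s + r12 * t)) ^ 2 =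
      (et g₁ y * (r21 * s + r22 * t) - et g₂ y * (r11 * s + r12 * t)) ^ 2 := by
    intro y s t
    have h := hI y s t
    have m1 : et g₁ y = r11 * et e₁ y + r12 * et e₂ y := by
      rw [hg1, et_add_left, et_smul_left, et_smul_left]
    have m2 : et g₂ y = r21 * et e₁ y + r22 * et e₂ y := by
      rw [hg2, et_add_left, et_smul_left, et_smul_left]
    rw [m1, m2]
    rw [h11, h12, h21, h22] at h
    simp only [om, Complex.normSq_apply, Complex.sub_re, Complex.sub_im, Complex.mul_re,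
      Complex.mul_im, Complex.add_re, Complex.add_im, Complex.neg_re, Complex.neg_im,
      Complex.ofReal_re, Complex.ofReal_im, Complex.I_re, Complex.I_im] at h
    generalize et f₁ y = F1 at h ⊢
    generalize et f₂ y = F2 at h ⊢
    generalize et e₁ y = E1 at h ⊢
    generalize et e₂ y = E2 at h ⊢
    generalize θ'.re = X at h hnsq' ⊢
    generalize θ'.im = Y at h hnsq' ⊢
    have key : ((F1 * (r21 * E1 + r22 * E2) - F2 * (r11 * E1 + r12 * E2)) ^ 2
        + (F1 * (r21 * s + r22 * t) - F2 * (r11 * s + r12 * t)) ^ 2) * (X * X + Y * Y) =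
      (((r11 * E1 + r12 * E2) * (r21 * s + r22 * t)
        - (r21 * E1 + r22 * E2) * (r11 * s + r12 * t)) * (X * X + Y * Y)) ^ 2 := by
      linear_combination h
    rw [hnsq', mul_one, mul_one] at key
    exact key
  have hK : ∀ y, et f₁ y * et g₂ y = et f₂ y * et g₁ y := by
    intro y
    have h := hJ y 0 0
    have h2 : (et f₁ y * et g₂ y - et f₂ y * et g₁ y) ^ 2 = 0 := by linear_combination h
    have h3 := pow_eq_zero_iff (two_ne_zero) |>.mp h2
    linarith
  have hq1 : ∀ y, et f₁ y ^ 2 = et g₁ y ^ 2 := by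
    intro y
    obtain ⟨D, hDD⟩ : ∃ D : ℝ, D = r11 * r22 - r12 * r21 := ⟨_, rfl⟩
    have hD' : D ≠ 0 := by rwa [hDD]
    have h := hJ y (-r12 / D) (r11 / D)
    have s1 : r21 * (-r12 / D) + r22 * (r11 / D) = 1 := by
      rw [mul_div_assoc', mul_div_assoc', ← add_div, div_eq_iff hD', hDD]
      ring
    have s2 : r11 * (-r12 / D) + r12 * (r11 / D) = 0 := by
      rw [mul_div_assoc', mul_div_assoc', ← add_div, div_eq_iff hD', hDD]
      ring
    rw [s1, s2, hK y] at h
    linear_combination h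
  have hq2 : ∀ y, et f₂ y ^ 2 = et g₂ y ^ 2 := by
    intro y
    obtain ⟨D, hDD⟩ : ∃ D : ℝ, D = r11 * r22 - r12 * r21 := ⟨_, rfl⟩
    have hD' : D ≠ 0 := by rwa [hDD]
    have h := hJ y (r22 / D) (-r21 / D)
    have s1 : r21 * (r22 / D) + r22 * (-r21 / D) = 0 := by
      rw [mul_div_assoc', mul_div_assoc', ← add_div, div_eq_iff hD', hDD]
      ring
    have s2 : r11 * (r22 / D) + r12 * (-r21 / D) = 1 := by
      rw [mul_div_assoc', mul_div_assoc', ← add_div, div_eq_iff hD', hDD]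
      ring
    rw [s1, s2, hK y] at h
    linear_combination h
  -- one sign
  obtain ⟨ε, hε, hf1, hf2⟩ : ∃ ε : ℝ, (ε = 1 ∨ ε = -1) ∧ f₁ = ε • g₁ ∧ f₂ = ε • g₂ := by
    have hcross : ∀ (σ : ℝ), (∀ y, et g₁ y * et g₂ y = - (et g₁ y * et g₂ y)) → g₁ = 0 ∨ g₂ = 0 := by
      intro _ h
      apply et_mul_zero
      intro y
      linarith [h y]
    rcases sq_eq hq1 with h1 | h1 <;> rcases sq_eq hq2 with h2 | h2
    · exact ⟨1, Or.inl rfl, by rw [one_smul, h1], by rw [one_smul, h2]⟩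
    · have h3 : ∀ y, et g₁ y * et g₂ y = - (et g₁ y * et g₂ y) := by
        intro y
        have := hK y
        have e1 : et (-g₂) y = - et g₂ y := by
          have := et_sub_left 0 g₂ y
          simpa using this
        rw [h1, h2, e1] at this
        linarith
      rcases hcross 0 h3 with h4 | h4
      · exact ⟨-1, Or.inr rfl, by rw [h1, h4]; simp, by rw [h2]; simp⟩
      · exact ⟨1, Or.inl rfl, by rw [h1]; simp, by rw [h2, h4]; simp⟩
    · have h3 : ∀ y, et g₁ y * et g₂ y = - (et g₁ y * et g₂ y) := by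
        intro y
        have := hK y
        have e1 : et (-g₁) y = - et g₁ y := by
          have := et_sub_left 0 g₁ y
          simpa using this
        rw [h1, h2, e1] at this
        linarith
      rcases hcross 0 h3 with h4 | h4
      · exact ⟨1, Or.inl rfl, by rw [h1, h4]; simp, by rw [h2]; simp⟩
      · exact ⟨-1, Or.inr rfl, by rw [h1]; simp, by rw [h2, h4]; simp⟩
    · exact ⟨-1, Or.inr rfl, by rw [h1]; simp, by rw [h2]; simp⟩
  have hε2 : ‖(ε : ℂ)‖ = 1 := by
    rcases hε with h | h <;> simp [h]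
  refine ⟨ε * θ'⁻¹, by rw [norm_mul, hε2, norm_inv, hθ', inv_one, mul_one], ?_, ?_⟩
  · rw [Submodule.mem_span_pair]
    refine ⟨ε * r11, ε * r12, ?_⟩
    apply Prod.ext
    · change (ε * r11) • a₁ + (ε * r12) • a₂ = (ε * θ'⁻¹) • b₁
      rw [hB1, smul_smul, inv_mul_cancel_right₀ hθ0]
      apply Prod.ext
      · simp only [Prod.fst_add, Prod.smul_fst, smul_eq_mul, Complex.real_smul]
        push_cast
        ring
      · simp only [Prod.snd_add, Prod.smul_snd, smul_eq_mul, Complex.real_smul]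
        push_cast
        ring
    · change (ε * r11) • e₁ + (ε * r12) • e₂ = f₁
      rw [hf1, hg1, smul_add, smul_smul, smul_smul]
  · rw [Submodule.mem_span_pair]
    refine ⟨ε * r21, ε * r22, ?_⟩
    apply Prod.ext
    · change (ε * r21) • a₁ + (ε * r22) • a₂ = (ε * θ'⁻¹) • b₂
      rw [hB2, smul_smul, inv_mul_cancel_right₀ hθ0]
      apply Prod.ext
      · simp only [Prod.fst_add, Prod.smul_fst, smul_eq_mul, Complex.real_smul]
        push_cast
        ring
      · simp only [Prod.snd_add, Prod.smul_snd, smul_eq_mul, Complex.real_smul]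
        push_cast
        ring
    · change (ε * r21) • e₁ + (ε * r22) • e₂ = f₂
      rw [hf2, hg2, smul_add, smul_smul, smul_smul]

end Pool.Agent.FAN
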