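import Pool.Agent.FAN.KDefs

set_option autoImplicit false

namespace Pool.Agent.FAN

open MeasureTheory Topology Filter

variable {k : ℕ}

theorem nub_mul_mp {θ : ℂ} (hθ : ‖θ‖ = 1) :
    MeasurePreserving (fun z : ℂ => θ * z) volume volume := by
  have h1 : θ ∈ Submonoid.unitSphere ℂ := mem_sphere_zero_iff_norm.mpr hθ
  have h2 := (rotation (⟨θ, h1⟩ : Circle)).measurePreserving
  exact h2

theorem nub_rot_mp {θ : ℂ} (hθ : ‖θ‖ = 1) :
    MeasurePreserving (fun p : Sp k => rot θ p) volume volume := by
  have h1 : MeasurePreserving (Prod.map (fun z : ℂ => θ * z) (fun z : ℂ => θ * z))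
      ((volume : Measure ℂ).prod volume) ((volume : Measure ℂ).prod volume) :=
    (nub_mul_mp hθ).prod (nub_mul_mp hθ)
  have h2 : MeasurePreserving (Prod.map (Prod.map (fun z : ℂ => θ * z) (fun z : ℂ => θ * z))
      (id : (Fin k → ℝ) → (Fin k → ℝ)))
      (((volume : Measure ℂ).prod volume).prod volume)
      (((volume : Measure ℂ).prod volume).prod volume) :=
    h1.prod (MeasurePreserving.id volume)
  exact h2

theorem nub_measurable_map : Measurable (fun q : Sp k × ℝ => rot (ang q.2) q.1) :=
  (continuous_rot.comp ((continuous_ang.comp continuous_snd).prodMk continuous_fst)).measurable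

theorem nub_finite_restrict (k s : ℕ) : IsFiniteMeasure ((volume : Measure (Sp k)).restrict (Bl k s)) := by
  refine ⟨?_⟩
  rw [Measure.restrict_apply_univ]
  unfold Bl
  exact (isCompact_closedBall _ _).measure_lt_top

theorem nu_finite (k s : ℕ) : IsFiniteMeasure (nu k s) := by
  have h1 := nub_finite_restrict k s
  unfold nu
  exact Measure.isFiniteMeasure_map _ _

theorem nub_apply (k s : ℕ) {A : Set (Sp k)} (hA : MeasurableSet A) :
    nu k s A = ∫⁻ φ in Set.Icc (0 : ℝ) (2 * Real.pi),
      ((volume : Measure (Sp k)).restrict (Bl k s)) ((fun p => rot (ang φ) p) ⁻¹' A) := by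
  have h1 := nub_finite_restrict k s
  unfold nu
  rw [Measure.map_apply nub_measurable_map hA,
    Measure.prod_apply_symm (nub_measurable_map hA)]
  rfl

theorem nu_ac (k s : ℕ) : nu k s ≪ volume := by
  refine Measure.AbsolutelyContinuous.mk fun A hA h0 => ?_
  rw [nub_apply k s hA]
  have h1 : ∀ φ : ℝ, ((volume : Measure (Sp k)).restrict (Bl k s))
      ((fun p => rot (ang φ) p) ⁻¹' A) = 0 := by
    intro φ
    refine le_antisymm ?_ zero_le
    refine (Measure.restrict_apply_le _ _).trans ?_
    rw [(nub_rot_mp (norm_ang φ)).measure_preimage hA.nullMeasurableSet, h0]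
  simp only [h1]
  exact lintegral_zero

theorem nub_ang_surj {θ : ℂ} (hθ : ‖θ‖ = 1) : ∃ φ : ℝ, ang φ = θ := by
  refine ⟨Complex.arg θ, ?_⟩
  unfold ang
  have := Complex.norm_mul_exp_arg_mul_I θ
  rw [hθ] at this
  simpa using this

theorem nu_rot (k s : ℕ) {θ : ℂ} (hθ : ‖θ‖ = 1) {A : Set (Sp k)} (hA : MeasurableSet A) :
    nu k s (rot θ ⁻¹' A) = nu k s A := by
  have i1 := nub_finite_restrict k s
  have i2 := nu_finite k s
  have hmr : Measurable (fun p : Sp k => rot θ p) :=
    (continuous_rot.comp (continuous_const.prodMk continuous_id)).measurable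
  have hA' : MeasurableSet (rot θ ⁻¹' A : Set (Sp k)) := hmr hA
  obtain ⟨φ₀, hφ₀⟩ := nub_ang_surj hθ
  -- measurability of the fibre measure
  have hmeas : ∀ B : Set (Sp k), MeasurableSet B → Measurable fun φ : ℝ =>
      ((volume : Measure (Sp k)).restrict (Bl k s)) ((fun p => rot (ang φ) p) ⁻¹' B) := by
    intro B hB
    exact measurable_measure_prodMk_right (nub_measurable_map hB)
  have hreal : ∀ B : Set (Sp k), MeasurableSet B → (nu k s B).toReal =
      ∫ φ in (0 : ℝ)..(2 * Real.pi),
        (((volume : Measure (Sp k)).restrict (Bl k s)) ((fun p => rot (ang φ) p) ⁻¹' B)).toReal := by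
    intro B hB
    rw [nub_apply k s hB, intervalIntegral.integral_of_le Real.two_pi_pos.le,
      ← integral_Icc_eq_integral_Ioc, integral_toReal]
    · exact (hmeas B hB).aemeasurable
    · exact Eventually.of_forall fun φ => measure_lt_top _ _
  have hfin1 : nu k s (rot θ ⁻¹' A) ≠ ⊤ := measure_ne_top _ _
  have hfin2 : nu k s A ≠ ⊤ := measure_ne_top _ _
  rw [← ENNReal.toReal_eq_toReal_iff' hfin1 hfin2, hreal _ hA', hreal _ hA]
  set g : ℝ → ℝ := fun φ =>
    (((volume : Measure (Sp k)).restrict (Bl k s)) ((fun p => rot (ang φ) p) ⁻¹' A)).toReal with hg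
  have hper : Function.Periodic g (2 * Real.pi) := by
    intro φ
    simp only [hg]
    rw [ang_add, ang_two_pi, mul_one]
  have hshift : ∀ φ : ℝ, (((volume : Measure (Sp k)).restrict (Bl k s))
      ((fun p => rot (ang φ) p) ⁻¹' (rot θ ⁻¹' A))).toReal = g (φ + φ₀) := by
    intro φ
    simp only [hg]
    congr 2
    ext p
    simp only [Set.mem_preimage, rot_rot]
    rw [ang_add, hφ₀, mul_comm]
  simp only [hshift]
  rw [intervalIntegral.integral_comp_add_right g φ₀, zero_add]
  have := hper.intervalIntegral_add_eq φ₀ 0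
  rw [zero_add] at this
  rw [← this, add_comm]

theorem nu_int (k s : ℕ) (x : Fan k) (h : Lb k → Lb k → ℝ) :
    ∑ i, ∑ j, h i j * (nu k s (cell x i j)).toReal = ∫ p in Bl k s, avg x h p := by
  have i1 := nub_finite_restrict k s
  have i2 := nu_finite k s
  have hint : ∀ (i j : Lb k), Integrable ((cell x i j).indicator fun _ => (1 : ℝ)) (nu k s) := by
    intro i j
    exact (integrable_const (1 : ℝ)).indicator (measurableSet_cell x i j)
  have h1 : ∫ q, Hf x h q ∂(nu k s) = ∑ i, ∑ j, h i j * (nu k s (cell x i j)).toReal := by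
    unfold Hf
    rw [integral_finsetSum _ fun i _ => integrable_finsetSum _ fun j _ => (hint i j).const_mul _]
    refine Finset.sum_congr rfl fun i _ => ?_
    rw [integral_finsetSum _ fun j _ => (hint i j).const_mul _]
    refine Finset.sum_congr rfl fun j _ => ?_
    rw [integral_const_mul]
    congr 1
    rw [integral_indicator (measurableSet_cell x i j), setIntegral_const, smul_eq_mul, mul_one]
    rfl
  rw [← h1]
  have h2 : ∫ q, Hf x h q ∂(nu k s) = ∫ q, Hf x h (rot (ang q.2) q.1)
      ∂(((volume : Measure (Sp k)).restrict (Bl k s)).prod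
        (volume.restrict (Set.Icc (0 : ℝ) (2 * Real.pi)))) := by
    unfold nu
    exact integral_map nub_measurable_map.aemeasurable (measurable_Hf x h).aestronglyMeasurable
  have hm : Measurable fun q : Sp k × ℝ => Hf x h (rot (ang q.2) q.1) :=
    (measurable_Hf x h).comp nub_measurable_map
  have hI : Integrable (fun q : Sp k × ℝ => Hf x h (rot (ang q.2) q.1))
      (((volume : Measure (Sp k)).restrict (Bl k s)).prod
        (volume.restrict (Set.Icc (0 : ℝ) (2 * Real.pi)))) :=
    Integrable.of_bound hm.aestronglyMeasurable (∑ i, ∑ j, |h i j|)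
      (Eventually.of_forall fun q => norm_Hf_le x h _)
  rw [h2, integral_prod _ hI]
  refine integral_congr_ae (Eventually.of_forall fun p => ?_)
  show ∫ φ in Set.Icc (0 : ℝ) (2 * Real.pi), Hf x h (rot (ang φ) p) = avg x h p
  unfold avg
  rw [intervalIntegral.integral_of_le Real.two_pi_pos.le, integral_Icc_eq_integral_Ioc]

end Pool.Agent.FAN
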