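import Pool.Agent.FAN.KNU

set_option autoImplicit false

namespace Pool.Agent.FAN

open MeasureTheory Topology Filter

variable {k : ℕ}

namespace RANKaux

/-- pairs of different labels, other than `(0, 1)` -/
abbrev Pr (k : ℕ) : Type := {p : Lb k × Lb k // p.1 ≠ p.2 ∧ p ≠ (0, 1)}

theorem card_Pr (k : ℕ) : Fintype.card (Pr k) = (k + 5) * (k + 4) - 1 := by
  classical
  rw [Fintype.card_subtype]
  have h1 : (Finset.univ.filter fun p : Lb k × Lb k => p.1 ≠ p.2 ∧ p ≠ (0, 1)) =
      (Finset.univ : Finset (Lb k)).offDiag.erase (0, 1) := by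
    ext p
    simp [Finset.mem_offDiag, and_comm]
  rw [h1, Finset.card_erase_of_mem, Finset.offDiag_card, Finset.card_univ, Fintype.card_fin]
  · congr 1
    have : (k + 5) * (k + 5) = (k + 5) * (k + 4) + (k + 5) := by ring
    omega
  · rw [Finset.mem_offDiag]
    refine ⟨Finset.mem_univ _, Finset.mem_univ _, ?_⟩
    exact Fin.zero_ne_one

/-- extension by zero -/
def emb (k : ℕ) : (Pr k → ℝ) →ₗ[ℝ] (Lb k → Lb k → ℝ) where
  toFun w := fun i j => if h : i ≠ j ∧ (i, j) ≠ ((0 : Lb k), (1 : Lb k)) then w ⟨(i, j), h⟩ else 0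
  map_add' w w' := by
    funext i j
    simp only [Pi.add_apply]
    split_ifs <;> simp
  map_smul' r w := by
    funext i j
    simp only [Pi.smul_apply, smul_eq_mul, RingHom.id_apply]
    split_ifs <;> simp

theorem emb_diag (w : Pr k → ℝ) (i : Lb k) : emb k w i i = 0 := by
  simp [emb]

theorem emb_zero_one (w : Pr k → ℝ) : emb k w 0 1 = 0 := by
  simp [emb]

theorem emb_inj {w : Pr k → ℝ} (h : emb k w = 0) : w = 0 := by
  funext p
  have h1 := congrFun (congrFun h p.1.1) p.1.2
  have h2 : emb k w p.1.1 p.1.2 = w p := by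
    simp only [emb, LinearMap.coe_mk, AddHom.coe_mk]
    rw [dif_pos p.2]
  rw [h2] at h1
  exact h1

/-- dot product -/
noncomputable def B (k : ℕ) : (Lb k → Lb k → ℝ) →ₗ[ℝ] (Lb k → Lb k → ℝ) →ₗ[ℝ] ℝ :=
  LinearMap.mk₂ ℝ (fun a b => ∑ i, ∑ j, a i j * b i j)
    (fun a a' b => by simp [add_mul, Finset.sum_add_distrib])
    (fun r a b => by simp [Finset.mul_sum, mul_assoc])
    (fun a b b' => by simp [mul_add, Finset.sum_add_distrib])
    (fun r a b => by simp [Finset.mul_sum, mul_left_comm])

theorem B_apply (a b : Lb k → Lb k → ℝ) : B k a b = ∑ i, ∑ j, a i j * b i j := rfl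

/-- the matrix unit at `(0, 1)` -/
def dl (k : ℕ) : Lb k → Lb k → ℝ := fun i j => if i = 0 ∧ j = 1 then 1 else 0

/-- the sum of all entries -/
noncomputable def tot (k : ℕ) : (Lb k → Lb k → ℝ) →ₗ[ℝ] ℝ := B k (fun _ _ => 1)

theorem tot_apply (a : Lb k → Lb k → ℝ) : tot k a = ∑ i, ∑ j, a i j := by
  simp [tot, B_apply]

/-- the corrected extension -/
noncomputable def gm (k : ℕ) : (Pr k → ℝ) →ₗ[ℝ] (Lb k → Lb k → ℝ) :=
  emb k - ((tot k).comp (emb k)).smulRight (dl k)

theorem gm_apply (w : Pr k → ℝ) : gm k w = emb k w - (tot k (emb k w)) • dl k := rfl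

theorem gm_inj : Function.Injective (gm k) := by
  rw [← LinearMap.ker_eq_bot, LinearMap.ker_eq_bot']
  intro w hw
  rw [gm_apply] at hw
  have h1 := congrFun (congrFun hw 0) 1
  have h2 : dl k 0 1 = 1 := by simp [dl]
  simp only [Pi.sub_apply, Pi.smul_apply, smul_eq_mul, h2, emb_zero_one, Pi.zero_apply, mul_one,
    zero_sub, neg_eq_zero] at h1
  rw [h1, zero_smul, sub_zero] at hw
  exact emb_inj hw

end RANKaux

open RANKaux

theorem rank_gv (x : Fan k) : (k + 5) * (k + 4) - 1 ≤
    Module.finrank ℝ (K x) + Module.finrank ℝ (Submodule.span ℝ (Set.range fun s => gv k s x)) := by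
  classical
  let S : Submodule ℝ (Lb k → Lb k → ℝ) := Submodule.span ℝ (Set.range fun s => gv k s x)
  let T : (Pr k → ℝ) →ₗ[ℝ] (S →ₗ[ℝ] ℝ) := (LinearMap.lcomp ℝ ℝ S.subtype) ∘ₗ (B k) ∘ₗ (emb k)
  have hT : ∀ w σ, T w σ = B k (emb k w) σ := fun w σ => rfl
  have h1 := LinearMap.finrank_range_add_finrank_ker T
  rw [Module.finrank_fintype_fun_eq_card, card_Pr] at h1
  have h2 : Module.finrank ℝ (LinearMap.range T) ≤ Module.finrank ℝ S := by
    refine (Submodule.finrank_le _).trans ?_
    exact (Subspace.dual_finrank_eq (K := ℝ) (V := S)).le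
  have h3 : ∀ w ∈ LinearMap.ker T, gm k w ∈ K x := by
    intro w hw
    rw [LinearMap.mem_ker] at hw
    refine mem_K_of_nu ?_ ?_
    · intro i
      have hd : dl k i i = 0 := by
        simp only [dl]
        rw [if_neg]
        rintro ⟨h, h'⟩
        rw [h] at h'
        exact Fin.zero_ne_one h'
      simp [gm_apply, emb_diag, hd]
    · intro s
      have h4 := hT w ⟨gv k s x, Submodule.subset_span ⟨s, rfl⟩⟩
      rw [hw, LinearMap.zero_apply, B_apply] at h4
      have h5 : ∀ i j, emb k w i j * gv k s x i j = emb k w i j * ((nu k s) (cell x i j)).toReal -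
          emb k w i j * ((nu k s) (cell x 0 1)).toReal := by
        intro i j
        by_cases hij : i = j
        · subst hij
          rw [emb_diag]; ring
        · rw [gv, if_neg hij]; ring
      simp only [h5, Finset.sum_sub_distrib, ← Finset.sum_mul] at h4
      have h6 : ∑ i, ∑ j, dl k i j * ((nu k s) (cell x i j)).toReal =
          ((nu k s) (cell x 0 1)).toReal := by
        rw [Finset.sum_eq_single (0 : Lb k), Finset.sum_eq_single (1 : Lb k)]
        · simp [dl]
        · intro j _ hj
          simp [dl, hj]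
        · intro h; exact absurd (Finset.mem_univ _) h
        · intro i _ hi
          simp [dl, hi]
        · intro h; exact absurd (Finset.mem_univ _) h
      simp only [gm_apply, Pi.sub_apply, Pi.smul_apply, smul_eq_mul, sub_mul,
        Finset.sum_sub_distrib, mul_assoc, ← Finset.mul_sum]
      rw [h6, tot_apply]
      linarith
  have h4 : Module.finrank ℝ (LinearMap.ker T) ≤ Module.finrank ℝ (K x) := by
    let G : LinearMap.ker T →ₗ[ℝ] K x :=
      ((gm k).domRestrict (LinearMap.ker T)).codRestrict (K x) fun w => h3 w.1 w.2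
    have hG : Function.Injective G := by
      intro a b hab
      have : gm k a.1 = gm k b.1 := congrArg Subtype.val hab
      exact Subtype.ext (gm_inj this)
    exact LinearMap.finrank_le_finrank_of_injective hG
  have h5 : Module.finrank ℝ S =
      Module.finrank ℝ (Submodule.span ℝ (Set.range fun s => gv k s x)) := rfl
  omega

end Pool.Agent.FAN
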