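import Pool.Agent.FAN.KDefs

/-! Module SD: second difference of the measure of the set of angles where finitely many trigonometric functions
are nonnegative. -/

set_option autoImplicit false

namespace Pool.Agent.FAN

open MeasureTheory Topology Filter

namespace SD

variable {ι : Type}

/-! ### elementary facts -/

lemma continuous_ang : Continuous ang := by
  unfold ang
  fun_prop

lemma fn_zero (Z Z' : ι → ℂ) (e e' : ι → ℝ) (c : ι) (φ : ℝ) :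
    fn Z Z' e e' c φ 0 = (ang φ * Z c).re + e c := by
  simp [fn]

lemma continuous_fn (Z Z' : ι → ℂ) (e e' : ι → ℝ) (c : ι) :
    Continuous fun z : ℝ × ℝ => fn Z Z' e e' c z.1 z.2 := by
  unfold fn
  have := continuous_ang
  fun_prop

lemma ang_add_two_pi (φ : ℝ) : ang (φ + 2 * Real.pi) = ang φ := by
  unfold ang
  rw [show ((φ + 2 * Real.pi : ℝ) : ℂ) * Complex.I = φ * Complex.I + 2 * Real.pi * Complex.I by
    push_cast; ring, Complex.exp_add, Complex.exp_two_pi_mul_I, mul_one]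

lemma fn_periodic (Z Z' : ι → ℂ) (e e' : ι → ℝ) (c : ι) (φ ε : ℝ) :
    fn Z Z' e e' c (φ + 2 * Real.pi) ε = fn Z Z' e e' c φ ε := by
  unfold fn
  rw [ang_add_two_pi]

lemma hasDerivAt_ang (φ : ℝ) : HasDerivAt ang (ang φ * Complex.I) φ := by
  unfold ang
  have h1 : HasDerivAt (fun φ : ℝ => (φ : ℂ) * Complex.I) Complex.I φ := by
    simpa using ((hasDerivAt_id φ).ofReal_comp).mul_const Complex.I
  exact h1.cexp

/-- derivative with respect to the angle -/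
noncomputable def xd (Z : ι → ℂ) (c : ι) (φ : ℝ) : ℝ := -(ang φ * Z c).im

/-- derivative with respect to the parameter -/
noncomputable def yd (Z' : ι → ℂ) (e' : ι → ℝ) (c : ι) (φ : ℝ) : ℝ := (ang φ * Z' c).re + e' c

lemma hasDerivAt_re (Z : ι → ℂ) (c : ι) (φ : ℝ) :
    HasDerivAt (fun φ : ℝ => (ang φ * Z c).re) (xd Z c φ) φ := by
  have h1 : HasDerivAt (fun φ : ℝ => ang φ * Z c) (ang φ * Complex.I * Z c) φ :=
    (hasDerivAt_ang φ).mul_const _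
  have h2 := Complex.reCLM.hasFDerivAt.comp_hasDerivAt φ h1
  refine h2.congr_deriv ?_
  simp only [Complex.reCLM_apply, xd]
  have : ang φ * Complex.I * Z c = Complex.I * (ang φ * Z c) := by ring
  rw [this, Complex.mul_re]
  simp

/-- first order expansion -/
lemma expansion (Z Z' : ι → ℂ) (e e' : ι → ℝ) (c : ι) (φ₀ : ℝ) {η : ℝ} (hη : 0 < η) :
    ∀ᶠ φ in 𝓝 φ₀, ∀ ε : ℝ, |fn Z Z' e e' c φ ε - ((ang φ₀ * Z c).re + e c) -
      xd Z c φ₀ * (φ - φ₀) - yd Z' e' c φ₀ * ε| ≤ η * (|φ - φ₀| + |ε|) := by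
  have h1 := (hasDerivAt_re Z c φ₀).isLittleO.bound hη
  have h2 : ∀ᶠ φ in 𝓝 φ₀, |(ang φ * Z' c).re - (ang φ₀ * Z' c).re| ≤ η := by
    have hc : ContinuousAt (fun φ : ℝ => (ang φ * Z' c).re) φ₀ :=
      (hasDerivAt_re Z' c φ₀).continuousAt
    have := (Metric.continuousAt_iff'.1 hc) η hη
    filter_upwards [this] with φ hφ
    rw [Real.dist_eq] at hφ
    exact hφ.le
  filter_upwards [h1, h2] with φ h3 h4 ε
  have e1 : fn Z Z' e e' c φ ε - ((ang φ₀ * Z c).re + e c) -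
      xd Z c φ₀ * (φ - φ₀) - yd Z' e' c φ₀ * ε =
      ((ang φ * Z c).re - (ang φ₀ * Z c).re - (φ - φ₀) • xd Z c φ₀) +
      ε * ((ang φ * Z' c).re - (ang φ₀ * Z' c).re) := by
    unfold fn yd
    rw [mul_add, Complex.add_re]
    have : ang φ * ((ε : ℂ) * Z' c) = (ε : ℂ) * (ang φ * Z' c) := by ring
    rw [this, Complex.re_ofReal_mul, smul_eq_mul]
    ring
  rw [e1]
  refine (abs_add_le _ _).trans ?_
  rw [abs_mul]
  rw [Real.norm_eq_abs, Real.norm_eq_abs] at h3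
  have h5 : |ε| * |(ang φ * Z' c).re - (ang φ₀ * Z' c).re| ≤ |ε| * η := by
    gcongr
  linarith

/-! ### the measure on an interval -/

/-- the measure of the feasible angles in an interval -/
noncomputable def gI (Z Z' : ι → ℂ) (e e' : ι → ℝ) (a b ε : ℝ) : ℝ :=
  (volume {φ : ℝ | φ ∈ Set.Ioc a b ∧ ∀ c, 0 ≤ fn Z Z' e e' c φ ε}).toReal

/-- second difference -/
noncomputable def D2 (g : ℝ → ℝ) (ε : ℝ) : ℝ := g ε + g (-ε) - 2 * g 0

lemma isClosed_feas (Z Z' : ι → ℂ) (e e' : ι → ℝ) (ε : ℝ) :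
    IsClosed {φ : ℝ | ∀ c, 0 ≤ fn Z Z' e e' c φ ε} := by
  simp only [Set.ofPred_forall]
  refine isClosed_iInter fun c => ?_
  exact isClosed_le continuous_const ((continuous_fn Z Z' e e' c).comp (by fun_prop :
    Continuous fun φ : ℝ => (φ, ε)))

lemma measurable_feas (Z Z' : ι → ℂ) (e e' : ι → ℝ) (a b ε : ℝ) :
    MeasurableSet {φ : ℝ | φ ∈ Set.Ioc a b ∧ ∀ c, 0 ≤ fn Z Z' e e' c φ ε} :=
  measurableSet_Ioc.inter (isClosed_feas Z Z' e e' ε).measurableSet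

lemma gI_add (Z Z' : ι → ℂ) (e e' : ι → ℝ) {a b c : ℝ} (hab : a ≤ b) (hbc : b ≤ c) (ε : ℝ) :
    gI Z Z' e e' a c ε = gI Z Z' e e' a b ε + gI Z Z' e e' b c ε := by
  unfold gI
  have h1 : {φ : ℝ | φ ∈ Set.Ioc a c ∧ ∀ c, 0 ≤ fn Z Z' e e' c φ ε} =
      {φ : ℝ | φ ∈ Set.Ioc a b ∧ ∀ c, 0 ≤ fn Z Z' e e' c φ ε} ∪
      {φ : ℝ | φ ∈ Set.Ioc b c ∧ ∀ c, 0 ≤ fn Z Z' e e' c φ ε} := by
    ext φ
    simp only [Set.mem_ofPred_eq, Set.mem_union, Set.mem_Ioc]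
    constructor
    · rintro ⟨⟨h1, h2⟩, h3⟩
      rcases le_or_gt φ b with h | h
      · exact Or.inl ⟨⟨h1, h⟩, h3⟩
      · exact Or.inr ⟨⟨h, h2⟩, h3⟩
    · rintro (⟨⟨h1, h2⟩, h3⟩ | ⟨⟨h1, h2⟩, h3⟩)
      · exact ⟨⟨h1, h2.trans hbc⟩, h3⟩
      · exact ⟨⟨hab.trans_lt h1, h2⟩, h3⟩
  have hfin : ∀ a b : ℝ, volume {φ : ℝ | φ ∈ Set.Ioc a b ∧ ∀ c, 0 ≤ fn Z Z' e e' c φ ε} ≠ ⊤ := by
    intro a b
    refine ((measure_mono (fun φ hφ => hφ.1)).trans_lt (measure_Ioc_lt_top (a := a) (b := b))).ne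
  rw [h1, measure_union _ (measurable_feas Z Z' e e' b c ε), ENNReal.toReal_add (hfin _ _) (hfin _ _)]
  rw [Set.disjoint_left]
  rintro φ ⟨⟨_, h2⟩, _⟩ ⟨⟨h3, _⟩, _⟩
  exact absurd h2 (not_le.2 h3)

lemma gI_eq_integral (Z Z' : ι → ℂ) (e e' : ι → ℝ) {a b : ℝ} (hab : a ≤ b) (ε : ℝ) :
    gI Z Z' e e' a b ε =
      ∫ φ in a..b, Set.indicator {φ : ℝ | ∀ c, 0 ≤ fn Z Z' e e' c φ ε} (fun _ => (1 : ℝ)) φ := by
  rw [intervalIntegral.integral_of_le hab, integral_indicator (isClosed_feas Z Z' e e' ε).measurableSet,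
    setIntegral_const, smul_eq_mul, mul_one, Measure.real,
    Measure.restrict_apply (isClosed_feas Z Z' e e' ε).measurableSet]
  unfold gI
  congr 2
  ext φ
  simp only [Set.mem_ofPred_eq, Set.mem_inter_iff]
  exact and_comm

lemma gI_shift (Z Z' : ι → ℂ) (e e' : ι → ℝ) (a b ε : ℝ) :
    gI Z Z' e e' a (a + 2 * Real.pi) ε = gI Z Z' e e' b (b + 2 * Real.pi) ε := by
  have hpi := Real.pi_pos
  rw [gI_eq_integral Z Z' e e' (by linarith), gI_eq_integral Z Z' e e' (by linarith)]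
  have hp : Function.Periodic (Set.indicator {φ : ℝ | ∀ c, 0 ≤ fn Z Z' e e' c φ ε}
      (fun _ => (1 : ℝ))) (2 * Real.pi) := by
    intro φ
    have h1 : (φ + 2 * Real.pi ∈ {φ : ℝ | ∀ c, 0 ≤ fn Z Z' e e' c φ ε}) ↔
        (φ ∈ {φ : ℝ | ∀ c, 0 ≤ fn Z Z' e e' c φ ε}) := by
      constructor
      · intro h c
        have := h c
        rwa [fn_periodic] at this
      · intro h c
        rw [fn_periodic]
        exact h c
    by_cases h : φ ∈ {φ : ℝ | ∀ c, 0 ≤ fn Z Z' e e' c φ ε}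
    · rw [Set.indicator_of_mem h, Set.indicator_of_mem (h1.2 h)]
    · rw [Set.indicator_of_notMem h, Set.indicator_of_notMem (fun h' => h (h1.1 h'))]
  exact hp.intervalIntegral_add_eq a b

lemma Gm_eq (Z Z' : ι → ℂ) (e e' : ι → ℝ) (a ε : ℝ) :
    Gm Z Z' e e' ε = gI Z Z' e e' a (a + 2 * Real.pi) ε := by
  have h1 : Gm Z Z' e e' ε = gI Z Z' e e' 0 (2 * Real.pi) ε := by
    unfold Gm gI
    congr 1
    apply measure_congr
    have h2 : (Set.Icc 0 (2 * Real.pi) : Set ℝ) =ᵐ[volume] Set.Ioc 0 (2 * Real.pi) :=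
      Ioc_ae_eq_Icc.symm
    exact h2.inter (ae_eq_refl {φ : ℝ | ∀ c, 0 ≤ fn Z Z' e e' c φ ε})
  rw [h1]
  have := gI_shift Z Z' e e' 0 a ε
  rwa [zero_add] at this

/-! ### intervals without special angles -/

/-- special angles -/
def Spc (Z : ι → ℂ) (e : ι → ℝ) (φ : ℝ) : Prop :=
  (∀ c, 0 ≤ (ang φ * Z c).re + e c) ∧ ∃ c, (ang φ * Z c).re + e c = 0

lemma stable_at [Finite ι] (Z Z' : ι → ℂ) (e e' : ι → ℝ) {φ₀ : ℝ} (h : ¬ Spc Z e φ₀) :
    ∀ᶠ z : ℝ × ℝ in 𝓝 0 ×ˢ 𝓝 φ₀, ((∀ c, 0 ≤ fn Z Z' e e' c z.2 z.1) ↔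
      (∀ c, 0 ≤ fn Z Z' e e' c z.2 0)) := by
  rw [← nhds_prod_eq]
  by_cases hf : ∀ c, 0 ≤ (ang φ₀ * Z c).re + e c
  · have hpos : ∀ c, 0 < (ang φ₀ * Z c).re + e c := by
      intro c
      refine lt_of_le_of_ne (hf c) fun h0 => h ⟨hf, c, h0.symm⟩
    have h1 : ∀ c, ∀ᶠ z : ℝ × ℝ in 𝓝 ((0 : ℝ), φ₀), 0 < fn Z Z' e e' c z.2 z.1 := by
      intro c
      have hc : Continuous fun z : ℝ × ℝ => fn Z Z' e e' c z.2 z.1 :=
        (continuous_fn Z Z' e e' c).comp (by fun_prop : Continuous fun z : ℝ × ℝ => (z.2, z.1))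
      refine hc.continuousAt.eventually (lt_mem_nhds ?_)
      simp only [fn_zero]
      exact hpos c
    have h2 : ∀ c, ∀ᶠ z : ℝ × ℝ in 𝓝 ((0 : ℝ), φ₀), 0 < fn Z Z' e e' c z.2 0 := by
      intro c
      have hc : Continuous fun z : ℝ × ℝ => fn Z Z' e e' c z.2 0 :=
        (continuous_fn Z Z' e e' c).comp (by fun_prop : Continuous fun z : ℝ × ℝ => (z.2, (0:ℝ)))
      refine hc.continuousAt.eventually (lt_mem_nhds ?_)
      simp only [fn_zero]
      exact hpos c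
    filter_upwards [eventually_all.2 h1, eventually_all.2 h2] with z h3 h4
    exact ⟨fun _ c => (h4 c).le, fun _ c => (h3 c).le⟩
  · push Not at hf
    obtain ⟨c, hc⟩ := hf
    have h1 : ∀ᶠ z : ℝ × ℝ in 𝓝 ((0 : ℝ), φ₀), fn Z Z' e e' c z.2 z.1 < 0 := by
      have hcc : Continuous fun z : ℝ × ℝ => fn Z Z' e e' c z.2 z.1 :=
        (continuous_fn Z Z' e e' c).comp (by fun_prop : Continuous fun z : ℝ × ℝ => (z.2, z.1))
      refine hcc.continuousAt.eventually (gt_mem_nhds ?_)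
      simp only [fn_zero]
      exact hc
    have h2 : ∀ᶠ z : ℝ × ℝ in 𝓝 ((0 : ℝ), φ₀), fn Z Z' e e' c z.2 0 < 0 := by
      have hcc : Continuous fun z : ℝ × ℝ => fn Z Z' e e' c z.2 0 :=
        (continuous_fn Z Z' e e' c).comp (by fun_prop : Continuous fun z : ℝ × ℝ => (z.2, (0:ℝ)))
      refine hcc.continuousAt.eventually (gt_mem_nhds ?_)
      simp only [fn_zero]
      exact hc
    filter_upwards [h1, h2] with z h3 h4
    exact ⟨fun h => absurd (h c) (not_le.2 h3), fun h => absurd (h c) (not_le.2 h4)⟩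

lemma gI_const [Finite ι] (Z Z' : ι → ℂ) (e e' : ι → ℝ) {a b : ℝ}
    (h : ∀ φ ∈ Set.Icc a b, ¬ Spc Z e φ) :
    ∀ᶠ ε in 𝓝 (0 : ℝ), gI Z Z' e e' a b ε = gI Z Z' e e' a b 0 := by
  have h1 : ∀ᶠ ε in 𝓝 (0 : ℝ), ∀ φ ∈ Set.Icc a b, ((∀ c, 0 ≤ fn Z Z' e e' c φ ε) ↔
      (∀ c, 0 ≤ fn Z Z' e e' c φ 0)) := by
    refine isCompact_Icc.eventually_forall_of_forall_eventually fun φ hφ => ?_
    have := stable_at Z Z' e e' (h φ hφ)
    rw [← nhds_prod_eq] at this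
    exact this
  filter_upwards [h1] with ε hε
  unfold gI
  congr 2
  ext φ
  simp only [Set.mem_ofPred_eq]
  constructor
  · rintro ⟨h2, h3⟩
    exact ⟨h2, (hε φ (Set.Ioc_subset_Icc_self h2)).1 h3⟩
  · rintro ⟨h2, h3⟩
    exact ⟨h2, (hε φ (Set.Ioc_subset_Icc_self h2)).2 h3⟩

lemma D2_const [Finite ι] (Z Z' : ι → ℂ) (e e' : ι → ℝ) {a b : ℝ}
    (h : ∀ φ ∈ Set.Icc a b, ¬ Spc Z e φ) :
    Tendsto (fun ε => D2 (gI Z Z' e e' a b) ε / ε) (𝓝[>] 0) (𝓝 0) := by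
  have h1 := gI_const Z Z' e e' h
  have h2 : ∀ᶠ ε in 𝓝 (0 : ℝ), gI Z Z' e e' a b (-ε) = gI Z Z' e e' a b 0 := by
    have : Tendsto (fun ε : ℝ => -ε) (𝓝 0) (𝓝 0) := by
      simpa using (continuous_neg (G := ℝ)).tendsto 0
    exact this.eventually h1
  refine tendsto_const_nhds.congr' ?_
  filter_upwards [nhdsWithin_le_nhds h1, nhdsWithin_le_nhds h2] with ε h3 h4
  rw [D2, h3, h4]
  ring

/-! ### the linear model at a special angle -/

lemma abs_toReal_sub_le {S T B : Set ℝ} (h1 : S ⊆ T ∪ B) (h2 : T ⊆ S ∪ B) (hS : volume S ≠ ⊤)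
    (hT : volume T ≠ ⊤) (hB : volume B ≠ ⊤) :
    |(volume S).toReal - (volume T).toReal| ≤ (volume B).toReal := by
  have e1 : (volume S).toReal ≤ (volume T).toReal + (volume B).toReal := by
    rw [← ENNReal.toReal_add hT hB]
    exact ENNReal.toReal_mono (ENNReal.add_ne_top.2 ⟨hT, hB⟩)
      ((measure_mono h1).trans (measure_union_le _ _))
  have e2 : (volume T).toReal ≤ (volume S).toReal + (volume B).toReal := by
    rw [← ENNReal.toReal_add hS hB]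
    exact ENNReal.toReal_mono (ENNReal.add_ne_top.2 ⟨hS, hB⟩)
      ((measure_mono h2).trans (measure_union_le _ _))
  rw [abs_le]
  constructor <;> linarith

/-- the linear model -/
noncomputable def gL (x y : ι → ℝ) (A : Finset ι) (φ₀ a b ε : ℝ) : ℝ :=
  (volume {φ : ℝ | φ ∈ Set.Ioc a b ∧ ∀ c ∈ A, 0 ≤ x c * (φ - φ₀) + y c * ε}).toReal

lemma sign_agree {x y f φ φ₀ ε η : ℝ} (hx : x ≠ 0) (hη : 2 * η ≤ |x|)
    (h : |f - x * (φ - φ₀) - y * ε| ≤ η * (|φ - φ₀| + |ε|))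
    (hout : ¬ |φ - (φ₀ + ε * (-y / x))| ≤ 2 * η * (1 + |-y / x|) / |x| * |ε|) :
    (0 ≤ f ↔ 0 ≤ x * (φ - φ₀) + y * ε) := by
  have hx0 : 0 < |x| := abs_pos.2 hx
  set r := -y / x with hr
  set u := φ - (φ₀ + ε * r) with hu
  have e1 : x * (φ - φ₀) + y * ε = x * u := by
    rw [hu, hr]; field_simp; ring
  have e2 : |φ - φ₀| ≤ |u| + |ε| * |r| := by
    have : φ - φ₀ = u + ε * r := by rw [hu]; ring
    rw [this, ← abs_mul]
    exact abs_add_le _ _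
  push Not at hout
  have hη0 : 0 ≤ η := by
    by_contra hneg
    push Not at hneg
    have h3 := (abs_nonneg _).trans h
    have h4 : 0 ≤ |φ - φ₀| + |ε| := by positivity
    have h5 : |φ - φ₀| + |ε| = 0 := by
      by_contra hne
      have : 0 < |φ - φ₀| + |ε| := lt_of_le_of_ne h4 (Ne.symm hne)
      nlinarith
    have h6 : |φ - φ₀| = 0 := by linarith [abs_nonneg (φ - φ₀), abs_nonneg ε]
    have h7 : |ε| = 0 := by linarith [abs_nonneg (φ - φ₀), abs_nonneg ε]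
    rw [h7, mul_zero] at hout
    have h8 : ε = 0 := abs_eq_zero.1 h7
    have h9 : u = 0 := by
      rw [hu, h8, zero_mul, add_zero]
      exact abs_eq_zero.1 h6
    rw [h9, abs_zero] at hout
    exact lt_irrefl _ hout
  have h3 : η * (|φ - φ₀| + |ε|) < |x| * |u| := by
    have h4 : 2 * η * (1 + |r|) * |ε| < |x| * |u| := by
      have := mul_lt_mul_of_pos_left hout hx0
      have e3 : |x| * (2 * η * (1 + |r|) / |x| * |ε|) = 2 * η * (1 + |r|) * |ε| := by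
        field_simp
      rwa [e3] at this
    have h5 : η * |u| ≤ |x| * |u| / 2 := by nlinarith [abs_nonneg u]
    have h6 : η * (|φ - φ₀| + |ε|) ≤ η * (|u| + |ε| * |r| + |ε|) := by gcongr
    nlinarith
  have h7 : |f - x * u| < |x * u| := by
    rw [abs_mul]
    refine lt_of_le_of_lt ?_ h3
    rw [← e1]
    have : f - (x * (φ - φ₀) + y * ε) = f - x * (φ - φ₀) - y * ε := by ring
    rw [this]
    exact h
  rw [e1]
  rw [abs_lt] at h7
  rcases le_or_gt 0 (x * u) with h8 | h8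
  · rw [abs_of_nonneg h8] at h7
    exact ⟨fun _ => h8, fun _ => by linarith [h7.1]⟩
  · rw [abs_of_neg h8] at h7
    exact ⟨fun h9 => by linarith [h7.2], fun h9 => absurd h9 (not_le.2 h8)⟩

variable [Fintype ι]

lemma mem_actF {Z : ι → ℂ} {e : ι → ℝ} {φ : ℝ} {c : ι} :
    c ∈ actF Z e φ ↔ (ang φ * Z c).re + e c = 0 := by
  unfold actF
  simp

/-- comparison with the linear model -/
lemma compare (Z Z' : ι → ℂ) (e e' : ι → ℝ) {φ₀ : ℝ}
    (hf : ∀ c, 0 ≤ (ang φ₀ * Z c).re + e c)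
    (hx : ∀ c ∈ actF Z e φ₀, xd Z c φ₀ ≠ 0) {η : ℝ} (hη : 0 < η) :
    ∃ δ > 0, ∀ a b : ℝ, φ₀ - δ < a → b < φ₀ + δ → ∀ᶠ ε in 𝓝 (0 : ℝ),
      |gI Z Z' e e' a b ε - gL (fun c => xd Z c φ₀) (fun c => yd Z' e' c φ₀) (actF Z e φ₀) φ₀ a b ε|
        ≤ η * |ε| := by
  classical
  set A := actF Z e φ₀ with hA
  set r : ι → ℝ := fun c => -yd Z' e' c φ₀ / xd Z c φ₀ with hr
  set K : ℝ := ∑ c ∈ A, 4 * (1 + |r c|) / |xd Z c φ₀| + 1 with hK
  have hK0 : 0 < K := by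
    have : 0 ≤ ∑ c ∈ A, 4 * (1 + |r c|) / |xd Z c φ₀| :=
      Finset.sum_nonneg fun c _ => by positivity
    linarith
  obtain ⟨η', hη'0, hη'K, hη'x⟩ : ∃ η' > 0, η' ≤ η / K ∧ ∀ c ∈ A, 2 * η' ≤ |xd Z c φ₀| := by
    have h1 : ∀ᶠ η' in 𝓝[>] (0:ℝ), η' ≤ η / K :=
      nhdsWithin_le_nhds (eventually_le_nhds (by positivity))
    have h2 : ∀ᶠ η' in 𝓝[>] (0:ℝ), ∀ c ∈ A, 2 * η' ≤ |xd Z c φ₀| := by
      rw [Filter.eventually_all_finset]
      intro c hc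
      have h3 : 0 < |xd Z c φ₀| / 2 := by
        have := abs_pos.2 (hx c hc)
        positivity
      filter_upwards [nhdsWithin_le_nhds (eventually_le_nhds h3)] with η' h4
      linarith
    obtain ⟨η', ⟨h3, h4⟩, h5⟩ := ((h1.and h2).and self_mem_nhdsWithin).exists
    exact ⟨η', h5, h3, h4⟩
  -- neighbourhoods
  have h1 : ∀ᶠ φ in 𝓝 φ₀, ∀ c ∈ A, ∀ ε : ℝ, |fn Z Z' e e' c φ ε -
      xd Z c φ₀ * (φ - φ₀) - yd Z' e' c φ₀ * ε| ≤ η' * (|φ - φ₀| + |ε|) := by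
    rw [Filter.eventually_all_finset]
    intro c hc
    filter_upwards [expansion Z Z' e e' c φ₀ hη'0] with φ hφ ε
    have := hφ ε
    rwa [mem_actF.1 hc, sub_zero] at this
  have h2 : ∀ᶠ z : ℝ × ℝ in 𝓝 (φ₀, (0:ℝ)), ∀ c, c ∉ A → 0 < fn Z Z' e e' c z.1 z.2 := by
    rw [Filter.eventually_all]
    intro c
    by_cases hc : c ∈ A
    · exact Eventually.of_forall fun z h => absurd hc h
    · have hpos : 0 < (ang φ₀ * Z c).re + e c :=
        lt_of_le_of_ne (hf c) fun h0 => hc (mem_actF.2 h0.symm)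
      have := (continuous_fn Z Z' e e' c).continuousAt.eventually (lt_mem_nhds (a := (0:ℝ))
        (b := fn Z Z' e e' c (φ₀, (0:ℝ)).1 (φ₀, (0:ℝ)).2) (by simp only [fn_zero]; exact hpos))
      filter_upwards [this] with z hz _
      exact hz
  obtain ⟨δ₁, hδ₁, h1'⟩ := Metric.eventually_nhds_iff.1 h1
  obtain ⟨δ₂, hδ₂, h2'⟩ := Metric.eventually_nhds_iff.1 h2
  refine ⟨min δ₁ δ₂, lt_min hδ₁ hδ₂, fun a b ha hb => ?_⟩
  have h3 : ∀ᶠ ε in 𝓝 (0 : ℝ), |ε| < δ₂ := by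
    have : ∀ᶠ ε in 𝓝 (0 : ℝ), dist ε 0 < δ₂ := Metric.ball_mem_nhds _ hδ₂
    filter_upwards [this] with ε h
    rwa [Real.dist_eq, sub_zero] at h
  filter_upwards [h3] with ε hε
  -- the bad set
  set ρ : ι → ℝ := fun c => 2 * η' * (1 + |r c|) / |xd Z c φ₀| with hρ
  have hρ0 : ∀ c, 0 ≤ ρ c := fun c => by rw [hρ]; positivity
  set B : Set ℝ := ⋃ c ∈ A, Set.Icc (φ₀ + ε * r c - ρ c * |ε|) (φ₀ + ε * r c + ρ c * |ε|) with hB
  have hBvol : volume B ≤ ENNReal.ofReal (η * |ε|) := by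
    refine (measure_biUnion_finset_le _ _).trans ?_
    simp only [Real.volume_Icc]
    rw [← ENNReal.ofReal_sum_of_nonneg (fun c _ => by
      have := mul_nonneg (hρ0 c) (abs_nonneg ε)
      linarith)]
    apply ENNReal.ofReal_le_ofReal
    have e1 : ∀ c, φ₀ + ε * r c + ρ c * |ε| - (φ₀ + ε * r c - ρ c * |ε|) =
        (4 * (1 + |r c|) / |xd Z c φ₀|) * (η' * |ε|) := by
      intro c; rw [hρ]; ring
    simp_rw [e1]
    rw [← Finset.sum_mul]
    have e2 : ∑ c ∈ A, 4 * (1 + |r c|) / |xd Z c φ₀| ≤ K := by rw [hK]; linarith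
    calc _ ≤ K * (η' * |ε|) := by gcongr
      _ ≤ K * (η / K * |ε|) := by gcongr
      _ = η * |ε| := by field_simp
  have hBfin : volume B ≠ ⊤ := (hBvol.trans_lt ENNReal.ofReal_lt_top).ne
  have hfinS : volume {φ : ℝ | φ ∈ Set.Ioc a b ∧ ∀ c, 0 ≤ fn Z Z' e e' c φ ε} ≠ ⊤ :=
    ((measure_mono (fun φ hφ => hφ.1)).trans_lt (measure_Ioc_lt_top (a := a) (b := b))).ne
  have hfinT : volume {φ : ℝ | φ ∈ Set.Ioc a b ∧ ∀ c ∈ A, 0 ≤ xd Z c φ₀ * (φ - φ₀) +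
      yd Z' e' c φ₀ * ε} ≠ ⊤ :=
    ((measure_mono (fun φ hφ => hφ.1)).trans_lt (measure_Ioc_lt_top (a := a) (b := b))).ne
  have hnear : ∀ φ ∈ Set.Ioc a b, |φ - φ₀| < min δ₁ δ₂ := by
    intro φ hφ
    rw [abs_lt]
    constructor <;> linarith [hφ.1, hφ.2]
  have key : ∀ φ ∈ Set.Ioc a b, φ ∉ B → ∀ c ∈ A, (0 ≤ fn Z Z' e e' c φ ε ↔
      0 ≤ xd Z c φ₀ * (φ - φ₀) + yd Z' e' c φ₀ * ε) := by
    intro φ hφ hφB c hc
    have h4 := h1' (y := φ) (by
      rw [Real.dist_eq]; exact (hnear φ hφ).trans_le (min_le_left _ _)) c hc ε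
    refine sign_agree (hx c hc) (hη'x c hc) h4 fun h5 => hφB ?_
    rw [hB]
    simp only [Set.mem_iUnion]
    refine ⟨c, hc, ?_⟩
    rw [abs_le] at h5
    constructor
    · have := h5.1
      simp only [hr, hρ]
      linarith
    · have := h5.2
      simp only [hr, hρ]
      linarith
  have key2 : ∀ φ ∈ Set.Ioc a b, ∀ c, c ∉ A → 0 ≤ fn Z Z' e e' c φ ε := by
    intro φ hφ c hc
    refine (h2' (y := (φ, ε)) ?_ c hc).le
    rw [Prod.dist_eq, max_lt_iff, Real.dist_eq, Real.dist_eq, sub_zero]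
    exact ⟨(hnear φ hφ).trans_le (min_le_right _ _), hε⟩
  have h6 : |gI Z Z' e e' a b ε - gL (fun c => xd Z c φ₀) (fun c => yd Z' e' c φ₀) A φ₀ a b ε| ≤
      (volume B).toReal := by
    refine abs_toReal_sub_le ?_ ?_ hfinS hfinT hBfin
    · rintro φ ⟨hφ, h7⟩
      by_cases hφB : φ ∈ B
      · exact Or.inr hφB
      · exact Or.inl ⟨hφ, fun c hc => (key φ hφ hφB c hc).1 (h7 c)⟩
    · rintro φ ⟨hφ, h7⟩
      by_cases hφB : φ ∈ B
      · exact Or.inr hφB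
      · refine Or.inl ⟨hφ, fun c => ?_⟩
        by_cases hc : c ∈ A
        · exact (key φ hφ hφB c hc).2 (h7 c hc)
        · exact key2 φ hφ c hc
  refine h6.trans ?_
  rw [← ENNReal.toReal_ofReal (show 0 ≤ η * |ε| by positivity)]
  exact ENNReal.toReal_mono ENNReal.ofReal_ne_top hBvol

/-! ### the linear model computed -/

omit [Fintype ι] in
lemma lin_pos {x y φ φ₀ ε : ℝ} (hx : 0 < x) :
    0 ≤ x * (φ - φ₀) + y * ε ↔ φ₀ + ε * (-y / x) ≤ φ := by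
  have e1 : x * (φ - φ₀) + y * ε = x * (φ - (φ₀ + ε * (-y / x))) := by field_simp; ring
  rw [e1, mul_nonneg_iff_of_pos_left hx, sub_nonneg]

omit [Fintype ι] in
lemma lin_neg {x y φ φ₀ ε : ℝ} (hx : x < 0) :
    0 ≤ x * (φ - φ₀) + y * ε ↔ φ ≤ φ₀ + ε * (-y / x) := by
  have hx0 : x ≠ 0 := hx.ne
  have e1 : x * (φ - φ₀) + y * ε = -x * ((φ₀ + ε * (-y / x)) - φ) := by field_simp; ring
  rw [e1, mul_nonneg_iff_of_pos_left (by linarith), sub_nonneg]

omit [Fintype ι] in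
lemma gL_pp [DecidableEq ι] {x y : ι → ℝ} {c d : ι} (hc : 0 < x c) (hd : 0 < x d) {φ₀ a b ε : ℝ}
    (h1 : a < φ₀ + ε * (-y c / x c)) (h3 : φ₀ + ε * (-y c / x c) ≤ b)
    (h4 : φ₀ + ε * (-y d / x d) ≤ b) :
    gL x y {c, d} φ₀ a b ε = b - φ₀ - max (ε * (-y c / x c)) (ε * (-y d / x d)) := by
  unfold gL
  have : {φ : ℝ | φ ∈ Set.Ioc a b ∧ ∀ c' ∈ ({c, d} : Finset ι), 0 ≤ x c' * (φ - φ₀) + y c' * ε} =
      Set.Icc (φ₀ + max (ε * (-y c / x c)) (ε * (-y d / x d))) b := by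
    ext φ
    simp only [Set.mem_ofPred_eq, Finset.mem_insert, Finset.mem_singleton, forall_eq_or_imp, forall_eq,
      lin_pos hc, lin_pos hd, Set.mem_Ioc, Set.mem_Icc]
    constructor
    · rintro ⟨⟨_, h5⟩, h6, h7⟩
      refine ⟨?_, h5⟩
      rcases max_cases (ε * (-y c / x c)) (ε * (-y d / x d)) with ⟨h8, _⟩ | ⟨h8, _⟩ <;> rw [h8] <;> assumption
    · rintro ⟨h5, h6⟩
      have := le_max_left (ε * (-y c / x c)) (ε * (-y d / x d))
      have := le_max_right (ε * (-y c / x c)) (ε * (-y d / x d))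
      refine ⟨⟨by linarith, h6⟩, by linarith, by linarith⟩
  rw [this, Real.volume_Icc, ENNReal.toReal_ofReal]
  · ring
  · rcases max_cases (ε * (-y c / x c)) (ε * (-y d / x d)) with ⟨h8, _⟩ | ⟨h8, _⟩ <;> rw [h8] <;> linarith

omit [Fintype ι] in
lemma gL_mm [DecidableEq ι] {x y : ι → ℝ} {c d : ι} (hc : x c < 0) (hd : x d < 0) {φ₀ a b ε : ℝ}
    (h1 : a < φ₀ + ε * (-y c / x c)) (h2 : a < φ₀ + ε * (-y d / x d))
    (h3 : φ₀ + ε * (-y c / x c) ≤ b) :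
    gL x y {c, d} φ₀ a b ε = φ₀ - a + min (ε * (-y c / x c)) (ε * (-y d / x d)) := by
  unfold gL
  have : {φ : ℝ | φ ∈ Set.Ioc a b ∧ ∀ c' ∈ ({c, d} : Finset ι), 0 ≤ x c' * (φ - φ₀) + y c' * ε} =
      Set.Ioc a (φ₀ + min (ε * (-y c / x c)) (ε * (-y d / x d))) := by
    ext φ
    simp only [Set.mem_ofPred_eq, Finset.mem_insert, Finset.mem_singleton, forall_eq_or_imp, forall_eq,
      lin_neg hc, lin_neg hd, Set.mem_Ioc]
    constructor
    · rintro ⟨⟨h5, _⟩, h6, h7⟩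
      refine ⟨h5, ?_⟩
      rcases min_cases (ε * (-y c / x c)) (ε * (-y d / x d)) with ⟨h8, _⟩ | ⟨h8, _⟩ <;> rw [h8] <;> assumption
    · rintro ⟨h5, h6⟩
      have := min_le_left (ε * (-y c / x c)) (ε * (-y d / x d))
      have := min_le_right (ε * (-y c / x c)) (ε * (-y d / x d))
      refine ⟨⟨h5, by linarith⟩, by linarith, by linarith⟩
  rw [this, Real.volume_Ioc, ENNReal.toReal_ofReal]
  · ring
  · rcases min_cases (ε * (-y c / x c)) (ε * (-y d / x d)) with ⟨h8, _⟩ | ⟨h8, _⟩ <;> rw [h8] <;> linarith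

omit [Fintype ι] in
lemma gL_pm [DecidableEq ι] {x y : ι → ℝ} {c d : ι} (hc : 0 < x c) (hd : x d < 0) {φ₀ a b ε : ℝ}
    (h1 : a < φ₀ + ε * (-y c / x c)) (h4 : φ₀ + ε * (-y d / x d) ≤ b) :
    gL x y {c, d} φ₀ a b ε = max (ε * (-y d / x d) - ε * (-y c / x c)) 0 := by
  unfold gL
  have : {φ : ℝ | φ ∈ Set.Ioc a b ∧ ∀ c' ∈ ({c, d} : Finset ι), 0 ≤ x c' * (φ - φ₀) + y c' * ε} =
      Set.Icc (φ₀ + ε * (-y c / x c)) (φ₀ + ε * (-y d / x d)) := by
    ext φ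
    simp only [Set.mem_ofPred_eq, Finset.mem_insert, Finset.mem_singleton, forall_eq_or_imp, forall_eq,
      lin_pos hc, lin_neg hd, Set.mem_Ioc, Set.mem_Icc]
    constructor
    · rintro ⟨_, h6, h7⟩
      exact ⟨h6, h7⟩
    · rintro ⟨h5, h6⟩
      exact ⟨⟨by linarith, by linarith⟩, h5, h6⟩
  rw [this, Real.volume_Icc, ENNReal.toReal_ofReal']
  congr 1
  ring

omit [Fintype ι] in
lemma D2_gL [DecidableEq ι] {x y : ι → ℝ} {c d : ι} (hc : x c ≠ 0) (hd : x d ≠ 0) {φ₀ a b : ℝ}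
    (ha : a < φ₀) (hb : φ₀ < b) :
    ∀ᶠ ε in 𝓝[>] (0 : ℝ), D2 (gL x y {c, d} φ₀ a b) ε =
      ε * (-(|x c * y d - x d * y c| / (x c * x d))) := by
  have hev : ∀ c : ι, ∀ᶠ ε in 𝓝[>] (0:ℝ), (a < φ₀ + ε * (-y c / x c) ∧ φ₀ + ε * (-y c / x c) ≤ b) ∧
      (a < φ₀ + (-ε) * (-y c / x c) ∧ φ₀ + (-ε) * (-y c / x c) ≤ b) := by
    intro c
    have h1 : Tendsto (fun ε : ℝ => φ₀ + ε * (-y c / x c)) (𝓝 0) (𝓝 φ₀) := by
      have : Continuous fun ε : ℝ => φ₀ + ε * (-y c / x c) := by fun_prop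
      simpa using this.tendsto 0
    have h2 : Tendsto (fun ε : ℝ => φ₀ + (-ε) * (-y c / x c)) (𝓝 0) (𝓝 φ₀) := by
      have : Continuous fun ε : ℝ => φ₀ + (-ε) * (-y c / x c) := by fun_prop
      simpa using this.tendsto 0
    have h3 : ∀ᶠ z in 𝓝 φ₀, a < z ∧ z ≤ b := by
      filter_upwards [lt_mem_nhds ha, gt_mem_nhds hb] with z h4 h5
      exact ⟨h4, h5.le⟩
    exact nhdsWithin_le_nhds ((h1.eventually h3).and (h2.eventually h3))
  filter_upwards [hev c, hev d, self_mem_nhdsWithin] with ε h1 h2 h3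
  rw [Set.mem_Ioi] at h3
  obtain ⟨⟨h1a, h1b⟩, h1c, h1d⟩ := h1
  obtain ⟨⟨h2a, h2b⟩, h2c, h2d⟩ := h2
  have h0 : ∀ c : ι, φ₀ + 0 * (-y c / x c) = φ₀ := fun c => by ring
  have e1 : |x c * y d - x d * y c| = |x c * x d| * |(-y c / x c) - (-y d / x d)| := by
    rw [← abs_mul]
    congr 1
    field_simp
    ring
  rw [e1]
  set r := -y c / x c with hr
  set s := -y d / x d with hs
  unfold D2
  have hmax : max (ε * r) (ε * s) + max (-ε * r) (-ε * s) = ε * |r - s| := by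
    rcases le_total r s with h | h
    · rw [max_eq_right (by nlinarith), max_eq_left (by nlinarith), abs_of_nonpos (by linarith)]
      ring
    · rw [max_eq_left (by nlinarith), max_eq_right (by nlinarith), abs_of_nonneg (by linarith)]
      ring
  have hmin : min (ε * r) (ε * s) + min (-ε * r) (-ε * s) = -(ε * |r - s|) := by
    rcases le_total r s with h | h
    · rw [min_eq_left (by nlinarith), min_eq_right (by nlinarith), abs_of_nonpos (by linarith)]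
      ring
    · rw [min_eq_right (by nlinarith), min_eq_left (by nlinarith), abs_of_nonneg (by linarith)]
      ring
  have hpm : ∀ r s : ℝ, max (ε * s - ε * r) 0 + max (-ε * s - -ε * r) 0 = ε * |r - s| := by
    intro r s
    rcases le_total r s with h | h
    · rw [max_eq_left (by nlinarith), max_eq_right (by nlinarith), abs_of_nonpos (by linarith)]
      ring
    · rw [max_eq_right (by nlinarith), max_eq_left (by nlinarith), abs_of_nonneg (by linarith)]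
      ring
  rcases lt_or_gt_of_ne hc with hc' | hc' <;> rcases lt_or_gt_of_ne hd with hd' | hd'
  · rw [gL_mm hc' hd' h1a h2a h1b, gL_mm hc' hd' h1c h2c h1d,
      gL_mm hc' hd' (by rw [h0]; exact ha) (by rw [h0]; exact ha) (by rw [h0]; exact hb.le)]
    rw [← hr, ← hs, abs_of_pos (mul_pos_of_neg_of_neg hc' hd'), zero_mul, zero_mul, min_self]
    have e2 : x c * x d * |r - s| / (x c * x d) = |r - s| := by field_simp
    rw [e2]
    linarith
  · rw [Finset.pair_comm, gL_pm hd' hc' h2a h1b, gL_pm hd' hc' h2c h1d,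
      gL_pm hd' hc' (by rw [h0]; exact ha) (by rw [h0]; exact hb.le)]
    rw [← hr, ← hs, abs_of_neg (mul_neg_of_neg_of_pos hc' hd'), zero_mul, zero_mul, sub_zero, max_self]
    have e2 : -(x c * x d) * |r - s| / (x c * x d) = -|r - s| := by field_simp
    rw [e2]
    have := hpm s r
    rw [abs_sub_comm] at this
    linarith
  · rw [gL_pm hc' hd' h1a h2b, gL_pm hc' hd' h1c h2d,
      gL_pm hc' hd' (by rw [h0]; exact ha) (by rw [h0]; exact hb.le)]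
    rw [← hr, ← hs, abs_of_neg (mul_neg_of_pos_of_neg hc' hd'), zero_mul, zero_mul, sub_zero, max_self]
    have e2 : -(x c * x d) * |r - s| / (x c * x d) = -|r - s| := by field_simp
    rw [e2]
    have := hpm r s
    linarith
  · rw [gL_pp hc' hd' h1a h1b h2b, gL_pp hc' hd' h1c h1d h2d,
      gL_pp hc' hd' (by rw [h0]; exact ha) (by rw [h0]; exact hb.le) (by rw [h0]; exact hb.le)]
    rw [← hr, ← hs, abs_of_pos (mul_pos hc' hd'), zero_mul, zero_mul, max_self]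
    have e2 : x c * x d * |r - s| / (x c * x d) = |r - s| := by field_simp
    rw [e2]
    linarith

open Classical in
/-- the local contribution -/
noncomputable def Lv (Z Z' : ι → ℂ) (e e' : ι → ℝ) (φ : ℝ) : ℝ :=
  -((1 / 2) * ∑ c ∈ actF Z e φ, ∑ d ∈ (actF Z e φ).erase c,
          |(ang φ * Z c).im * ((ang φ * Z' d).re + e' d) - (ang φ * Z d).im * ((ang φ * Z' c).re + e' c)| /
            ((ang φ * Z c).im * (ang φ * Z d).im))

open Classical in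
lemma Lv_card_one (Z Z' : ι → ℂ) (e e' : ι → ℝ) {φ : ℝ} (h : (actF Z e φ).card = 1) :
    Lv Z Z' e e' φ = 0 := by
  unfold Lv
  obtain ⟨c, hc⟩ := Finset.card_eq_one.1 h
  rw [hc]
  simp

open Classical in
lemma pair_form (Z Z' : ι → ℂ) (e e' : ι → ℝ) {φ : ℝ} (h : (actF Z e φ).card ≤ 2)
    (hne : (actF Z e φ).Nonempty) :
    ∃ c d, actF Z e φ = {c, d} ∧ Lv Z Z' e e' φ =
      -(|xd Z c φ * yd Z' e' d φ - xd Z d φ * yd Z' e' c φ| / (xd Z c φ * xd Z d φ)) := by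
  have h1 : (actF Z e φ).card = 1 ∨ (actF Z e φ).card = 2 := by
    have := Finset.card_pos.2 hne
    omega
  rcases h1 with h1 | h1
  · obtain ⟨c, hc⟩ := Finset.card_eq_one.1 h1
    refine ⟨c, c, by simp [hc], ?_⟩
    rw [Lv_card_one Z Z' e e' h1]
    simp
  · obtain ⟨c, d, hcd, hc⟩ := Finset.card_eq_two.1 h1
    refine ⟨c, d, hc, ?_⟩
    unfold Lv xd yd
    have e1 : ({c, d} : Finset ι).erase c = {d} := by
      ext x; simp only [Finset.mem_erase, Finset.mem_insert, Finset.mem_singleton]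
      constructor
      · rintro ⟨h1, h2 | h2⟩
        · exact absurd h2 h1
        · exact h2
      · rintro rfl
        exact ⟨hcd.symm, Or.inr rfl⟩
    have e2 : ({c, d} : Finset ι).erase d = {c} := by
      ext x; simp only [Finset.mem_erase, Finset.mem_insert, Finset.mem_singleton]
      constructor
      · rintro ⟨h1, h2 | h2⟩
        · exact h2
        · exact absurd h2 h1
      · rintro rfl
        exact ⟨hcd, Or.inl rfl⟩
    rw [hc]
    rw [Finset.sum_pair hcd, e1, e2, Finset.sum_singleton, Finset.sum_singleton]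
    rw [abs_sub_comm ((ang φ * Z d).im * ((ang φ * Z' c).re + e' c)),
      mul_comm (ang φ * Z d).im (ang φ * Z c).im]
    have e4 : -(ang φ * Z c).im * ((ang φ * Z' d).re + e' d) - -(ang φ * Z d).im * ((ang φ * Z' c).re + e' c) =
      -((ang φ * Z c).im * ((ang φ * Z' d).re + e' d) - (ang φ * Z d).im * ((ang φ * Z' c).re + e' c)) := by
      ring
    rw [e4, abs_neg, neg_mul_neg]
    ring

/-- behaviour at a special angle -/
lemma local_lim (Z Z' : ι → ℂ) (e e' : ι → ℝ)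
    (h2 : ∀ φ : ℝ, (∀ c, 0 ≤ (ang φ * Z c).re + e c) → (actF Z e φ).card ≤ 2)
    (htr : ∀ (φ : ℝ) (c : ι), (∀ c, 0 ≤ (ang φ * Z c).re + e c) → (ang φ * Z c).re + e c = 0 →
      (ang φ * Z c).im ≠ 0) {φ₀ : ℝ} (hs : Spc Z e φ₀) {η : ℝ} (hη : 0 < η) :
    ∃ δ > 0, ∀ a b : ℝ, φ₀ - δ < a → a < φ₀ → φ₀ < b → b < φ₀ + δ → ∀ᶠ ε in 𝓝[>] (0 : ℝ),
      |D2 (gI Z Z' e e' a b) ε / ε - Lv Z Z' e e' φ₀| ≤ η := by
  classical
  obtain ⟨hf, c₀, hc₀⟩ := hs
  have hx : ∀ c ∈ actF Z e φ₀, xd Z c φ₀ ≠ 0 := by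
    intro c hc
    unfold xd
    exact neg_ne_zero.2 (htr φ₀ c hf (mem_actF.1 hc))
  obtain ⟨c, d, hA, hLv⟩ := pair_form Z Z' e e' (h2 φ₀ hf) ⟨c₀, mem_actF.2 hc₀⟩
  obtain ⟨δ, hδ, h3⟩ := compare Z Z' e e' hf hx (η := η / 2) (by positivity)
  refine ⟨δ, hδ, fun a b ha1 ha2 hb1 hb2 => ?_⟩
  have h4 := h3 a b ha1 hb2
  have h5 : ∀ᶠ ε in 𝓝 (0:ℝ), |gI Z Z' e e' a b (-ε) - gL (fun c => xd Z c φ₀) (fun c => yd Z' e' c φ₀)
      (actF Z e φ₀) φ₀ a b (-ε)| ≤ η / 2 * |(-ε)| := by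
    have : Tendsto (fun ε : ℝ => -ε) (𝓝 0) (𝓝 0) := by
      simpa using (continuous_neg (G := ℝ)).tendsto 0
    exact this.eventually h4
  have h6 := h4.self_of_nhds
  rw [abs_zero, mul_zero] at h6
  have h7 := abs_eq_zero.1 (le_antisymm h6 (abs_nonneg _))
  have h8 := D2_gL (x := fun c => xd Z c φ₀) (y := fun c => yd Z' e' c φ₀) (c := c) (d := d)
    (hx c (by rw [hA]; simp)) (hx d (by rw [hA]; simp)) ha2 hb1
  filter_upwards [nhdsWithin_le_nhds h4, nhdsWithin_le_nhds h5, h8, self_mem_nhdsWithin] with ε h9 h10 h11 h12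
  rw [Set.mem_Ioi] at h12
  rw [← hA] at h11
  rw [abs_neg] at h10
  rw [abs_of_pos h12] at h9 h10
  have e1 : D2 (gI Z Z' e e' a b) ε / ε - Lv Z Z' e e' φ₀ =
      (D2 (gI Z Z' e e' a b) ε - D2 (gL (fun c => xd Z c φ₀) (fun c => yd Z' e' c φ₀)
        (actF Z e φ₀) φ₀ a b) ε) / ε := by
    rw [h11, hLv]
    field_simp
  rw [e1, abs_div, abs_of_pos h12, div_le_iff₀ h12]
  have e2 : D2 (gI Z Z' e e' a b) ε - D2 (gL (fun c => xd Z c φ₀) (fun c => yd Z' e' c φ₀)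
        (actF Z e φ₀) φ₀ a b) ε =
      (gI Z Z' e e' a b ε - gL (fun c => xd Z c φ₀) (fun c => yd Z' e' c φ₀)
        (actF Z e φ₀) φ₀ a b ε) + (gI Z Z' e e' a b (-ε) - gL (fun c => xd Z c φ₀)
        (fun c => yd Z' e' c φ₀) (actF Z e φ₀) φ₀ a b (-ε)) := by
    unfold D2
    linarith
  rw [e2]
  refine (abs_add_le _ _).trans ?_
  linarith

/-! ### special angles are isolated -/

lemma isolated (Z : ι → ℂ) (e : ι → ℝ)
    (htr : ∀ (φ : ℝ) (c : ι), (∀ c, 0 ≤ (ang φ * Z c).re + e c) → (ang φ * Z c).re + e c = 0 →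
      (ang φ * Z c).im ≠ 0) (φ₀ : ℝ) : ∀ᶠ φ in 𝓝[≠] φ₀, ¬ Spc Z e φ := by
  have hcont : ∀ c, ContinuousAt (fun φ => (ang φ * Z c).re + e c) φ₀ := by
    intro c
    exact (hasDerivAt_re Z c φ₀).continuousAt.add continuousAt_const
  by_cases hf : ∀ c, 0 ≤ (ang φ₀ * Z c).re + e c
  · have h1 : ∀ c, ∀ᶠ φ in 𝓝[≠] φ₀, (ang φ * Z c).re + e c ≠ 0 := by
      intro c
      by_cases hc : (ang φ₀ * Z c).re + e c = 0
      · have h3 : xd Z c φ₀ ≠ 0 := neg_ne_zero.2 (htr φ₀ c hf hc)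
        have h4 := ((hasDerivAt_re Z c φ₀).add_const (e c)).eventually_ne h3 (c := 0)
        exact h4
      · exact nhdsWithin_le_nhds ((hcont c).eventually_ne hc)
    filter_upwards [Filter.eventually_all.2 h1] with φ h2
    rintro ⟨_, c, hc⟩
    exact h2 c hc
  · push Not at hf
    obtain ⟨c, hc⟩ := hf
    have := (hcont c).eventually (gt_mem_nhds hc)
    filter_upwards [nhdsWithin_le_nhds this] with φ h1
    rintro ⟨h2, _⟩
    exact absurd (h2 c) (not_le.2 h1)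

lemma finite_spc (Z : ι → ℂ) (e : ι → ℝ)
    (htr : ∀ (φ : ℝ) (c : ι), (∀ c, 0 ≤ (ang φ * Z c).re + e c) → (ang φ * Z c).re + e c = 0 →
      (ang φ * Z c).im ≠ 0) (a b : ℝ) : (Set.Icc a b ∩ {φ | Spc Z e φ}).Finite := by
  by_contra hinf
  obtain ⟨x, hx, hacc⟩ := Set.Infinite.exists_accPt_of_subset_isCompact hinf (isCompact_Icc (a := a) (b := b))
    Set.inter_subset_left
  rw [accPt_iff_frequently_nhdsNE] at hacc
  exact hacc ((isolated Z e htr x).mono fun φ h1 h2 => h1 h2.2)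

/-! ### summation over the special angles -/

omit [Fintype ι] in
lemma D2_add (Z Z' : ι → ℂ) (e e' : ι → ℝ) {a b c : ℝ} (hab : a ≤ b) (hbc : b ≤ c) (ε : ℝ) :
    D2 (gI Z Z' e e' a c) ε = D2 (gI Z Z' e e' a b) ε + D2 (gI Z Z' e e' b c) ε := by
  unfold D2
  rw [gI_add Z Z' e e' hab hbc, gI_add Z Z' e e' hab hbc, gI_add Z Z' e e' hab hbc]
  ring

lemma sum_lim (Z Z' : ι → ℂ) (e e' : ι → ℝ)
    (h2 : ∀ φ : ℝ, (∀ c, 0 ≤ (ang φ * Z c).re + e c) → (actF Z e φ).card ≤ 2)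
    (htr : ∀ (φ : ℝ) (c : ι), (∀ c, 0 ≤ (ang φ * Z c).re + e c) → (ang φ * Z c).re + e c = 0 →
      (ang φ * Z c).im ≠ 0) (W : Finset ℝ) : ∀ a b : ℝ, a < b →
      (∀ φ ∈ Set.Icc a b, Spc Z e φ ↔ φ ∈ W) → (∀ w ∈ W, w ∈ Set.Ioo a b) →
      Tendsto (fun ε => D2 (gI Z Z' e e' a b) ε / ε) (𝓝[>] 0) (𝓝 (∑ w ∈ W, Lv Z Z' e e' w)) := by
  induction W using Finset.induction_on_max with
  | empty =>
    intro a b _ h3 _
    rw [Finset.sum_empty]
    exact D2_const Z Z' e e' fun φ hφ h4 => absurd ((h3 φ hφ).1 h4) (Finset.notMem_empty _)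
  | insert m W hm ih =>
    intro a b hab h3 h4
    have hmW : m ∉ W := fun h => lt_irrefl _ (hm m h)
    have hmab := h4 m (Finset.mem_insert_self _ _)
    rw [Finset.sum_insert hmW]
    rw [Metric.tendsto_nhds]
    intro η hη
    obtain ⟨δ, hδ, hloc⟩ := local_lim Z Z' e e' h2 htr
      ((h3 m (Set.Ioo_subset_Icc_self hmab)).2 (Finset.mem_insert_self _ _)) (η := η / 4) (by positivity)
    -- choose c < m < d
    obtain ⟨c, hc1, hc2, hc3, hc4⟩ : ∃ c, a < c ∧ m - δ < c ∧ c < m ∧ ∀ w ∈ W, w < c := by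
      have e1 : ∀ᶠ c in 𝓝[<] m, a < c := nhdsWithin_le_nhds (lt_mem_nhds hmab.1)
      have e2 : ∀ᶠ c in 𝓝[<] m, m - δ < c := nhdsWithin_le_nhds (lt_mem_nhds (by linarith))
      have e3 : ∀ᶠ c in 𝓝[<] m, c < m := self_mem_nhdsWithin
      have e4 : ∀ᶠ c in 𝓝[<] m, ∀ w ∈ W, w < c := by
        rw [Filter.eventually_all_finset]
        intro w hw
        exact nhdsWithin_le_nhds (lt_mem_nhds (hm w hw))
      obtain ⟨c, h5, h6, h7, h8⟩ := (e1.and (e2.and (e3.and e4))).exists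
      exact ⟨c, h5, h6, h7, h8⟩
    obtain ⟨d, hd1, hd2, hd3⟩ : ∃ d, d < b ∧ d < m + δ ∧ m < d := by
      have e1 : ∀ᶠ c in 𝓝[>] m, c < b := nhdsWithin_le_nhds (gt_mem_nhds hmab.2)
      have e2 : ∀ᶠ c in 𝓝[>] m, c < m + δ := nhdsWithin_le_nhds (gt_mem_nhds (by linarith))
      have e3 : ∀ᶠ c in 𝓝[>] m, m < c := self_mem_nhdsWithin
      obtain ⟨c, h5, h6, h7⟩ := (e1.and (e2.and e3)).exists
      exact ⟨c, h5, h6, h7⟩
    have t1 := ih a c hc1 (by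
      intro φ hφ
      rw [h3 φ ⟨hφ.1, hφ.2.trans (hc3.trans hmab.2).le⟩, Finset.mem_insert]
      refine ⟨fun h => ?_, Or.inr⟩
      rcases h with rfl | h
      · exact absurd hφ.2 (not_le.2 hc3)
      · exact h) (fun w hw => ⟨(h4 w (Finset.mem_insert_of_mem hw)).1, hc4 w hw⟩)
    have t2 := hloc c d hc2 hc3 hd3 hd2
    have t3 := D2_const Z Z' e e' (a := d) (b := b) (by
      intro φ hφ h5
      have h6 := (h3 φ ⟨(hmab.1.trans (hd3.trans_le hφ.1)).le, hφ.2⟩).1 h5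
      rcases Finset.mem_insert.1 h6 with rfl | h7
      · exact absurd hφ.1 (not_le.2 hd3)
      · have := hm φ h7
        linarith [hφ.1])
    filter_upwards [(Metric.tendsto_nhds.1 t1) (η / 4) (by positivity), t2,
      (Metric.tendsto_nhds.1 t3) (η / 4) (by positivity)] with ε h5 h6 h7
    rw [D2_add Z Z' e e' hc1.le (hc3.trans hmab.2).le, D2_add Z Z' e e' (hc3.trans hd3).le hd1.le]
    rw [Real.dist_eq] at h5 h7 ⊢
    rw [sub_zero] at h7
    have e1 : (D2 (gI Z Z' e e' a c) ε + (D2 (gI Z Z' e e' c d) ε + D2 (gI Z Z' e e' d b) ε)) / ε -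
        (Lv Z Z' e e' m + ∑ w ∈ W, Lv Z Z' e e' w) =
        (D2 (gI Z Z' e e' a c) ε / ε - ∑ w ∈ W, Lv Z Z' e e' w) +
        (D2 (gI Z Z' e e' c d) ε / ε - Lv Z Z' e e' m) + D2 (gI Z Z' e e' d b) ε / ε := by ring
    rw [e1]
    refine (abs_add_le _ _).trans_lt ?_
    have := abs_add_le (D2 (gI Z Z' e e' a c) ε / ε - ∑ w ∈ W, Lv Z Z' e e' w)
        (D2 (gI Z Z' e e' c d) ε / ε - Lv Z Z' e e' m)
    linarith

omit [Fintype ι] in
lemma Spc_periodic (Z : ι → ℂ) (e : ι → ℝ) (φ : ℝ) : Spc Z e (φ + 2 * Real.pi) ↔ Spc Z e φ := by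
  unfold Spc
  rw [ang_add_two_pi]

end SD

open Classical in
theorem second_difference {ι : Type} [Fintype ι] (Z Z' : ι → ℂ) (e e' : ι → ℝ)
    (h2 : ∀ φ : ℝ, (∀ c, 0 ≤ (ang φ * Z c).re + e c) → (actF Z e φ).card ≤ 2)
    (htr : ∀ (φ : ℝ) (c : ι), (∀ c, 0 ≤ (ang φ * Z c).re + e c) → (ang φ * Z c).re + e c = 0 →
      (ang φ * Z c).im ≠ 0) :
    ∃ Θ : Finset ℝ, (∀ φ, φ ∈ Θ ↔ φ ∈ Set.Ico 0 (2 * Real.pi) ∧ (∀ c, 0 ≤ (ang φ * Z c).re + e c) ∧
        (actF Z e φ).card = 2) ∧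
      Tendsto (fun ε : ℝ => (Gm Z Z' e e' ε + Gm Z Z' e e' (-ε) - 2 * Gm Z Z' e e' 0) / ε) (𝓝[>] 0)
        (𝓝 (- ∑ φ ∈ Θ, (1 / 2) * ∑ c ∈ actF Z e φ, ∑ d ∈ (actF Z e φ).erase c,
          |(ang φ * Z c).im * ((ang φ * Z' d).re + e' d) - (ang φ * Z d).im * ((ang φ * Z' c).re + e' c)| /
            ((ang φ * Z c).im * (ang φ * Z d).im))) := by
  have hpi := Real.pi_pos
  obtain ⟨s, hs, hs'⟩ := Metric.eventually_nhds_iff.1
    (eventually_nhdsWithin_iff.1 (SD.isolated Z e htr 0))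
  set a : ℝ := -(min s Real.pi / 2) with ha
  have hmin : 0 < min s Real.pi := lt_min hs hpi
  have ha0 : a < 0 := by rw [ha]; linarith
  have has : -s < a := by
    have := min_le_left s Real.pi
    rw [ha]; linarith
  have hapi : -Real.pi < a := by
    have := min_le_right s Real.pi
    rw [ha]; linarith
  have hno : ∀ φ, a ≤ φ → φ < 0 → ¬ SD.Spc Z e φ := by
    intro φ h3 h4
    refine hs' ?_ (by simpa using h4.ne)
    rw [Real.dist_eq, sub_zero, abs_of_neg h4]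
    linarith
  have hno' : ∀ φ, a + 2 * Real.pi ≤ φ → φ < 2 * Real.pi → ¬ SD.Spc Z e φ := by
    intro φ h3 h4 h5
    refine hno (φ - 2 * Real.pi) (by linarith) (by linarith) ?_
    rw [← SD.Spc_periodic, sub_add_cancel]
    exact h5
  set W := (SD.finite_spc Z e htr a (a + 2 * Real.pi)).toFinset with hW
  have hmem : ∀ φ, φ ∈ W ↔ (φ ∈ Set.Icc a (a + 2 * Real.pi) ∧ SD.Spc Z e φ) := by
    intro φ
    rw [hW, Set.Finite.mem_toFinset]
    rfl
  have hmem' : ∀ φ, φ ∈ W ↔ (φ ∈ Set.Ico 0 (2 * Real.pi) ∧ SD.Spc Z e φ) := by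
    intro φ
    rw [hmem]
    constructor
    · rintro ⟨⟨h3, h4⟩, h5⟩
      refine ⟨⟨?_, by linarith⟩, h5⟩
      by_contra h6
      exact hno φ h3 (not_le.1 h6) h5
    · rintro ⟨⟨h3, h4⟩, h5⟩
      refine ⟨⟨by linarith, ?_⟩, h5⟩
      by_contra h6
      exact hno' φ (not_le.1 h6).le h4 h5
  have key := SD.sum_lim Z Z' e e' h2 htr W a (a + 2 * Real.pi) (by linarith)
    (fun φ hφ => by rw [hmem]; exact ⟨fun h => ⟨hφ, h⟩, fun h => h.2⟩)
    (fun w hw => by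
      obtain ⟨⟨h3, h4⟩, h5⟩ := (hmem w).1 hw
      constructor
      · refine lt_of_le_of_ne h3 ?_
        rintro rfl
        exact hno _ le_rfl ha0 h5
      · refine lt_of_le_of_ne h4 ?_
        intro h6
        exact hno' w h6.ge (by rw [h6]; linarith) h5)
  refine ⟨W.filter fun φ => (actF Z e φ).card = 2, ?_, ?_⟩
  · intro φ
    rw [Finset.mem_filter, hmem']
    constructor
    · rintro ⟨⟨h3, h4⟩, h5⟩
      exact ⟨h3, h4.1, h5⟩
    · rintro ⟨h3, h4, h5⟩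
      refine ⟨⟨h3, h4, ?_⟩, h5⟩
      obtain ⟨c, hc⟩ := Finset.card_pos.1 (by rw [h5]; norm_num : 0 < (actF Z e φ).card)
      exact ⟨c, SD.mem_actF.1 hc⟩
  · have e1 : - ∑ φ ∈ W.filter (fun φ => (actF Z e φ).card = 2), (1 / 2) * ∑ c ∈ actF Z e φ,
          ∑ d ∈ (actF Z e φ).erase c,
          |(ang φ * Z c).im * ((ang φ * Z' d).re + e' d) - (ang φ * Z d).im * ((ang φ * Z' c).re + e' c)| /
            ((ang φ * Z c).im * (ang φ * Z d).im) = ∑ w ∈ W, SD.Lv Z Z' e e' w := by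
      rw [← Finset.sum_neg_distrib]
      refine Finset.sum_subset_zero_on_sdiff (Finset.filter_subset _ _) ?_ ?_
      · intro w hw
        rw [Finset.mem_sdiff, Finset.mem_filter] at hw
        obtain ⟨h3, h4⟩ := hw
        obtain ⟨_, hf, c, hc⟩ := (hmem w).1 h3
        have h5 := h2 w hf
        have h6 : 0 < (actF Z e w).card := Finset.card_pos.2 ⟨c, SD.mem_actF.2 hc⟩
        have h7 : (actF Z e w).card ≠ 2 := fun h => h4 ⟨h3, h⟩
        exact SD.Lv_card_one Z Z' e e' (by omega)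
      · intro w _
        rfl
    rw [e1]
    refine key.congr fun ε => ?_
    rw [SD.D2, ← SD.Gm_eq, ← SD.Gm_eq, ← SD.Gm_eq]

end Pool.Agent.FAN
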