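import Pool.Agent.FAN.KR
import Pool.Agent.FAN.KDT
import Pool.Agent.FAN.WTS
import Pool.Agent.FAN.TOP

set_option autoImplicit false

namespace Pool.Agent.FAN

open MeasureTheory Topology Filter

variable {k : ℕ}

theorem syr_rotc_neg (θ : ℂ) (c : Cf k) : rotc θ (-c) = -rotc θ c := by
  have := rotc_sub θ 0 c
  simpa [rotc] using this

theorem syr_pow {x : Fan k} {θ₀ : ℂ} (τ : Equiv.Perm (Lb k)) (hτ : ∀ s, rotc θ₀ (x s) = x (τ s))
    (m : ℕ) (s : Lb k) : rotc (θ₀ ^ m) (x s) = x ((τ ^ m : Equiv.Perm (Lb k)) s) := by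
  induction m with
  | zero => simp
  | succ m ih =>
    rw [pow_succ', ← rotc_rotc, ih, hτ, pow_succ', Equiv.Perm.mul_apply]

theorem sym_top {x : Fan k} (hx : Nondeg x) {q : ℕ} (hq : 1 ≤ q) {θ₀ : ℂ} (hθ : ‖θ₀‖ = 1) (hord : θ₀ ^ q = 1)
    (hprim : ∀ m, 0 < m → m < q → θ₀ ^ m ≠ 1) (τ : Equiv.Perm (Lb k)) (hτ : ∀ s, rotc θ₀ (x s) = x (τ s))
    {h : Lb k → Lb k → ℝ} (hh : h ∈ K x) (hinv : ∀ s t, h (τ s) (τ t) = h s t) {u i j : Lb k}
    (hui : u ≠ i) (huj : u ≠ j) (hij : i ≠ j) (ha : (x u).1 ≠ (x i).1) (hi : τ i = i)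
    (htame : ∀ (θ : ℂ) (s s' : Lb k) (α : ℝ), ‖θ‖ = 1 → s ≠ s' → α ≠ 0 →
      rotc θ (x s - x s') = α • (x u - x i) → ∃ m < q, θ = θ₀ ^ m) :
    h u j = h i j := by
  classical
  obtain ⟨l, hlu, hli, hlj, hI⟩ := exists_typeI hx ha j huj.symm hij.symm
  obtain ⟨w, ν, hd⟩ := exists_dirs hx hui hlu.symm hli.symm
  obtain ⟨p₀, hp₀, h1, h2⟩ := exists_mem_Otop hx (l := l) huj.symm hij.symm hlj.symm
  obtain ⟨p, hp, hp1, hp2, hG, Θ, hΘ, hΘ', hsum⟩ :=
    kink_relation hx hui hlu.symm hli.symm hI hd (isOpen_Otop x u i l j) hp₀ h1 h2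
  have hs := hsum h hh
  have e1 : cval (x u) p = cval (x i) p := by
    rw [cval_sub] at hp1; linarith
  have e2 : cval (x l) p = cval (x i) p := by
    rw [cval_sub] at hp2; linarith
  have hinvm : ∀ (m : ℕ) (s t : Lb k), h ((τ ^ m : Equiv.Perm (Lb k)) s) ((τ ^ m : Equiv.Perm (Lb k)) t) =
      h s t := by
    intro m
    induction m with
    | zero => intro s t; simp
    | succ m ih =>
      intro s t
      rw [pow_succ', Equiv.Perm.mul_apply, Equiv.Perm.mul_apply, hinv, ih]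
  -- the contribution of the powers of `θ₀`
  have hpow : ∀ m : ℕ, kD x h (θ₀ ^ m) p w ν = h u j - h i j := by
    intro m
    set σ : Equiv.Perm (Lb k) := τ ^ m with hσ
    have hθm : ‖θ₀ ^ m‖ = 1 := by rw [norm_pow, hθ, one_pow]
    have hval : ∀ s, cval (x s) (rot (θ₀ ^ m) p) = cval (x (σ s)) p := by
      intro s
      rw [cval_rot, syr_pow τ hτ m s]
    have hne : ∀ {a b : Lb k}, a ≠ b → σ.symm a ≠ σ.symm b := fun hab h' => hab (σ.symm.injective h')
    have key := kD_triple hx hui hlu.symm hli.symm hd (p := p) (θ := θ₀ ^ m) hθm (s₁ := σ.symm u)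
      (s₂ := σ.symm i) (s₃ := σ.symm l) (b := σ.symm j)
      (hne hui) (hne hlu.symm) (hne hli.symm) (hne huj.symm) (hne hij.symm) (hne hlj.symm)
      (by rw [hval, hval, Equiv.apply_symm_apply, Equiv.apply_symm_apply]; exact e1)
      (by rw [hval, hval, Equiv.apply_symm_apply, Equiv.apply_symm_apply]; exact e2)
      (by
        intro s hs1 hs2 hs3
        rw [hval, hval, Equiv.apply_symm_apply]
        exact hp.1 _ (fun h' => hs1 (by rw [← h', Equiv.symm_apply_apply]))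
          (fun h' => hs2 (by rw [← h', Equiv.symm_apply_apply]))
          (fun h' => hs3 (by rw [← h', Equiv.symm_apply_apply])))
      (by
        intro s hs1
        rw [hval, hval, Equiv.apply_symm_apply]
        exact hp.2 _ (fun h' => hs1 (by rw [← h', Equiv.symm_apply_apply])))
      (by rw [rotc_sub, syr_pow τ hτ, syr_pow τ hτ, ← hσ, Equiv.apply_symm_apply,
        Equiv.apply_symm_apply])
      (β₁ := 0) (β₂ := 1) one_ne_zero
      (by
        rw [rotc_sub, syr_pow τ hτ, syr_pow τ hτ, ← hσ, Equiv.apply_symm_apply,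
          Equiv.apply_symm_apply]
        simp) h
    rw [key, ← hinvm m (σ.symm u) (σ.symm j), ← hinvm m (σ.symm i) (σ.symm j), ← hσ,
      Equiv.apply_symm_apply, Equiv.apply_symm_apply, Equiv.apply_symm_apply]
    simp
  have hother : ∀ θ : ℂ, ‖θ‖ = 1 → (¬ ∃ m < q, θ = θ₀ ^ m) → kD x h θ p w ν = 0 := by
    intro θ hθ' hθ1
    unfold kD
    refine Finset.sum_eq_zero fun i' _ => Finset.sum_eq_zero fun j' _ => ?_
    split_ifs with hij'
    · rfl
    · by_cases hw : wt x i' j' θ p w ν = 0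
      · rw [hw, mul_zero]
      · obtain ⟨_, c, hc, d, _, _, _, _, _, α, hα, hr⟩ := wt_support hx hd hG hθ' hij' hw
        have hc' := mem_Cons.mp hc
        exact absurd (htame θ c.1 c.2 α hθ' hc'.1 hα hr) hθ1
  have hall : ∀ θ ∈ Θ, kD x h θ p w ν = (if ∃ m < q, θ = θ₀ ^ m then 1 else 0) * (h u j - h i j) := by
    intro θ hθΘ
    by_cases hex : ∃ m < q, θ = θ₀ ^ m
    · rw [if_pos hex, one_mul]
      obtain ⟨m, _, rfl⟩ := hex
      exact hpow m
    · rw [if_neg hex, zero_mul]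
      exact hother θ (hΘ θ hθΘ) hex
  rw [Finset.sum_congr rfl hall, ← Finset.sum_mul] at hs
  have hD : h u j - h i j = 0 := by
    by_cases h1Θ : (1 : ℂ) ∈ Θ
    · refine (mul_eq_zero.mp hs).resolve_left ?_
      have : (0 : ℝ) < ∑ θ ∈ Θ, (if ∃ m < q, θ = θ₀ ^ m then (1 : ℝ) else 0) := by
        refine Finset.sum_pos' (fun θ _ => by split_ifs <;> norm_num) ⟨1, h1Θ, ?_⟩
        rw [if_pos ⟨0, by omega, by simp⟩]
        norm_num
      exact this.ne'
    · have h3 := hpow 0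
      rw [pow_zero] at h3
      rw [← h3]
      unfold kD
      refine Finset.sum_eq_zero fun i' _ => Finset.sum_eq_zero fun j' _ => ?_
      split_ifs with hij'
      · rfl
      · rw [hΘ' 1 (by simp) h1Θ i' j' hij', mul_zero]
  linarith

theorem sym_bot {x : Fan k} (hx : Nondeg x) {q : ℕ} (hq : 1 ≤ q) {θ₀ : ℂ} (hθ : ‖θ₀‖ = 1) (hord : θ₀ ^ q = 1)
    (hprim : ∀ m, 0 < m → m < q → θ₀ ^ m ≠ 1) (τ : Equiv.Perm (Lb k)) (hτ : ∀ s, rotc θ₀ (x s) = x (τ s))
    {h : Lb k → Lb k → ℝ} (hh : h ∈ K x) (hinv : ∀ s t, h (τ s) (τ t) = h s t) {u i j : Lb k}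
    (hui : u ≠ i) (huj : u ≠ j) (hij : i ≠ j) (ha : (x u).1 ≠ (x i).1) (hi : τ i = i)
    (htame : ∀ (θ : ℂ) (s s' : Lb k) (α : ℝ), ‖θ‖ = 1 → s ≠ s' → α ≠ 0 →
      rotc θ (x s - x s') = α • (x u - x i) → ∃ m < q, θ = θ₀ ^ m) :
    h j u = h j i := by
  refine sym_top (x := fun s => -x s) hx.neg hq hθ hord hprim τ ?_ (K_neg hh)
    (fun s t => hinv t s) hui huj hij ?_ hi ?_
  · intro s
    rw [syr_rotc_neg, hτ]
  · intro h'
    apply ha
    simpa using h'
  · intro θ s s' α hθ' hs hα hr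
    have hr' : rotc θ (x s' - x s) = (-α) • (x u - x i) := by
      have e1 : rotc θ (-x s - -x s') = rotc θ (x s' - x s) := by congr 1; abel
      have e2 : α • (-x u - -x i) = (-α) • (x u - x i) := by
        rw [neg_smul, ← smul_neg]; congr 1; abel
      rw [← e1, ← e2]; exact hr
    exact htame θ s' s (-α) hθ' hs.symm (neg_ne_zero.mpr hα) hr'

end Pool.Agent.FAN
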