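import Pool.Agent.FAN.ABS
import Pool.Agent.FAN.RANK
import Pool.Agent.FAN.LIP
import Pool.Agent.FAN.EQV

set_option autoImplicit false

namespace Pool.Agent.FAN

open MeasureTheory Topology Filter

variable {k : ℕ}

namespace TRANSaux

theorem zero_ne_one_lb (k : ℕ) : (0 : Lb k) ≠ 1 := Fin.zero_ne_one

theorem norm_gv_le (k s : ℕ) (x : Fan k) : ‖gv k s x‖ ≤ (nu k s Set.univ).toReal := by
  have := nu_finite k s
  have h0 : 0 ≤ (nu k s Set.univ).toReal := ENNReal.toReal_nonneg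
  rw [pi_norm_le_iff_of_nonneg h0]
  intro i
  rw [pi_norm_le_iff_of_nonneg h0]
  intro j
  rw [Real.norm_eq_abs, gv]
  by_cases hij : i = j
  · rw [if_pos hij, abs_zero]
    exact h0
  · rw [if_neg hij]
    have h1 : ∀ A : Set (Sp k), ((nu k s) A).toReal ≤ (nu k s Set.univ).toReal := fun A =>
      ENNReal.toReal_mono (measure_ne_top _ _) (measure_mono (Set.subset_univ A))
    have h2 : ∀ A : Set (Sp k), 0 ≤ ((nu k s) A).toReal := fun A => ENNReal.toReal_nonneg
    rw [abs_le]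
    constructor
    · linarith [h1 (cell x 0 1), h2 (cell x i j)]
    · linarith [h1 (cell x i j), h2 (cell x 0 1)]

theorem span_smul_range {W : Type} [AddCommGroup W] [Module ℝ W] (c : ℕ → ℝ) (hc : ∀ s, c s ≠ 0)
    (g : ℕ → W) : Submodule.span ℝ (Set.range fun s => c s • g s) =
      Submodule.span ℝ (Set.range g) := by
  apply le_antisymm
  · rw [Submodule.span_le]
    rintro _ ⟨s, rfl⟩
    exact Submodule.smul_mem _ _ (Submodule.subset_span ⟨s, rfl⟩)
  · rw [Submodule.span_le]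
    rintro _ ⟨s, rfl⟩
    have h1 : g s = (c s)⁻¹ • (c s • g s) := by rw [smul_smul, inv_mul_cancel₀ (hc s), one_smul]
    rw [SetLike.mem_coe, h1]
    exact Submodule.smul_mem _ _ (Submodule.subset_span ⟨s, rfl⟩)

theorem summable_geo : Summable fun s : ℕ => (1 / 2 : ℝ) ^ s :=
  summable_geometric_of_lt_one (by norm_num) (by norm_num)

end TRANSaux

open TRANSaux

theorem exists_bad (k : ℕ) (S : Set (Param k)) (hS : S.Countable)
    (hcl : ∀ x : Fan k, Nondeg x → ∃ τ ∈ S, ∃ y : Fin τ.1 → ℝ, Eqv x (τ.2.1 y) ∧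
      τ.1 + Module.finrank ℝ (K x) + 1 ≤ (k + 5) * (k + 4) - 1) :
    ∃ μ : Measure (Sp k), IsFiniteMeasure μ ∧ μ ≪ volume ∧ ∀ x : Fan k, Nondeg x →
      ¬ ∃ c : ENNReal, ∀ i j : Lb k, i ≠ j → μ (cell x i j) = c := by
  obtain ⟨Λ, hΛ0, hΛ1, hΛ⟩ := gv_lip k
  have hfin := nu_finite k
  let c : ℕ → ℝ := fun s => (1 / 2 : ℝ) ^ s / Λ s
  have hc0 : ∀ s, 0 < c s := fun s => div_pos (by positivity) (hΛ0 s)
  have hcΛ : ∀ s, c s * Λ s = (1 / 2 : ℝ) ^ s := fun s => div_mul_cancel₀ _ (hΛ0 s).ne'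
  have hgv : ∀ s x, ‖c s • gv k s x‖ ≤ (1 / 2 : ℝ) ^ s := by
    intro s x
    rw [norm_smul, Real.norm_of_nonneg (hc0 s).le, ← hcΛ]
    exact mul_le_mul_of_nonneg_left ((norm_gv_le k s x).trans (hΛ1 s)) (hc0 s).le
  -- transversality for each family
  have hres : ∀ τ ∈ S, {t : ℕ → Set.Icc (0 : ℝ) 1 |
      ∀ y ∈ {y : Fin τ.1 → ℝ | Nondeg (τ.2.1 y) ∧
        τ.1 < Module.finrank ℝ (Submodule.span ℝ (Set.range fun s => gv k s (τ.2.1 y)))},
      ∑' s, ((t s : ℝ)) • (c s • gv k s (τ.2.1 y)) ≠ 0} ∈ residual (ℕ → Set.Icc (0 : ℝ) 1) := by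
    intro τ _
    refine abs_transv (fun s y => c s • gv k s (τ.2.1 y)) _ ?_ ?_
    · rintro y ⟨hy, -⟩
      obtain ⟨r, hr, C, hC, hlip⟩ := hΛ _ hy
      obtain ⟨L, T, hT, hL⟩ := (τ.2.2.contDiffAt (x := y)).exists_lipschitzOnWith
      have hcont : ContinuousAt τ.2.1 y := τ.2.2.continuous.continuousAt
      have h1 := hcont.preimage_mem_nhds (Metric.closedBall_mem_nhds _ hr)
      obtain ⟨ρ, hρ, hsub⟩ := Metric.nhds_basis_closedBall.mem_iff.1 (Filter.inter_mem hT h1)
      refine ⟨ρ, hρ, fun s => (1 / 2 : ℝ) ^ s * (1 + C * L), summable_geo.mul_right _, fun s => ?_⟩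
      have hCL : 0 ≤ C * L := mul_nonneg hC L.2
      refine ⟨fun y' _ => ?_, fun y' hy' y'' hy'' => ?_⟩
      · refine (hgv s _).trans ?_
        have : 0 ≤ (1 / 2 : ℝ) ^ s := by positivity
        nlinarith
      · rw [← smul_sub, norm_smul, Real.norm_of_nonneg (hc0 s).le]
        have h2 := hlip _ (hsub hy').2 _ (hsub hy'').2 s
        have h3 : ‖τ.2.1 y' - τ.2.1 y''‖ ≤ L * ‖y' - y''‖ := by
          have := hL.dist_le_mul y' (hsub hy').1 y'' (hsub hy'').1
          rwa [dist_eq_norm, dist_eq_norm] at this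
        have h4 : 0 ≤ ‖y' - y''‖ := norm_nonneg _
        have h5 : 0 ≤ (1 / 2 : ℝ) ^ s := by positivity
        have h6 : 0 ≤ c s * (C * Λ s) := mul_nonneg (hc0 s).le (mul_nonneg hC (hΛ0 s).le)
        calc c s * ‖gv k s (τ.2.1 y') - gv k s (τ.2.1 y'')‖
            ≤ c s * (C * Λ s * ‖τ.2.1 y' - τ.2.1 y''‖) := mul_le_mul_of_nonneg_left h2 (hc0 s).le
          _ = c s * (C * Λ s) * ‖τ.2.1 y' - τ.2.1 y''‖ := by ring
          _ ≤ c s * (C * Λ s) * (L * ‖y' - y''‖) := mul_le_mul_of_nonneg_left h3 h6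
          _ = (c s * Λ s) * (C * L) * ‖y' - y''‖ := by ring
          _ = (1 / 2 : ℝ) ^ s * (C * L) * ‖y' - y''‖ := by rw [hcΛ]
          _ ≤ (1 / 2 : ℝ) ^ s * (1 + C * L) * ‖y' - y''‖ := by
              refine mul_le_mul_of_nonneg_right (mul_le_mul_of_nonneg_left (by linarith) h5) h4
    · rintro y ⟨-, hy⟩
      rw [Module.finrank_fin_fun, span_smul_range c (fun s => (hc0 s).ne')]
      exact hy
  have hall := (countable_bInter_mem hS).2 hres
  obtain ⟨t, ht⟩ := (dense_of_mem_residual hall).nonempty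
  -- the measure
  let μ : Measure (Sp k) := Measure.sum fun s => ENNReal.ofReal (c s * t s) • nu k s
  have hct : ∀ s, 0 ≤ c s * t s := fun s => mul_nonneg (hc0 s).le (t s).2.1
  have hμ : ∀ A : Set (Sp k), MeasurableSet A →
      μ A = ∑' s, ENNReal.ofReal (c s * t s * ((nu k s) A).toReal) := by
    intro A hA
    rw [Measure.sum_apply _ hA]
    refine tsum_congr fun s => ?_
    rw [Measure.smul_apply, smul_eq_mul, ENNReal.ofReal_mul (hct s),
      ENNReal.ofReal_toReal (measure_ne_top _ _)]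
  have hbd : ∀ (s : ℕ) (A : Set (Sp k)), c s * t s * ((nu k s) A).toReal ≤ (1 / 2 : ℝ) ^ s := by
    intro s A
    have h1 : ((nu k s) A).toReal ≤ Λ s :=
      (ENNReal.toReal_mono (measure_ne_top _ _) (measure_mono (Set.subset_univ A))).trans (hΛ1 s)
    have h2 : c s * t s ≤ c s := by
      have := (t s).2.2
      have := hc0 s
      nlinarith
    calc c s * t s * ((nu k s) A).toReal ≤ c s * Λ s :=
          mul_le_mul h2 h1 ENNReal.toReal_nonneg (hc0 s).le
      _ = _ := hcΛ s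
  have hsum : ∀ A : Set (Sp k), Summable fun s => c s * t s * ((nu k s) A).toReal := fun A =>
    Summable.of_nonneg_of_le (fun s => mul_nonneg (hct s) ENNReal.toReal_nonneg)
      (fun s => hbd s A) summable_geo
  have hμr : ∀ A : Set (Sp k), MeasurableSet A →
      (μ A).toReal = ∑' s, c s * t s * ((nu k s) A).toReal := by
    intro A hA
    rw [hμ A hA, ENNReal.tsum_toReal_eq (fun s => ENNReal.ofReal_ne_top)]
    exact tsum_congr fun s => ENNReal.toReal_ofReal (mul_nonneg (hct s) ENNReal.toReal_nonneg)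
  refine ⟨μ, ⟨?_⟩, ?_, ?_⟩
  · rw [hμ _ MeasurableSet.univ, ← ENNReal.ofReal_tsum_of_nonneg
      (fun s => mul_nonneg (hct s) ENNReal.toReal_nonneg) (hsum _)]
    exact ENNReal.ofReal_lt_top
  · exact Measure.absolutelyContinuous_sum_left fun s => (nu_ac k s).smul_left _
  · rintro x hx ⟨c0, hc0'⟩
    obtain ⟨τ, hτ, y, hxy, hdim⟩ := hcl x hx
    have hrk := rank_gv x
    have h1 : y ∈ {y : Fin τ.1 → ℝ | Nondeg (τ.2.1 y) ∧
        τ.1 < Module.finrank ℝ (Submodule.span ℝ (Set.range fun s => gv k s (τ.2.1 y)))} := by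
      refine ⟨hxy.nondeg hx, ?_⟩
      show τ.1 < Module.finrank ℝ (Submodule.span ℝ (Set.range fun s => gv k s (τ.2.1 y)))
      have e : (fun s => gv k s (τ.2.1 y)) = fun s => gv k s x := funext fun s => hxy.gv s
      rw [e]
      omega
    have h2 := Set.mem_iInter₂.1 ht τ hτ y h1
    apply h2
    simp only [hxy.gv]
    have hsm : Summable fun s => ((t s : ℝ)) • (c s • gv k s x) := by
      refine Summable.of_norm_bounded summable_geo fun s => ?_
      rw [norm_smul]
      have h3 : ‖((t s : ℝ))‖ ≤ 1 := by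
        rw [Real.norm_of_nonneg (t s).2.1]; exact (t s).2.2
      calc _ ≤ 1 * (1 / 2 : ℝ) ^ s := mul_le_mul h3 (hgv s x) (norm_nonneg _) zero_le_one
        _ = _ := one_mul _
    funext i j
    have hsm1 := Pi.summable.1 hsm i
    rw [tsum_apply hsm, tsum_apply hsm1]
    simp only [Pi.smul_apply, smul_eq_mul, Pi.zero_apply]
    by_cases hij : i = j
    · subst hij
      have : ∀ s, gv k s x i i = 0 := fun s => by simp [gv]
      simp [this]
    · have h3 : ∀ s, (t s : ℝ) * (c s * gv k s x i j) =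
          c s * t s * ((nu k s) (cell x i j)).toReal - c s * t s * ((nu k s) (cell x 0 1)).toReal := by
        intro s
        rw [gv, if_neg hij]
        ring
      simp only [h3]
      rw [Summable.tsum_sub (hsum _) (hsum _), ← hμr _ (measurableSet_cell x i j),
        ← hμr _ (measurableSet_cell x 0 1), hc0' i j hij, hc0' 0 1 (zero_ne_one_lb k), sub_self]

end Pool.Agent.FAN
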