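import Pool.Agent.FAN.ZA

set_option autoImplicit false

namespace Pool.Agent.FAN

open MeasureTheory Topology Filter

variable {k : ℕ}

theorem exists_U1 {x : Fan k} (hx : Nondeg x) : ∃ U : Finset (Lb k), U.card ≤ 16 ∧
    ∀ ρ ∈ Zs x, (Finset.univ.filter fun s => ρ s ≠ 0).card ≤ 4 → ∀ s, ρ s ≠ 0 → s ∈ U := by
  classical
  let T : Set (Lb k → ℝ) := {ρ | ρ ∈ Zs x ∧ (Finset.univ.filter fun s => ρ s ≠ 0).card ≤ 4}
  obtain ⟨b, hbT, hspan, hli⟩ := exists_linearIndependent ℝ T
  have hbfin : b.Finite := hli.setFinite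
  have : Fintype b := hbfin.fintype
  have hsub : Submodule.span ℝ b ≤ Zs x := by
    rw [Submodule.span_le]
    exact fun ρ hρ => (hbT hρ).1
  have hcard : hbfin.toFinset.card ≤ 4 := by
    have h1 : Module.finrank ℝ (Submodule.span ℝ b) = hbfin.toFinset.card := by
      have h2 := finrank_span_eq_card (R := ℝ) hli
      rw [Subtype.range_coe] at h2
      rw [h2, ← Set.toFinset_card]
      congr 1
      ext y
      simp
    rw [← h1, ← finrank_Zs hx]
    exact Submodule.finrank_mono hsub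
  refine ⟨hbfin.toFinset.biUnion fun ρ => Finset.univ.filter fun s => ρ s ≠ 0, ?_, ?_⟩
  · refine (Finset.card_biUnion_le_card_mul _ _ 4 fun ρ hρ => ?_).trans (by omega)
    exact (hbT ((Set.Finite.mem_toFinset hbfin).1 hρ)).2
  · intro ρ hρ hsupp s hs
    by_contra hcon
    have hz : ∀ σ ∈ b, σ s = 0 := by
      intro σ hσ
      by_contra h
      exact hcon (Finset.mem_biUnion.2 ⟨σ, (Set.Finite.mem_toFinset hbfin).2 hσ,
        Finset.mem_filter.2 ⟨Finset.mem_univ _, h⟩⟩)
    have hle : Submodule.span ℝ b ≤ LinearMap.ker (LinearMap.proj s : (Lb k → ℝ) →ₗ[ℝ] ℝ) := by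
      rw [Submodule.span_le]
      intro σ hσ
      exact hz σ hσ
    have hmem : ρ ∈ Submodule.span ℝ b := by
      rw [hspan]
      exact Submodule.subset_span ⟨hρ, hsupp⟩
    exact hs (hle hmem)

end Pool.Agent.FAN
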